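import Pool.Agent.H.MP_f5ceca_al.BR.Sev

/-!
Ideals of slot polynomials.

`Ann z I A h` is the ideal of all slot polynomials which map every word `a_0 ⋯ a_{q-1}`, `a_i ∈ A i`,
into `I`. The hypothesis `h : Closed z A` says that for every gap the letters next to it on one side
can be multiplied by `z`. Calculations are done in the commutative ring `MvPolynomial _ K ⧸ Ann _`.
-/

namespace Pool.Agent.H.MP_f5ceca_al.BR

open MvPolynomial Function

variable {K : Type*} [Field K] {B : Type*} [Ring B] [Algebra K B]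

/-- Every gap is next to a family of letters which is closed under multiplication by `z` at this
gap. -/
def Closed (z : B) {q : ℕ} (A : Fin q → Set B) : Prop :=
  ∀ j : Fin (q + 1), (∃ i : Fin q, j = i.castSucc ∧ ∀ x ∈ A i, z * x ∈ A i) ∨
    (∃ i : Fin q, j = i.succ ∧ ∀ x ∈ A i, x * z ∈ A i)

/-- The ideal of all slot polynomials which map the words with letters in `A` into `I`. -/
def Ann (z : B) {q : ℕ} (I : Submodule K B) (A : Fin q → Set B) (h : Closed z A) :
    Ideal (MvPolynomial (Fin (q + 1)) K) where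
  carrier := {P | ∀ a : Fin q → B, (∀ i, a i ∈ A i) → sev z a P ∈ I}
  zero_mem' := fun a _ => by rw [map_zero]; exact I.zero_mem
  add_mem' := fun {P Q} hP hQ a ha => by rw [map_add]; exact I.add_mem (hP a ha) (hQ a ha)
  smul_mem' := fun Q P hP => by
    have key : ∀ Q : MvPolynomial (Fin (q + 1)) K, ∀ P : MvPolynomial (Fin (q + 1)) K,
        (∀ a : Fin q → B, (∀ i, a i ∈ A i) → sev z a P ∈ I) →
        ∀ a : Fin q → B, (∀ i, a i ∈ A i) → sev z a (Q * P) ∈ I := by
      intro Q
      induction Q using MvPolynomial.induction_on with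
      | C r =>
        intro P hP a ha
        rw [← MvPolynomial.smul_eq_C_mul, map_smul]
        exact I.smul_mem _ (hP a ha)
      | add Q₁ Q₂ h₁ h₂ =>
        intro P hP a ha
        rw [add_mul, map_add]
        exact I.add_mem (h₁ P hP a ha) (h₂ P hP a ha)
      | mul_X Q j hQ =>
        intro P hP a ha
        rw [mul_assoc]
        refine hQ (X j * P) (fun b hb => ?_) a ha
        rcases h j with ⟨i, rfl, hi⟩ | ⟨i, rfl, hi⟩
        · rw [sev_castSucc]
          refine hP _ fun k => ?_
          by_cases hk : k = i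
          · subst hk; rw [update_self]; exact hi _ (hb _)
          · rw [update_of_ne hk]; exact hb _
        · rw [sev_succ]
          refine hP _ fun k => ?_
          by_cases hk : k = i
          · subst hk; rw [update_self]; exact hi _ (hb _)
          · rw [update_of_ne hk]; exact hb _
    exact key Q P hP

theorem mem_Ann {z : B} {q : ℕ} {I : Submodule K B} {A : Fin q → Set B} {h : Closed z A}
    {P : MvPolynomial (Fin (q + 1)) K} :
    P ∈ Ann z I A h ↔ ∀ a : Fin q → B, (∀ i, a i ∈ A i) → sev z a P ∈ I := Iff.rfl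

theorem mk_eq_zero {z : B} {q : ℕ} {I : Submodule K B} {A : Fin q → Set B} {h : Closed z A}
    {P : MvPolynomial (Fin (q + 1)) K} :
    Ideal.Quotient.mk (Ann z I A h) P = 0 ↔
      ∀ a : Fin q → B, (∀ i, a i ∈ A i) → sev z a P ∈ I := by
  rw [Ideal.Quotient.eq_zero_iff_mem]
  exact Iff.rfl

/-- If all families of letters are closed under multiplication by `z` on both sides then the tuple
of families is closed. -/
theorem closed_of {z : B} {q : ℕ} {A : Fin (q + 1) → Set B} (hl : ∀ i, ∀ x ∈ A i, z * x ∈ A i)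
    (hr : ∀ i, ∀ x ∈ A i, x * z ∈ A i) : Closed z A := by
  intro j
  refine Fin.lastCases ?_ (fun i => ?_) j
  · exact Or.inr ⟨Fin.last q, (Fin.succ_last q).symm, hr _⟩
  · exact Or.inl ⟨i, rfl, hl _⟩

/-- The value of a product of powers of the variables. -/
theorem sev_prod (z : B) {q : ℕ} (a : Fin q → B) (e : Fin (q + 1) → ℕ) :
    sev (K := K) z a (∏ i, X i ^ e i) = swd z a e := by
  have h : (∏ i, X i ^ e i : MvPolynomial (Fin (q + 1)) K) =
      monomial (Finsupp.equivFunOnFinite.symm e) 1 := by
    rw [MvPolynomial.monomial_eq, map_one, one_mul, Finsupp.prod_fintype]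
    · rfl
    · intro i; rw [pow_zero]
  rw [h, sev_monomial, one_smul]
  rfl

theorem sev_one_letter (z a : B) (i j : ℕ) :
    sev (K := K) z ![a] (X 0 ^ i * X 1 ^ j) = z ^ i * a * z ^ j := by
  have h := sev_prod (K := K) z ![a] ![i, j]
  simp only [Fin.prod_univ_succ, Fin.prod_univ_zero, mul_one] at h
  simpa [swd, mul_assoc] using h

theorem sev_two_letters (z a b : B) (i j k : ℕ) :
    sev (K := K) z ![a, b] (X 0 ^ i * X 1 ^ j * X 2 ^ k) = z ^ i * a * z ^ j * b * z ^ k := by
  have h := sev_prod (K := K) z ![a, b] ![i, j, k]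
  simp only [Fin.prod_univ_succ, Fin.prod_univ_zero, mul_one] at h
  simpa [swd, mul_assoc] using h

theorem sev_three_letters (z a b c : B) (i j k l : ℕ) :
    sev (K := K) z ![a, b, c] (X 0 ^ i * X 1 ^ j * X 2 ^ k * X 3 ^ l) =
      z ^ i * a * z ^ j * b * z ^ k * c * z ^ l := by
  have h := sev_prod (K := K) z ![a, b, c] ![i, j, k, l]
  simp only [Fin.prod_univ_succ, Fin.prod_univ_zero, mul_one] at h
  simpa [swd, mul_assoc] using h

theorem sev_four_letters (z a b c d : B) (i j k l m : ℕ) :
    sev (K := K) z ![a, b, c, d] (X 0 ^ i * X 1 ^ j * X 2 ^ k * X 3 ^ l * X 4 ^ m) =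
      z ^ i * a * z ^ j * b * z ^ k * c * z ^ l * d * z ^ m := by
  have h := sev_prod (K := K) z ![a, b, c, d] ![i, j, k, l, m]
  simp only [Fin.prod_univ_succ, Fin.prod_univ_zero, mul_one] at h
  simpa [swd, mul_assoc] using h

end Pool.Agent.H.MP_f5ceca_al.BR
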