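import Pool.Agent.H.MP_f5ceca_al.BR.Full
import Pool.Agent.H.MP_f5ceca_al.S.Defs

/-!
The result of block BR in the form used by the deep part.
-/

namespace Pool.Agent.H.MP_f5ceca_al.BR

open MvPolynomial Function
open Pool.Agent.H.MP_f5ceca_al.N

universe u v

variable {K : Type u} [Field K]

theorem Jd_eq [Infinite K] (n : ℕ) : S.Jd K n = J2 K (Fin n) := by
  refine le_antisymm (fun g hg => ?_) (fun g hg => ?_)
  · have hg' : S.rho2 K n g = 0 := hg
    intro v
    let e : S.A2 K n →ₐ[K] K := aeval fun q : Fin n × Fin 2 × Fin 2 => v q.1 q.2.1 q.2.2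
    have h : (e.mapMatrix : Matrix (Fin 2) (Fin 2) (S.A2 K n) →ₐ[K] _).comp (S.rho2 K n) =
        FreeAlgebra.lift K v := by
      refine FreeAlgebra.hom_ext (funext fun i => ?_)
      simp only [Function.comp_apply, AlgHom.comp_apply, S.rho2, FreeAlgebra.lift_ι_apply]
      ext a b
      simp [S.gm, e]
    rw [← h, AlgHom.comp_apply, hg', map_zero]
  · show S.rho2 K n g = 0
    exact J2_comm hg (S.gm K)

theorem polE_eq (M : ℕ) : S.polE K M = polE K M := rfl

theorem e2_idn {T : Set (FreeAlgebra K ℕ)} {M : ℕ} (E : EBlock T M) {n : ℕ} (z x a b : FA K n)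
    (hz : z ∈ Aug K n) (hx : x ∈ Aug K n) (ha : a ∈ Aug K n) (hb : b ∈ Aug K n) (M' : ℕ)
    (hM : M ≤ M') : sev z ![a, x, b] (polE K M') ∈ idn T n := by
  obtain ⟨B, _, _, π, hπ, hk⟩ := exists_quotient (idn T n) (fun a _ h => idn_left T n a h)
    (fun a _ h => idn_right T n a h)
  rw [← hk, map_sev]
  have h1 : (fun i => π ((![a, x, b] : Fin 3 → FA K n) i)) = ![π a, π x, π b] := by
    funext i
    fin_cases i <;> rfl
  rw [h1]
  have hA : IsIdl (Aug K n) := ⟨fun a _ h => Aug_left a h, fun a _ h => Aug_right a h⟩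
  have hmem : ∀ y ∈ Aug K n, π y ∈ (Aug K n).map π.toLinearMap := fun y hy => ⟨y, hy, rfl⟩
  exact E.e2 _ (idl_map π hπ hA) (holds_quot π _ hk le_rfl) M' hM _ (hmem z hz) _ (hmem x hx) _
    (hmem a ha) _ (hmem b hb)

/-- The ideal of identities satisfies the assumptions of the deep part. -/
theorem exists_base [CharZero K] {T : Set (FreeAlgebra K ℕ)} {M : ℕ} (E : EBlock T M) (n : ℕ) :
    ∃ m : ℕ, S.Base m (M + 1) (idn T n) := by
  obtain ⟨m, hm⟩ := br_main E n
  refine ⟨m, ⟨⟨fun a _ h => idn_left T n a h, fun a _ h => idn_right T n a h⟩, Nat.succ_pos _, ?_,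
    fun z hz a ha x hx b hb => ?_⟩⟩
  · rw [Jd_eq]
    exact hm
  · exact e2_idn E z x a b hz hx ha hb (M + 1) (Nat.le_succ M)

end Pool.Agent.H.MP_f5ceca_al.BR
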