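import Pool.Agent.H.MP_f5ceca_al.BR.CoreDefs

/-!
On an ideal of square zero `h ^ 2` acts in the same way from both sides.
-/

namespace Pool.Agent.H.MP_f5ceca_al.BR

open MvPolynomial Function
open Pool.Agent.H.MP_f5ceca_al.N

universe u v


/-- Binomial argument: if `q p^N = 0` and `p q^N = 0` then `(p + q)^{2N} p q = 0`. -/
theorem Core1_binom {R : Type*} [CommRing R] (p q : R) (N : ℕ) (h1 : q * p ^ N = 0)
    (h2 : p * q ^ N = 0) : (p + q) ^ (2 * N) * (p * q) = 0 := by
  rw [add_pow, Finset.sum_mul]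
  refine Finset.sum_eq_zero fun i hi => ?_
  have hi' : i ≤ 2 * N := by
    have := Finset.mem_range.1 hi
    omega
  by_cases h : N ≤ i
  · obtain ⟨j, rfl⟩ := Nat.exists_eq_add_of_le h
    have : p ^ (N + j) * q ^ (2 * N - (N + j)) * (((2 * N).choose (N + j) : ℕ) : R) * (p * q) =
        (q * p ^ N) * (p ^ j * q ^ (2 * N - (N + j)) * (((2 * N).choose (N + j) : ℕ) : R) * p) := by
      rw [pow_add]
      ring
    rw [this, h1, zero_mul]
  · have h3 : N ≤ 2 * N - i := by omega
    obtain ⟨j, hj⟩ := Nat.exists_eq_add_of_le h3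
    have : p ^ i * q ^ (2 * N - i) * (((2 * N).choose i : ℕ) : R) * (p * q) =
        (p * q ^ N) * (p ^ i * q ^ j * (((2 * N).choose i : ℕ) : R) * q) := by
      rw [hj, pow_add]
      ring
    rw [this, h2, zero_mul]

/-- In a commutative algebra over a field of characteristic zero with regular `a`, `b`. -/
theorem Core1_comm {K : Type*} [Field K] [CharZero K] {R : Type*} [CommRing R] [Algebra K R]
    (a b : R) (M : ℕ) (ha : ∀ r : R, a * r = 0 → r = 0) (hb : ∀ r : R, b * r = 0 → r = 0)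
    (h1 : (b - a) * a ^ (4 * M + 1) * b ^ (2 * M) * (a + b) ^ (3 * M) = 0)
    (h2 : (b + a) * (- a) ^ (4 * M + 1) * b ^ (2 * M) * (- a + b) ^ (3 * M) = 0) :
    b ^ 2 - a ^ 2 = 0 := by
  have hap : ∀ (n : ℕ) (r : R), a ^ n * r = 0 → r = 0 := by
    intro n
    induction n with
    | zero => intro r hr; simpa using hr
    | succ n ih => intro r hr; exact ha r (ih _ (by rw [← mul_assoc, ← pow_succ]; exact hr))
  have hbp : ∀ (n : ℕ) (r : R), b ^ n * r = 0 → r = 0 := by
    intro n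
    induction n with
    | zero => intro r hr; simpa using hr
    | succ n ih => intro r hr; exact hb r (ih _ (by rw [← mul_assoc, ← pow_succ]; exact hr))
  have e1 : (b - a) * (a + b) ^ (3 * M) = 0 := by
    refine hap (4 * M + 1) _ (hbp (2 * M) _ ?_)
    rw [← h1]
    ring
  have e2 : (a + b) * (b - a) ^ (3 * M) = 0 := by
    refine hap (4 * M + 1) _ (hbp (2 * M) _ ?_)
    have h3 : (b + a) * (- a) ^ (4 * M + 1) * b ^ (2 * M) * (- a + b) ^ (3 * M) =
        (-1) ^ (4 * M + 1) * (b ^ (2 * M) * (a ^ (4 * M + 1) * ((a + b) * (b - a) ^ (3 * M)))) := by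
      rw [show (- a : R) = (-1) * a by ring, mul_pow, show (-1 * a + b : R) = b - a by ring]
      ring
    rw [h3] at h2
    have h4 : ((-1 : R) ^ (4 * M + 1)) * ((-1 : R) ^ (4 * M + 1)) = 1 := by
      rw [← mul_pow]
      simp
    calc b ^ (2 * M) * (a ^ (4 * M + 1) * ((a + b) * (b - a) ^ (3 * M))) =
        ((-1 : R) ^ (4 * M + 1) * (-1 : R) ^ (4 * M + 1)) *
          (b ^ (2 * M) * (a ^ (4 * M + 1) * ((a + b) * (b - a) ^ (3 * M)))) := by rw [h4, one_mul]
      _ = (-1 : R) ^ (4 * M + 1) * ((-1 : R) ^ (4 * M + 1) *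
          (b ^ (2 * M) * (a ^ (4 * M + 1) * ((a + b) * (b - a) ^ (3 * M))))) := by
          rw [mul_assoc]
      _ = 0 := by rw [h2, mul_zero]
  have e3 := Core1_binom (a + b) (b - a) (3 * M) e1 e2
  have e4 : (a + b) + (b - a) = (2 : K) • b := by
    rw [two_smul]
    ring
  rw [e4, smul_pow, smul_mul_assoc] at e3
  have e5 : b ^ (2 * (3 * M)) * ((a + b) * (b - a)) = 0 := by
    rcases smul_eq_zero.1 e3 with h | h
    · exact absurd h (pow_ne_zero _ two_ne_zero)
    · exact h
  have e6 := hbp _ _ e5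
  rw [← e6]
  ring

section

variable {K : Type u} [Field K] {B : Type v} [Ring B] [Algebra K B]

/-- The outer letters carry no powers. -/
theorem Core1_outer (h k n : B) (P : MvPolynomial (Fin 2) K) :
    sev h ![k, n, k] (rename ![(1 : Fin 4), 2] P) = k * sev h ![n] P * k := by
  have e : (sev (K := K) h ![k, n, k]).comp (rename (R := K) ![(1 : Fin 4), 2]).toLinearMap =
      ((LinearMap.mulRight K k).comp (LinearMap.mulLeft K k)).comp (sev (K := K) h ![n]) := by
    refine ext_two fun i j => ?_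
    rw [LinearMap.comp_apply, LinearMap.comp_apply, sev_one_letter]
    have h1 : (rename (R := K) ![(1 : Fin 4), 2]).toLinearMap (X 0 ^ i * X 1 ^ j) =
        X 0 ^ 0 * X 1 ^ i * X 2 ^ j * X 3 ^ 0 := by
      simp
    rw [h1, sev_three_letters]
    simp [mul_assoc]
  exact LinearMap.congr_fun e P

/-- Moving powers of `h` through `k`. -/
theorem Core1_anti (h k n : B) (hn : ∀ i : ℕ, h ^ i * (k * n) = (-1 : K) ^ i • (k * (h ^ i * n)))
    (P : MvPolynomial (Fin 2) K) :
    sev h ![k * n] P = k * sev h ![n] (aeval (R := K)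
      ![(- X 0 : MvPolynomial (Fin 2) K), X 1] P) := by
  have e : sev (K := K) h ![k * n] = ((LinearMap.mulLeft K k).comp (sev (K := K) h ![n])).comp
      (aeval (R := K) ![(- X 0 : MvPolynomial (Fin 2) K), X 1]).toLinearMap := by
    refine ext_two fun i j => ?_
    rw [LinearMap.comp_apply, LinearMap.comp_apply, sev_one_letter]
    have h1 : (aeval (R := K) ![(- X 0 : MvPolynomial (Fin 2) K), X 1]).toLinearMap
        (X 0 ^ i * X 1 ^ j) = (-1 : K) ^ i • (X 0 ^ i * X 1 ^ j) := by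
      simp only [AlgHom.toLinearMap_apply, map_mul, map_pow, aeval_X]
      simp only [Matrix.cons_val_zero, Matrix.cons_val_one]
      rw [show (- X 0 : MvPolynomial (Fin 2) K) = (-1 : K) • X 0 by simp, smul_pow, smul_mul_assoc]
    rw [h1, map_smul, map_smul, sev_one_letter, hn, LinearMap.mulLeft_apply, smul_mul_assoc]
    simp only [mul_assoc]
  exact LinearMap.congr_fun e P

/-- Value with one letter in an ideal. -/
theorem Core1_mem (D : Submodule K B) (hD : IsIdl D) (h n : B) (hn : n ∈ D)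
    (P : MvPolynomial (Fin 2) K) : sev h ![n] P ∈ D := by
  have e : D.mkQ.comp (sev (K := K) h ![n]) = 0 := by
    refine ext_two fun i j => ?_
    rw [LinearMap.comp_apply, sev_one_letter, LinearMap.zero_apply, Submodule.mkQ_apply,
      Submodule.Quotient.mk_eq_zero]
    exact hD.right _ _ (hD.left _ _ hn)
  have e1 := LinearMap.congr_fun e P
  rwa [LinearMap.comp_apply, LinearMap.zero_apply, Submodule.mkQ_apply,
    Submodule.Quotient.mk_eq_zero] at e1

end

/-- On `D` the elements `h ^ 2` act from the left and from the right in the same way.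

PROOF. Let `n ∈ D`. `A0 := {x | x ∈ P ∧ an h x ∈ D}` is closed under left and right multiplication by `h`
(`an h (h x) = h * an h x`, `an h (x h) = an h x * h`) and contains `k`. Let `A = ![A0, D, A0]` and work in the
commutative ring `Q = MvPolynomial (Fin 4) K ⧸ Ann h ⊥ A _` (`closed_of`), `z_i = mk (X i)`. `z_0 = - z_1`: the
value of `X 0 + X 1` on `(a, n, b)` is `h a n b + a h n b = an h a * n * b = 0` as `D * D = 0` (`sev_three_letters`);
`z_3 = - z_2` similarly; `mk (polE K M) = 0` by `E.e2 P hP hS M le_rfl h`. Substituting,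
`0 = (z_2 - z_1) z_1 (4 z_1^4 (z_1+z_2)^2 * 2 z_2^2 (z_1+z_2))^M`, so (char 0, `8^M` is invertible in `K`)
`(z_2 - z_1) z_1^{4M+1} z_2^{2M} (z_1+z_2)^{3M} = 0`. With the letters `(k, n, k)`:
`k * y * k = 0`, where `y = sev h ![n] Q2`, `Q2 = (X 1 - X 0) X 0^{4M+1} X 1^{2M} (X 0 + X 1)^{3M}` (use
`sev h ![k, n, k] (rename ![1, 2] P) = k * sev h ![n] P * k`, by `ext_two` and `sev_three_letters`, `sev_one_letter`).
`y ∈ D` (all `sev h ![n] P ∈ D`), so `y * k ∈ D` and `y = 0` by the regularity of `k` on `D`. So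
`Q2 ∈ Ann h ⊥ ![D] _ =: I2` (an ideal of `MvPolynomial (Fin 2) K`).
For `n ∈ D` also `k n ∈ D` and `h (k n) = - k (h n)` (as `an h k * n ∈ D * D`), so
`sev h ![k * n] P = k * sev h ![n] (aeval ![- X 0, X 1] P)` and by regularity of `k` also
`aeval ![- X 0, X 1] Q2 ∈ I2`. Modulo `I2` the classes `y_0, y_1` of `X 0, X 1` are not zero divisors (regularity of
`h` on `D`: `sev_left`, `sev_right`). So `q p^{3M} = 0` and `p q^{3M} = 0` for `p = y_0 + y_1`, `q = y_1 - y_0`.
Then `(p + q)^{6M} p q = 0` (binomial theorem: every term is divisible by `p^{3M} q` or by `q^{3M} p`;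
e.g. in the quotient by the annihilator of ... or `add_pow`, `Finset.sum_eq_zero`), `p + q = 2 y_1`, so
`p q = 0`, i.e. `y_1 ^ 2 = y_0 ^ 2`. Apply to `n`: `n h^2 = h^2 n`. -/
theorem core1 {K : Type u} [Field K] [CharZero K] {S : Set (FreeAlgebra K ℕ)} {M : ℕ} {B : Type u}
    [Ring B] [Algebra K B] (E : EBlock S M) (P D : Submodule K B) (hP : IsIdl P) (hS : Holds S P)
    (hD : IsIdl D) (hDP : D ≤ P) (hDD : ∀ x ∈ D, ∀ y ∈ D, x * y = 0) (h k : B) (hh : h ∈ P)
    (hk : k ∈ P) (anti : an h k ∈ D) (h1 : ∀ n ∈ D, h * n = 0 → n = 0)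
    (h2 : ∀ n ∈ D, n * h = 0 → n = 0) (h3 : ∀ n ∈ D, k * n = 0 → n = 0)
    (h4 : ∀ n ∈ D, n * k = 0 → n = 0) : ∀ n ∈ D, h ^ 2 * n = n * h ^ 2 := by
  classical
  -- the set of letters for the outer slots
  let A0 : Set B := {x | x ∈ P ∧ an h x ∈ D}
  have hA0l : ∀ x ∈ A0, h * x ∈ A0 := by
    rintro x ⟨hx, hx'⟩
    refine ⟨hP.right _ _ hh, ?_⟩
    have : an h (h * x) = h * an h x := by
      simp only [an]
      noncomm_ring
    rw [this]
    exact hD.left _ _ hx'
  have hA0r : ∀ x ∈ A0, x * h ∈ A0 := by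
    rintro x ⟨hx, hx'⟩
    refine ⟨hP.left _ _ hh, ?_⟩
    have : an h (x * h) = an h x * h := by
      simp only [an]
      noncomm_ring
    rw [this]
    exact hD.right _ _ hx'
  let A : Fin 3 → Set B := ![A0, (D : Set B), A0]
  have hA : Closed h A := by
    refine closed_of (fun i => ?_) (fun i => ?_)
    · fin_cases i
      · exact hA0l
      · exact fun x hx => hD.left _ _ hx
      · exact hA0l
    · fin_cases i
      · exact hA0r
      · exact fun x hx => hD.right _ _ hx
      · exact hA0r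
  have hvec : ∀ a : Fin 3 → B, a = ![a 0, a 1, a 2] := by
    intro a
    funext i
    fin_cases i <;> rfl
  -- the relations in the quotient
  let mk := Ideal.Quotient.mk (Ann h (⊥ : Submodule K B) A hA)
  have r1 : mk (X 0 + X 1) = 0 := by
    refine mk_eq_zero.2 fun a ha => ?_
    have h0 : a 0 ∈ A0 := ha 0
    have h1' : a 1 ∈ D := ha 1
    rw [hvec a, map_add]
    have e0 := sev_three_letters (K := K) h (a 0) (a 1) (a 2) 1 0 0 0
    have e1 := sev_three_letters (K := K) h (a 0) (a 1) (a 2) 0 1 0 0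
    simp only [pow_zero, pow_one, mul_one, one_mul] at e0 e1
    rw [e0, e1, Submodule.mem_bot]
    have : h * a 0 * a 1 * a 2 + a 0 * h * a 1 * a 2 = (an h (a 0) * a 1) * a 2 := by
      simp only [an]
      noncomm_ring
    rw [this, hDD _ h0.2 _ h1', zero_mul]
  have r2 : mk (X 3 + X 2) = 0 := by
    refine mk_eq_zero.2 fun a ha => ?_
    have h0 : a 2 ∈ A0 := ha 2
    have h1' : a 1 ∈ D := ha 1
    rw [hvec a, map_add]
    have e0 := sev_three_letters (K := K) h (a 0) (a 1) (a 2) 0 0 0 1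
    have e1 := sev_three_letters (K := K) h (a 0) (a 1) (a 2) 0 0 1 0
    simp only [pow_zero, pow_one, mul_one, one_mul] at e0 e1
    rw [e0, e1, Submodule.mem_bot]
    have : a 0 * a 1 * a 2 * h + a 0 * a 1 * h * a 2 = a 0 * (a 1 * an h (a 2)) := by
      simp only [an]
      noncomm_ring
    rw [this, hDD _ h1' _ h0.2, mul_zero]
  have r3 : mk (polE K M) = 0 := by
    refine mk_eq_zero.2 fun a ha => ?_
    have h0 : a 0 ∈ A0 := ha 0
    have h1' : a 1 ∈ D := ha 1
    have h2' : a 2 ∈ A0 := ha 2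
    rw [hvec a, Submodule.mem_bot]
    exact E.e2 P hP hS M le_rfl h hh (a 1) (hDP h1') (a 0) h0.1 (a 2) h2'.1
  have r4 : mk ((X 2 - X 1) * X 1 ^ (4 * M + 1) * X 2 ^ (2 * M) * (X 1 + X 2) ^ (3 * M)) = 0 := by
    have z0 : mk (X 0) = - mk (X 1) := by
      rw [map_add] at r1
      exact eq_neg_of_add_eq_zero_left r1
    have z3 : mk (X 3) = - mk (X 2) := by
      rw [map_add] at r2
      exact eq_neg_of_add_eq_zero_left r2
    have h8 : mk (C ((8 : K) ^ M)) = 8 ^ M := by
      rw [map_pow, map_pow, map_ofNat, map_ofNat]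
    have e : mk (polE K M) = mk (C ((8 : K) ^ M)) *
        mk ((X 2 - X 1) * X 1 ^ (4 * M + 1) * X 2 ^ (2 * M) * (X 1 + X 2) ^ (3 * M)) := by
      rw [h8]
      simp only [polE, uu, map_mul, map_sub, map_pow, map_add, z0, z3]
      have : ((mk (X 1) * (mk (X 1) - -mk (X 1)) * (mk (X 1) - -mk (X 2))) ^ 2 *
          (mk (X 2) * (mk (X 2) - -mk (X 1)) * (mk (X 2) - -mk (X 2)))) =
          8 * (mk (X 1) ^ 4 * mk (X 2) ^ 2 * (mk (X 1) + mk (X 2)) ^ 3) := by
        ring
      rw [this, mul_pow, mul_pow, mul_pow, ← pow_mul, ← pow_mul, ← pow_mul]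
      ring
    have e9 : mk (C (((8 : K) ^ M)⁻¹)) * mk (C ((8 : K) ^ M)) = 1 := by
      rw [← map_mul, ← map_mul, inv_mul_cancel₀ (pow_ne_zero _ (by norm_num)), map_one, map_one]
    calc mk ((X 2 - X 1) * X 1 ^ (4 * M + 1) * X 2 ^ (2 * M) * (X 1 + X 2) ^ (3 * M)) =
        (mk (C (((8 : K) ^ M)⁻¹)) * mk (C ((8 : K) ^ M))) *
        mk ((X 2 - X 1) * X 1 ^ (4 * M + 1) * X 2 ^ (2 * M) * (X 1 + X 2) ^ (3 * M)) := by
          rw [e9, one_mul]
      _ = 0 := by rw [mul_assoc, ← e, r3, mul_zero]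
  -- the polynomial in two variables
  let Q2 : MvPolynomial (Fin 2) K :=
    (X 1 - X 0) * X 0 ^ (4 * M + 1) * X 1 ^ (2 * M) * (X 0 + X 1) ^ (3 * M)
  have hkA : k ∈ A0 := ⟨hk, anti⟩
  have q1 : ∀ n ∈ D, sev h ![n] Q2 = 0 := by
    intro n hn
    have e1 := mk_eq_zero.1 r4 ![k, n, k] (by
      intro i
      fin_cases i
      · exact hkA
      · exact hn
      · exact hkA)
    have e2 : ((X 2 - X 1) * X 1 ^ (4 * M + 1) * X 2 ^ (2 * M) * (X 1 + X 2) ^ (3 * M) :
        MvPolynomial (Fin 4) K) = rename ![(1 : Fin 4), 2] Q2 := by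
      simp [Q2]
    rw [e2, Core1_outer, Submodule.mem_bot] at e1
    have hy : sev h ![n] Q2 ∈ D := Core1_mem D hD h n hn Q2
    exact h3 _ hy (h4 _ (hD.left _ _ hy) e1)
  let A2 : Fin 1 → Set B := ![(D : Set B)]
  have hA2 : Closed h A2 := by
    refine closed_of (fun i => ?_) (fun i => ?_)
    · fin_cases i
      exact fun x hx => hD.left _ _ hx
    · fin_cases i
      exact fun x hx => hD.right _ _ hx
  have hvec2 : ∀ a : Fin 1 → B, a = ![a 0] := by
    intro a
    funext i
    fin_cases i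
    rfl
  let mk2 := Ideal.Quotient.mk (Ann h (⊥ : Submodule K B) A2 hA2)
  have s1 : mk2 Q2 = 0 := by
    refine mk_eq_zero.2 fun a ha => ?_
    have h0 : a 0 ∈ D := ha 0
    rw [hvec2 a, Submodule.mem_bot]
    exact q1 _ h0
  have s2 : mk2 (aeval (R := K) ![(- X 0 : MvPolynomial (Fin 2) K), X 1] Q2) = 0 := by
    refine mk_eq_zero.2 fun a ha => ?_
    have h0 : a 0 ∈ D := ha 0
    rw [hvec2 a, Submodule.mem_bot]
    have hn : ∀ i : ℕ, h ^ i * (k * a 0) = (-1 : K) ^ i • (k * (h ^ i * a 0)) := by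
      intro i
      induction i with
      | zero => simp
      | succ i ih =>
        have hsw : h * (k * (h ^ i * a 0)) = - (k * (h * (h ^ i * a 0))) := by
          have h5 : an h k * (h ^ i * a 0) = 0 := hDD _ anti _ (hD.left _ _ h0)
          have h6 : an h k * (h ^ i * a 0) =
              h * (k * (h ^ i * a 0)) + k * (h * (h ^ i * a 0)) := by
            simp only [an]
            noncomm_ring
          rw [h6] at h5
          exact eq_neg_of_add_eq_zero_left h5
        rw [pow_succ' h, mul_assoc, ih, mul_smul_comm, hsw, smul_neg, pow_succ, mul_neg_one,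
          neg_smul, mul_assoc]
    have e3 := Core1_anti h k (a 0) hn Q2
    rw [q1 _ (hD.left _ _ h0)] at e3
    exact h3 _ (Core1_mem D hD h _ h0 _) e3.symm
  have reg0 : ∀ r : MvPolynomial (Fin 2) K ⧸ Ann h (⊥ : Submodule K B) A2 hA2,
      mk2 (X 0) * r = 0 → r = 0 := by
    intro r hr
    obtain ⟨R, rfl⟩ := Ideal.Quotient.mk_surjective r
    have hr' : mk2 (X 0 * R) = 0 := by
      rw [map_mul]
      exact hr
    refine mk_eq_zero.2 fun a ha => ?_
    have h0 : a 0 ∈ D := ha 0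
    have h5 := mk_eq_zero.1 hr' a ha
    rw [sev_left, Submodule.mem_bot] at h5
    rw [Submodule.mem_bot]
    refine h1 _ ?_ h5
    rw [hvec2 a]
    exact Core1_mem D hD h _ h0 _
  have reg1 : ∀ r : MvPolynomial (Fin 2) K ⧸ Ann h (⊥ : Submodule K B) A2 hA2,
      mk2 (X 1) * r = 0 → r = 0 := by
    intro r hr
    obtain ⟨R, rfl⟩ := Ideal.Quotient.mk_surjective r
    have hr' : mk2 (X 1 * R) = 0 := by
      rw [map_mul]
      exact hr
    refine mk_eq_zero.2 fun a ha => ?_
    have h0 : a 0 ∈ D := ha 0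
    have h5 := mk_eq_zero.1 hr' a ha
    have h6 := sev_right (K := K) h a R
    rw [show (Fin.last 1 : Fin 2) = 1 from rfl] at h6
    rw [h6, Submodule.mem_bot] at h5
    rw [Submodule.mem_bot]
    refine h2 _ ?_ h5
    rw [hvec2 a]
    exact Core1_mem D hD h _ h0 _
  have fin : mk2 (X 1) ^ 2 - mk2 (X 0) ^ 2 = 0 := by
    refine Core1_comm (K := K) (mk2 (X 0)) (mk2 (X 1)) M reg0 reg1 ?_ ?_
    · rw [← s1]
      simp only [Q2, map_mul, map_sub, map_pow, map_add]
    · rw [← s2]
      simp [Q2, map_mul, map_sub, map_pow, map_add]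
  intro n hn
  have fin2 : mk2 (X 1 ^ 2 - X 0 ^ 2) = 0 := by
    rw [map_sub, map_pow, map_pow]
    exact fin
  have h7 := mk_eq_zero.1 fin2 ![n] (by
    intro i
    fin_cases i
    exact hn)
  rw [Submodule.mem_bot, map_sub] at h7
  have e0 := sev_one_letter (K := K) h n 2 0
  have e1 := sev_one_letter (K := K) h n 0 2
  simp only [pow_zero, mul_one, one_mul] at e0 e1
  rw [e0, e1] at h7
  exact (sub_eq_zero.1 h7).symm

end Pool.Agent.H.MP_f5ceca_al.BR
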