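import Pool.Agent.H.MP_f5ceca_al.BR.Core1

/-!
Core theorem: regularity of `h`, `k`, and `h ^ 2`, `k ^ 2` commute with the elements of `D`.
-/

namespace Pool.Agent.H.MP_f5ceca_al.BR

open MvPolynomial Function
open Pool.Agent.H.MP_f5ceca_al.N

universe u v

namespace Core

variable {K : Type u} [Field K] {S : Set (FreeAlgebra K ℕ)} {M : ℕ} {B : Type u} [Ring B]
  [Algebra K B] {P D : Submodule K B} {z w : B}

/-- PROOF. `an h k = h (h z - z h) + (h z - z h) h = br (h ^ 2) z`. -/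
theorem anti (H : Core S M P D z w) : an (ch z w) (ck z w) ∈ D := by
  have h1 : an (ch z w) (ck z w) = br (ch z w ^ 2) z := by
    simp only [an, ck, br]
    noncomm_ring
  rw [h1]
  exact H.hh z

/-- PROOF. `P` is an ideal. -/
theorem ch_mem (H : Core S M P D z w) : ch z w ∈ P := by
  have h1 : ch z w = z * w - w * z := rfl
  rw [h1]
  exact P.sub_mem (H.hP.left _ _ H.hw) (H.hP.left _ _ H.hz)

/-- PROOF. `P` is an ideal. -/
theorem ck_mem (H : Core S M P D z w) : ck z w ∈ P := by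
  have h1 : ck z w = ch z w * z - z * ch z w := rfl
  rw [h1]
  exact P.sub_mem (H.hP.left _ _ H.hz) (H.hP.left _ _ (ch_mem H))

/-- On `D`: PROOF. `n ∈ D`, `h n = 0`: `c n = h^2 k^2 n = k^2 h^2 n + br (h^2) (k^2) * n = 0` as
`D * D = 0`; so `n = 0` by `creg`. `n h = 0`: `n c = n h^2 k^2 = 0`. `k n = 0`: `c n = 0`. `n k = 0`:
`n c = n k^2 h^2 + n * br (h^2) (k^2) = 0`. -/
theorem regD (H : Core S M P D z w) (n : B) (hn : n ∈ D) :
    (ch z w * n = 0 → n = 0) ∧ (n * ch z w = 0 → n = 0) ∧ (ck z w * n = 0 → n = 0) ∧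
      (n * ck z w = 0 → n = 0) := by
  have hbr : br (ch z w ^ 2) (ck z w ^ 2) ∈ D := H.hh _
  have e1 : cc z w * n = br (ch z w ^ 2) (ck z w ^ 2) * n +
      ck z w ^ 2 * (ch z w * (ch z w * n)) := by
    simp only [cc, br]
    noncomm_ring
  have e2 : n * cc z w = n * ch z w * (ch z w * ck z w ^ 2) := by
    simp only [cc]
    noncomm_ring
  have e3 : cc z w * n = ch z w ^ 2 * ck z w * (ck z w * n) := by
    simp only [cc]
    noncomm_ring
  have e4 : n * cc z w = n * ck z w * (ck z w * ch z w ^ 2) +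
      n * br (ch z w ^ 2) (ck z w ^ 2) := by
    simp only [cc, br]
    noncomm_ring
  refine ⟨fun h => H.creg n ?_, fun h => H.creg' n ?_, fun h => H.creg n ?_,
    fun h => H.creg' n ?_⟩
  · rw [e1, h, H.hDD _ hbr _ hn, mul_zero, mul_zero, add_zero]
  · rw [e2, h, zero_mul]
  · rw [e3, h, mul_zero]
  · rw [e4, h, H.hDD _ hn _ hbr, zero_mul, add_zero]

/-- PROOF. `core1` with `regD`. -/
theorem h2 [CharZero K] (H : Core S M P D z w) (n : B) (hn : n ∈ D) :
    ch z w ^ 2 * n = n * ch z w ^ 2 := by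
  exact core1 H.E P D H.hP H.hS H.hD H.hDP H.hDD (ch z w) (ck z w) (ch_mem H) (ck_mem H) (anti H)
    (fun m hm => (regD H m hm).1) (fun m hm => (regD H m hm).2.1)
    (fun m hm => (regD H m hm).2.2.1) (fun m hm => (regD H m hm).2.2.2) n hn

/-- PROOF. `core1` with `h` and `k` exchanged (`an` is symmetric). -/
theorem k2 [CharZero K] (H : Core S M P D z w) (n : B) (hn : n ∈ D) :
    ck z w ^ 2 * n = n * ck z w ^ 2 := by
  have h1 : an (ck z w) (ch z w) ∈ D := by
    have h2 : an (ck z w) (ch z w) = an (ch z w) (ck z w) := by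
      simp only [an]
      rw [add_comm]
    rw [h2]
    exact anti H
  exact core1 H.E P D H.hP H.hS H.hD H.hDP H.hDD (ck z w) (ch z w) (ck_mem H) (ch_mem H) h1
    (fun m hm => (regD H m hm).2.2.1) (fun m hm => (regD H m hm).2.2.2)
    (fun m hm => (regD H m hm).1) (fun m hm => (regD H m hm).2.1) n hn

/-- Regularity on all of `B`.
PROOF. `k x = 0` or `x h = 0`: immediate from `creg`, `creg'`. Let `h x = 0`, `n0 = br (h^2) (k^2) ∈ D`.
`c x = h^2 k^2 x = n0 x + k^2 h^2 x = n0 x`. By `h2`, `k2`: `c n0 = n0 c`. So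
`c (c x) = c n0 x = n0 (c x) = n0 n0 x = 0`, hence `c x = 0`, `x = 0`. `x k = 0`: `x c = x n0 + x k^2 h^2 = x n0`,
`(x c) c = x n0 c = x c n0 = x n0 n0 = 0`. -/
theorem reg [CharZero K] (H : Core S M P D z w) (x : B) :
    (ch z w * x = 0 → x = 0) ∧ (x * ch z w = 0 → x = 0) ∧ (ck z w * x = 0 → x = 0) ∧
      (x * ck z w = 0 → x = 0) := by
  have hbr : br (ch z w ^ 2) (ck z w ^ 2) ∈ D := H.hh _
  set n0 := br (ch z w ^ 2) (ck z w ^ 2) with hn0
  have hcn : cc z w * n0 = n0 * cc z w := by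
    have e1 : cc z w * n0 = ch z w ^ 2 * (ck z w ^ 2 * n0) := by
      simp only [cc, mul_assoc]
    rw [e1, k2 H n0 hbr, ← mul_assoc, h2 H n0 hbr, mul_assoc]
    rfl
  have hnn : n0 * n0 = 0 := H.hDD _ hbr _ hbr
  refine ⟨fun h => ?_, fun h => H.creg' x ?_, fun h => H.creg x ?_, fun h => ?_⟩
  · have e1 : cc z w * x = n0 * x := by
      have e2 : cc z w * x = n0 * x + ck z w ^ 2 * (ch z w * (ch z w * x)) := by
        rw [hn0]
        simp only [cc, br]
        noncomm_ring
      rw [e2, h, mul_zero, mul_zero, add_zero]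
    refine H.creg x (H.creg _ ?_)
    rw [e1, ← mul_assoc, hcn, mul_assoc, e1, ← mul_assoc, hnn, zero_mul]
  · have e2 : x * cc z w = x * ch z w * (ch z w * ck z w ^ 2) := by
      simp only [cc]
      noncomm_ring
    rw [e2, h, zero_mul]
  · have e3 : cc z w * x = ch z w ^ 2 * ck z w * (ck z w * x) := by
      simp only [cc]
      noncomm_ring
    rw [e3, h, mul_zero]
  · have e1 : x * cc z w = x * n0 := by
      have e2 : x * cc z w = x * ck z w * (ck z w * ch z w ^ 2) + x * n0 := by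
        rw [hn0]
        simp only [cc, br]
        noncomm_ring
      rw [e2, h, zero_mul, zero_add]
    refine H.creg' x (H.creg' _ ?_)
    rw [e1, mul_assoc, ← hcn, ← mul_assoc, e1, mul_assoc, hnn, mul_zero]

end Core

end Pool.Agent.H.MP_f5ceca_al.BR
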