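import Pool.Agent.H.MP_f5ceca_al.BR.CoreA
import Pool.Agent.H.MP_f5ceca_al.N.Quot

/-!
Core theorem: the element `a = [h, [h, k]]`.
-/

namespace Pool.Agent.H.MP_f5ceca_al.BR

open MvPolynomial Function
open Pool.Agent.H.MP_f5ceca_al.N

universe u v

namespace Core

variable {K : Type u} [Field K] [CharZero K] {S : Set (FreeAlgebra K ℕ)} {M : ℕ} {B : Type u}
  [Ring B] [Algebra K B] {P D : Submodule K B} {z w : B}

omit [CharZero K] in
/-- PROOF. `P` is an ideal. -/
theorem ca_mem (H : Core S M P D z w) : ca z w ∈ P := by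
  have h1 := H.ch_mem
  have h2 := H.ck_mem
  have h3 : br (ch z w) (ck z w) ∈ P :=
    P.sub_mem (H.hP.left _ _ h2) (H.hP.right _ _ h2)
  exact P.sub_mem (H.hP.left _ _ h3) (H.hP.right _ _ h3)

/-- `(L_{h^2} - R_{h^2})^2 = 0` on `B`. PROOF. `br (h^2) x ∈ D` and `h2`. -/
theorem brbr (H : Core S M P D z w) (x : B) :
    br (ch z w ^ 2) (br (ch z w ^ 2) x) = 0 := by
  have h1 := H.h2 (br (ch z w ^ 2) x) (H.hh x)
  show ch z w ^ 2 * br (ch z w ^ 2) x - br (ch z w ^ 2) x * ch z w ^ 2 = 0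
  rw [h1, sub_self]

/-- `(L_h + R_h)^2 a = 0`. PROOF. `L_h`, `R_h` commute, so `an h (an h (br h (br h k))) =
br (h^2) (br (h^2) k) = 0` (`noncomm_ring`). -/
theorem an_an (H : Core S M P D z w) : an (ch z w) (an (ch z w) (ca z w)) = 0 := by
  rw [← H.brbr (ck z w)]
  unfold an ca br
  generalize ch z w = h
  generalize ck z w = k
  noncomm_ring

/-- `e = h ^ 4 * k ^ 2` -/
def CoreB_e (z w : B) : B := ch z w ^ 2 * ch z w ^ 2 * ck z w ^ 2

/-- `a ^ 2 = 16 e + d`, `d ∈ D` -/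
theorem CoreB_sq (H : Core S M P D z w) :
    ∃ d ∈ D, ca z w * ca z w = (16 : K) • CoreB_e z w + d := by
  obtain ⟨A, iA, iA', π, -, hπ⟩ := exists_quotient D H.hD.left H.hD.right
  refine ⟨ca z w * ca z w - (16 : K) • CoreB_e z w, ?_, by abel⟩
  rw [← hπ]
  have h1 : π (an (ch z w) (ck z w)) = 0 := (hπ _).2 H.anti
  unfold an at h1
  rw [map_add, map_mul, map_mul] at h1
  have h2 : π (ck z w) * π (ch z w) = -(π (ch z w) * π (ck z w)) := eq_neg_of_add_eq_zero_right h1
  unfold ca CoreB_e br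
  simp only [map_sub, map_mul, map_pow, map_smul]
  generalize π (ch z w) = h at h2 ⊢
  generalize π (ck z w) = k at h2 ⊢
  have h3 : h * (h * k - k * h) - (h * k - k * h) * h = (4 : K) • (h * h * k) := by
    have e1 : h * (k * h) = -(h * h * k) := by rw [h2, mul_neg, mul_assoc]
    have e2 : h * k * h = -(h * h * k) := by rw [mul_assoc, e1]
    have e3 : k * h * h = h * h * k := by rw [h2, neg_mul, e2, neg_neg]
    rw [h2, sub_neg_eq_add, mul_add, add_mul, ← mul_assoc, e2]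
    have e4 : (4 : K) • (h * h * k) = h * h * k + h * h * k + h * h * k + h * h * k := by
      rw [show (4 : K) = 1 + 1 + 1 + 1 by norm_num, add_smul, add_smul, add_smul, one_smul]
    rw [e4]
    abel
  rw [h3, smul_mul_smul_comm, show (4 : K) * 4 = 16 by norm_num, ← smul_sub]
  have h4 : h * h * k * (h * h * k) = h ^ 2 * h ^ 2 * k ^ 2 := by
    have e3 : k * h * h = h * h * k := by
      rw [h2, neg_mul, mul_assoc, h2, mul_neg, neg_neg, mul_assoc]
    calc h * h * k * (h * h * k) = h * h * (k * h * h) * k := by noncomm_ring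
      _ = h ^ 2 * h ^ 2 * k ^ 2 := by rw [e3]; noncomm_ring
  rw [h4, sub_self, smul_zero]

theorem CoreB_comm (H : Core S M P D z w) (d : B) (hd : d ∈ D) :
    CoreB_e z w * d = d * CoreB_e z w := by
  have h1 := H.h2 d hd
  have h2 := H.k2 d hd
  unfold CoreB_e
  rw [mul_assoc, h2, ← mul_assoc, mul_assoc (ch z w ^ 2) (ch z w ^ 2) d, h1,
    ← mul_assoc (ch z w ^ 2) d, h1]
  simp only [mul_assoc]

theorem CoreB_ereg (H : Core S M P D z w) (x : B) (hx : CoreB_e z w * x = 0) : x = 0 := by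
  unfold CoreB_e at hx
  simp only [pow_two, mul_assoc] at hx
  exact (H.reg _).2.2.1 ((H.reg _).2.2.1 ((H.reg _).1 ((H.reg _).1 ((H.reg _).1
    ((H.reg _).1 hx)))))

theorem CoreB_ereg' (H : Core S M P D z w) (x : B) (hx : x * CoreB_e z w = 0) : x = 0 := by
  unfold CoreB_e at hx
  simp only [pow_two, ← mul_assoc] at hx
  exact (H.reg _).2.1 ((H.reg _).2.1 ((H.reg _).2.1 ((H.reg _).2.1 ((H.reg _).2.2.2
    ((H.reg _).2.2.2 hx)))))

/-- `a` is left regular.
PROOF. Modulo `D` (a two-sided ideal) `h k = - k h` and `h^2`, `k^2` commute with everything, so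
`a = h^2 k - 2 h k h + k h^2 ≡ 4 h^2 k` and `a^2 ≡ 16 e`, `e = h^4 k^2`; write `a^2 = 16 e + d`, `d ∈ D`
(explicitly: show `a * a - 16 * (h^4 * k^2) ∈ D`; work with a congruence modulo `D`, e.g. in a quotient
ring by `N.exists_quotient`). Let `a x = 0`. Then `16 e x = - d x`. By `h2`, `k2`: `e d = d e`. Hence
`16 * 16 * e e x = - 16 e d x = - d (16 e x) = d d x = 0`, so `e (e x) = 0`, and `e` is left regular by
`reg` (`e = h * h * h * h * k * k`). So `x = 0`. -/
theorem a_reg (H : Core S M P D z w) (x : B) (hx : ca z w * x = 0) : x = 0 := by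
  obtain ⟨d, hd, e1⟩ := H.CoreB_sq
  have hed := H.CoreB_comm d hd
  have h1 : (16 : K) • (CoreB_e z w * x) = -(d * x) := by
    have h2 : ca z w * (ca z w * x) = 0 := by rw [hx, mul_zero]
    rw [← mul_assoc, e1, add_mul, smul_mul_assoc] at h2
    exact eq_neg_of_add_eq_zero_left h2
  have h3 : (16 : K) • ((16 : K) • (CoreB_e z w * (CoreB_e z w * x))) = 0 := by
    rw [← mul_smul_comm (16 : K) (CoreB_e z w) (CoreB_e z w * x), h1, mul_neg, ← mul_assoc, hed, mul_assoc,
      ← mul_neg, ← mul_smul_comm, smul_neg, h1, neg_neg, ← mul_assoc, H.hDD d hd d hd, zero_mul]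
  have h16 : (16 : K) ≠ 0 := by norm_num
  have h4 := (smul_eq_zero.1 ((smul_eq_zero.1 h3).resolve_left h16)).resolve_left h16
  exact H.CoreB_ereg x (H.CoreB_ereg _ h4)

/-- `a` is right regular. PROOF. The same, `x a^2 = 0`, `16 x e = - x d`, `16 * 16 * x e e = - 16 x d e = - 16 x e d
= x d d = 0`. -/
theorem a_reg' (H : Core S M P D z w) (x : B) (hx : x * ca z w = 0) : x = 0 := by
  obtain ⟨d, hd, e1⟩ := H.CoreB_sq
  have hed := H.CoreB_comm d hd
  have h1 : (16 : K) • (x * CoreB_e z w) = -(x * d) := by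
    have h2 : (x * ca z w) * ca z w = 0 := by rw [hx, zero_mul]
    rw [mul_assoc, e1, mul_add, mul_smul_comm] at h2
    exact eq_neg_of_add_eq_zero_left h2
  have h3 : (16 : K) • ((16 : K) • (x * CoreB_e z w * CoreB_e z w)) = 0 := by
    rw [← smul_mul_assoc (16 : K) (x * CoreB_e z w) (CoreB_e z w), h1, neg_mul, mul_assoc, ← hed, ← mul_assoc,
      ← neg_mul, ← smul_mul_assoc, smul_neg, h1, neg_neg, mul_assoc, H.hDD d hd d hd, mul_zero]
  have h16 : (16 : K) ≠ 0 := by norm_num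
  have h4 := (smul_eq_zero.1 ((smul_eq_zero.1 h3).resolve_left h16)).resolve_left h16
  exact H.CoreB_ereg' x (H.CoreB_ereg' _ h4)

end Core

end Pool.Agent.H.MP_f5ceca_al.BR
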