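import Pool.Agent.H.MP_f5ceca_al.BR.Defs

/-!
Calculations in commutative rings.
-/

namespace Pool.Agent.H.MP_f5ceca_al.BR

open MvPolynomial Function
open Pool.Agent.H.MP_f5ceca_al.N

universe u v

/-- If `(s + ν)^m y = 0` and `ν` is nilpotent then `s^N y = 0` for some `N`.
PROOF. In the quotient ring `R ⧸ J`, `J = {r | r y = 0}`, the classes of `s + ν` and of `ν` are nilpotent, hence
so is their difference (`Commute.isNilpotent_sub`). (Or the binomial theorem.) -/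
theorem nil_cancel {R : Type*} [CommRing R] (s ν y : R) (m : ℕ) (h : (s + ν) ^ m * y = 0)
    (hν : IsNilpotent ν) : ∃ N, s ^ N * y = 0 := by
  obtain ⟨k, hk⟩ := hν
  let I : Ideal R := LinearMap.ker (LinearMap.toSpanSingleton R R y)
  have mem : ∀ r : R, r ∈ I ↔ r * y = 0 := by
    intro r
    change r ∈ LinearMap.ker (LinearMap.toSpanSingleton R R y) ↔ _
    rw [LinearMap.mem_ker, LinearMap.toSpanSingleton_apply, smul_eq_mul]
  have h1 : (s + ν) ^ m ∈ I := (mem _).2 h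
  have h2 : (-ν) ^ k ∈ I := by
    rw [mem, neg_pow, hk, mul_zero, zero_mul]
  have h3 : ((s + ν) + (-ν)) ^ (m + k) ∈ I :=
    Ideal.add_pow_mem_of_pow_mem_of_le I h1 h2 (Nat.le_succ _)
  rw [add_neg_cancel_right] at h3
  exact ⟨m + k, (mem _).1 h3⟩

/-- The calculation for `comm_of_ad2`.
PROOF. `z0 = - z1 + α`, `z2 = z1 + β`, `z3 = - z2 + γ` with `α^2 = β^2 = γ^2 = 0`. Then
`uu z1 z0 z3 = z1 (2 z1 - α) (2 z1 + β - γ) = 4 z1^3 + ν'` and `uu z2 z0 z3 = z2 (z2 + z1 - α) (2 z2 - γ) =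
4 z1^3 + ν''` with `ν', ν''` nilpotent (combinations of `α, β, γ`), so
`z1 * (uu .. ^2 * uu ..)^M = z1 * (64 z1^9 + ν)^M`; apply `nil_cancel` with `y = (z2 - z1) * z1`,
`s = 64 z1^9`, and then cancel `64^N` (`K`-algebra of characteristic zero). -/
theorem ring_ad2 {K : Type*} [Field K] [CharZero K] {R : Type*} [CommRing R] [Algebra K R]
    (z0 z1 z2 z3 : R) (h0 : (z0 + z1) ^ 2 = 0) (h1 : (z2 - z1) ^ 2 = 0) (h2 : (z2 + z3) ^ 2 = 0)
    (M : ℕ) (h : (z2 - z1) * z1 * (uu z1 z0 z3 ^ 2 * uu z2 z0 z3) ^ M = 0) :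
    ∃ N, z1 ^ N * (z2 - z1) = 0 := by
  have hnil : IsNilpotent (uu z1 z0 z3 ^ 2 * uu z2 z0 z3 - 64 * z1 ^ 9) := by
    rw [← mem_nilradical, ← Ideal.Quotient.eq_zero_iff_mem]
    set q := Ideal.Quotient.mk (nilradical R) with hq
    have e0 : q (z0 + z1) = 0 :=
      Ideal.Quotient.eq_zero_iff_mem.2 (mem_nilradical.2 ⟨2, h0⟩)
    have e1 : q (z2 - z1) = 0 :=
      Ideal.Quotient.eq_zero_iff_mem.2 (mem_nilradical.2 ⟨2, h1⟩)
    have e2 : q (z2 + z3) = 0 :=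
      Ideal.Quotient.eq_zero_iff_mem.2 (mem_nilradical.2 ⟨2, h2⟩)
    rw [map_add] at e0 e2
    rw [map_sub] at e1
    have f0 : q z0 = - q z1 := eq_neg_of_add_eq_zero_left e0
    have f1 : q z2 = q z1 := sub_eq_zero.1 e1
    have f2 : q z3 = - q z1 := by
      rw [← f1]; exact eq_neg_of_add_eq_zero_right e2
    simp only [uu, map_sub, map_mul, map_pow, f0, f1, f2]
    have h64 : q (64 : R) = 64 := map_ofNat q 64
    rw [h64]
    ring
  have hs : (64 * z1 ^ 9 + (uu z1 z0 z3 ^ 2 * uu z2 z0 z3 - 64 * z1 ^ 9)) ^ M *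
      ((z2 - z1) * z1) = 0 := by
    rw [add_sub_cancel, mul_comm]
    exact h
  obtain ⟨N, hN⟩ := nil_cancel _ _ _ M hs hnil
  refine ⟨9 * N + 1, ?_⟩
  have hu : IsUnit ((64 : R) ^ N) := by
    have h64 : (64 : R) = algebraMap K R 64 := (map_ofNat (algebraMap K R) 64).symm
    rw [h64]
    exact ((IsUnit.mk0 (64 : K) (by norm_num)).map (algebraMap K R)).pow N
  refine (hu.mul_right_eq_zero).1 ?_
  rw [← hN]
  ring

end Pool.Agent.H.MP_f5ceca_al.BR
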