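import Pool.Agent.H.MP_f5ceca_al.BR.CoreB
import Pool.Agent.H.MP_f5ceca_al.BR.RingAd

/-!
Core theorem: the elements killed by `(ad h)^2` commute with `h`.
-/

namespace Pool.Agent.H.MP_f5ceca_al.BR

open MvPolynomial Function
open Pool.Agent.H.MP_f5ceca_al.N

universe u v

/-- The values of the first relation. -/
theorem CoreC_sev01 {K : Type*} [Field K] {B : Type*} [Ring B] [Algebra K B] (h a x b : B) :
    sev (K := K) h ![a, x, b] ((X 0 + X 1) ^ 2) = an h (an h a) * x * b := by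
  have e : ((X 0 + X 1) ^ 2 : MvPolynomial (Fin 4) K) =
      X 0 ^ 2 * X 1 ^ 0 * X 2 ^ 0 * X 3 ^ 0 + X 0 ^ 1 * X 1 ^ 1 * X 2 ^ 0 * X 3 ^ 0 +
        X 0 ^ 1 * X 1 ^ 1 * X 2 ^ 0 * X 3 ^ 0 + X 0 ^ 0 * X 1 ^ 2 * X 2 ^ 0 * X 3 ^ 0 := by
    ring
  rw [e, map_add, map_add, map_add, sev_three_letters, sev_three_letters, sev_three_letters]
  simp only [pow_zero, pow_one, one_mul, mul_one, an]
  noncomm_ring

/-- The values of the second relation. -/
theorem CoreC_sev12 {K : Type*} [Field K] {B : Type*} [Ring B] [Algebra K B] (h a x b : B) :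
    sev (K := K) h ![a, x, b] ((X 2 - X 1) ^ 2) = a * br h (br h x) * b := by
  have e : ((X 2 - X 1) ^ 2 : MvPolynomial (Fin 4) K) =
      X 0 ^ 0 * X 1 ^ 0 * X 2 ^ 2 * X 3 ^ 0 - X 0 ^ 0 * X 1 ^ 1 * X 2 ^ 1 * X 3 ^ 0 -
        X 0 ^ 0 * X 1 ^ 1 * X 2 ^ 1 * X 3 ^ 0 + X 0 ^ 0 * X 1 ^ 2 * X 2 ^ 0 * X 3 ^ 0 := by
    ring
  rw [e, map_add, map_sub, map_sub, sev_three_letters, sev_three_letters, sev_three_letters]
  simp only [pow_zero, pow_one, one_mul, mul_one, br]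
  noncomm_ring

/-- The values of the third relation. -/
theorem CoreC_sev23 {K : Type*} [Field K] {B : Type*} [Ring B] [Algebra K B] (h a x b : B) :
    sev (K := K) h ![a, x, b] ((X 2 + X 3) ^ 2) = a * x * an h (an h b) := by
  have e : ((X 2 + X 3) ^ 2 : MvPolynomial (Fin 4) K) =
      X 0 ^ 0 * X 1 ^ 0 * X 2 ^ 2 * X 3 ^ 0 + X 0 ^ 0 * X 1 ^ 0 * X 2 ^ 1 * X 3 ^ 1 +
        X 0 ^ 0 * X 1 ^ 0 * X 2 ^ 1 * X 3 ^ 1 + X 0 ^ 0 * X 1 ^ 0 * X 2 ^ 0 * X 3 ^ 2 := by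
    ring
  rw [e, map_add, map_add, map_add, sev_three_letters, sev_three_letters, sev_three_letters]
  simp only [pow_zero, pow_one, one_mul, mul_one, an]
  noncomm_ring

/-- The values of the conclusion. -/
theorem CoreC_sevN {K : Type*} [Field K] {B : Type*} [Ring B] [Algebra K B] (h a x b : B)
    (N : ℕ) : sev (K := K) h ![a, x, b] (X 1 ^ N * (X 2 - X 1)) =
      a * (h ^ N * (x * h - h * x)) * b := by
  have e : (X 1 ^ N * (X 2 - X 1) : MvPolynomial (Fin 4) K) =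
      X 0 ^ 0 * X 1 ^ N * X 2 ^ 1 * X 3 ^ 0 - X 0 ^ 0 * X 1 ^ (N + 1) * X 2 ^ 0 * X 3 ^ 0 := by
    ring
  rw [e, map_sub, sev_three_letters, sev_three_letters]
  simp only [pow_zero, one_mul, mul_one, pow_succ]
  simp only [mul_sub, sub_mul, mul_assoc]

/-- A tuple of three letters. -/
theorem CoreC_eta {B : Type*} (a : Fin 3 → B) : a = ![a 0, a 1, a 2] := by
  funext i
  fin_cases i <;> rfl

theorem CoreC_an_left {B : Type*} [Ring B] (h y : B) (hy : an h (an h y) = 0) :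
    an h (an h (h * y)) = 0 := by
  have e : an h (an h (h * y)) = h * an h (an h y) := by
    simp only [an]
    noncomm_ring
  rw [e, hy, mul_zero]

theorem CoreC_an_right {B : Type*} [Ring B] (h y : B) (hy : an h (an h y) = 0) :
    an h (an h (y * h)) = 0 := by
  have e : an h (an h (y * h)) = an h (an h y) * h := by
    simp only [an]
    noncomm_ring
  rw [e, hy, zero_mul]

theorem CoreC_br_left {B : Type*} [Ring B] (h y : B) (hy : br h (br h y) = 0) :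
    br h (br h (h * y)) = 0 := by
  have e : br h (br h (h * y)) = h * br h (br h y) := by
    simp only [br]
    noncomm_ring
  rw [e, hy, mul_zero]

theorem CoreC_br_right {B : Type*} [Ring B] (h y : B) (hy : br h (br h y) = 0) :
    br h (br h (y * h)) = 0 := by
  have e : br h (br h (y * h)) = br h (br h y) * h := by
    simp only [br]
    noncomm_ring
  rw [e, hy, zero_mul]

namespace Core

variable {K : Type u} [Field K] [CharZero K] {S : Set (FreeAlgebra K ℕ)} {M : ℕ} {B : Type u}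
  [Ring B] [Algebra K B] {P D : Submodule K B} {z w : B}

/-- If `(ad h)^2 x = 0` then `[h, x] = 0`.
PROOF. `A1 := {y | y ∈ P ∧ an h (an h y) = 0}` and `A0 := {y | y ∈ P ∧ br h (br h y) = 0}` are closed under left and
right multiplication by `h`. `a = ca z w ∈ A1` by `an_an`, `ca_mem`. Let `A = ![A1, A0, A1]` and work in the commutative
ring `MvPolynomial (Fin 4) K ⧸ Ann h ⊥ A _` (a `K`-algebra), `z_i = mk (X i)`. The hypotheses of `ring_ad2` hold:
`(X 0 + X 1)^2` has value `(an h (an h a')) x b = 0` on `(a', x, b)`, etc. (expand with `sev_three_letters`), and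
`mk (polE K M) = 0` by `E.e2`. So `z_1^N (z_2 - z_1) = 0`; on the letters `(a, x, a)`: `a h^N (x h - h x) a = 0`. By
`a_reg`, `a_reg'`, `reg`: `x h = h x`. -/
theorem comm_of_ad2 (H : Core S M P D z w) (x : B) (hx : x ∈ P)
    (h2 : br (ch z w) (br (ch z w) x) = 0) : ch z w * x = x * ch z w := by
  obtain ⟨h, hh⟩ : ∃ h, h = ch z w := ⟨_, rfl⟩
  rw [← hh] at h2 ⊢
  have hmem : h ∈ P := hh ▸ H.ch_mem
  have hmul : ∀ y ∈ P, h * y ∈ P := fun y hy => H.hP.left _ _ hy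
  have hmul' : ∀ y ∈ P, y * h ∈ P := fun y hy => H.hP.right _ _ hy
  obtain ⟨A1, hA1⟩ : ∃ A : Set B, A = {y | y ∈ P ∧ an h (an h y) = 0} := ⟨_, rfl⟩
  obtain ⟨A0, hA0⟩ : ∃ A : Set B, A = {y | y ∈ P ∧ br h (br h y) = 0} := ⟨_, rfl⟩
  have m1 : ∀ y, y ∈ A1 ↔ y ∈ P ∧ an h (an h y) = 0 := fun y => by rw [hA1]; exact Iff.rfl
  have m0 : ∀ y, y ∈ A0 ↔ y ∈ P ∧ br h (br h y) = 0 := fun y => by rw [hA0]; exact Iff.rfl
  have l1 : ∀ y ∈ A1, h * y ∈ A1 := fun y hy => by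
    rw [m1] at hy ⊢
    exact ⟨hmul _ hy.1, CoreC_an_left _ _ hy.2⟩
  have r1 : ∀ y ∈ A1, y * h ∈ A1 := fun y hy => by
    rw [m1] at hy ⊢
    exact ⟨hmul' _ hy.1, CoreC_an_right _ _ hy.2⟩
  have l0 : ∀ y ∈ A0, h * y ∈ A0 := fun y hy => by
    rw [m0] at hy ⊢
    exact ⟨hmul _ hy.1, CoreC_br_left _ _ hy.2⟩
  have r0 : ∀ y ∈ A0, y * h ∈ A0 := fun y hy => by
    rw [m0] at hy ⊢
    exact ⟨hmul' _ hy.1, CoreC_br_right _ _ hy.2⟩
  have hcl : Closed h (![A1, A0, A1] : Fin 3 → Set B) := by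
    refine closed_of (fun i => ?_) (fun i => ?_)
    · fin_cases i
      · exact l1
      · exact l0
      · exact l1
    · fin_cases i
      · exact r1
      · exact r0
      · exact r1
  have hlet : ∀ a : Fin 3 → B, (∀ i, a i ∈ (![A1, A0, A1] : Fin 3 → Set B) i) →
      a 0 ∈ A1 ∧ a 1 ∈ A0 ∧ a 2 ∈ A1 := fun a ha => ⟨ha 0, ha 1, ha 2⟩
  have e0 : Ideal.Quotient.mk (Ann (K := K) h ⊥ ![A1, A0, A1] hcl) ((X 0 + X 1) ^ 2) = 0 := by
    rw [mk_eq_zero]
    intro a ha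
    obtain ⟨a0, a1, a2⟩ := hlet a ha
    rw [CoreC_eta a, CoreC_sev01, ((m1 _).1 a0).2, zero_mul, zero_mul]
    exact Submodule.zero_mem _
  have e1 : Ideal.Quotient.mk (Ann (K := K) h ⊥ ![A1, A0, A1] hcl) ((X 2 - X 1) ^ 2) = 0 := by
    rw [mk_eq_zero]
    intro a ha
    obtain ⟨a0, a1, a2⟩ := hlet a ha
    rw [CoreC_eta a, CoreC_sev12, ((m0 _).1 a1).2, mul_zero, zero_mul]
    exact Submodule.zero_mem _
  have e2 : Ideal.Quotient.mk (Ann (K := K) h ⊥ ![A1, A0, A1] hcl) ((X 2 + X 3) ^ 2) = 0 := by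
    rw [mk_eq_zero]
    intro a ha
    obtain ⟨a0, a1, a2⟩ := hlet a ha
    rw [CoreC_eta a, CoreC_sev23, ((m1 _).1 a2).2, mul_zero]
    exact Submodule.zero_mem _
  have e3 : Ideal.Quotient.mk (Ann (K := K) h ⊥ ![A1, A0, A1] hcl) (polE K M) = 0 := by
    rw [mk_eq_zero]
    intro a ha
    obtain ⟨a0, a1, a2⟩ := hlet a ha
    rw [CoreC_eta a, H.E.e2 P H.hP H.hS M le_rfl h hmem (a 1) ((m0 _).1 a1).1 (a 0)
      ((m1 _).1 a0).1 (a 2) ((m1 _).1 a2).1]
    exact Submodule.zero_mem _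
  rw [map_pow, map_add] at e0 e2
  rw [map_pow, map_sub] at e1
  unfold polE uu at e3
  simp only [map_mul, map_pow, map_sub] at e3
  obtain ⟨N, hN⟩ := ring_ad2 (K := K) _ _ _ _ e0 e1 e2 M e3
  rw [← map_sub, ← map_pow, ← map_mul, mk_eq_zero] at hN
  have ha : ca z w ∈ A1 := (m1 _).2 ⟨H.ca_mem, by rw [hh]; exact H.an_an⟩
  have hx0 : x ∈ A0 := (m0 _).2 ⟨hx, h2⟩
  have h3 := hN ![ca z w, x, ca z w] (fun i => by
    fin_cases i
    · exact ha
    · exact hx0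
    · exact ha)
  rw [CoreC_sevN, Submodule.mem_bot, mul_assoc] at h3
  have h4 := H.a_reg' _ (H.a_reg _ h3)
  have hreg : ∀ (n : ℕ) (y : B), h ^ n * y = 0 → y = 0 := by
    intro n
    induction n with
    | zero => intro y hy; rwa [pow_zero, one_mul] at hy
    | succ n ih =>
      intro y hy
      rw [pow_succ', mul_assoc] at hy
      exact ih y ((H.reg _).1 (by rw [← hh]; exact hy))
  exact (sub_eq_zero.1 (hreg N _ h4)).symm

end Core

end Pool.Agent.H.MP_f5ceca_al.BR
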