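import Pool.Agent.H.MP_f5ceca_al.BR.CoreC

/-!
Core theorem: the elements commuting with `h` commute with each other.
-/

namespace Pool.Agent.H.MP_f5ceca_al.BR

open MvPolynomial Function
open Pool.Agent.H.MP_f5ceca_al.N

universe u v

section CoreD_aux

variable {K : Type u} [Field K] {B : Type u} [Ring B] [Algebra K B]

/-- the elements of `P` commuting with `h` -/
def CoreD_A0 (P : Submodule K B) (h : B) : Set B := {y | y ∈ P ∧ h * y = y * h}

/-- the elements of `P` killed by the square of the anticommutator with `h` -/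
def CoreD_A1 (P : Submodule K B) (h : B) : Set B := {y | y ∈ P ∧ an h (an h y) = 0}

/-- the commutators of elements commuting with `h` -/
def CoreD_A2 (P : Submodule K B) (h : B) : Set B :=
  {y | ∃ x ∈ CoreD_A0 P h, ∃ w ∈ CoreD_A0 P h, y = x * w - w * x}

theorem CoreD_left0 {P : Submodule K B} (hP : IsIdl P) {h x : B} (hx : x ∈ CoreD_A0 P h) :
    h * x ∈ CoreD_A0 P h := by
  refine ⟨hP.left _ _ hx.1, ?_⟩
  rw [mul_assoc, ← hx.2]

theorem CoreD_right0 {P : Submodule K B} (hP : IsIdl P) {h x : B} (hx : x ∈ CoreD_A0 P h) :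
    x * h ∈ CoreD_A0 P h := by
  rw [← hx.2]
  exact CoreD_left0 hP hx

theorem CoreD_left1 {P : Submodule K B} (hP : IsIdl P) {h x : B} (hx : x ∈ CoreD_A1 P h) :
    h * x ∈ CoreD_A1 P h := by
  refine ⟨hP.left _ _ hx.1, ?_⟩
  have e : an h (an h (h * x)) = h * an h (an h x) := by
    unfold an
    noncomm_ring
  rw [e, hx.2, mul_zero]

theorem CoreD_right1 {P : Submodule K B} (hP : IsIdl P) {h x : B} (hx : x ∈ CoreD_A1 P h) :
    x * h ∈ CoreD_A1 P h := by
  refine ⟨hP.right _ _ hx.1, ?_⟩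
  have e : an h (an h (x * h)) = an h (an h x) * h := by
    unfold an
    noncomm_ring
  rw [e, hx.2, zero_mul]

theorem CoreD_left2 {P : Submodule K B} (hP : IsIdl P) {h x : B} (hx : x ∈ CoreD_A2 P h) :
    h * x ∈ CoreD_A2 P h := by
  obtain ⟨u, hu, w, hw, rfl⟩ := hx
  refine ⟨h * u, CoreD_left0 hP hu, w, hw, ?_⟩
  have e : w * (h * u) = h * (w * u) := by rw [← mul_assoc, ← hw.2, mul_assoc]
  rw [mul_sub, e, mul_assoc]

theorem CoreD_comm2 {P : Submodule K B} {h x : B} (hx : x ∈ CoreD_A2 P h) : h * x = x * h := by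
  obtain ⟨u, hu, w, hw, rfl⟩ := hx
  have e1 : h * (u * w) = u * w * h := by
    rw [← mul_assoc, hu.2, mul_assoc, hw.2, mul_assoc]
  have e2 : h * (w * u) = w * u * h := by
    rw [← mul_assoc, hw.2, mul_assoc, hu.2, mul_assoc]
  rw [mul_sub, sub_mul, e1, e2]

theorem CoreD_right2 {P : Submodule K B} (hP : IsIdl P) {h x : B} (hx : x ∈ CoreD_A2 P h) :
    x * h ∈ CoreD_A2 P h := by
  rw [← CoreD_comm2 hx]
  exact CoreD_left2 hP hx

/-- (1) -/
theorem CoreD_one {S : Set (FreeAlgebra K ℕ)} {M : ℕ} (E : EBlock S M) {P : Submodule K B}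
    (hP : IsIdl P) (hS : Holds S P) {h : B} (hh : h ∈ P) {a b x w : B} (ha : a ∈ CoreD_A1 P h)
    (hb : b ∈ CoreD_A1 P h) (hx : x ∈ CoreD_A0 P h) (hw : w ∈ CoreD_A0 P h) :
    sev (K := K) h ![a, x * w - w * x, b]
      ((uu (X 1) (X 0) (X 3)) ^ (3 * M) : MvPolynomial (Fin 4) K) = 0 := by
  have hc : Closed h ![CoreD_A1 P h, CoreD_A0 P h, CoreD_A0 P h, CoreD_A1 P h] := by
    refine closed_of ?_ ?_
    · intro i x hx
      fin_cases i
      · exact CoreD_left1 hP hx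
      · exact CoreD_left0 hP hx
      · exact CoreD_left0 hP hx
      · exact CoreD_left1 hP hx
    · intro i x hx
      fin_cases i
      · exact CoreD_right1 hP hx
      · exact CoreD_right0 hP hx
      · exact CoreD_right0 hP hx
      · exact CoreD_right1 hP hx
  obtain ⟨I, hI⟩ : ∃ I, I = Ann (K := K) h ⊥
    ![CoreD_A1 P h, CoreD_A0 P h, CoreD_A0 P h, CoreD_A1 P h] hc := ⟨_, rfl⟩
  have e12 : Ideal.Quotient.mk I (X 1) = Ideal.Quotient.mk I (X 2) := by
    rw [Ideal.Quotient.eq, hI, mem_Ann]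
    intro y hy
    have h1 := sev_castSucc (K := K) h y 1 1
    have h2 := sev_succ (K := K) h y 1 1
    rw [mul_one] at h1 h2
    rw [map_sub, show (X 1 : MvPolynomial (Fin 5) K) = X (Fin.castSucc (1 : Fin 4)) from rfl,
      show (X 2 : MvPolynomial (Fin 5) K) = X (Fin.succ (1 : Fin 4)) from rfl, h1, h2]
    have h3 : y 1 ∈ CoreD_A0 P h := hy 1
    rw [h3.2, sub_self]
    exact Submodule.zero_mem _
  have e23 : Ideal.Quotient.mk I (X 2) = Ideal.Quotient.mk I (X 3) := by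
    rw [Ideal.Quotient.eq, hI, mem_Ann]
    intro y hy
    have h1 := sev_castSucc (K := K) h y 2 1
    have h2 := sev_succ (K := K) h y 2 1
    rw [mul_one] at h1 h2
    rw [map_sub, show (X 2 : MvPolynomial (Fin 5) K) = X (Fin.castSucc (2 : Fin 4)) from rfl,
      show (X 3 : MvPolynomial (Fin 5) K) = X (Fin.succ (2 : Fin 4)) from rfl, h1, h2]
    have h3 : y 2 ∈ CoreD_A0 P h := hy 2
    rw [h3.2, sub_self]
    exact Submodule.zero_mem _
  obtain ⟨U2, hU2⟩ : ∃ U : MvPolynomial (Fin 4) K, U = (uu (X 1) (X 0) (X 3)) ^ (3 * M) := ⟨_, rfl⟩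
  have hmk : Ideal.Quotient.mk I (polU K M) =
      Ideal.Quotient.mk I (rename ![(0 : Fin 5), 1, 3, 4] U2) := by
    have hr : rename ![(0 : Fin 5), 1, 3, 4] U2 = (uu (X 1) (X 0) (X 4)) ^ (3 * M) := by
      rw [hU2]
      simp [uu]
    rw [hr]
    unfold polU uu
    simp only [map_mul, map_sub, map_pow]
    rw [← e23, ← e12, ← pow_three', ← pow_mul]
  have key : ∀ u ∈ CoreD_A0 P h, ∀ v ∈ CoreD_A0 P h,
      sev (K := K) h ![a, u, v, b] (polU K M) = sev (K := K) h ![a, u * v, b] U2 := by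
    intro u hu v hv
    have h1 := Ideal.Quotient.eq.1 hmk
    rw [hI, mem_Ann] at h1
    have h2 := h1 ![a, u, v, b] (by
      intro i
      fin_cases i
      · exact ha
      · exact hu
      · exact hv
      · exact hb)
    rw [Submodule.mem_bot, map_sub, sub_eq_zero] at h2
    rw [h2, sev_merge_mid]
  have h1 := E.er P hP hS M le_rfl h hh x hx.1 w hw.1 a ha.1 b hb.1
  rw [key x hx w hw, key w hw x hx] at h1
  rw [← hU2, sev_sub_mid, h1, sub_self]

/-- (2) in a commutative ring -/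
theorem CoreD_nil {R : Type*} [CommRing R] [Algebra K R] [CharZero K] {z0 z1 z3 : R} {m : ℕ}
    (h0 : (z0 + z1) ^ 2 = 0) (h3 : (z1 + z3) ^ 2 = 0) (hu : uu z1 z0 z3 ^ m = 0) :
    IsNilpotent z1 := by
  have n0 : IsNilpotent (z0 + z1) := ⟨2, h0⟩
  have n3 : IsNilpotent (z1 + z3) := ⟨2, h3⟩
  have nu : IsNilpotent (uu z1 z0 z3) := ⟨m, hu⟩
  have e : (4 : K) • z1 ^ 3 = uu z1 z0 z3 + ((z0 + z1) * (2 * z1 ^ 2) + (z1 + z3) * (2 * z1 ^ 2) -
      (z0 + z1) * (z1 * (z1 + z3))) := by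
    rw [Algebra.smul_def, map_ofNat]
    unfold uu
    ring
  have n4 : IsNilpotent ((4 : K) • z1 ^ 3) := by
    rw [e]
    have c1 : IsNilpotent ((z0 + z1) * (2 * z1 ^ 2)) := (Commute.all _ _).isNilpotent_mul_right n0
    have c2 : IsNilpotent ((z1 + z3) * (2 * z1 ^ 2)) := (Commute.all _ _).isNilpotent_mul_right n3
    have c3 : IsNilpotent ((z0 + z1) * (z1 * (z1 + z3))) := (Commute.all _ _).isNilpotent_mul_right n0
    exact (Commute.all _ _).isNilpotent_add nu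
      ((Commute.all _ _).isNilpotent_sub ((Commute.all _ _).isNilpotent_add c1 c2) c3)
  obtain ⟨N, hN⟩ := n4
  rw [smul_pow, smul_eq_zero] at hN
  have h4 : (4 : K) ^ N ≠ 0 := pow_ne_zero _ (by norm_num)
  have h5 := hN.resolve_left h4
  rw [← pow_mul] at h5
  exact ⟨_, h5⟩

end CoreD_aux

namespace Core

variable {K : Type u} [Field K] [CharZero K] {S : Set (FreeAlgebra K ℕ)} {M : ℕ} {B : Type u}
  [Ring B] [Algebra K B] {P D : Submodule K B} {z w : B}

/-- Elements commuting with `h` commute with each other.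
PROOF. Let `A1` be as in `comm_of_ad2` and `A0 := {y | y ∈ P ∧ h y = y h}`.
(1) In `MvPolynomial (Fin 5) K ⧸ Ann h ⊥ ![A1, A0, A0, A1] _`: `z_1 = z_2 = z_3`, so `polU K M ≡ U1`,
`U1 := rename ![0, 1, 3, 4] U2`, `U2 := (uu (X 1) (X 0) (X 3))^(3 M)` (slots of three letters; `z_3 = z_1` as well,
replace all `X 2, X 3` by `X 1`), i.e. `polU K M - U1 ∈ Ann`. So for `x, w ∈ A0` the relation `E.er` gives
`sev h ![a, x, w, a] U1 = sev h ![a, w, x, a] U1`, i.e. by `sev_merge_mid`, `sev_sub_mid`: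
`sev h ![a, x w - w x, a] U2 = 0` for all `a ∈ A1` on both sides (letters `a, b ∈ A1`).
(2) `A2 := {y | ∃ x ∈ A0, ∃ w ∈ A0, y = x * w - w * x}` is closed under left and right multiplication by `h`
(`h (x w - w x) = (h x) w - w (h x)`). In `MvPolynomial (Fin 4) K ⧸ Ann h ⊥ ![A1, A2, A1] _`: `(z_0 + z_1)^2 = 0`,
`z_2 = z_1`, `(z_2 + z_3)^2 = 0`, `(uu z_1 z_0 z_3)^(3 M) = 0`; `uu z_1 z_0 z_3 = 4 z_1^3 + nilpotent`, so
`z_1^N = 0` for some `N` (`nil_cancel` with `y = 1`). On the letters `(a, x w - w x, a)`: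
`a h^N (x w - w x) a = 0`, and `x w = w x` by regularity. -/
theorem comm_comm (H : Core S M P D z w) (x y : B) (hx : x ∈ P) (hy : y ∈ P)
    (h1 : ch z w * x = x * ch z w) (h2 : ch z w * y = y * ch z w) : x * y = y * x := by
  obtain ⟨h, hh⟩ : ∃ h, h = ch z w := ⟨_, rfl⟩
  obtain ⟨a, ha⟩ : ∃ a, a = ca z w := ⟨_, rfl⟩
  have hhP : h ∈ P := by rw [hh]; exact H.ch_mem
  have ha1 : a ∈ CoreD_A1 P h := by
    rw [ha, hh]
    exact ⟨H.ca_mem, H.an_an⟩
  have hx0 : x ∈ CoreD_A0 P h := by rw [hh]; exact ⟨hx, h1⟩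
  have hy0 : y ∈ CoreD_A0 P h := by rw [hh]; exact ⟨hy, h2⟩
  have hc : Closed h ![CoreD_A1 P h, CoreD_A2 P h, CoreD_A1 P h] := by
    refine closed_of ?_ ?_
    · intro i x hx
      fin_cases i
      · exact CoreD_left1 H.hP hx
      · exact CoreD_left2 H.hP hx
      · exact CoreD_left1 H.hP hx
    · intro i x hx
      fin_cases i
      · exact CoreD_right1 H.hP hx
      · exact CoreD_right2 H.hP hx
      · exact CoreD_right1 H.hP hx
  obtain ⟨I, hI⟩ : ∃ I, I = Ann (K := K) h ⊥ ![CoreD_A1 P h, CoreD_A2 P h, CoreD_A1 P h] hc :=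
    ⟨_, rfl⟩
  have hlet : ∀ v : Fin 3 → B, v = ![v 0, v 1, v 2] := by
    intro v
    funext i
    fin_cases i <;> rfl
  have e01 : Ideal.Quotient.mk I ((X 0 + X 1) ^ 2) = 0 := by
    rw [hI, mk_eq_zero]
    intro v hv
    have h3 : v 0 ∈ CoreD_A1 P h := hv 0
    rw [Submodule.mem_bot, hlet v]
    have e : ((X 0 + X 1) ^ 2 : MvPolynomial (Fin 4) K) =
        X 0 ^ 2 * X 1 ^ 0 * X 2 ^ 0 * X 3 ^ 0 + X 0 ^ 1 * X 1 ^ 1 * X 2 ^ 0 * X 3 ^ 0 +
        X 0 ^ 1 * X 1 ^ 1 * X 2 ^ 0 * X 3 ^ 0 + X 0 ^ 0 * X 1 ^ 2 * X 2 ^ 0 * X 3 ^ 0 := by ring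
    rw [e, map_add, map_add, map_add, sev_three_letters, sev_three_letters, sev_three_letters]
    have e2 : an h (an h (v 0)) * v 1 * v 2 = 0 := by rw [h3.2, zero_mul, zero_mul]
    rw [← e2]
    unfold an
    noncomm_ring
  have e23 : Ideal.Quotient.mk I ((X 2 + X 3) ^ 2) = 0 := by
    rw [hI, mk_eq_zero]
    intro v hv
    have h3 : v 2 ∈ CoreD_A1 P h := hv 2
    rw [Submodule.mem_bot, hlet v]
    have e : ((X 2 + X 3) ^ 2 : MvPolynomial (Fin 4) K) =
        X 0 ^ 0 * X 1 ^ 0 * X 2 ^ 2 * X 3 ^ 0 + X 0 ^ 0 * X 1 ^ 0 * X 2 ^ 1 * X 3 ^ 1 +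
        X 0 ^ 0 * X 1 ^ 0 * X 2 ^ 1 * X 3 ^ 1 + X 0 ^ 0 * X 1 ^ 0 * X 2 ^ 0 * X 3 ^ 2 := by ring
    rw [e, map_add, map_add, map_add, sev_three_letters, sev_three_letters, sev_three_letters]
    have e2 : v 0 * v 1 * an h (an h (v 2)) = 0 := by rw [h3.2, mul_zero]
    rw [← e2]
    unfold an
    noncomm_ring
  have e12 : Ideal.Quotient.mk I (X 1) = Ideal.Quotient.mk I (X 2) := by
    rw [Ideal.Quotient.eq, hI, mem_Ann]
    intro v hv
    have h3 := sev_castSucc (K := K) h v 1 1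
    have h4 := sev_succ (K := K) h v 1 1
    rw [mul_one] at h3 h4
    rw [map_sub, show (X 1 : MvPolynomial (Fin 4) K) = X (Fin.castSucc (1 : Fin 3)) from rfl,
      show (X 2 : MvPolynomial (Fin 4) K) = X (Fin.succ (1 : Fin 3)) from rfl, h3, h4]
    have h5 : v 1 ∈ CoreD_A2 P h := hv 1
    rw [CoreD_comm2 h5, sub_self]
    exact Submodule.zero_mem _
  have eu : Ideal.Quotient.mk I ((uu (X 1) (X 0) (X 3)) ^ (3 * M)) = 0 := by
    rw [hI, mk_eq_zero]
    intro v hv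
    have h3 : v 0 ∈ CoreD_A1 P h := hv 0
    have h4 : v 2 ∈ CoreD_A1 P h := hv 2
    obtain ⟨u, hu, t, ht, hut⟩ : v 1 ∈ CoreD_A2 P h := hv 1
    rw [Submodule.mem_bot, hlet v, hut]
    exact CoreD_one H.E H.hP H.hS hhP h3 h4 hu ht
  have hn : IsNilpotent (Ideal.Quotient.mk I (X 1)) := by
    refine CoreD_nil (K := K) (z0 := Ideal.Quotient.mk I (X 0)) (z3 := Ideal.Quotient.mk I (X 3))
      (m := 3 * M) ?_ ?_ ?_
    · rw [← map_add, ← map_pow]
      exact e01
    · rw [e12, ← map_add, ← map_pow]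
      exact e23
    · have e : uu (Ideal.Quotient.mk I (X 1)) (Ideal.Quotient.mk I (X 0))
        (Ideal.Quotient.mk I (X 3)) = Ideal.Quotient.mk I (uu (X 1) (X 0) (X 3)) := by
        unfold uu
        simp only [map_mul, map_sub]
      rw [e, ← map_pow]
      exact eu
  obtain ⟨N, hN⟩ := hn
  rw [← map_pow, hI, mk_eq_zero] at hN
  have h3 := hN ![a, x * y - y * x, a] (by
    intro i
    fin_cases i
    · exact ha1
    · exact ⟨x, hx0, y, hy0, rfl⟩
    · exact ha1)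
  rw [Submodule.mem_bot] at h3
  have e : (X 1 ^ N : MvPolynomial (Fin 4) K) = X 0 ^ 0 * X 1 ^ N * X 2 ^ 0 * X 3 ^ 0 := by ring
  rw [e, sev_three_letters] at h3
  simp only [pow_zero, one_mul, mul_one] at h3
  have hreg : ∀ m : ℕ, ∀ t : B, h ^ m * t = 0 → t = 0 := by
    intro m
    induction m with
    | zero => intro t ht; simpa using ht
    | succ m ih =>
      intro t ht
      rw [pow_succ, mul_assoc] at ht
      have h5 := ih _ ht
      rw [hh] at h5
      exact (H.reg _).1 h5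
  have h4 : a * (h ^ N * (x * y - y * x) * a) = 0 := by
    rw [← h3]
    simp only [mul_assoc]
  rw [ha] at h4
  have h5 := H.a_reg _ h4
  have h6 := H.a_reg' _ h5
  have h7 := hreg _ _ h6
  exact sub_eq_zero.1 h7

end Core

end Pool.Agent.H.MP_f5ceca_al.BR
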