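import Pool.Agent.H.MP_f5ceca_al.BR.Rank2

/-!
The situation of the core theorem (T4): an algebra `B` on whose ideal `P` the identities of `S` hold,
an ideal `D ≤ P` with `D * D = 0`, elements `z, w ∈ P` such that `h ^ 2`, `k ^ 2` are central modulo `D`
and `c = h ^ 2 * k ^ 2` is regular, where `h = [z, w]`, `k = [h, z]`.
-/

namespace Pool.Agent.H.MP_f5ceca_al.BR

open MvPolynomial Function
open Pool.Agent.H.MP_f5ceca_al.N

universe u v

section

variable {B : Type v} [Ring B]

/-- the commutator -/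
def br (x y : B) : B := x * y - y * x

/-- the anticommutator -/
def an (x y : B) : B := x * y + y * x

/-- `h = [z, w]` -/
def ch (z w : B) : B := br z w

/-- `k = [h, z]` -/
def ck (z w : B) : B := br (ch z w) z

/-- `c = h ^ 2 * k ^ 2` -/
def cc (z w : B) : B := ch z w ^ 2 * ck z w ^ 2

/-- `a = [h, [h, k]]` -/
def ca (z w : B) : B := br (ch z w) (br (ch z w) (ck z w))

end

/-- The situation of the core theorem. -/
structure Core {K : Type u} [Field K] (S : Set (FreeAlgebra K ℕ)) (M : ℕ) {B : Type u} [Ring B]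
    [Algebra K B] (P D : Submodule K B) (z w : B) : Prop where
  E : EBlock S M
  hP : IsIdl P
  hS : Holds S P
  h1 : ∀ x : B, ∃ r : K, x - algebraMap K B r ∈ P
  hD : IsIdl D
  hDP : D ≤ P
  hDD : ∀ x ∈ D, ∀ y ∈ D, x * y = 0
  hz : z ∈ P
  hw : w ∈ P
  hh : ∀ x : B, br (ch z w ^ 2) x ∈ D
  hk : ∀ x : B, br (ck z w ^ 2) x ∈ D
  creg : ∀ x : B, cc z w * x = 0 → x = 0
  creg' : ∀ x : B, x * cc z w = 0 → x = 0

end Pool.Agent.H.MP_f5ceca_al.BR
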