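import Pool.Agent.H.MP_f5ceca_al.BR.CoreD

/-!
Core theorem: end of the proof.
-/

namespace Pool.Agent.H.MP_f5ceca_al.BR

open MvPolynomial Function
open Pool.Agent.H.MP_f5ceca_al.N

universe u v

section CoreE_aux

variable {K : Type u} [Field K] {B : Type u} [Ring B] [Algebra K B]

theorem CoreE_sev01 (h x y : B) :
    sev (K := K) h ![x, y] ((X 0 + X 1) ^ 2) = an h (an h x) * y := by
  have e : ((X 0 + X 1) ^ 2 : MvPolynomial (Fin 3) K) =
      X 0 ^ 2 * X 1 ^ 0 * X 2 ^ 0 + X 0 ^ 1 * X 1 ^ 1 * X 2 ^ 0 +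
        X 0 ^ 1 * X 1 ^ 1 * X 2 ^ 0 + X 0 ^ 0 * X 1 ^ 2 * X 2 ^ 0 := by
    ring
  rw [e, map_add, map_add, map_add, sev_two_letters, sev_two_letters, sev_two_letters]
  simp only [pow_zero, pow_one, one_mul, mul_one, an]
  noncomm_ring

theorem CoreE_sev12 (h x y : B) :
    sev (K := K) h ![x, y] ((X 1 + X 2) ^ 2) = x * an h (an h y) := by
  have e : ((X 1 + X 2) ^ 2 : MvPolynomial (Fin 3) K) =
      X 0 ^ 0 * X 1 ^ 2 * X 2 ^ 0 + X 0 ^ 0 * X 1 ^ 1 * X 2 ^ 1 +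
        X 0 ^ 0 * X 1 ^ 1 * X 2 ^ 1 + X 0 ^ 0 * X 1 ^ 0 * X 2 ^ 2 := by
    ring
  rw [e, map_add, map_add, map_add, sev_two_letters, sev_two_letters, sev_two_letters]
  simp only [pow_zero, pow_one, one_mul, mul_one, an]
  noncomm_ring

theorem CoreE_sevq (h x y : B) :
    sev (K := K) h ![x, y] ((X 0 ^ 2 - X 2 ^ 2) ^ 2) = br (h ^ 2) (br (h ^ 2) (x * y)) := by
  have e : ((X 0 ^ 2 - X 2 ^ 2) ^ 2 : MvPolynomial (Fin 3) K) =
      X 0 ^ 4 * X 1 ^ 0 * X 2 ^ 0 - X 0 ^ 2 * X 1 ^ 0 * X 2 ^ 2 -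
        X 0 ^ 2 * X 1 ^ 0 * X 2 ^ 2 + X 0 ^ 0 * X 1 ^ 0 * X 2 ^ 4 := by
    ring
  rw [e, map_add, map_sub, map_sub, sev_two_letters, sev_two_letters, sev_two_letters]
  simp only [pow_zero, one_mul, mul_one, br]
  noncomm_ring

theorem CoreE_sev02 (h x y : B) :
    sev (K := K) h ![x, y] ((X 0 - X 2) ^ 2) = br h (br h (x * y)) := by
  have e : ((X 0 - X 2) ^ 2 : MvPolynomial (Fin 3) K) =
      X 0 ^ 2 * X 1 ^ 0 * X 2 ^ 0 - X 0 ^ 1 * X 1 ^ 0 * X 2 ^ 1 -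
        X 0 ^ 1 * X 1 ^ 0 * X 2 ^ 1 + X 0 ^ 0 * X 1 ^ 0 * X 2 ^ 2 := by
    ring
  rw [e, map_add, map_sub, map_sub, sev_two_letters, sev_two_letters, sev_two_letters]
  simp only [pow_zero, pow_one, one_mul, mul_one, br]
  noncomm_ring

theorem CoreE_eta {B : Type*} (a : Fin 2 → B) : a = ![a 0, a 1] := by
  funext i
  fin_cases i <;> rfl

/-- The calculation in the commutative ring. -/
theorem CoreE_ring {R : Type*} [CommRing R] [Algebra K R] [CharZero K] {z0 z1 z2 : R}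
    (h0 : (z0 + z1) ^ 2 = 0) (h1 : (z1 + z2) ^ 2 = 0) (h2 : (z0 ^ 2 - z2 ^ 2) ^ 2 = 0)
    (hr : ∀ p, z0 * p = 0 → p = 0) : (z0 - z2) ^ 2 = 0 := by
  have a3 : (z0 - z2) ^ 3 = 0 := by
    have e : (z0 - z2) ^ 3 = (z0 + z1) ^ 2 * (z0 + z1 - 3 * (z1 + z2)) +
        (z1 + z2) ^ 2 * (3 * (z0 + z1) - (z1 + z2)) := by ring
    rw [e, h0, h1, zero_mul, zero_mul, add_zero]
  have a4 : z0 * (z0 * ((4 : K) • (z0 - z2) ^ 2)) = 0 := by
    have e : z0 * (z0 * ((4 : R) * (z0 - z2) ^ 2)) = (z0 - z2) ^ 3 * (z0 - z2) +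
        2 * (z0 - z2) ^ 3 * (z0 + z2) + (z0 ^ 2 - z2 ^ 2) ^ 2 := by ring
    rw [Algebra.smul_def, map_ofNat, e, a3, h2]
    ring
  have a5 := hr _ (hr _ a4)
  have h4 : (4 : K) ≠ 0 := by norm_num
  exact (smul_eq_zero_iff_right h4).1 a5

end CoreE_aux

namespace Core

variable {K : Type u} [Field K] [CharZero K] {S : Set (FreeAlgebra K ℕ)} {M : ℕ} {B : Type u}
  [Ring B] [Algebra K B] {P D : Submodule K B} {z w : B}

/-- Products of two elements killed by `(L_h + R_h)^2` commute with `h`.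
PROOF. `A1 := {y | y ∈ P ∧ an h (an h y) = 0}` (closed under multiplication by `h` on both sides). In the commutative
ring `MvPolynomial (Fin 3) K ⧸ Ann h ⊥ ![A1, A1] _`: `(z_0 + z_1)^2 = 0`, `(z_1 + z_2)^2 = 0`,
`(z_0^2 - z_2^2)^2 = 0` (`brbr`; values: `sev_two_letters`). `z_0` is not a zero divisor: if `z_0 p = 0` then `p = 0`
(`sev_left` and `reg`). Put `α = z_0 - z_2 = (z_0 + z_1) - (z_1 + z_2)`, `β = z_0 + z_2`: `α^3 = 0`, `α^2 β^2 = 0`, so
`4 z_0^2 α^2 = (α + β)^2 α^2 = α^4 + 2 α^3 β + α^2 β^2 = 0` and `α^2 = 0`. On the letters `(x, y)`: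
`br h (br h (x y)) = 0`; `x y ∈ P`; apply `comm_of_ad2`. -/
theorem prod_comm (H : Core S M P D z w) (x y : B) (hx : x ∈ P) (hy : y ∈ P)
    (h1 : an (ch z w) (an (ch z w) x) = 0) (h2 : an (ch z w) (an (ch z w) y) = 0) :
    ch z w * (x * y) = x * y * ch z w := by
  have hc : Closed (ch z w) ![CoreD_A1 P (ch z w), CoreD_A1 P (ch z w)] := by
    refine closed_of ?_ ?_
    · intro i x hx
      fin_cases i
      · exact CoreD_left1 H.hP hx
      · exact CoreD_left1 H.hP hx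
    · intro i x hx
      fin_cases i
      · exact CoreD_right1 H.hP hx
      · exact CoreD_right1 H.hP hx
  set π := Ideal.Quotient.mk (Ann (ch z w) (⊥ : Submodule K B)
    ![CoreD_A1 P (ch z w), CoreD_A1 P (ch z w)] hc) with hπ
  have e0 : (π (X 0) + π (X 1)) ^ 2 = 0 := by
    rw [← map_add, ← map_pow, mk_eq_zero]
    intro a ha
    rw [Submodule.mem_bot, CoreE_eta a, CoreE_sev01]
    have h3 := (ha 0).2
    rw [h3, zero_mul]
  have e1 : (π (X 1) + π (X 2)) ^ 2 = 0 := by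
    rw [← map_add, ← map_pow, mk_eq_zero]
    intro a ha
    rw [Submodule.mem_bot, CoreE_eta a, CoreE_sev12]
    have h3 := (ha 1).2
    rw [h3, mul_zero]
  have e2 : (π (X 0) ^ 2 - π (X 2) ^ 2) ^ 2 = 0 := by
    rw [← map_pow, ← map_pow, ← map_sub, ← map_pow, mk_eq_zero]
    intro a ha
    rw [Submodule.mem_bot, CoreE_eta a, CoreE_sevq]
    exact H.brbr _
  have e3 : ∀ p, π (X 0) * p = 0 → p = 0 := by
    intro p hp
    obtain ⟨p, rfl⟩ := Ideal.Quotient.mk_surjective p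
    rw [← map_mul, mk_eq_zero] at hp
    rw [mk_eq_zero]
    intro a ha
    have h3 := hp a ha
    rw [Submodule.mem_bot, sev_left] at h3
    rw [Submodule.mem_bot]
    exact (H.reg _).1 h3
  have e4 := CoreE_ring (K := K) e0 e1 e2 e3
  rw [← map_sub, ← map_pow, mk_eq_zero] at e4
  have e5 := e4 ![x, y] (by
    intro i
    fin_cases i
    · exact ⟨hx, h1⟩
    · exact ⟨hy, h2⟩)
  rw [Submodule.mem_bot, CoreE_sev02] at e5
  exact H.comm_of_ad2 _ (H.hP.left _ _ hy) e5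

/-- Decomposition.
PROOF. With `p = L_h + R_h` (`an h`), `q = R_h - L_h`: `(p + q)^3 = p^2 (p + 3 q) + q^2 (3 p + q)`, `p + q = 2 R_h`, so
`8 x h^3 = x0 + x1`, `x0 = p^2 (p + 3 q) x`, `x1 = q^2 (3 p + q) x`. `q^2 p^2 = (L_{h^2} - R_{h^2})^2 = 0` by `brbr`
(`L_h, R_h` commute). So `br h (br h x0) = 0`, hence `h x0 = x0 h` by `comm_of_ad2`, and `an h (an h x1) = 0`.
(Write `x0`, `x1` explicitly with `an`, `br`; `q y = - br h y`; the identities are `noncomm_ring`.) -/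
theorem decomp (H : Core S M P D z w) (x : B) (hx : x ∈ P) :
    ∃ x0 ∈ P, ∃ x1 ∈ P, ch z w * x0 = x0 * ch z w ∧ an (ch z w) (an (ch z w) x1) = 0 ∧
      8 * (x * ch z w ^ 3) = x0 + x1 := by
  have han : ∀ y ∈ P, an (ch z w) y ∈ P := fun y hy =>
    P.add_mem (H.hP.left _ _ hy) (H.hP.right _ _ hy)
  have hbr : ∀ y ∈ P, br (ch z w) y ∈ P := fun y hy =>
    P.sub_mem (H.hP.left _ _ hy) (H.hP.right _ _ hy)
  have key : ∀ y, an (ch z w) (an (ch z w) (br (ch z w) (br (ch z w) y))) = 0 := by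
    intro y
    rw [← H.brbr y]
    unfold an br
    generalize ch z w = h
    noncomm_ring
  have hsw : ∀ h y : B, br h (br h (an h (an h y))) = an h (an h (br h (br h y))) := by
    intro h y
    unfold an br
    noncomm_ring
  have hu : an (ch z w) x - 3 • br (ch z w) x ∈ P :=
    P.sub_mem (han x hx) (P.smul_of_tower_mem 3 (hbr x hx))
  have hv : 3 • an (ch z w) x - br (ch z w) x ∈ P :=
    P.sub_mem (P.smul_of_tower_mem 3 (han x hx)) (hbr x hx)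
  refine ⟨an (ch z w) (an (ch z w) (an (ch z w) x - 3 • br (ch z w) x)), han _ (han _ hu),
    br (ch z w) (br (ch z w) (3 • an (ch z w) x - br (ch z w) x)), hbr _ (hbr _ hv),
    H.comm_of_ad2 _ (han _ (han _ hu)) ?_, key _, ?_⟩
  · rw [hsw]
    exact key _
  · unfold an br
    generalize ch z w = h
    noncomm_ring

end Core

end Pool.Agent.H.MP_f5ceca_al.BR
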