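import Pool.Agent.H.MP_f5ceca_al.BR.CoreE

/-!
Core theorem: `a ^ 2` is central, end of the proof.
-/

namespace Pool.Agent.H.MP_f5ceca_al.BR

open MvPolynomial Function
open Pool.Agent.H.MP_f5ceca_al.N

universe u v

namespace Core

variable {K : Type u} [Field K] [CharZero K] {S : Set (FreeAlgebra K ℕ)} {M : ℕ} {B : Type u}
  [Ring B] [Algebra K B] {P D : Submodule K B} {z w : B}

/-- `a ^ 2` is central.
PROOF. For `x ∈ P` let `x0, x1` be as in `decomp`, `a = ca z w`. `a^2 = a * a` commutes with `h` (`prod_comm` with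
`x = y = a`). `a^2 x0 = x0 a^2` by `comm_comm`. `a x1` commutes with `h` (`prod_comm`), so `a^2 (a x1) = (a x1) a^2`, i.e.
`a (a^2 x1 - x1 a^2) = 0` and `a^2 x1 = x1 a^2` by `a_reg`. So `a^2` commutes with `8 x h^3`, and
`(a^2 x - x a^2) * 8 h^3 = 0` as `a^2 h = h a^2`; by `reg` (and characteristic zero) `a^2 x = x a^2`. General `x`:
`x = r + x'` by `h1`. -/
theorem a2_central (H : Core S M P D z w) (x : B) : ca z w ^ 2 * x = x * ca z w ^ 2 := by
  have ham : ca z w ∈ P := ca_mem H
  have haa : ca z w * ca z w ∈ P := H.hP.left _ _ ham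
  have hah : ch z w * (ca z w * ca z w) = ca z w * ca z w * ch z w :=
    prod_comm H _ _ ham ham (an_an H) (an_an H)
  have key : ∀ y ∈ P, ca z w ^ 2 * y = y * ca z w ^ 2 := by
    intro y hy
    obtain ⟨x0, hx0, x1, hx1, h0, h1, h2⟩ := decomp H y hy
    have e0 : ca z w * ca z w * x0 = x0 * (ca z w * ca z w) :=
      comm_comm H _ _ haa hx0 hah h0
    have hm : ca z w * x1 ∈ P := H.hP.left _ _ hx1
    have hc : ch z w * (ca z w * x1) = ca z w * x1 * ch z w :=
      prod_comm H _ _ ham hx1 (an_an H) h1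
    have e1 : ca z w * ca z w * (ca z w * x1) = ca z w * x1 * (ca z w * ca z w) :=
      comm_comm H _ _ haa hm hah hc
    have e2 : ca z w * (ca z w * ca z w * x1 - x1 * (ca z w * ca z w)) = 0 := by
      rw [mul_sub, sub_eq_zero]
      calc ca z w * (ca z w * ca z w * x1) = ca z w * ca z w * (ca z w * x1) := by
            noncomm_ring
        _ = ca z w * x1 * (ca z w * ca z w) := e1
        _ = ca z w * (x1 * (ca z w * ca z w)) := by noncomm_ring
    have e3 : ca z w * ca z w * x1 = x1 * (ca z w * ca z w) := sub_eq_zero.1 (a_reg H _ e2)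
    have e4 : ca z w * ca z w * (8 * (y * ch z w ^ 3)) =
        8 * (y * ch z w ^ 3) * (ca z w * ca z w) := by
      rw [h2, mul_add, add_mul, e0, e3]
    have hc3 : ch z w ^ 3 * (ca z w * ca z w) = ca z w * ca z w * ch z w ^ 3 := by
      have h5 : Commute (ch z w) (ca z w * ca z w) := hah
      exact (h5.pow_left 3).eq
    have e5 : (8 : K) • ((ca z w * ca z w * y - y * (ca z w * ca z w)) * ch z w ^ 3) = 0 := by
      have h6 : (8 : K) • ((ca z w * ca z w * y - y * (ca z w * ca z w)) * ch z w ^ 3) =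
          ca z w * ca z w * (8 * (y * ch z w ^ 3)) - 8 * (y * (ca z w * ca z w * ch z w ^ 3)) := by
        rw [Algebra.smul_def, map_ofNat]
        noncomm_ring
      rw [h6, e4, ← hc3]
      noncomm_ring
    have h8 : (8 : K) ≠ 0 := by norm_num
    have e6 := (smul_eq_zero_iff_right h8).1 e5
    have e7 : (ca z w * ca z w * y - y * (ca z w * ca z w)) * ch z w * ch z w * ch z w = 0 := by
      rw [← e6]
      noncomm_ring
    have e8 := (reg H _).2.1 ((reg H _).2.1 ((reg H _).2.1 e7))
    rw [pow_two]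
    exact sub_eq_zero.1 e8
  obtain ⟨r, hr⟩ := H.h1 x
  have h3 : x = algebraMap K B r + (x - algebraMap K B r) := by abel
  rw [h3, mul_add, add_mul, key _ hr, (Algebra.commutes r (ca z w ^ 2)).symm]

/-- **Core theorem**: `B` satisfies all identities of `M_2(K)`.
PROOF. `C := Subalgebra.centralizer K {h}` is commutative: its elements are `r + x` with `x ∈ P` commuting with `h`
(`h1`), use `comm_comm`. `s := 8 * (h^3 * a^2) ∈ C`. `s` is right regular: `x s = 0` gives `(x h^3) a a = 0` (char 0;
`8 * y = (8 : K) • y`), so `x h^3 = 0` by `a_reg'`, `x = 0` by `reg`. For `x = r + x'`, `x' ∈ P`: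
`x s = r s + (8 x' h^3) a^2 = r s + x0 a^2 + x1 a^2` and `x1 a^2 = a^2 x1 = a (a x1)` by `a2_central`; so
`x s = (r s + x0 a^2) + a (a x1)` with `r s + x0 a^2 ∈ C`, `a x1 ∈ C` (`prod_comm`). Apply `rank2`
(`K` is infinite because of `CharZero`). -/
theorem main (H : Core S M P D z w) {X : Type} {g : FreeAlgebra K X} (hg : g ∈ J2 K X)
    (v : X → B) : FreeAlgebra.lift K v g = 0 := by
  have ham : ca z w ∈ P := ca_mem H
  have hah : ch z w * (ca z w * ca z w) = ca z w * ca z w * ch z w :=
    prod_comm H _ _ ham ham (an_an H) (an_an H)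
  have hah2 : Commute (ch z w) (ca z w ^ 2) := by
    rw [pow_two]
    exact hah
  have hmem : ∀ y : B, y ∈ Subalgebra.centralizer K {ch z w} ↔ ch z w * y = y * ch z w := by
    intro y
    rw [Subalgebra.mem_centralizer_iff]
    constructor
    · intro h1
      exact h1 _ rfl
    · intro h1 g hg
      rw [Set.mem_singleton_iff.1 hg]
      exact h1
  have hsub : ∀ (y : B) (r : K), ch z w * y = y * ch z w →
      ch z w * (y - algebraMap K B r) = (y - algebraMap K B r) * ch z w := by
    intro y r h1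
    rw [mul_sub, sub_mul, h1, Algebra.commutes r (ch z w)]
  have hCC : ∀ x ∈ Subalgebra.centralizer K {ch z w}, ∀ y ∈ Subalgebra.centralizer K {ch z w},
      x * y = y * x := by
    intro x hx y hy
    rw [hmem] at hx hy
    obtain ⟨r, hr⟩ := H.h1 x
    obtain ⟨t, ht⟩ := H.h1 y
    have e1 := comm_comm H _ _ hr ht (hsub x r hx) (hsub y t hy)
    rw [mul_sub, mul_sub, sub_mul, sub_mul, sub_mul, sub_mul, ← Algebra.commutes t x,
      Algebra.commutes r y, ← Algebra.commutes t (algebraMap K B r)] at e1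
    have e2 : x * y - y * x = (x * y - y * algebraMap K B r - (algebraMap K B t * x -
        algebraMap K B t * algebraMap K B r)) - (y * x - algebraMap K B t * x -
        (y * algebraMap K B r - algebraMap K B t * algebraMap K B r)) := by abel
    rw [e1, sub_self] at e2
    exact sub_eq_zero.1 e2
  have hs : 8 * (ch z w ^ 3 * ca z w ^ 2) ∈ Subalgebra.centralizer K {ch z w} := by
    rw [hmem]
    have h1 : Commute (ch z w) (8 * (ch z w ^ 3 * ca z w ^ 2)) := by
      refine Commute.mul_right ?_ (Commute.mul_right (Commute.pow_right rfl 3) hah2)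
      exact Commute.ofNat_right (ch z w) 8
    exact h1
  refine rank2 (Subalgebra.centralizer K {ch z w}) hCC (8 * (ch z w ^ 3 * ca z w ^ 2)) (ca z w) hs
    ?_ ?_ hg v
  · intro x hx
    have e1 : (8 : K) • (x * ch z w * ch z w * ch z w * ca z w * ca z w) = 0 := by
      rw [← hx, Algebra.smul_def, map_ofNat]
      noncomm_ring
    have h8 : (8 : K) ≠ 0 := by norm_num
    have e2 := (smul_eq_zero_iff_right h8).1 e1
    exact (reg H _).2.1 ((reg H _).2.1 ((reg H _).2.1 (a_reg' H _ (a_reg' H _ e2))))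
  · intro x
    obtain ⟨r, hr⟩ := H.h1 x
    obtain ⟨x0, hx0, x1, hx1, h0, h1, h2⟩ := decomp H _ hr
    refine ⟨algebraMap K B r * (8 * (ch z w ^ 3 * ca z w ^ 2)) + x0 * ca z w ^ 2, ?_,
      ca z w * x1, ?_, ?_⟩
    · refine Subalgebra.add_mem _ (Subalgebra.mul_mem _ (Subalgebra.algebraMap_mem _ r) hs) ?_
      rw [hmem]
      have h3 : Commute (ch z w) x0 := h0
      exact (h3.mul_right hah2).eq
    · rw [hmem]
      exact prod_comm H _ _ ham hx1 (an_an H) h1
    · have e1 : x = algebraMap K B r + (x - algebraMap K B r) := by abel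
      have e2 : (x - algebraMap K B r) * (8 * (ch z w ^ 3 * ca z w ^ 2)) =
          8 * ((x - algebraMap K B r) * ch z w ^ 3) * ca z w ^ 2 := by
        noncomm_ring
      have e3 : x * (8 * (ch z w ^ 3 * ca z w ^ 2)) =
          algebraMap K B r * (8 * (ch z w ^ 3 * ca z w ^ 2)) +
          (x - algebraMap K B r) * (8 * (ch z w ^ 3 * ca z w ^ 2)) := by
        rw [← add_mul, ← e1]
      rw [e3, e2, h2, add_mul, ← a2_central H x1, pow_two]
      noncomm_ring

end Core

end Pool.Agent.H.MP_f5ceca_al.BR
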