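import Pool.Agent.H.MP_f5ceca_al.BR.Merge
import Pool.Agent.H.MP_f5ceca_al.N.Basic

/-!
Definitions for the block BR: `J C^s J ≤ T_n(V)`, `J = T_n(M_2(K))`, for every variety `V` not
containing `W_K`.
-/

namespace Pool.Agent.H.MP_f5ceca_al.BR

open MvPolynomial Function
open Pool.Agent.H.MP_f5ceca_al.N

universe u v

/-- A two-sided ideal, given as a submodule. -/
structure IsIdl {K : Type u} [Field K] {B : Type v} [Ring B] [Algebra K B]
    (P : Submodule K B) : Prop where
  left : ∀ a : B, ∀ x ∈ P, a * x ∈ P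
  right : ∀ a : B, ∀ x ∈ P, x * a ∈ P

/-- All identities of `S` hold when the values of the variables are in `P`. -/
def Holds {K : Type u} [Field K] (S : Set (FreeAlgebra K ℕ)) {B : Type v} [Ring B] [Algebra K B]
    (P : Submodule K B) : Prop :=
  ∀ f ∈ S, ∀ w : ℕ → B, (∀ i, w i ∈ P) → FreeAlgebra.lift K w f = 0

/-- `t (t - l) (t - r)` -/
def uu {R : Type*} [CommRing R] (t l r : R) : R := t * (t - l) * (t - r)

/-- The polynomial of the relation ER (slots `0, …, 4`). -/
noncomputable def polU (K : Type u) [Field K] (M : ℕ) : MvPolynomial (Fin 5) K :=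
  (uu (X 1) (X 0) (X 4) * uu (X 2) (X 0) (X 4) * uu (X 3) (X 0) (X 4)) ^ M

/-- The polynomial of the relation E2' (slots `0, …, 3`). -/
noncomputable def polE (K : Type u) [Field K] (M : ℕ) : MvPolynomial (Fin 4) K :=
  (X 2 - X 1) * X 1 * (uu (X 1) (X 0) (X 3) ^ 2 * uu (X 2) (X 0) (X 3)) ^ M

/-- The relation ER for the variety given by `S`, with exponents at least `M`. This is what is used
of the fact that the variety does not contain `W_K`. -/
structure EBlock {K : Type u} [Field K] (S : Set (FreeAlgebra K ℕ)) (M : ℕ) : Prop where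
  er : ∀ {B : Type u} [Ring B] [Algebra K B] (P : Submodule K B), IsIdl P → Holds S P →
    ∀ M', M ≤ M' → ∀ z ∈ P, ∀ x ∈ P, ∀ w ∈ P, ∀ a ∈ P, ∀ b ∈ P,
      sev z ![a, x, w, b] (polU K M') = sev z ![a, w, x, b] (polU K M')

section

variable {K : Type u} [Field K] {B : Type v} [Ring B] [Algebra K B]

theorem sev4_one_right (z a x w b : B) (P : MvPolynomial (Fin 5) K) :
    sev z ![a, x * z, w, b] P = sev z ![a, x, w, b] (X 2 * P) := by
  have h := sev_succ z ![a, x, w, b] 1 P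
  rw [show (Fin.succ (1 : Fin 4)) = (2 : Fin 5) from rfl] at h
  rw [h]
  congr 2
  funext i
  fin_cases i <;> rfl

theorem sev4_two_right (z a x w b : B) (P : MvPolynomial (Fin 5) K) :
    sev z ![a, x, w * z, b] P = sev z ![a, x, w, b] (X 3 * P) := by
  have h := sev_succ z ![a, x, w, b] 2 P
  rw [show (Fin.succ (2 : Fin 4)) = (3 : Fin 5) from rfl] at h
  rw [h]
  congr 2
  funext i
  fin_cases i <;> rfl

theorem sev4_two_left (z a x w b : B) (P : MvPolynomial (Fin 5) K) :
    sev z ![a, x, z * w, b] P = sev z ![a, x, w, b] (X 2 * P) := by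
  have h := sev_castSucc z ![a, x, w, b] 2 P
  rw [show (Fin.castSucc (2 : Fin 4)) = (2 : Fin 5) from rfl] at h
  rw [h]
  congr 2
  funext i
  fin_cases i <;> rfl

theorem sev4_one_left (z a x w b : B) (P : MvPolynomial (Fin 5) K) :
    sev z ![a, z * x, w, b] P = sev z ![a, x, w, b] (X 1 * P) := by
  have h := sev_castSucc z ![a, x, w, b] 1 P
  rw [show (Fin.castSucc (1 : Fin 4)) = (1 : Fin 5) from rfl] at h
  rw [h]
  congr 2
  funext i
  fin_cases i <;> rfl

/-- The second letter is `z` itself. -/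
theorem sev4_absorb (z a x b : B) (P : MvPolynomial (Fin 5) K) :
    sev z ![a, z, x, b] P = sev z ![a, x, b]
      (aeval (R := K) ![(X 0 : MvPolynomial (Fin 4) K), X 1, X 1, X 2, X 3] P * X 1) := by
  have h : sev (K := K) z ![a, z, x, b] = ((sev (K := K) z ![a, x, b]).comp
      (LinearMap.mulRight K (X 1 : MvPolynomial (Fin 4) K))).comp
      (aeval (R := K) ![(X 0 : MvPolynomial (Fin 4) K), X 1, X 1, X 2, X 3]).toLinearMap := by
    refine ext_prod fun e => ?_
    have h0 : (∏ i, X i ^ e i : MvPolynomial (Fin 5) K) =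
        X 0 ^ e 0 * X 1 ^ e 1 * X 2 ^ e 2 * X 3 ^ e 3 * X 4 ^ e 4 := by
      simp [Fin.prod_univ_succ, mul_assoc]
    rw [h0, LinearMap.comp_apply, LinearMap.comp_apply, sev_four_letters]
    have h1 : (aeval (R := K) ![(X 0 : MvPolynomial (Fin 4) K), X 1, X 1, X 2, X 3]).toLinearMap
        (X 0 ^ e 0 * X 1 ^ e 1 * X 2 ^ e 2 * X 3 ^ e 3 * X 4 ^ e 4) =
        X 0 ^ e 0 * X 1 ^ e 1 * X 1 ^ e 2 * X 2 ^ e 3 * X 3 ^ e 4 := by
      simp
    rw [h1, LinearMap.mulRight_apply]
    have h2 : (X 0 ^ e 0 * X 1 ^ e 1 * X 1 ^ e 2 * X 2 ^ e 3 * X 3 ^ e 4 * X 1 :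
        MvPolynomial (Fin 4) K) = X 0 ^ e 0 * X 1 ^ (e 1 + 1 + e 2) * X 2 ^ e 3 * X 3 ^ e 4 := by
      ring
    rw [h2, sev_three_letters, pow_add, pow_add, pow_one]
    simp only [mul_assoc]
  exact LinearMap.congr_fun h P

end

/-- The relation E2'. -/
theorem EBlock.e2 {K : Type u} [Field K] {S : Set (FreeAlgebra K ℕ)} {M : ℕ} (E : EBlock S M)
    {B : Type u} [Ring B] [Algebra K B] (P : Submodule K B) (hP : IsIdl P) (hS : Holds S P)
    (M' : ℕ) (hM : M ≤ M') (z : B) (hz : z ∈ P) (x : B) (hx : x ∈ P) (a : B) (ha : a ∈ P) (b : B)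
    (hb : b ∈ P) : sev z ![a, x, b] (polE K M') = 0 := by
  have key : ∀ w ∈ P, ∀ x ∈ P, sev z ![a, w, x, b] ((X 3 - X 1) * polU K M') = 0 := by
    intro w hw x hx
    have h1 := E.er P hP hS M' hM z hz (x * z) (hP.right _ _ hx) w hw a ha b hb
    have h2 := E.er P hP hS M' hM z hz x hx (z * w) (hP.left _ _ hw) a ha b hb
    rw [sev4_one_right, sev4_two_right] at h1
    rw [sev4_two_left, sev4_one_left] at h2
    rw [sub_mul, map_sub, ← h1, ← h2, sub_self]
  have h := key z hz x hx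
  rw [sev4_absorb] at h
  have h3 : (aeval (R := K) ![(X 0 : MvPolynomial (Fin 4) K), X 1, X 1, X 2, X 3]
      ((X 3 - X 1) * polU K M') * X 1 : MvPolynomial (Fin 4) K) = polE K M' := by
    simp only [polU, polE, uu, map_mul, map_sub, map_pow, aeval_X]
    simp
    ring
  rwa [h3] at h

end Pool.Agent.H.MP_f5ceca_al.BR
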