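import Pool.Agent.H.MP_f5ceca_al.BR.MatId
import Pool.Agent.H.MP_f5ceca_al.N.Nil

/-!
(T1a), (T1b): the variety does not contain `M_3(K)`; identities of `M_2(K)` vanish on simple modules.
-/

namespace Pool.Agent.H.MP_f5ceca_al.BR

open MvPolynomial Function
open Pool.Agent.H.MP_f5ceca_al.N

universe u v w

/-- A module with two generators over a commutative ring: its endomorphisms satisfy the identities of `M_2(K)`.
PROOF. Choose `Mt i : Matrix (Fin 2) (Fin 2) C` with `φ i (e q) = ∑ p, Mt i p q • e p`. For every `x` in the free algebra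
`(lift K φ x) (e q) = ∑ p, (lift K Mt x) p q • e p` (`FreeAlgebra.induction`; for products
`(ab) (e q) = a (∑ p, B p q • e p) = ∑ p, B p q • ∑ r, A r p • e r`, commutativity of `C`). For `x = g`: `J2_comm`. So `lift K φ g` vanishes
on the generators. -/
theorem J2_end_two {K : Type u} [Field K] [Infinite K] {C : Type v} [CommRing C] [Algebra K C]
    {M : Type w} [AddCommGroup M] [Module C M] [Module K M] [IsScalarTower K C M] (e : Fin 2 → M)
    (he : Submodule.span C (Set.range e) = ⊤) {X : Type} {g : FreeAlgebra K X} (hg : g ∈ J2 K X)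
    (φ : X → Module.End C M) (x : M) : (FreeAlgebra.lift K φ g) x = 0 := by
  have hex : ∀ (i : X) (q : Fin 2), ∃ c : Fin 2 → C, ∑ p, c p • e p = φ i (e q) := by
    intro i q
    have h1 : φ i (e q) ∈ Submodule.span C (Set.range e) := by
      rw [he]
      exact Submodule.mem_top
    exact (Submodule.mem_span_range_iff_exists_fun C).1 h1
  choose c hc using hex
  set Mt : X → Matrix (Fin 2) (Fin 2) C := fun i => Matrix.of fun p q => c i q p with hMt
  have key : ∀ y : FreeAlgebra K X, ∀ q : Fin 2,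
      (FreeAlgebra.lift K φ y) (e q) = ∑ p, (FreeAlgebra.lift K Mt y) p q • e p := by
    intro y
    induction y using FreeAlgebra.induction with
    | grade0 r =>
      intro q
      rw [AlgHom.commutes, AlgHom.commutes, Module.algebraMap_end_apply]
      have h1 : ∀ p : Fin 2, (algebraMap K (Matrix (Fin 2) (Fin 2) C) r) p q • e p =
          if p = q then r • e q else 0 := by
        intro p
        rw [Matrix.algebraMap_matrix_apply]
        split_ifs with h
        · rw [h, algebraMap_smul]
        · rw [zero_smul]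
      rw [Finset.sum_congr rfl fun p _ => h1 p, Finset.sum_ite_eq' Finset.univ q]
      rw [if_pos (Finset.mem_univ q)]
    | grade1 i =>
      intro q
      rw [FreeAlgebra.lift_ι_apply, FreeAlgebra.lift_ι_apply, ← hc i q]
      rfl
    | mul a b ha hb =>
      intro q
      rw [map_mul, map_mul, Module.End.mul_apply, hb q, map_sum]
      have h1 : ∀ p : Fin 2, (FreeAlgebra.lift K φ a) ((FreeAlgebra.lift K Mt b) p q • e p) =
          ∑ r, ((FreeAlgebra.lift K Mt a) r p * (FreeAlgebra.lift K Mt b) p q) • e r := by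
        intro p
        rw [map_smul, ha p, Finset.smul_sum]
        refine Finset.sum_congr rfl fun r _ => ?_
        rw [smul_smul, mul_comm]
      rw [Finset.sum_congr rfl fun p _ => h1 p, Finset.sum_comm]
      refine Finset.sum_congr rfl fun r _ => ?_
      rw [Matrix.mul_apply, Finset.sum_smul]
    | add a b ha hb =>
      intro q
      rw [map_add, map_add, LinearMap.add_apply, ha q, hb q, ← Finset.sum_add_distrib]
      refine Finset.sum_congr rfl fun p _ => ?_
      rw [Matrix.add_apply, add_smul]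
  have h0 : FreeAlgebra.lift K Mt g = 0 := J2_comm hg Mt
  have hD : FreeAlgebra.lift K φ g = 0 := by
    refine LinearMap.ext_on_range he fun q => ?_
    rw [key g q, h0]
    simp
  rw [hD]
  rfl

/-- (T1a)
PROOF. Suppose it does. `B = Matrix (Fin 3) (Fin 3) K`, `P = ⊤`: `Holds S ⊤` (`Satisfies` computes in the unitization; map by
`Unitization.lift (NonUnitalAlgHom.id K B)` to `B`, cf. `Dens_identity` in N/Density.lean). Let `z = E 0 0 + E 1 1`, `a = E 2 0`,
`b = E 0 2`, `x = E 0 1`, `w = E 1 0` (`Matrix.single`). `z a = 0`, `a z = a`, `z b = b`, `b z = 0`, `z x = x = x z`, `z w = w = w z`. The value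
of `X 0^i X 1^j X 2^k X 3^l X 4^m` on `(a, x, w, b)` is `a x w b = E 2 2` if `i = m = 0` and `0` otherwise; so
`sev z ![a, x, w, b] Q = Q(0, 1, 1, 1, 0) • E 2 2` (`ext_prod`, as linear maps in `Q`; `MvPolynomial.eval`), and
`sev z ![a, w, x, b] Q = Q(0,1,1,1,0) • (a w x b) = 0` (`a w = E 2 0 * E 1 0 = 0`). For `Q = polU K M`: value `1`. Contradiction with
`E.er`. -/
theorem not_M3 {K : Type u} [Field K] {S : Set (FreeAlgebra K ℕ)} {M : ℕ} (E : EBlock S M) :
    ¬ Satisfies S (Matrix (Fin 3) (Fin 3) K) := by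
  intro hSat
  set z : Matrix (Fin 3) (Fin 3) K := !![1, 0, 0; 0, 1, 0; 0, 0, 0] with hz
  set a : Matrix (Fin 3) (Fin 3) K := !![0, 0, 0; 0, 0, 0; 1, 0, 0] with ha
  set b : Matrix (Fin 3) (Fin 3) K := !![0, 0, 1; 0, 0, 0; 0, 0, 0] with hb
  set x : Matrix (Fin 3) (Fin 3) K := !![0, 1, 0; 0, 0, 0; 0, 0, 0] with hx
  set w : Matrix (Fin 3) (Fin 3) K := !![0, 0, 0; 1, 0, 0; 0, 0, 0] with hw
  set c : Matrix (Fin 3) (Fin 3) K := !![0, 0, 0; 0, 0, 0; 0, 0, 1] with hc
  have hza : z * a = 0 := by
    ext i j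
    fin_cases i <;> fin_cases j <;> simp [hz, ha, Matrix.mul_apply, Fin.sum_univ_three]
  have haz : a * z = a := by
    ext i j
    fin_cases i <;> fin_cases j <;> simp [hz, ha, Matrix.mul_apply, Fin.sum_univ_three]
  have hxz : x * z = x := by
    ext i j
    fin_cases i <;> fin_cases j <;> simp [hz, hx, Matrix.mul_apply, Fin.sum_univ_three]
  have hwz : w * z = w := by
    ext i j
    fin_cases i <;> fin_cases j <;> simp [hz, hw, Matrix.mul_apply, Fin.sum_univ_three]
  have hbz : b * z = 0 := by
    ext i j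
    fin_cases i <;> fin_cases j <;> simp [hz, hb, Matrix.mul_apply, Fin.sum_univ_three]
  have haw : a * w = 0 := by
    ext i j
    fin_cases i <;> fin_cases j <;> simp [ha, hw, Matrix.mul_apply, Fin.sum_univ_three]
  have hprod : a * x * w * b = c := by
    ext i j
    fin_cases i <;> fin_cases j <;>
      simp [ha, hx, hw, hb, hc, Matrix.mul_apply, Fin.sum_univ_three]
  have hpow : ∀ (y : Matrix (Fin 3) (Fin 3) K), y * z = y → ∀ k : ℕ, y * z ^ k = y := by
    intro y hy k
    induction k with
    | zero => rw [pow_zero, mul_one]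
    | succ k ih => rw [pow_succ, ← mul_assoc, ih, hy]
  have hzp : ∀ i : ℕ, z ^ i * a = (0 : K) ^ i • a := by
    intro i
    cases i with
    | zero => simp
    | succ i => rw [pow_succ, mul_assoc, hza, mul_zero, zero_pow (Nat.succ_ne_zero i), zero_smul]
  have hbp : ∀ i : ℕ, b * z ^ i = (0 : K) ^ i • b := by
    intro i
    cases i with
    | zero => simp
    | succ i =>
      rw [pow_succ', ← mul_assoc, hbz, zero_mul, zero_pow (Nat.succ_ne_zero i), zero_smul]
  have h5 : ∀ e : Fin 5 → ℕ, (∏ i, X i ^ e i : MvPolynomial (Fin 5) K) =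
      X 0 ^ e 0 * X 1 ^ e 1 * X 2 ^ e 2 * X 3 ^ e 3 * X 4 ^ e 4 := by
    intro e
    simp [Fin.prod_univ_succ, mul_assoc]
  have e1 : sev (K := K) z ![a, x, w, b] =
      (aeval (R := K) ![(0 : K), 1, 1, 1, 0]).toLinearMap.smulRight c := by
    refine ext_prod fun e => ?_
    rw [h5, sev_four_letters, LinearMap.smulRight_apply]
    have h6 : (aeval (R := K) ![(0 : K), 1, 1, 1, 0]).toLinearMap
        (X 0 ^ e 0 * X 1 ^ e 1 * X 2 ^ e 2 * X 3 ^ e 3 * X 4 ^ e 4 : MvPolynomial (Fin 5) K) =
        0 ^ e 0 * 0 ^ e 4 := by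
      simp
    rw [h6, hzp, smul_mul_assoc, hpow a haz, smul_mul_assoc, smul_mul_assoc, mul_assoc a x,
      hpow x hxz, smul_mul_assoc, smul_mul_assoc, mul_assoc (a * x) w, hpow w hwz, smul_mul_assoc,
      smul_mul_assoc, mul_assoc (a * x * w) b, hbp, mul_smul_comm, hprod, smul_smul]
  have e2 : sev (K := K) z ![a, w, x, b] = 0 := by
    refine ext_prod fun e => ?_
    rw [h5, sev_four_letters, hzp, smul_mul_assoc, hpow a haz, smul_mul_assoc, haw]
    simp
  have hid : IsIdl (⊤ : Submodule K (Matrix (Fin 3) (Fin 3) K)) :=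
    ⟨fun _ _ _ => Submodule.mem_top, fun _ _ _ => Submodule.mem_top⟩
  have hholds : Holds S (⊤ : Submodule K (Matrix (Fin 3) (Fin 3) K)) := by
    intro f hf v _
    have h1 := hSat f hf v
    have h2 : (Unitization.lift (NonUnitalAlgHom.id K (Matrix (Fin 3) (Fin 3) K))).comp
        (FreeAlgebra.lift K
          (fun i => ((v i : Matrix (Fin 3) (Fin 3) K) : Unitization K (Matrix (Fin 3) (Fin 3) K)))) =
        FreeAlgebra.lift K v := by
      refine FreeAlgebra.hom_ext (funext fun i => ?_)
      simp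
    have h3 := DFunLike.congr_fun h2 f
    rw [AlgHom.comp_apply, h1, map_zero] at h3
    exact h3.symm
  have h7 := E.er ⊤ hid hholds M le_rfl z Submodule.mem_top x Submodule.mem_top w
    Submodule.mem_top a Submodule.mem_top b Submodule.mem_top
  rw [e1, e2, LinearMap.smulRight_apply, LinearMap.zero_apply] at h7
  have h8 : (aeval (R := K) ![(0 : K), 1, 1, 1, 0]).toLinearMap (polU K M) = 1 := by
    simp [polU, uu]
  rw [h8, one_smul] at h7
  have h9 := congrFun (congrFun h7 2) 2
  simp [hc] at h9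

end Pool.Agent.H.MP_f5ceca_al.BR
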