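import Pool.Agent.H.MP_f5ceca_al.BR.Dens3a

/-!
(T1b) identities of `M_2(K)` vanish on simple modules.
-/

namespace Pool.Agent.H.MP_f5ceca_al.BR

open MvPolynomial Function
open Pool.Agent.H.MP_f5ceca_al.N

universe u v

universe w

section

variable {K : Type u} [Field K] {Λ : Type v} [Ring Λ] [Algebra K Λ]
  {M : Type w} [AddCommGroup M] [Module Λ M] [Module K M] [IsScalarTower K Λ M]

theorem Dens3b_AA : Dens_A K Λ M * Dens_A K Λ M ≤ Dens_A K Λ M := by
  rw [Submodule.mul_le]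
  rintro _ ⟨a, rfl⟩ _ ⟨b, rfl⟩
  exact ⟨a * b, map_mul (Dens_r (K := K) (M := M)) a b⟩

theorem Dens3b_AL (Φ : Subalgebra K (Module.End Λ M)) :
    Dens_A K Λ M * (Dens_A K Λ M * Dens_F Φ) ≤ Dens_A K Λ M * Dens_F Φ := by
  rw [← mul_assoc]
  exact mul_le_mul_left Dens3b_AA _

theorem Dens3b_FL (Φ : Subalgebra K (Module.End Λ M)) :
    Dens_F Φ * (Dens_A K Λ M * Dens_F Φ) ≤ Dens_A K Λ M * Dens_F Φ := by
  calc Dens_F Φ * (Dens_A K Λ M * Dens_F Φ)
      = (Dens_F Φ * Dens_A K Λ M) * Dens_F Φ := by rw [mul_assoc]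
    _ ≤ (Dens_A K Λ M * Dens_F Φ) * Dens_F Φ := mul_le_mul_left (Dens_FA Φ) _
    _ = Dens_A K Λ M * (Dens_F Φ * Dens_F Φ) := by rw [mul_assoc]
    _ ≤ Dens_A K Λ M * Dens_F Φ := mul_le_mul_right (Dens_FF Φ) _

theorem Dens3b_r_mul (Φ : Subalgebra K (Module.End Λ M)) (a : Λ) {e : Module.End K M}
    (he : e ∈ Dens_A K Λ M * Dens_F Φ) : Dens_r a * e ∈ Dens_A K Λ M * Dens_F Φ :=
  Dens3b_AL Φ (Submodule.mul_mem_mul (Dens_mem_A a) he)

theorem Dens3b_i_mul {Φ : Subalgebra K (Module.End Λ M)} {d : Module.End Λ M} (hd : d ∈ Φ)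
    {e : Module.End K M} (he : e ∈ Dens_A K Λ M * Dens_F Φ) :
    Dens_i (K := K) d * e ∈ Dens_A K Λ M * Dens_F Φ :=
  Dens3b_FL Φ (Submodule.mul_mem_mul (Dens_mem_F hd) he)

/-- the operators generated by `Λ` and `Φ` commute with `Φ` -/
theorem Dens3b_comm {Φ : Subalgebra K (Module.End Λ M)}
    (hc : ∀ a ∈ Φ, ∀ b ∈ Φ, a * b = b * a) {d : Module.End Λ M} (hd : d ∈ Φ)
    {e : Module.End K M} (he : e ∈ Dens_A K Λ M * Dens_F Φ) (y : M) : e (d y) = d (e y) := by
  revert y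
  refine Submodule.mul_induction_on he ?_ ?_
  · rintro _ ⟨a, rfl⟩ _ ⟨f, hf, rfl⟩ y
    have h1 := LinearMap.congr_fun (hc f hf d hd) y
    have h2 : f (d y) = d (f y) := h1
    show a • f (d y) = d (a • f y)
    rw [h2, d.map_smul]
  · intro e₁ e₂ h1 h2 y
    rw [LinearMap.add_apply, LinearMap.add_apply, h1, h2, map_add]

/-- density for three vectors -/
theorem Dens3b_three [IsSimpleModule Λ M] {Φ : Subalgebra K (Module.End Λ M)}
    (hΦ : ∀ d : Module.End Λ M, (∀ a ∈ Φ, a * d = d * a) → d ∈ Φ)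
    (hc : ∀ a ∈ Φ, ∀ b ∈ Φ, a * b = b * a)
    {v₁ v₂ v₃ : M} (h3 : v₃ ≠ 0) (h23 : ∀ d ∈ Φ, d v₃ ≠ v₂)
    (h123 : ∀ d ∈ Φ, ∀ d' ∈ Φ, d v₂ + d' v₃ ≠ v₁) :
    ∃ e ∈ Dens_A K Λ M * Dens_F Φ, e v₂ = 0 ∧ e v₃ = 0 ∧ e v₁ ≠ 0 := by
  by_contra hcon
  have hcon' : ∀ e ∈ Dens_A K Λ M * Dens_F Φ, e v₂ = 0 → e v₃ = 0 → e v₁ = 0 := by
    intro e he h h'
    by_contra h''
    exact hcon ⟨e, he, h, h', h''⟩
  obtain ⟨e', he', e3, e2⟩ := Dens_two hΦ h3 h23
  have hsur : ∀ y : M, ∃ a : Λ, a • e' v₂ = y := fun y =>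
    IsSimpleModule.toSpanSingleton_surjective Λ e2 y
  choose c hcu using hsur
  have key : ∀ e ∈ Dens_A K Λ M * Dens_F Φ, e v₃ = 0 → c (e v₂) • e' v₁ = e v₁ := by
    intro e he h
    have h1 : (Dens_r (K := K) (M := M) (c (e v₂)) * e' - e) v₂ = 0 := by
      rw [LinearMap.sub_apply, Module.End.mul_apply, Dens_r_apply, hcu, sub_self]
    have h2 : (Dens_r (K := K) (M := M) (c (e v₂)) * e' - e) v₃ = 0 := by
      rw [LinearMap.sub_apply, Module.End.mul_apply, Dens_r_apply, e3, h, smul_zero, sub_self]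
    have h4 := hcon' _ (Submodule.sub_mem _ (Dens3b_r_mul Φ _ he') he) h1 h2
    rw [LinearMap.sub_apply, Module.End.mul_apply, Dens_r_apply, sub_eq_zero] at h4
    exact h4
  let δ : Module.End Λ M :=
    { toFun := fun y => c y • e' v₁
      map_add' := by
        intro x y
        have h1 : Dens_r (K := K) (M := M) (c x) * e' + Dens_r (c y) * e' ∈
            Dens_A K Λ M * Dens_F Φ :=
          Submodule.add_mem _ (Dens3b_r_mul Φ _ he') (Dens3b_r_mul Φ _ he')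
        have h4 := key _ h1 (by
          rw [LinearMap.add_apply, Module.End.mul_apply, Module.End.mul_apply, e3, map_zero,
            map_zero, add_zero])
        rw [LinearMap.add_apply, LinearMap.add_apply, Module.End.mul_apply, Module.End.mul_apply,
          Module.End.mul_apply, Module.End.mul_apply, Dens_r_apply, Dens_r_apply, Dens_r_apply,
          Dens_r_apply, hcu, hcu] at h4
        exact h4
      map_smul' := by
        intro a x
        have h4 := key _ (Dens3b_r_mul Φ (a * c x) he') (by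
          rw [Module.End.mul_apply, e3, map_zero])
        rw [Module.End.mul_apply, Module.End.mul_apply, Dens_r_apply, Dens_r_apply, mul_smul,
          mul_smul, hcu] at h4
        exact h4 }
  have hδ : δ ∈ Φ := by
    refine hΦ δ fun d hd => LinearMap.ext fun x => ?_
    have h4 := key _ (Dens3b_i_mul hd (Dens3b_r_mul Φ (c x) he')) (by
      rw [Module.End.mul_apply, Module.End.mul_apply, e3, map_zero, map_zero])
    have h5 : (Dens_i (K := K) d * (Dens_r (c x) * e') : Module.End K M) v₂ = d x := by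
      show d (c x • e' v₂) = d x
      rw [hcu]
    rw [h5] at h4
    show d (c x • e' v₁) = c (d x) • e' v₁
    rw [h4]
    rfl
  obtain ⟨e, he, h5, h6⟩ := Dens_two hΦ (v₁ := v₁ - δ v₂) h3 (by
    intro d hd h
    apply h123 δ hδ d hd
    rw [h, add_sub_cancel])
  apply h6
  rw [map_sub, Dens3b_comm hc hδ he, sub_eq_zero]
  exact (key e he h5).symm

theorem Dens3b_inv' [IsSimpleModule Λ M] {Φ : Subalgebra K (Module.End Λ M)}
    (hΦ : ∀ d : Module.End Λ M, (∀ a ∈ Φ, a * d = d * a) → d ∈ Φ)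
    (hc : ∀ a ∈ Φ, ∀ b ∈ Φ, a * b = b * a)
    {d : Module.End Λ M} (hd : d ∈ Φ) {x y : M} (hy : y ≠ 0) (h : d x = y) :
    ∃ e ∈ Φ, e y = x := by
  have h0 : d ≠ 0 := by
    rintro rfl
    exact hy h.symm
  obtain ⟨e, he, h1⟩ := Dens_inv hΦ hc hd h0
  exact ⟨e, he, by rw [← h, h1]⟩

/-- the three operators of an independent triple -/
theorem Dens3b_triple [IsSimpleModule Λ M] {Φ : Subalgebra K (Module.End Λ M)}
    (hΦ : ∀ d : Module.End Λ M, (∀ a ∈ Φ, a * d = d * a) → d ∈ Φ)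
    (hc : ∀ a ∈ Φ, ∀ b ∈ Φ, a * b = b * a)
    {x v₂ v₃ : M} (hx : x ≠ 0) (h2 : ∀ d ∈ Φ, d x ≠ v₂)
    (h3 : ∀ d ∈ Φ, ∀ d' ∈ Φ, d x + d' v₂ ≠ v₃) :
    (∃ e ∈ Dens_A K Λ M * Dens_F Φ, e v₂ = 0 ∧ e v₃ = 0 ∧ e x ≠ 0) ∧
    (∃ e ∈ Dens_A K Λ M * Dens_F Φ, e x = 0 ∧ e v₃ = 0 ∧ e v₂ ≠ 0) ∧
    (∃ e ∈ Dens_A K Λ M * Dens_F Φ, e x = 0 ∧ e v₂ = 0 ∧ e v₃ ≠ 0) := by
  have hv2 : v₂ ≠ 0 := by
    rintro rfl
    exact h2 0 Φ.zero_mem rfl
  have hv3 : v₃ ≠ 0 := by
    rintro rfl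
    refine h3 0 Φ.zero_mem 0 Φ.zero_mem ?_
    rw [LinearMap.zero_apply, LinearMap.zero_apply, add_zero]
  have hinv : ∀ d' ∈ Φ, d' ≠ 0 → ∀ d ∈ Φ, ∀ y z : M, d y + d' v₃ = z →
      ∃ e ∈ Φ, ∃ f ∈ Φ, e z + f y = v₃ := by
    intro d' hd' h0 d hd y z h
    obtain ⟨e, he, h1⟩ := Dens_inv hΦ hc hd' h0
    refine ⟨e, he, -(e * d), Φ.neg_mem (Φ.mul_mem he hd), ?_⟩
    rw [← h, map_add, h1, LinearMap.neg_apply, Module.End.mul_apply]
    abel
  refine ⟨Dens3b_three hΦ hc hv3 ?_ ?_, Dens3b_three hΦ hc hv3 ?_ ?_,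
    Dens3b_three hΦ hc hv2 ?_ ?_⟩
  · intro d hd h
    obtain ⟨e, he, h1⟩ := Dens3b_inv' hΦ hc hd hv2 h
    refine h3 0 Φ.zero_mem e he ?_
    rw [LinearMap.zero_apply, zero_add, h1]
  · intro d hd d' hd' h
    by_cases h0 : d' = 0
    · rw [h0, LinearMap.zero_apply, add_zero] at h
      obtain ⟨e, he, h1⟩ := Dens3b_inv' hΦ hc hd hx h
      exact h2 e he h1
    · obtain ⟨e, he, f, hf, h1⟩ := hinv d' hd' h0 d hd v₂ x h
      exact h3 e he f hf h1
  · intro d hd h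
    obtain ⟨e, he, h1⟩ := Dens3b_inv' hΦ hc hd hx h
    refine h3 e he 0 Φ.zero_mem ?_
    rw [LinearMap.zero_apply, add_zero, h1]
  · intro d hd d' hd' h
    by_cases h0 : d' = 0
    · rw [h0, LinearMap.zero_apply, add_zero] at h
      exact h2 d hd h
    · obtain ⟨e, he, f, hf, h1⟩ := hinv d' hd' h0 d hd x v₂ h
      exact h3 f hf e he (by rw [add_comm]; exact h1)
  · intro d hd h
    obtain ⟨e, he, h1⟩ := Dens3b_inv' hΦ hc hd hx h
    exact h2 e he h1
  · intro d hd d' hd' h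
    exact h3 d hd d' hd' h

/-- an independent triple gives the identities of the three by three matrices -/
theorem Dens3b_sat [Infinite K] (S : Set (FreeAlgebra K ℕ)) (B : Submodule K Λ)
    (hl : ∀ a, ∀ b ∈ B, a * b ∈ B) (hr : ∀ a, ∀ b ∈ B, b * a ∈ B) [IsSimpleModule Λ M]
    (hB : ∀ f ∈ S, ∀ w : ℕ → Λ, (∀ i, w i ∈ B) → ∀ x : M, FreeAlgebra.lift K w f • x = 0)
    {Φ : Subalgebra K (Module.End Λ M)}
    (hΦ : ∀ d : Module.End Λ M, (∀ a ∈ Φ, a * d = d * a) → d ∈ Φ)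
    (hc : ∀ a ∈ Φ, ∀ b ∈ Φ, a * b = b * a)
    (hBM : ∃ b₁ ∈ B, ∃ m : M, b₁ • m ≠ 0)
    {x v₂ v₃ : M} (hx : x ≠ 0) (h2 : ∀ d ∈ Φ, d x ≠ v₂)
    (h3 : ∀ d ∈ Φ, ∀ d' ∈ Φ, d x + d' v₂ ≠ v₃) : Satisfies S (Matrix (Fin 3) (Fin 3) K) := by
  obtain ⟨b₁, hb₁, m, hm⟩ := hBM
  have hsur : ∀ v : M, v ≠ 0 → ∀ y : M, ∃ a : Λ, a • v = y := fun v hv y =>
    IsSimpleModule.toSpanSingleton_surjective Λ hv y
  have hBu : ∀ u : M, u ≠ 0 → ∀ y : M, ∃ β ∈ B, β • u = y := by
    intro u hu y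
    obtain ⟨a, ha⟩ := hsur u hu m
    obtain ⟨a', ha'⟩ := hsur _ hm y
    refine ⟨a' * (b₁ * a), hl _ _ (hr _ _ hb₁), ?_⟩
    rw [mul_smul, mul_smul, ha, ha']
  obtain ⟨⟨e₁, he₁, h12, h13, h11⟩, ⟨e₂, he₂, h21, h23, h22⟩, ⟨e₃, he₃, h31, h32, h33⟩⟩ :=
    Dens3b_triple hΦ hc hx h2 h3
  have m1 : ∀ β ∈ B, Dens_r (K := K) (M := M) β ∈ Dens_B M B * Dens_F Φ := by
    intro β hβ
    have h5 : Dens_r (K := K) (M := M) β ∈ Dens_B M B := ⟨β, hβ, rfl⟩
    have := Submodule.mul_mem_mul h5 (Dens_one_mem_F Φ)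
    rwa [mul_one] at this
  have hval : ∀ y z t : M, ∃ γ ∈ Dens_B M B * Dens_F Φ, γ x = y ∧ γ v₂ = z ∧ γ v₃ = t := by
    intro y z t
    obtain ⟨β₁, hβ₁, g₁⟩ := hBu _ h11 y
    obtain ⟨β₂, hβ₂, g₂⟩ := hBu _ h22 z
    obtain ⟨β₃, hβ₃, g₃⟩ := hBu _ h33 t
    refine ⟨Dens_r β₁ * e₁ + Dens_r β₂ * e₂ + Dens_r β₃ * e₃,
      Submodule.add_mem _ (Submodule.add_mem _
      (Dens_BL hr Φ (Submodule.mul_mem_mul (m1 _ hβ₁) he₁))
      (Dens_BL hr Φ (Submodule.mul_mem_mul (m1 _ hβ₂) he₂)))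
      (Dens_BL hr Φ (Submodule.mul_mem_mul (m1 _ hβ₃) he₃)), ?_, ?_, ?_⟩
    · show β₁ • e₁ x + β₂ • e₂ x + β₃ • e₃ x = y
      rw [h21, h31, smul_zero, smul_zero, add_zero, add_zero, g₁]
    · show β₁ • e₁ v₂ + β₂ • e₂ v₂ + β₃ • e₃ v₂ = z
      rw [h12, h32, smul_zero, smul_zero, add_zero, zero_add, g₂]
    · show β₁ • e₁ v₃ + β₂ • e₂ v₃ + β₃ • e₃ v₃ = t
      rw [h13, h23, smul_zero, smul_zero, add_zero, zero_add, g₃]
  intro f hf
  have haug : FreeAlgebra.lift K (fun _ : ℕ => (0 : K)) f = 0 := by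
    have h1 := hB f hf (fun _ => 0) (fun _ => B.zero_mem) x
    have h2 : (Algebra.ofId K Λ).comp (FreeAlgebra.lift K (fun _ : ℕ => (0 : K))) =
        FreeAlgebra.lift K (fun _ : ℕ => (0 : Λ)) := by
      refine FreeAlgebra.hom_ext (funext fun i => ?_)
      simp
    rw [← h2] at h1
    have h3 : algebraMap K Λ (FreeAlgebra.lift K (fun _ : ℕ => (0 : K)) f) • x = 0 := h1
    rw [algebraMap_smul] at h3
    exact (smul_eq_zero.1 h3).resolve_right hx
  intro w
  refine Dens_identity f w haug ?_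
  have hch : ∀ i, ∃ γ ∈ Dens_B M B * Dens_F Φ,
      γ x = w i 0 0 • x + w i 1 0 • v₂ + w i 2 0 • v₃ ∧
      γ v₂ = w i 0 1 • x + w i 1 1 • v₂ + w i 2 1 • v₃ ∧
      γ v₃ = w i 0 2 • x + w i 1 2 • v₂ + w i 2 2 • v₃ := fun i => hval _ _ _
  choose γ hγ hγ1 hγ2 hγ3 using hch
  have hz : FreeAlgebra.lift K γ f = 0 := by
    refine scalar_ext_comm f (Dens_B M B) (Dens_F Φ) ?_ ?_ ?_ γ hγ
    · rintro _ ⟨d, hd, rfl⟩ _ ⟨e, he, rfl⟩
      show Dens_i (K := K) d * Dens_i e = Dens_i e * Dens_i d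
      rw [← map_mul, ← map_mul, hc d hd e he]
    · rintro _ ⟨a, ha, rfl⟩ _ ⟨e, he, rfl⟩
      exact (Dens_comm a e).symm
    · intro q hq
      choose β hβ hβ' using hq
      have h1 : (Dens_r (K := K) (M := M)).comp (FreeAlgebra.lift K β) = FreeAlgebra.lift K q := by
        refine FreeAlgebra.hom_ext (funext fun i => ?_)
        simp only [AlgHom.coe_comp, Function.comp_apply, FreeAlgebra.lift_ι_apply]
        exact hβ' i
      rw [← h1]
      refine LinearMap.ext fun y => ?_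
      exact hB f hf β hβ y
  let T : (Fin 3 → K) →ₗ[K] M :=
    { toFun := fun c => c 0 • x + c 1 • v₂ + c 2 • v₃
      map_add' := by
        intro c c'
        simp only [Pi.add_apply, add_smul]
        abel
      map_smul' := by
        intro k c
        simp only [Pi.smul_apply, smul_eq_mul, mul_smul, smul_add, RingHom.id_apply] }
  have hTinj : ∀ c, T c = 0 → c = 0 := by
    intro c hcc
    have h1 : c 0 • x + c 1 • v₂ + c 2 • v₃ = 0 := hcc
    have q0 : c 0 = 0 := by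
      have h4 := congrArg e₁ h1
      rw [map_add, map_add, map_smul, map_smul, map_smul, h12, h13, smul_zero, smul_zero,
        add_zero, add_zero, map_zero] at h4
      exact (smul_eq_zero.1 h4).resolve_right h11
    have q1 : c 1 = 0 := by
      have h4 := congrArg e₂ h1
      rw [map_add, map_add, map_smul, map_smul, map_smul, h21, h23, smul_zero, smul_zero,
        add_zero, zero_add, map_zero] at h4
      exact (smul_eq_zero.1 h4).resolve_right h22
    have q2 : c 2 = 0 := by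
      have h4 := congrArg e₃ h1
      rw [map_add, map_add, map_smul, map_smul, map_smul, h31, h32, smul_zero, smul_zero,
        zero_add, zero_add, map_zero] at h4
      exact (smul_eq_zero.1 h4).resolve_right h33
    funext i
    fin_cases i
    · exact q0
    · exact q1
    · exact q2
  have hint : ∀ g : FreeAlgebra K ℕ, ∀ c : Fin 3 → K,
      (FreeAlgebra.lift K γ g) (T c) = T ((FreeAlgebra.lift K w g).mulVec c) := by
    intro g
    induction g using FreeAlgebra.induction with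
    | grade0 r =>
      intro c
      rw [AlgHom.commutes, AlgHom.commutes, Module.algebraMap_end_apply,
        Algebra.algebraMap_eq_smul_one, Matrix.smul_mulVec, Matrix.one_mulVec, map_smul]
    | grade1 i =>
      intro c
      rw [FreeAlgebra.lift_ι_apply, FreeAlgebra.lift_ι_apply]
      show γ i (c 0 • x + c 1 • v₂ + c 2 • v₃) =
        (w i).mulVec c 0 • x + (w i).mulVec c 1 • v₂ + (w i).mulVec c 2 • v₃
      rw [map_add, map_add, map_smul, map_smul, map_smul, hγ1, hγ2, hγ3]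
      simp only [Matrix.mulVec, dotProduct, Fin.sum_univ_three, add_smul, smul_add, smul_smul]
      rw [mul_comm (c 0), mul_comm (c 0), mul_comm (c 0), mul_comm (c 1), mul_comm (c 1),
        mul_comm (c 1), mul_comm (c 2), mul_comm (c 2), mul_comm (c 2)]
      abel
    | mul g g' h1 h2 =>
      intro c
      rw [map_mul, map_mul, Module.End.mul_apply, h2, h1, Matrix.mulVec_mulVec]
    | add g g' h1 h2 =>
      intro c
      rw [map_add, map_add, LinearMap.add_apply, h1, h2, Matrix.add_mulVec, map_add]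
  have hzero : ∀ c : Fin 3 → K, (FreeAlgebra.lift K w f).mulVec c = 0 := by
    intro c
    apply hTinj
    rw [← hint, hz, LinearMap.zero_apply]
  refine Matrix.ext_of_mulVec_single fun i => ?_
  rw [hzero, Matrix.zero_mulVec]

/-- a commutative subalgebra is a commutative ring -/
@[reducible] def Dens3b_cr (Φ : Subalgebra K (Module.End Λ M))
    (hc : ∀ a ∈ Φ, ∀ b ∈ Φ, a * b = b * a) : CommRing Φ :=
  { (inferInstance : Ring Φ) with
    mul_comm := fun a b => Subtype.ext (hc a a.2 b b.2) }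

/-- the case of two generators, abstract form -/
theorem Dens3b_gen' [Infinite K] {C : Type w} [CommRing C] [Algebra K C] [Module C M]
    [IsScalarTower K C M] [SMulCommClass Λ C M] (e : Fin 2 → M)
    (hsp : Submodule.span C (Set.range e) = ⊤)
    {X : Type} {g : FreeAlgebra K X} (hg : g ∈ J2 K X) (v : X → Λ) (x : M) :
    FreeAlgebra.lift K v g • x = 0 := by
  have h1 := J2_end_two (K := K) (C := C) e hsp hg
    (fun i => Algebra.lsmul K C M (v i)) x
  have h2 : (Algebra.lsmul K C M : Λ →ₐ[K] Module.End C M).comp (FreeAlgebra.lift K v) =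
      FreeAlgebra.lift K (fun i => Algebra.lsmul K C M (v i)) := by
    refine FreeAlgebra.hom_ext (funext fun i => ?_)
    simp
  rw [← h2] at h1
  exact h1

/-- the case of two generators -/
theorem Dens3b_gen [Infinite K] {Φ : Subalgebra K (Module.End Λ M)}
    (hc : ∀ a ∈ Φ, ∀ b ∈ Φ, a * b = b * a) (e : Fin 2 → M)
    (he : ∀ y : M, ∃ d ∈ Φ, ∃ d' ∈ Φ, d (e 0) + d' (e 1) = y)
    {X : Type} {g : FreeAlgebra K X} (hg : g ∈ J2 K X) (v : X → Λ) (x : M) :
    FreeAlgebra.lift K v g • x = 0 := by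
  let i1 : CommRing Φ := Dens3b_cr Φ hc
  let i3 : @Module Φ M i1.toCommSemiring.toSemiring _ :=
    Module.compHom M (Φ.val.toRingHom : Φ →+* Module.End Λ M)
  refine @Dens3b_gen' K _ Λ _ _ M _ _ _ _ _ Φ i1 (Subalgebra.algebra Φ) i3 ?_ ?_ e ?_ X g hg v x
  · exact ⟨fun k d y => rfl⟩
  · exact ⟨fun a d y => (d.1.map_smul a y).symm⟩
  · rw [eq_top_iff]
    intro y _
    obtain ⟨d, hd, d', hd', h⟩ := he y
    rw [← h]
    refine Submodule.add_mem _ ?_ ?_
    · exact Submodule.smul_mem _ (⟨d, hd⟩ : Φ) (Submodule.subset_span ⟨0, rfl⟩)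
    · exact Submodule.smul_mem _ (⟨d', hd'⟩ : Φ) (Submodule.subset_span ⟨1, rfl⟩)

end

/-- (T1b)
PROOF. Adapt `Dens_aux` / `commute_on_simple` in N/Density.lean (nonmatrix case: there two independent vectors give `M_2(K)`).
Let `Φ` be a maximal commutative subalgebra of `Module.End Λ M` (`exists_maximal_comm`); it is a field (`Dens_inv`). If
there are three vectors of `M` which are linearly independent over `Φ`, then as in `Dens_aux` (Jacobson density for the ring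
generated by `Λ` and `Φ`, which has commutant `Φ`) for every `A ∈ M_3(K)` some element of `B Φ` acts on them as `A`, so
`S` holds in `M_3(K)`, a contradiction. Otherwise `M` is spanned over `Φ` by two elements and the elements of `B` (of `Λ`)
act by `Φ`-linear maps; `J2_end_two` with `C = Φ`. If `B M = 0` the claim is clear (`g` has no constant term). -/
theorem J2_on_simple {K : Type u} [Field K] [Infinite K] (S : Set (FreeAlgebra K ℕ))
    (hS : ¬ Satisfies S (Matrix (Fin 3) (Fin 3) K))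
    {Λ : Type v} [Ring Λ] [Algebra K Λ] (B : Submodule K Λ)
    (hl : ∀ a, ∀ b ∈ B, a * b ∈ B) (hr : ∀ a, ∀ b ∈ B, b * a ∈ B)
    {M : Type w} [AddCommGroup M] [Module Λ M] [IsSimpleModule Λ M]
    (hB : ∀ f ∈ S, ∀ w : ℕ → Λ, (∀ i, w i ∈ B) → ∀ x : M, FreeAlgebra.lift K w f • x = 0)
    {X : Type} {g : FreeAlgebra K X} (hg : g ∈ J2 K X) (v : X → Λ) (hv : ∀ i, v i ∈ B) (x : M) :
    FreeAlgebra.lift K v g • x = 0 := by
  let _ : Module K M := Module.compHom M (algebraMap K Λ)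
  have _ : IsScalarTower K Λ M := ⟨fun k a y => by
    rw [Algebra.smul_def, mul_smul]
    rfl⟩
  obtain ⟨Φ, hc, hΦ⟩ := exists_maximal_comm K (Module.End Λ M)
  by_cases hx : x = 0
  · rw [hx, smul_zero]
  by_cases hBM : ∃ b₁ ∈ B, ∃ m : M, b₁ • m ≠ 0
  swap
  · have h0 : ∀ b₁ ∈ B, ∀ m : M, b₁ • m = 0 := by
      intro b₁ h1 m
      by_contra h2
      exact hBM ⟨b₁, h1, m, h2⟩
    have h1 : (Dens_r (K := K) (M := M)).comp (FreeAlgebra.lift K v) =
        (Algebra.ofId K (Module.End K M)).comp (FreeAlgebra.lift K (fun _ : X => (0 : K))) := by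
      refine FreeAlgebra.hom_ext (funext fun i => LinearMap.ext fun y => ?_)
      simp only [AlgHom.coe_comp, Function.comp_apply, FreeAlgebra.lift_ι_apply, map_zero,
        LinearMap.zero_apply]
      exact h0 (v i) (hv i) y
    have h2 : FreeAlgebra.lift K (fun _ : X => (0 : K)) g = 0 := by
      have h3 : (Algebra.ofId K (Matrix (Fin 2) (Fin 2) K)).comp
          (FreeAlgebra.lift K (fun _ : X => (0 : K))) =
          FreeAlgebra.lift K (fun _ : X => (0 : Matrix (Fin 2) (Fin 2) K)) := by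
        refine FreeAlgebra.hom_ext (funext fun i => ?_)
        simp
      have h4 := hg (fun _ => 0)
      rw [← h3] at h4
      have h5 : algebraMap K (Matrix (Fin 2) (Fin 2) K)
          (FreeAlgebra.lift K (fun _ : X => (0 : K)) g) = 0 := h4
      exact (map_eq_zero_iff _ (algebraMap K (Matrix (Fin 2) (Fin 2) K)).injective).1 h5
    have h6 := DFunLike.congr_fun h1 g
    have h7 : Dens_r (K := K) (M := M) (FreeAlgebra.lift K v g) =
        algebraMap K (Module.End K M) (FreeAlgebra.lift K (fun _ : X => (0 : K)) g) := h6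
    rw [h2, map_zero] at h7
    have h8 := LinearMap.congr_fun h7 x
    exact h8
  by_cases hone : ∀ y : M, ∃ d ∈ Φ, d x = y
  · refine Dens3b_gen hc ![x, x] (fun y => ?_) hg v x
    obtain ⟨d, hd, h⟩ := hone y
    refine ⟨d, hd, 0, Φ.zero_mem, ?_⟩
    rw [LinearMap.zero_apply, add_zero]
    exact h
  · push Not at hone
    obtain ⟨v₂, h2⟩ := hone
    by_cases htwo : ∀ y : M, ∃ d ∈ Φ, ∃ d' ∈ Φ, d x + d' v₂ = y
    · exact Dens3b_gen hc ![x, v₂] htwo hg v x
    · push Not at htwo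
      obtain ⟨v₃, h3⟩ := htwo
      exact absurd (Dens3b_sat S B hl hr hB hΦ hc hBM hx h2 h3) hS

end Pool.Agent.H.MP_f5ceca_al.BR
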