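import Pool.Agent.H.MP_f5ceca_al.BR.CoreF
import Pool.Agent.H.MP_f5ceca_al.N.Quot
import Pool.Agent.H.MP_f5ceca_al.N.Nil

/-!
The ideal `DD z w` of the free algebra, and the relations ER, E2' in the free algebra.
-/

namespace Pool.Agent.H.MP_f5ceca_al.BR

open MvPolynomial Function
open Pool.Agent.H.MP_f5ceca_al.N

universe u v

variable {K : Type u} [Field K]

/-- The two-sided ideal generated by all `[h ^ 2, x]`, `[k ^ 2, x]`. -/
def DD (K : Type u) [Field K] {B : Type v} [Ring B] [Algebra K B] (z w : B) : Submodule K B :=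
  Submodule.span K {y | ∃ a x b : B, y = a * br (ch z w ^ 2) x * b ∨ y = a * br (ck z w ^ 2) x * b}

/-- PROOF. `Submodule.span_induction`. -/
theorem DD_idl {B : Type v} [Ring B] [Algebra K B] (z w : B) : IsIdl (DD K z w) := by
  constructor
  · intro a x hx
    induction hx using Submodule.span_induction with
    | mem y hy =>
      obtain ⟨a', x', b', h | h⟩ := hy
      · refine Submodule.subset_span ⟨a * a', x', b', Or.inl ?_⟩
        rw [h]
        simp only [mul_assoc]
      · refine Submodule.subset_span ⟨a * a', x', b', Or.inr ?_⟩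
        rw [h]
        simp only [mul_assoc]
    | zero =>
      rw [mul_zero]
      exact Submodule.zero_mem _
    | add y y' _ _ h h' =>
      rw [mul_add]
      exact Submodule.add_mem _ h h'
    | smul c y _ h =>
      rw [mul_smul_comm]
      exact Submodule.smul_mem _ c h
  · intro a x hx
    induction hx using Submodule.span_induction with
    | mem y hy =>
      obtain ⟨a', x', b', h | h⟩ := hy
      · refine Submodule.subset_span ⟨a', x', b' * a, Or.inl ?_⟩
        rw [h]
        simp only [mul_assoc]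
      · refine Submodule.subset_span ⟨a', x', b' * a, Or.inr ?_⟩
        rw [h]
        simp only [mul_assoc]
    | zero =>
      rw [zero_mul]
      exact Submodule.zero_mem _
    | add y y' _ _ h h' =>
      rw [add_mul]
      exact Submodule.add_mem _ h h'
    | smul c y _ h =>
      rw [smul_mul_assoc]
      exact Submodule.smul_mem _ c h

theorem br_h_mem {B : Type v} [Ring B] [Algebra K B] (z w x : B) : br (ch z w ^ 2) x ∈ DD K z w :=
  Submodule.subset_span ⟨1, x, 1, Or.inl (by rw [one_mul, mul_one])⟩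

theorem br_k_mem {B : Type v} [Ring B] [Algebra K B] (z w x : B) : br (ck z w ^ 2) x ∈ DD K z w :=
  Submodule.subset_span ⟨1, x, 1, Or.inr (by rw [one_mul, mul_one])⟩

/-- `c` is central modulo `DD`. PROOF. `br (h^2 k^2) x = h^2 * br (k^2) x + br (h^2) x * k^2`. -/
theorem br_c_mem {B : Type v} [Ring B] [Algebra K B] (z w x : B) : br (cc z w) x ∈ DD K z w := by
  have h : br (cc z w) x = ch z w ^ 2 * br (ck z w ^ 2) x + br (ch z w ^ 2) x * ck z w ^ 2 := by
    unfold cc br
    noncomm_ring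
  rw [h]
  exact Submodule.add_mem _ ((DD_idl z w).left _ _ (br_k_mem z w x))
    ((DD_idl z w).right _ _ (br_h_mem z w x))

/-- PROOF. Induction on `i`: `br (c^(i+1)) x = c * br (c^i) x + br c x * c^i`. -/
theorem br_c_pow_mem {B : Type v} [Ring B] [Algebra K B] (z w x : B) (i : ℕ) :
    br (cc z w ^ i) x ∈ DD K z w := by
  induction i with
  | zero =>
    have h : br (cc z w ^ 0) x = 0 := by
      unfold br
      rw [pow_zero, one_mul, mul_one, sub_self]
    rw [h]
    exact Submodule.zero_mem _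
  | succ i ih =>
    have h : br (cc z w ^ (i + 1)) x = cc z w * br (cc z w ^ i) x + br (cc z w) x * cc z w ^ i := by
      unfold br
      rw [pow_succ']
      simp only [mul_sub, sub_mul, mul_assoc]
      abel
    rw [h]
    exact Submodule.add_mem _ ((DD_idl z w).left _ _ ih)
      ((DD_idl z w).right _ _ (br_c_mem z w x))

/-- PROOF. `h = [z, w]`, `Aug_left`, `Aug_right`, so `h, k ∈ Aug` and all generators of `DD` are in `Aug`. -/
theorem DD_le_Aug {n : ℕ} (z w : FA K n) (hz : z ∈ Aug K n) : DD K z w ≤ Aug K n := by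
  have hbr : ∀ p q : FA K n, p ∈ Aug K n → br p q ∈ Aug K n := fun p q hp =>
    Submodule.sub_mem _ (Aug_right q hp) (Aug_left q hp)
  have hsq : ∀ p : FA K n, p ∈ Aug K n → p ^ 2 ∈ Aug K n := fun p hp => by
    rw [pow_two]
    exact Aug_left p hp
  have hh : ch z w ∈ Aug K n := hbr z w hz
  have hk : ck z w ∈ Aug K n := hbr _ z hh
  unfold DD
  rw [Submodule.span_le]
  rintro y ⟨a, x, b, h | h⟩
  · rw [SetLike.mem_coe, h]
    exact Aug_right b (Aug_left a (hbr _ x (hsq _ hh)))
  · rw [SetLike.mem_coe, h]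
    exact Aug_right b (Aug_left a (hbr _ x (hsq _ hk)))

theorem FDefs_map_h {B B' : Type v} [Ring B] [Algebra K B] [Ring B'] [Algebra K B'] (π : B →ₐ[K] B')
    (z w a x b : B) : π (a * br (ch z w ^ 2) x * b) = π a * br (ch (π z) (π w) ^ 2) (π x) * π b := by
  unfold ch br
  simp only [map_mul, map_sub, map_pow]

theorem FDefs_map_k {B B' : Type v} [Ring B] [Algebra K B] [Ring B'] [Algebra K B'] (π : B →ₐ[K] B')
    (z w a x b : B) : π (a * br (ck z w ^ 2) x * b) = π a * br (ck (π z) (π w) ^ 2) (π x) * π b := by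
  unfold ck ch br
  simp only [map_mul, map_sub, map_pow]

theorem FDefs_map_le {B B' : Type v} [Ring B] [Algebra K B] [Ring B'] [Algebra K B'] (π : B →ₐ[K] B')
    (z w : B) : (DD K z w).map π.toLinearMap ≤ DD K (π z) (π w) := by
  unfold DD
  rw [Submodule.map_span, Submodule.span_le]
  rintro y ⟨y', ⟨a, x, b, h | h⟩, rfl⟩
  · refine Submodule.subset_span ⟨π a, π x, π b, Or.inl ?_⟩
    rw [h]
    exact FDefs_map_h π z w a x b
  · refine Submodule.subset_span ⟨π a, π x, π b, Or.inr ?_⟩
    rw [h]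
    exact FDefs_map_k π z w a x b

/-- Homomorphic images of `DD`. PROOF. The generators are mapped to generators; `π` is surjective. -/
theorem DD_map {B B' : Type v} [Ring B] [Algebra K B] [Ring B'] [Algebra K B'] (π : B →ₐ[K] B')
    (hπ : Surjective π) (z w : B) : (DD K z w).map π.toLinearMap = DD K (π z) (π w) := by
  refine le_antisymm (FDefs_map_le π z w) ?_
  unfold DD
  rw [Submodule.map_span, Submodule.span_le]
  rintro y ⟨a, x, b, h⟩
  obtain ⟨a', rfl⟩ := hπ a
  obtain ⟨x', rfl⟩ := hπ x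
  obtain ⟨b', rfl⟩ := hπ b
  rcases h with h | h
  · refine Submodule.subset_span ⟨a' * br (ch z w ^ 2) x' * b', ⟨a', x', b', Or.inl rfl⟩, ?_⟩
    rw [h]
    exact FDefs_map_h π z w a' x' b'
  · refine Submodule.subset_span ⟨a' * br (ck z w ^ 2) x' * b', ⟨a', x', b', Or.inr rfl⟩, ?_⟩
    rw [h]
    exact FDefs_map_k π z w a' x' b'

/-- A homomorphism (not necessarily surjective) maps `DD` into `DD`. -/
theorem DD_map_le {B B' : Type v} [Ring B] [Algebra K B] [Ring B'] [Algebra K B'] (π : B →ₐ[K] B')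
    (z w : B) : (DD K z w).map π.toLinearMap ≤ DD K (π z) (π w) :=
  FDefs_map_le π z w

/-- If `I ≥ idn S n` is an ideal of the free algebra then the identities of `S` hold on the image of `Aug` in the
quotient. PROOF. `f ∈ S`, `w i = π (g i)` with `g i ∈ Aug` (`Submodule.mem_map`, choice), `lift w f = π (lift g f)`,
`lift g f ∈ idn S n ≤ I` by `idn_of_mem`. -/
theorem holds_quot {S : Set (FreeAlgebra K ℕ)} {n : ℕ} {B : Type u} [Ring B] [Algebra K B]
    (π : FA K n →ₐ[K] B) (I : Submodule K (FA K n)) (hI : ∀ x, π x = 0 ↔ x ∈ I)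
    (hT : idn S n ≤ I) : Holds S ((Aug K n).map π.toLinearMap) := by
  intro f hf w hw
  have hw' : ∀ i, ∃ g, g ∈ Aug K n ∧ π g = w i := fun i => by
    obtain ⟨g, hg, hgw⟩ := hw i
    exact ⟨g, hg, hgw⟩
  choose g hg hgw using hw'
  have h1 : FreeAlgebra.lift K w = π.comp (FreeAlgebra.lift K g) := by
    apply FreeAlgebra.hom_ext
    funext i
    simp only [comp_apply, AlgHom.comp_apply, FreeAlgebra.lift_ι_apply, hgw]
  rw [h1, AlgHom.comp_apply, hI]
  exact hT (idn_of_mem S n hf g hg)

/-- PROOF. `π` surjective. -/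
theorem idl_map {B B' : Type v} [Ring B] [Algebra K B] [Ring B'] [Algebra K B'] (π : B →ₐ[K] B')
    (hπ : Surjective π) {P : Submodule K B} (hP : IsIdl P) : IsIdl (P.map π.toLinearMap) := by
  constructor
  · rintro a x ⟨x', hx', rfl⟩
    obtain ⟨a', rfl⟩ := hπ a
    exact ⟨a' * x', hP.left a' x' hx', map_mul π a' x'⟩
  · rintro a x ⟨x', hx', rfl⟩
    obtain ⟨a', rfl⟩ := hπ a
    exact ⟨x' * a', hP.right a' x' hx', map_mul π x' a'⟩

/-- ER in the free algebra modulo `T`. PROOF. `exists_quotient` for `idn S n`, `holds_quot`, `idl_map`, `E.er`, `map_sev`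
(and `map_sub`; rewrite `fun i => π (![a, x, w, b] i)` as `![π a, π x, π w, π b]` by `funext`, `fin_cases`). -/
theorem er_idn {S : Set (FreeAlgebra K ℕ)} {M : ℕ} (E : EBlock S M) {n : ℕ} (z x w a b : FA K n)
    (hz : z ∈ Aug K n) (hx : x ∈ Aug K n) (hw : w ∈ Aug K n) (ha : a ∈ Aug K n)
    (hb : b ∈ Aug K n) (M' : ℕ) (hM : M ≤ M') :
    sev z ![a, x, w, b] (polU K M') - sev z ![a, w, x, b] (polU K M') ∈ idn S n := by
  obtain ⟨B, _, _, π, hπ, hI⟩ := exists_quotient (idn S n) (fun a z hz => idn_left S n a hz)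
    (fun a z hz => idn_right S n a hz)
  have hP : IsIdl (Aug K n) := ⟨fun a x hx => Aug_left a hx, fun a x hx => Aug_right a hx⟩
  have hP' := idl_map π hπ hP
  have hS := holds_quot π (idn S n) hI le_rfl
  have key := E.er _ hP' hS M' hM (π z) ⟨z, hz, rfl⟩ (π x) ⟨x, hx, rfl⟩ (π w) ⟨w, hw, rfl⟩
    (π a) ⟨a, ha, rfl⟩ (π b) ⟨b, hb, rfl⟩
  rw [← hI, map_sub, map_sev, map_sev, sub_eq_zero]
  have h1 : (fun i => π (![a, x, w, b] i)) = ![π a, π x, π w, π b] := by
    funext i
    fin_cases i <;> rfl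
  have h2 : (fun i => π (![a, w, x, b] i)) = ![π a, π w, π x, π b] := by
    funext i
    fin_cases i <;> rfl
  rw [h1, h2]
  exact key

end Pool.Agent.H.MP_f5ceca_al.BR
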