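import Pool.Agent.H.MP_f5ceca_al.BR.T6a

/-!
(T6) `M C^t M ≤ T`.
-/

namespace Pool.Agent.H.MP_f5ceca_al.BR

open MvPolynomial Function
open Pool.Agent.H.MP_f5ceca_al.N

universe u v

variable {K : Type u} [Field K]

theorem T6b_raise {B : Type v} [Ring B] [Algebra K B] {I : Submodule K B} (hI : IsIdl I)
    (c x : B) {i j : ℕ} (hij : i ≤ j) (h : c ^ i * x * c ^ i ∈ I) : c ^ j * x * c ^ j ∈ I := by
  have h1 : c ^ j * x * c ^ j = c ^ (j - i) * (c ^ i * x * c ^ i) * c ^ (j - i) := by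
    have h2 : c ^ j = c ^ (j - i) * c ^ i := (pow_sub_mul_pow c hij).symm
    have h3 : c ^ j = c ^ i * c ^ (j - i) := (pow_mul_pow_sub c hij).symm
    conv_lhs =>
      congr
      · rw [h2]
      · rw [h3]
    simp only [mul_assoc]
  rw [h1]
  exact hI.right _ _ (hI.left _ _ h)

/-- (T6a)
PROOF. `k` = the maximum of the numbers of `t4_MH` for `H` and for the two identities of `DD_le_MH` (and `c^k m c^k ∈ ideal` implies
the same for larger `k`), `L` from `DD_nil`, `a` from `t5` for `N := MH H n ⊔ DD K z w`. `T5Data`: `hk` is additive in `m`. -/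
theorem t6a [CharZero K] {S : Set (FreeAlgebra K ℕ)} {M : ℕ} (E : EBlock S M) {d : ℕ}
    {H : Set (FA K d)} (hf : H.Finite) (hH : ∀ g ∈ H, g ∈ J2 K (Fin d)) (n : ℕ) :
    ∃ a : ℕ, ∀ z w : FA K n, z ∈ Aug K n → w ∈ Aug K n → ∀ m ∈ MH H n, ∀ m' ∈ MH H n,
      m * cc z w ^ a * m' ∈ idn S n := by
  obtain ⟨k1, hk1⟩ := t4_MH E hf hH
  have hf2 : ({br (ch (xx K (0 : Fin 3)) (xx K 1) ^ 2) (xx K 2),
      br (ck (xx K (0 : Fin 3)) (xx K 1) ^ 2) (xx K 2)} : Set (FA K 3)).Finite :=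
    Set.toFinite _
  obtain ⟨k2, hk2⟩ := t4_MH E hf2 (by
    rintro g (rfl | hg)
    · exact h2_mem_J2
    · rw [Set.mem_singleton_iff.1 hg]
      exact k2_mem_J2)
  obtain ⟨L, hL⟩ := DD_nil E n
  obtain ⟨a, ha⟩ := t5.{u} M (max k1 k2) L
  refine ⟨a, fun z w hz hw m hm m' hm' => ?_⟩
  have hT : IsIdl (idn S n) := ⟨fun b x hx => idn_left S n b hx, fun b x hx => idn_right S n b hx⟩
  have hE : IsIdl (DD K z w * DD K z w ⊔ idn S n) :=
    T4a_sup (T4a_mul (DD_idl z w) (DD_idl z w)) hT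
  have hD : T5Data S M (max k1 k2) z w (MH H n ⊔ DD K z w) :=
    { E := E
      hz := hz
      hw := hw
      hN := T4a_sup (MH_idl H n) (DD_idl z w)
      hNA := sup_le (MH_le_Aug hH n) (DD_le_Aug z w hz)
      hDN := le_sup_right
      hk := by
        intro y hy
        obtain ⟨y1, hy1, y2, hy2, rfl⟩ := Submodule.mem_sup.1 hy
        rw [mul_add, add_mul]
        exact add_mem (T6b_raise hE _ _ (le_max_left _ _) (hk1 n z w hz hw y1 hy1))
          (T6b_raise hE _ _ (le_max_right _ _) (hk2 n z w hz hw y2 (DD_le_MH z w hz hw hy2))) }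
  exact ha hD (hL z w hz hw) m (Submodule.mem_sup_left hm) m' (Submodule.mem_sup_left hm')

theorem T6b_cc [CharZero K] : cc (!![0, 1; 1, 0] : Matrix (Fin 2) (Fin 2) K) !![1, 0; 0, 0] =
    algebraMap K (Matrix (Fin 2) (Fin 2) K) (-4) := by
  have h1 : ch (!![0, 1; 1, 0] : Matrix (Fin 2) (Fin 2) K) !![1, 0; 0, 0] = !![0, -1; 1, 0] := by
    unfold ch br
    ext i j
    fin_cases i <;> fin_cases j <;> simp
  have h2 : ck (!![0, 1; 1, 0] : Matrix (Fin 2) (Fin 2) K) !![1, 0; 0, 0] = !![-2, 0; 0, 2] := by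
    unfold ck
    rw [h1]
    unfold br
    ext i j
    fin_cases i <;> fin_cases j <;> norm_num
  unfold cc
  rw [h1, h2, pow_two, pow_two, Algebra.algebraMap_eq_smul_one]
  ext i j
  fin_cases i <;> fin_cases j <;> simp <;> norm_num

theorem T6b_map_cc {B B' : Type*} [Ring B] [Algebra K B] [Ring B'] [Algebra K B'] (f : B →ₐ[K] B')
    (z w : B) (a : ℕ) : f (cc z w ^ a) = cc (f z) (f w) ^ a := by
  simp only [cc, ch, ck, br, map_mul, map_sub, map_pow]

/-- `c^a` is not an identity of `M_2(K)`.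
PROOF. `z = E 0 1 + E 1 0`, `w = E 0 0`: `h = E 1 0 - E 0 1`, `h^2 = -1`, `k = h z - z h = 2 (E 1 1 - E 0 0)`, `k^2 = 4`, `c = -4`. (`Satisfies` in the
unitization: `Unitization.inr` is injective and multiplicative.) -/
theorem c_not {S : Set (FreeAlgebra K ℕ)} [CharZero K] (a : ℕ) :
    ¬ Satisfies (S ∪ {cc (FreeAlgebra.ι K 0) (FreeAlgebra.ι K 1) ^ a})
      (Matrix (Fin 2) (Fin 2) K) := by
  intro h
  let v : ℕ → Matrix (Fin 2) (Fin 2) K := fun i =>
    if i = 0 then !![0, 1; 1, 0] else !![1, 0; 0, 0]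
  have h1 := h _ (Or.inr (Set.mem_singleton _)) v
  let φ : Unitization K (Matrix (Fin 2) (Fin 2) K) →ₐ[K] Matrix (Fin 2) (Fin 2) K :=
    Unitization.lift (NonUnitalAlgHom.id K _)
  have hφ : ∀ x : Matrix (Fin 2) (Fin 2) K, φ (x : Unitization K _) = x := fun x =>
    DFunLike.congr_fun (Unitization.lift.symm_apply_apply (NonUnitalAlgHom.id K _)) x
  have h2 := congrArg φ h1
  rw [map_zero, T6b_map_cc, T6b_map_cc, FreeAlgebra.lift_ι_apply, FreeAlgebra.lift_ι_apply, hφ,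
    hφ] at h2
  have h3 : v 0 = !![0, 1; 1, 0] := rfl
  have h4 : v 1 = !![1, 0; 0, 0] := rfl
  rw [h3, h4, T6b_cc, ← map_pow] at h2
  have h5 : ((-4 : K)) ^ a = 0 :=
    (FaithfulSMul.algebraMap_injective K (Matrix (Fin 2) (Fin 2) K)) (by rw [h2, map_zero])
  exact pow_ne_zero a (by norm_num : (-4 : K) ≠ 0) h5

/-- (T6)
PROOF. `a` from `t6a` (with `a + 1` instead of `a` if `a = 0`; fine for all `a`), `W := {x | ∀ m m' ∈ MH H n, m x m' ∈ T}` is a
two-sided ideal containing `T` (`idn S n`) and all `cc z w ^ a`, `z, w ∈ Aug`. Hence `idn S' n ≤ W`, `S' = S ∪ {c^a}`, by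
`idn_le` (`idn_of_mem` for `S`). `exists_fil_le S' (c_not a) n` gives `t` with `Fil K n t ≤ idn S' n ≤ W`. -/
theorem mcm [CharZero K] {S : Set (FreeAlgebra K ℕ)} {M : ℕ} (E : EBlock S M) {d : ℕ}
    {H : Set (FA K d)} (hf : H.Finite) (hH : ∀ g ∈ H, g ∈ J2 K (Fin d)) (n : ℕ) :
    ∃ t : ℕ, MH H n * Fil K n t * MH H n ≤ idn S n := by
  obtain ⟨a, ha⟩ := t6a E hf hH n
  let W : Submodule K (FA K n) :=
    { carrier := {x | ∀ m ∈ MH H n, ∀ m' ∈ MH H n, m * x * m' ∈ idn S n}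
      zero_mem' := by
        intro m _ m' _
        rw [mul_zero, zero_mul]
        exact zero_mem _
      add_mem' := by
        intro x y hx hy m hm m' hm'
        rw [mul_add, add_mul]
        exact add_mem (hx m hm m' hm') (hy m hm m' hm')
      smul_mem' := by
        intro r x hx m hm m' hm'
        rw [mul_smul_comm, smul_mul_assoc]
        exact Submodule.smul_mem _ r (hx m hm m' hm') }
  have hWm : ∀ x, x ∈ W ↔ ∀ m ∈ MH H n, ∀ m' ∈ MH H n, m * x * m' ∈ idn S n := fun _ => Iff.rfl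
  have hW : IsIdl W :=
    { left := by
        intro b x hx
        rw [hWm] at hx ⊢
        intro m hm m' hm'
        have h1 : m * (b * x) * m' = (m * b) * x * m' := by simp only [mul_assoc]
        rw [h1]
        exact hx _ ((MH_idl H n).right b m hm) m' hm'
      right := by
        intro b x hx
        rw [hWm] at hx ⊢
        intro m hm m' hm'
        have h1 : m * (x * b) * m' = m * x * (b * m') := by simp only [mul_assoc]
        rw [h1]
        exact hx m hm _ ((MH_idl H n).left b m' hm') }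
  obtain ⟨t, ht⟩ := exists_fil_le (S ∪ {cc (FreeAlgebra.ι K 0) (FreeAlgebra.ι K 1) ^ a})
    (c_not a) n
  have h1 : idn (S ∪ {cc (FreeAlgebra.ι K 0) (FreeAlgebra.ι K 1) ^ a}) n ≤ W := by
    refine idn_le hW ?_
    rintro f (hf1 | hf1) g hg
    · intro m _ m' _
      exact idn_right S n m' (idn_left S n m (idn_of_mem S n hf1 g hg))
    · rw [Set.mem_singleton_iff.1 hf1, T6b_map_cc, FreeAlgebra.lift_ι_apply,
        FreeAlgebra.lift_ι_apply, hWm]
      exact ha _ _ (hg 0) (hg 1)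
  refine ⟨t, Submodule.mul_le.2 fun p hp q hq => ?_⟩
  induction hp using Submodule.mul_induction_on' with
  | mem_mul_mem m hm x hx => exact (hWm x).1 (h1 (ht hx)) m hm q hq
  | add x _ y _ hx hy =>
    rw [add_mul]
    exact add_mem hx hy

end Pool.Agent.H.MP_f5ceca_al.BR
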