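import Pool.Agent.H.MP_f5ceca_al.BR.Full1
import Pool.Agent.H.MP_f5ceca_al.BR.T6b

/-!
The result of block BR: `J C^s J ≤ T_n(V)`, `J = T_n(M_2(K))`.
-/

namespace Pool.Agent.H.MP_f5ceca_al.BR

open MvPolynomial Function
open Pool.Agent.H.MP_f5ceca_al.N

universe u v

variable {K : Type u} [Field K] [CharZero K]

theorem Full_fil_top {K : Type u} [Field K] (n m : ℕ) : Fil K n m * ⊤ ≤ Fil K n m :=
  Submodule.mul_le.2 fun _ ha b _ => Fil_right K m b ha

theorem Full_fil_add {K : Type u} [Field K] (n m k : ℕ) :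
    Fil K n (m + k) ≤ Fil K n m * Fil K n k := by
  have h : Fil K n (m + k) = Fil K n m * Com K n ^ k := by
    unfold Fil
    rw [pow_add, mul_assoc]
  rw [h]
  refine nil_mr ?_
  intro x hx
  unfold Fil
  rw [← one_mul x]
  exact Submodule.mul_mem_mul Submodule.mem_top hx

/-- `{x | J x ≤ N, x J ≤ N}` -/
def Full_W {K : Type u} [Field K] {B : Type v} [Ring B] [Algebra K B] (J N : Submodule K B) :
    Submodule K B where
  carrier := {x | ∀ v ∈ J, x * v ∈ N ∧ v * x ∈ N}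
  zero_mem' := by
    intro v _
    rw [mul_zero, zero_mul]
    exact ⟨zero_mem _, zero_mem _⟩
  add_mem' := by
    intro x y hx hy v hv
    rw [mul_add, add_mul]
    exact ⟨add_mem (hx v hv).1 (hy v hv).1, add_mem (hx v hv).2 (hy v hv).2⟩
  smul_mem' := by
    intro r x hx v hv
    rw [mul_smul_comm, smul_mul_assoc]
    exact ⟨Submodule.smul_mem _ r (hx v hv).1, Submodule.smul_mem _ r (hx v hv).2⟩

theorem Full_W_iff {K : Type u} [Field K] {B : Type v} [Ring B] [Algebra K B]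
    {J N : Submodule K B} {x : B} :
    x ∈ Full_W J N ↔ ∀ v ∈ J, x * v ∈ N ∧ v * x ∈ N := Iff.rfl

theorem Full_W_idl {K : Type u} [Field K] {B : Type v} [Ring B] [Algebra K B]
    {J N : Submodule K B} (hJ : IsIdl J) (hN : IsIdl N) : IsIdl (Full_W J N) where
  left := by
    intro a x hx
    rw [Full_W_iff] at hx ⊢
    intro v hv
    constructor
    · rw [mul_assoc]
      exact hN.left a _ (hx v hv).1
    · rw [← mul_assoc]
      exact (hx _ (hJ.right a v hv)).2
  right := by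
    intro a x hx
    rw [Full_W_iff] at hx ⊢
    intro v hv
    constructor
    · rw [mul_assoc]
      exact (hx _ (hJ.left a v hv)).1
    · rw [← mul_assoc]
      exact hN.right a _ (hx v hv).2

/-- **Block BR.**
PROOF. `d, H` from `fin_main`, `t` from `mcm`. `S' := S ∪ {G4 polynomial}` (as in `G4_not`), `k` from `exists_fil_le S' (G4_not S) n`.
`W := {x | ∀ v ∈ J2, x v ∈ MH H n ⊔ T ∧ v x ∈ MH H n ⊔ T}` is a two-sided ideal (`J2` and `MH H n ⊔ T` are ideals) and contains `T` and the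
values of `G4` on `Aug`; so `Fil k ≤ idn S' n ≤ W` by `idn_le`. Hence `J2 * Fil k ≤ MH ⊔ T`, `Fil k * J2 ≤ MH ⊔ T` and with
`Fil (k + t + k) ≤ Fil k * Fil t * Fil k` (`Fil m = ⊤ * Com ^ m`, see N/Basic.lean, N/Nil.lean)
`J2 * Fil (k + t + k) * J2 ≤ (MH ⊔ T) * Fil t * (MH ⊔ T) ≤ MH * Fil t * MH ⊔ T ≤ T`. -/
theorem br_main {S : Set (FreeAlgebra K ℕ)} {M : ℕ} (E : EBlock S M) (n : ℕ) :
    ∃ s : ℕ, J2 K (Fin n) * Fil K n s * J2 K (Fin n) ≤ idn S n := by
  obtain ⟨d, H, hf, hH, hG⟩ := fin_main (K := K) n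
  obtain ⟨t, ht⟩ := mcm E hf hH n
  obtain ⟨k, hk⟩ := exists_fil_le _ (G4_not S) n
  have hT : IsIdl (idn S n) := ⟨fun b x hx => idn_left S n b hx, fun b x hx => idn_right S n b hx⟩
  have hN : IsIdl (MH H n ⊔ idn S n) := T4a_sup (MH_idl H n) hT
  have h1 : idn (S ∪ {G4 (fun i : Fin 4 => FreeAlgebra.ι K (i : ℕ)) (FreeAlgebra.ι K 4)
      (FreeAlgebra.ι K 5)}) n ≤ Full_W (J2 K (Fin n)) (MH H n ⊔ idn S n) := by
    refine idn_le (Full_W_idl J2_idl hN) ?_
    rintro f (hf1 | hf1) g hg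
    · intro v _
      have h2 := idn_of_mem S n hf1 g hg
      exact ⟨Submodule.mem_sup_right (idn_right S n v h2),
        Submodule.mem_sup_right (idn_left S n v h2)⟩
    · have h2 : FreeAlgebra.lift K g f = G4 (fun i : Fin 4 => g (i : ℕ)) (g 4) (g 5) := by
        rw [Set.mem_singleton_iff.1 hf1]
        have h3 := map_G4 (FreeAlgebra.lift K g : FreeAlgebra K ℕ →ₐ[K] FA K n).toRingHom
          (fun i : Fin 4 => FreeAlgebra.ι K (i : ℕ)) (FreeAlgebra.ι K 4) (FreeAlgebra.ι K 5)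
        simpa using h3
      rw [h2]
      intro v hv
      have h4 := hG (fun i : Fin 4 => g (i : ℕ)) (g 4) (g 5) (fun i => hg _) (hg 4) (hg 5) v hv
      exact ⟨Submodule.mem_sup_left h4.1, Submodule.mem_sup_left h4.2⟩
  have h2 : Fil K n k ≤ Full_W (J2 K (Fin n)) (MH H n ⊔ idn S n) := hk.trans h1
  have hl : J2 K (Fin n) * Fil K n k ≤ MH H n ⊔ idn S n :=
    Submodule.mul_le.2 fun v hv x hx => (Full_W_iff.1 (h2 hx) v hv).2
  have hr : Fil K n k * J2 K (Fin n) ≤ MH H n ⊔ idn S n :=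
    Submodule.mul_le.2 fun x hx v hv => (Full_W_iff.1 (h2 hx) v hv).1
  refine ⟨k + t + k, ?_⟩
  have h3 : Fil K n (k + t + k) ≤ Fil K n k * Fil K n t * Fil K n k :=
    (Full_fil_add n (k + t) k).trans (nil_ml (Full_fil_add n k t))
  calc J2 K (Fin n) * Fil K n (k + t + k) * J2 K (Fin n)
      ≤ J2 K (Fin n) * (Fil K n k * Fil K n t * Fil K n k) * J2 K (Fin n) := nil_ml (nil_mr h3)
    _ = (J2 K (Fin n) * Fil K n k) * Fil K n t * (Fil K n k * J2 K (Fin n)) := by
        simp only [mul_assoc]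
    _ ≤ (MH H n ⊔ idn S n) * Fil K n t * (MH H n ⊔ idn S n) :=
        (nil_ml (nil_ml hl)).trans (nil_mr hr)
    _ ≤ idn S n := by
        rw [Submodule.sup_mul, Submodule.sup_mul, Submodule.mul_sup]
        refine sup_le (sup_le ht ?_) ?_
        · exact Submodule.mul_le.2 fun a _ b hb => hT.left a b hb
        · rw [mul_assoc]
          exact Submodule.mul_le.2 fun a ha b _ => hT.right b a ha

end Pool.Agent.H.MP_f5ceca_al.BR
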