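import Pool.Agent.H.MP_f5ceca_al.BR.TSys

/-!
Trace systems: finitely many words generate.
-/

namespace Pool.Agent.H.MP_f5ceca_al.BR

open MvPolynomial Function
open Pool.Agent.H.MP_f5ceca_al.N

universe u v

namespace TSys

variable {K : Type u} [Field K] [CharZero K] {n : ℕ} {V : Type v} [AddCommGroup V] [Module K V]
  {D R : FA K n →ₗ[K] Module.End K V} {g : V}

/-- Linearization of `CH`. PROOF. `CH` for `a + b`, minus `CH` for `a`, minus `CH` for `b`. -/
theorem CH_lin (T : TSys K n D R g) (a b : FA K n) (ha : a ∈ Aug K n) (hb : b ∈ Aug K n) :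
    R a * R b + R b * R a = D a * R b + D b * R a - (D a * D b - D (a * b)) := by
  have h1 := T.CH (a + b) ((Aug K n).add_mem ha hb)
  have h2 := T.CH a ha
  have h3 := T.CH b hb
  have h4 := T.comm b a
  have h5 := T.Dcyc b hb a ha
  have h6 : D ((a + b) * (a + b)) = D (a * a) + D (a * b) + (D (a * b) + D (b * b)) := by
    rw [add_mul, mul_add, mul_add, map_add, map_add, map_add, h5]
  have h7 : (D a + D b) * (D a + D b) - (D (a * a) + D (a * b) + (D (a * b) + D (b * b))) =
      (D a * D a - D (a * a)) + (D b * D b - D (b * b)) +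
        ((D a * D b - D (a * b)) + (D a * D b - D (a * b))) := by
    rw [add_mul, mul_add, mul_add, h4]
    abel
  rw [map_add, map_add, h6, h7, smul_add, smul_add, ← two_smul K (D a * D b - D (a * b)),
    smul_smul, inv_mul_cancel₀ (two_ne_zero), one_smul] at h1
  have h8 : R a * R b + R b * R a - (D a * R b + D b * R a - (D a * D b - D (a * b))) =
      ((R a + R b) * (R a + R b) - (D a + D b) * (R a + R b) +
        ((2⁻¹ : K) • (D a * D a - D (a * a)) + (2⁻¹ : K) • (D b * D b - D (b * b)) +
          (D a * D b - D (a * b)))) -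
      (R a * R a - D a * R a + (2⁻¹ : K) • (D a * D a - D (a * a))) -
      (R b * R b - D b * R b + (2⁻¹ : K) • (D b * D b - D (b * b))) := by
    simp only [add_mul, mul_add]
    abel
  rw [h1, h2, h3, sub_zero, sub_zero] at h8
  exact sub_eq_zero.1 h8

omit [CharZero K] in
theorem TSys3_append (T : TSys K n D R g) (u v : List (Fin n)) :
    R (mon K (u ++ v)) = R (mon K v) * R (mon K u) := by
  have h : mon K (u ++ v) = mon K u * mon K v := by
    rw [mon, List.map_append, List.prod_append, mon, mon]
  rw [h, T.Rmul]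

omit [CharZero K] in
theorem TSys3_cons (T : TSys K n D R g) (i : Fin n) (v : List (Fin n)) :
    R (mon K (i :: v)) = R (mon K v) * R (xx K i) := by
  have h : mon K (i :: v) = xx K i * mon K v := by
    rw [mon, List.map_cons, List.prod_cons, mon]
  rw [h, T.Rmul]

omit [CharZero K] in
theorem TSys3_one (i : Fin n) : D (xx K i) ∈ gens D :=
  Or.inl ⟨[i], by rw [List.sortedLT_iff_pairwise]; simp, by simp [mon]⟩

omit [CharZero K] in
theorem TSys3_lt (i j : Fin n) (h : i < j) : D (xx K i * xx K j) ∈ gens D :=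
  Or.inl ⟨[i, j], by rw [List.sortedLT_iff_pairwise]; simpa using h, by simp [mon]⟩

omit [CharZero K] in
theorem TSys3_two (T : TSys K n D R g) (i j : Fin n) : D (xx K i * xx K j) ∈ gens D := by
  rcases lt_trichotomy i j with h | h | h
  · exact TSys3_lt i j h
  · subst h
    exact Or.inr ⟨i, rfl⟩
  · rw [T.Dcyc _ (xx_mem_Aug K i) _ (xx_mem_Aug K j)]
    exact TSys3_lt j i h

theorem TSys3_swap (T : TSys K n D R g) (W : Submodule K V)
    (hW : ∀ θ ∈ gens D, ∀ φ ∈ W, θ φ ∈ W) (u v : List (Fin n)) (i j : Fin n)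
    (h0 : R (mon K (u ++ v)) g ∈ W) (hi : R (mon K (u ++ i :: v)) g ∈ W)
    (hj : R (mon K (u ++ j :: v)) g ∈ W) (h : R (mon K (u ++ i :: j :: v)) g ∈ W) :
    R (mon K (u ++ j :: i :: v)) g ∈ W := by
  simp only [TSys3_append T, TSys3_cons T, Module.End.mul_apply] at h0 hi hj h ⊢
  have key := CH_lin T (xx K i) (xx K j) (xx_mem_Aug K i) (xx_mem_Aug K j)
  have hRD : ∀ a ψ, R (mon K v) (D a ψ) = D a (R (mon K v) ψ) := fun a ψ =>
    LinearMap.congr_fun (T.RD (mon K v) a) ψ
  have key2 : R (mon K v) ((R (xx K i) * R (xx K j) + R (xx K j) * R (xx K i)) (R (mon K u) g)) =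
      R (mon K v) ((D (xx K i) * R (xx K j) + D (xx K j) * R (xx K i) -
        (D (xx K i) * D (xx K j) - D (xx K i * xx K j))) (R (mon K u) g)) := by
    rw [key]
  rw [LinearMap.add_apply, LinearMap.sub_apply, LinearMap.add_apply, LinearMap.sub_apply, map_add,
    map_sub, map_add, map_sub] at key2
  simp only [Module.End.mul_apply] at key2
  rw [hRD, hRD, hRD, hRD, hRD] at key2
  rw [eq_sub_of_add_eq key2]
  refine W.sub_mem (W.sub_mem (W.add_mem ?_ ?_) (W.sub_mem ?_ ?_)) h
  · exact hW _ (TSys3_one i) _ hj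
  · exact hW _ (TSys3_one j) _ hi
  · exact hW _ (TSys3_one i) _ (hW _ (TSys3_one j) _ h0)
  · exact hW _ (TSys3_two T i j) _ h0

omit [CharZero K] in
theorem TSys3_sq (T : TSys K n D R g) (W : Submodule K V)
    (hW : ∀ θ ∈ gens D, ∀ φ ∈ W, θ φ ∈ W) (v : List (Fin n)) (i : Fin n)
    (h0 : R (mon K v) g ∈ W) (hi : R (mon K (i :: v)) g ∈ W) :
    R (mon K (i :: i :: v)) g ∈ W := by
  simp only [TSys3_cons T, Module.End.mul_apply] at h0 hi ⊢
  have key := T.CH (xx K i) (xx_mem_Aug K i)
  have hRD : ∀ a ψ, R (mon K v) (D a ψ) = D a (R (mon K v) ψ) := fun a ψ =>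
    LinearMap.congr_fun (T.RD (mon K v) a) ψ
  have key2 : R (mon K v) ((R (xx K i) * R (xx K i) - D (xx K i) * R (xx K i) +
      (2⁻¹ : K) • (D (xx K i) * D (xx K i) - D (xx K i * xx K i))) g) = 0 := by
    rw [key, LinearMap.zero_apply, map_zero]
  rw [LinearMap.add_apply, LinearMap.sub_apply, LinearMap.smul_apply, LinearMap.sub_apply, map_add,
    map_sub, map_smul, map_sub] at key2
  simp only [Module.End.mul_apply] at key2
  rw [hRD, hRD, hRD, hRD] at key2
  have h1 := eq_neg_of_add_eq_zero_left key2
  rw [sub_eq_iff_eq_add] at h1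
  rw [h1]
  refine W.add_mem (W.neg_mem (W.smul_mem _ (W.sub_mem ?_ ?_))) ?_
  · exact hW _ (TSys3_one i) _ (hW _ (TSys3_one i) _ h0)
  · exact hW _ (TSys3_two T i i) _ h0
  · exact hW _ (TSys3_one i) _ hi

theorem TSys3_perm (T : TSys K n D R g) (W : Submodule K V)
    (hW : ∀ θ ∈ gens D, ∀ φ ∈ W, θ φ ∈ W) (N : ℕ)
    (hN : ∀ l : List (Fin n), l.length < N → R (mon K l) g ∈ W) {l l' : List (Fin n)}
    (hl : l.Perm l') : ∀ u : List (Fin n), (u ++ l).length = N → R (mon K (u ++ l)) g ∈ W →
      R (mon K (u ++ l')) g ∈ W := by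
  induction hl with
  | nil => exact fun u _ h => h
  | cons x _ ih =>
    intro u hu h
    have h1 := ih (u ++ [x]) (by simpa using hu) (by simpa using h)
    simpa using h1
  | swap x y l =>
    intro u hu h
    have hu' : u.length + (l.length + 1 + 1) = N := by simpa using hu
    refine TSys3_swap T W hW u l y x (hN _ ?_) (hN _ ?_) (hN _ ?_) h
    · rw [List.length_append]; omega
    · rw [List.length_append, List.length_cons]; omega
    · rw [List.length_append, List.length_cons]; omega
  | trans h1 _ ih1 ih2 =>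
    intro u hu h
    refine ih2 u ?_ (ih1 u hu h)
    rw [← hu, List.length_append, List.length_append, h1.length_eq]

/-- The products of distinct letters in increasing order generate everything.
PROOF. Strong induction on the length of `l`. `R (mon (u ++ [i, j] ++ v)) g = R v (R x_j (R x_i (R u g)))`. By `CH_lin`
`R x_j R x_i + R x_i R x_j = D x_i R x_j + D x_j R x_i - (D x_i D x_j - D (x_i x_j))`, and these operators `D x_i`, `D (x_i x_j)` are in
`gens D` (up to `Dcyc`) and commute with `R v`; so modulo `W` (which contains the shorter words and is stable under the `gens`) the word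
`u x_i x_j v` is minus `u x_j x_i v`. So membership in `W` is invariant under permutations of the letters (`List.Perm` induction, with
an arbitrary initial part `u`). Take the sorted word: if it is `SortedLT`, it is in `W` by hypothesis; if it contains `x_i x_i` then
`R x_i R x_i = D x_i R x_i - (1/2)(D x_i D x_i - D (x_i x_i))` by `CH`, and shorter words are in `W`. -/
theorem R_word (T : TSys K n D R g) (W : Submodule K V)
    (hW : ∀ θ ∈ gens D, ∀ φ ∈ W, θ φ ∈ W)
    (hg : ∀ l : List (Fin n), l.SortedLT → R (mon K l) g ∈ W) (l : List (Fin n)) :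
    R (mon K l) g ∈ W := by
  induction hN : l.length using Nat.strong_induction_on generalizing l with
  | _ N ih =>
    have hlt : ∀ l : List (Fin n), l.length < N → R (mon K l) g ∈ W := fun l hl =>
      ih _ hl l rfl
    by_cases hd : l.Nodup
    · have hp := List.perm_insertionSort (· ≤ ·) l
      have h1 : (l.insertionSort (· ≤ ·)).SortedLT :=
        List.SortedLE.sortedLT_of_nodup List.sortedLE_insertionSort (hp.nodup_iff.2 hd)
      exact TSys3_perm T W hW N hlt hp [] (by rw [List.nil_append, hp.length_eq, hN]) (hg _ h1)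
    · obtain ⟨x, hx⟩ := List.exists_duplicate_iff_not_nodup.2 hd
      obtain ⟨v, hv⟩ := (List.duplicate_iff_sublist.1 hx).exists_perm_append
      have hlen : v.length + 2 = N := by
        rw [← hN, hv.length_eq, List.length_append]
        simp [add_comm]
      refine TSys3_perm T W hW N hlt hv.symm [] (by rw [List.nil_append, ← hv.length_eq, hN]) ?_
      exact TSys3_sq T W hW v x (hlt _ (by omega)) (hlt _ (by rw [List.length_cons]; omega))

end TSys

end Pool.Agent.H.MP_f5ceca_al.BR
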