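import Pool.Agent.H.MP_f5ceca_al.BR.TSys2
import Pool.Agent.H.MP_f5ceca_al.BR.TSys3

/-!
Trace systems are noetherian.
-/

namespace Pool.Agent.H.MP_f5ceca_al.BR

open MvPolynomial Function
open Pool.Agent.H.MP_f5ceca_al.N

universe u v

theorem TSys4_mon_append (K : Type u) [Field K] {n : ℕ} (l l' : List (Fin n)) :
    mon K (l ++ l') = mon K l * mon K l' := by
  unfold mon
  rw [List.map_append, List.prod_append]

/-- The monomials span the free algebra. -/
theorem TSys4_span (K : Type u) [Field K] {n : ℕ} (a : FA K n) :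
    a ∈ Submodule.span K (Set.range (mon K : List (Fin n) → FA K n)) := by
  refine FreeAlgebra.induction K (Fin n) (motive := fun a => a ∈
    Submodule.span K (Set.range (mon K : List (Fin n) → FA K n))) ?_ ?_ ?_ ?_ a
  · intro r
    rw [Algebra.algebraMap_eq_smul_one]
    exact Submodule.smul_mem _ _ (Submodule.subset_span ⟨[], rfl⟩)
  · intro x
    exact Submodule.subset_span ⟨[x], by simp [mon, xx]⟩
  · intro a b ha hb
    refine Submodule.span_induction (p := fun y _ => a * y ∈
      Submodule.span K (Set.range (mon K : List (Fin n) → FA K n))) ?_ ?_ ?_ ?_ hb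
    · rintro _ ⟨l, rfl⟩
      refine Submodule.span_induction (p := fun y _ => y * mon K l ∈
        Submodule.span K (Set.range (mon K : List (Fin n) → FA K n))) ?_ ?_ ?_ ?_ ha
      · rintro _ ⟨l', rfl⟩
        exact Submodule.subset_span ⟨l' ++ l, TSys4_mon_append K l' l⟩
      · rw [zero_mul]; exact Submodule.zero_mem _
      · intro y z _ _ hy hz
        rw [add_mul]; exact Submodule.add_mem _ hy hz
      · intro c y _ hy
        rw [smul_mul_assoc]; exact Submodule.smul_mem _ _ hy
    · rw [mul_zero]; exact Submodule.zero_mem _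
    · intro y z _ _ hy hz
      rw [mul_add]; exact Submodule.add_mem _ hy hz
    · intro c y _ hy
      rw [mul_smul_comm]; exact Submodule.smul_mem _ _ hy
  · intro a b ha hb
    exact Submodule.add_mem _ ha hb

/-- There are finitely many sorted lists of letters. -/
theorem TSys4_sorted_finite (n : ℕ) : {l : List (Fin n) | l.SortedLT}.Finite := by
  have h : {l : List (Fin n) | l.length ≤ n}.Finite := List.finite_length_le (Fin n) n
  refine h.subset fun l hl => ?_
  have hn : l.Nodup := List.SortedLT.nodup hl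
  have := hn.length_le_card
  simpa using this

namespace TSys

variable {K : Type u} [Field K] [CharZero K] {n : ℕ} {V : Type v} [AddCommGroup V] [Module K V]
  {D R : FA K n →ₗ[K] Module.End K V} {g : V}

/-- PROOF. The words `mon K l` span the free algebra (`FreeAlgebra.induction`). `D` of the empty word is `2` (`Done`); `D_word`. -/
theorem D_mem (T : TSys K n D R g) (a : FA K n) : D a ∈ Algebra.adjoin K (gens D) := by
  refine Submodule.span_induction (p := fun y _ => D y ∈ Algebra.adjoin K (gens D))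
    ?_ ?_ ?_ ?_ (TSys4_span K a)
  · rintro _ ⟨l, rfl⟩
    by_cases hl : l = []
    · subst hl
      have h : D (mon K ([] : List (Fin n))) = (2 : K) • 1 := T.Done
      rw [h]
      exact Subalgebra.smul_mem _ (Subalgebra.one_mem _) _
    · exact T.D_word l hl
  · rw [map_zero]; exact Subalgebra.zero_mem _
  · intro y z _ _ hy hz
    rw [map_add]; exact Subalgebra.add_mem _ hy hz
  · intro c y _ hy
    rw [map_smul]; exact Subalgebra.smul_mem _ hy _

/-- PROOF. Let `𝔄 = Algebra.adjoin K (gens D)` (inside `Module.End K V`). It is commutative (`Algebra.adjoinCommRingOfComm`, `T.comm`,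
the `gens` are values of `D`) and a finitely generated algebra (`gens_finite`, `Subalgebra.fg_adjoin_finset`), so a noetherian ring.
`V` is an `𝔄`-module (`θ • φ = θ φ`), generated by the finitely many `R (mon K l) g`, `l.SortedLT`: let `W` be the `𝔄`-span of these
(as a `K`-subspace). It contains all `R (mon K l) g` by `R_word`, so all `R v g`, and is stable under all `D a` by `D_mem`; so
`W = ⊤` by `T.gen`. Hence `V` is a noetherian `𝔄`-module and the `𝔄`-span of `{R v g | v ∈ J}` is the span of `{R t g | t ∈ s}` for a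
finite `s ⊆ J` (`Submodule.fg_span_iff_fg_span_finset_subset`). A subspace `W` as in the statement is stable under `𝔄`
(`Algebra.adjoin_induction`), so it contains the `𝔄`-span. -/
theorem fin (T : TSys K n D R g) (J : Set (FA K n)) :
    ∃ s : Finset (FA K n), (∀ t ∈ s, t ∈ J) ∧ ∀ v ∈ J, ∀ W : Submodule K V,
      (∀ a, ∀ φ ∈ W, D a φ ∈ W) → (∀ t ∈ s, R t g ∈ W) → R v g ∈ W := by
  have hgen : ∀ θ ∈ gens D, ∃ a, θ = D a := by
    rintro θ (⟨l, _, rfl⟩ | ⟨i, rfl⟩)
    · exact ⟨_, rfl⟩
    · exact ⟨_, rfl⟩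
  have hcomm : ∀ a ∈ gens D, ∀ b ∈ gens D, a * b = b * a := by
    intro a ha b hb
    obtain ⟨x, rfl⟩ := hgen a ha
    obtain ⟨y, rfl⟩ := hgen b hb
    exact T.comm x y
  let iR : CommRing (Algebra.adjoin K (gens D)) := Algebra.adjoinCommRingOfComm K hcomm
  have hfg : (Algebra.adjoin K (gens D)).FG := by
    have h := Subalgebra.fg_adjoin_finset (R := K) (gens_finite D).toFinset
    rwa [Set.Finite.coe_toFinset] at h
  have iF : Algebra.FiniteType K (Algebra.adjoin K (gens D)) :=
    (Subalgebra.fg_iff_finiteType _).1 hfg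
  have iN : IsNoetherianRing (Algebra.adjoin K (gens D)) :=
    Algebra.FiniteType.isNoetherianRing K _
  -- a subspace which is stable under all the traces is stable under the algebra
  have hstab : ∀ W : Submodule K V, (∀ a, ∀ φ ∈ W, D a φ ∈ W) →
      ∀ θ ∈ Algebra.adjoin K (gens D), ∀ φ ∈ W, θ φ ∈ W := by
    intro W hW θ hθ
    refine Algebra.adjoin_induction (p := fun θ _ => ∀ φ ∈ W, θ φ ∈ W) ?_ ?_ ?_ ?_ hθ
    · intro x hx φ hφ
      obtain ⟨a, rfl⟩ := hgen x hx
      exact hW a φ hφ
    · intro r φ hφ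
      rw [Module.algebraMap_end_apply]
      exact W.smul_mem _ hφ
    · intro x y _ _ hx hy φ hφ
      exact W.add_mem (hx φ hφ) (hy φ hφ)
    · intro x y _ _ hx hy φ hφ
      exact hx _ (hy φ hφ)
  -- the module is finitely generated
  have hfin : ((fun l : List (Fin n) => R (mon K l) g) '' {l | l.SortedLT}).Finite :=
    (TSys4_sorted_finite n).image _
  obtain ⟨N, hN⟩ : ∃ N : Submodule (Algebra.adjoin K (gens D)) V, N = Submodule.span _
      ((fun l : List (Fin n) => R (mon K l) g) '' {l | l.SortedLT}) := ⟨_, rfl⟩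
  have hNs : ∀ θ ∈ Algebra.adjoin K (gens D), ∀ φ ∈ N, θ φ ∈ N := fun θ hθ φ hφ =>
    N.smul_mem (⟨θ, hθ⟩ : Algebra.adjoin K (gens D)) hφ
  obtain ⟨W, hW⟩ : ∃ W : Submodule K V, ∀ φ, φ ∈ W ↔ φ ∈ N := by
    refine ⟨{ carrier := {φ | φ ∈ N}
              add_mem' := fun h1 h2 => N.add_mem h1 h2
              zero_mem' := N.zero_mem
              smul_mem' := fun c φ hφ => ?_ }, fun φ => Iff.rfl⟩
    have h := hNs (algebraMap K _ c) (Subalgebra.algebraMap_mem _ c) φ hφ
    rwa [Module.algebraMap_end_apply] at h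
  have hWtop : W = ⊤ := by
    refine T.gen W (fun a φ hφ => (hW _).2 (hNs _ (T.D_mem a) _ ((hW _).1 hφ))) fun v => ?_
    refine Submodule.span_induction (p := fun y _ => R y g ∈ W) ?_ ?_ ?_ ?_ (TSys4_span K v)
    · rintro _ ⟨l, rfl⟩
      refine T.R_word W (fun θ hθ φ hφ =>
        (hW _).2 (hNs _ (Algebra.subset_adjoin hθ) _ ((hW _).1 hφ))) (fun l hl => ?_) l
      rw [hW, hN]
      exact Submodule.subset_span ⟨l, hl, rfl⟩
    · rw [map_zero, LinearMap.zero_apply]; exact W.zero_mem
    · intro y z _ _ hy hz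
      rw [map_add, LinearMap.add_apply]; exact W.add_mem hy hz
    · intro c y _ hy
      rw [map_smul, LinearMap.smul_apply]; exact W.smul_mem _ hy
  have hNtop : N = ⊤ := by
    rw [eq_top_iff]
    intro φ _
    rw [← hW, hWtop]
    trivial
  have iM : Module.Finite (Algebra.adjoin K (gens D)) V := by
    refine ⟨?_⟩
    rw [← hNtop, hN]
    exact Submodule.fg_span hfin
  have iMN : IsNoetherian (Algebra.adjoin K (gens D)) V :=
    isNoetherian_of_isNoetherianRing_of_finite _ _
  have hJ : (Submodule.span (Algebra.adjoin K (gens D)) ((fun v => R v g) '' J)).FG :=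
    IsNoetherian.noetherian _
  rw [Submodule.fg_span_iff_fg_span_finset_subset] at hJ
  obtain ⟨s', hs', hspan⟩ := hJ
  classical
  obtain ⟨s, hsJ, hss⟩ := Finset.subset_set_image_iff.1 hs'
  refine ⟨s, fun t ht => hsJ ht, fun v hv W hW hsW => ?_⟩
  obtain ⟨N', hN'⟩ : ∃ N' : Submodule (Algebra.adjoin K (gens D)) V, ∀ φ, φ ∈ N' ↔ φ ∈ W :=
    ⟨{ carrier := {φ | φ ∈ W}
       add_mem' := fun h1 h2 => W.add_mem h1 h2
       zero_mem' := W.zero_mem
       smul_mem' := fun c φ hφ => hstab W hW c.1 c.2 φ hφ }, fun φ => Iff.rfl⟩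
  have h1 : R v g ∈ Submodule.span (Algebra.adjoin K (gens D)) ((fun v => R v g) '' J) :=
    Submodule.subset_span ⟨v, hv, rfl⟩
  rw [hspan] at h1
  rw [← hN']
  refine Submodule.span_le.2 ?_ h1
  intro y hy
  rw [Finset.mem_coe, ← hss, Finset.mem_image] at hy
  obtain ⟨t, ht, rfl⟩ := hy
  exact (hN' _).2 (hsW t ht)

end TSys

end Pool.Agent.H.MP_f5ceca_al.BR
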