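import Pool.Agent.H.MP_f5ceca_al.BR.Mod3
import Pool.Agent.H.MP_f5ceca_al.BR.TSys4

/-!
Finitely many identities of `M_2(K)` suffice.
-/

namespace Pool.Agent.H.MP_f5ceca_al.BR

open MvPolynomial Function
open Pool.Agent.H.MP_f5ceca_al.N

universe u v

variable {K : Type u} [Field K] [CharZero K]

omit [CharZero K] in
/-- Identities of `M_2(K)` have no constant term. -/
theorem Full1_aug {n : ℕ} {v : FA K n} (hv : v ∈ J2 K (Fin n)) : v ∈ Aug K n := by
  rw [Basic_mem_Aug]
  have h1 : FreeAlgebra.algebraMapInv v = FreeAlgebra.lift K (fun _ : Fin n => (0 : K)) v := by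
    have h2 : (FreeAlgebra.algebraMapInv : FA K n →ₐ[K] K) =
        FreeAlgebra.lift K (fun _ : Fin n => (0 : K)) := by
      apply FreeAlgebra.hom_ext
      funext i
      simp [FreeAlgebra.algebraMapInv]
    exact DFunLike.congr_fun h2 v
  rw [h1]
  have h3 : algebraMap K (Matrix (Fin 2) (Fin 2) K)
      (FreeAlgebra.lift K (fun _ : Fin n => (0 : K)) v) = 0 := by
    have h4 : (Algebra.ofId K (Matrix (Fin 2) (Fin 2) K)).comp
        (FreeAlgebra.lift K (fun _ : Fin n => (0 : K))) =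
        FreeAlgebra.lift K (fun _ : Fin n => (0 : Matrix (Fin 2) (Fin 2) K)) := by
      apply FreeAlgebra.hom_ext
      funext i
      simp
    have h5 := DFunLike.congr_fun h4 v
    rw [hv fun _ => 0] at h5
    exact h5
  exact (FaithfulSMul.algebraMap_injective K (Matrix (Fin 2) (Fin 2) K)) (by rw [h3, map_zero])

omit [CharZero K] in
/-- Composition of substitutions. -/
theorem Full1_lift {a b n : ℕ} (u : Fin a → FA K b) (v : Fin b → FA K n) (v' : Fin a → FA K n)
    (h : ∀ i, FreeAlgebra.lift K v (u i) = v' i) (x : FA K a) :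
    FreeAlgebra.lift K v (FreeAlgebra.lift K u x) = FreeAlgebra.lift K v' x := by
  have h2 : (FreeAlgebra.lift K v).comp (FreeAlgebra.lift K u) = FreeAlgebra.lift K v' := by
    apply FreeAlgebra.hom_ext
    funext j
    simp only [Function.comp_apply, AlgHom.comp_apply, FreeAlgebra.lift_ι_apply]
    exact h j
  exact DFunLike.congr_fun h2 x

omit [CharZero K] in
/-- The set of identities: the nine-letter identities and the finite set `s`. -/
theorem Full1_set (n : ℕ) (s : Finset (FA K n)) :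
    ∃ H : Set (FA K (9 + n)), H.Finite ∧
      ((∀ g ∈ H0 K, g ∈ J2 K (Fin 9)) → (∀ t ∈ s, t ∈ J2 K (Fin n)) →
        ∀ g ∈ H, g ∈ J2 K (Fin (9 + n))) ∧
      MH (H0 K) n ≤ MH H n ∧ ∀ t ∈ s, t ∈ MH H n := by
  refine ⟨(fun f => FreeAlgebra.lift K (fun i => xx K (Fin.castAdd n i)) f) '' H0 K ∪
    (fun f => FreeAlgebra.lift K (fun i => xx K (Fin.natAdd 9 i)) f) '' (s : Set (FA K n)),
    ?_, ?_, ?_, ?_⟩
  · refine Set.Finite.union (Set.Finite.image _ ?_) (Set.Finite.image _ s.finite_toSet)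
    unfold H0
    exact Set.toFinite _
  · rintro h0 hs g (⟨f, hf, rfl⟩ | ⟨f, hf, rfl⟩)
    · exact J2_subst (h0 f hf) _
    · exact J2_subst (hs f hf) _
  · unfold MH
    rw [Submodule.span_le]
    rintro _ ⟨f, hf, v, hv, a, b, rfl⟩
    refine Submodule.subset_span ⟨_, Or.inl ⟨f, hf, rfl⟩, Fin.append v fun _ => 0, ?_, a, b, ?_⟩
    · intro j
      induction j using Fin.addCases with
      | left j => rw [Fin.append_left]; exact hv j
      | right j => rw [Fin.append_right]; exact zero_mem _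
    · simp only
      rw [Full1_lift _ _ v]
      intro i
      rw [xx, FreeAlgebra.lift_ι_apply, Fin.append_left]
  · intro t ht
    refine Submodule.subset_span ⟨_, Or.inr ⟨t, ht, rfl⟩,
      Fin.append (fun _ : Fin 9 => 0) (xx K), ?_, 1, 1, ?_⟩
    · intro j
      induction j using Fin.addCases with
      | left j => rw [Fin.append_left]; exact zero_mem _
      | right j => rw [Fin.append_right]; exact xx_mem_Aug K j
    · simp only
      rw [Full1_lift _ _ (xx K), one_mul, mul_one]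
      · have h3 : FreeAlgebra.lift K (xx K : Fin n → FA K n) = AlgHom.id K (FA K n) := by
          apply FreeAlgebra.hom_ext
          funext i
          simp only [Function.comp_apply, FreeAlgebra.lift_ι_apply]
          rfl
        rw [h3]
        rfl
      · intro i
        rw [xx, FreeAlgebra.lift_ι_apply, Fin.append_right]

omit [CharZero K] in
/-- `[G, v]` is a value of the identity `e1`. -/
theorem Full1_br (n : ℕ) (y : Fin 4 → FA K n) (w p v : FA K n) (hy : ∀ i, y i ∈ Aug K n)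
    (hw : w ∈ Aug K n) (hp : p ∈ Aug K n) (hv : v ∈ Aug K n) :
    br (G4 y w p) v ∈ MH (H0 K) n := by
  have hm : ∀ i : Fin 9, (![y 0, y 1, y 2, y 3, w, p, v, 0, 0] : Fin 9 → FA K n) i ∈ Aug K n := by
    intro i
    fin_cases i
    · exact hy 0
    · exact hy 1
    · exact hy 2
    · exact hy 3
    · exact hw
    · exact hp
    · exact hv
    · exact zero_mem _
    · exact zero_mem _
  refine Submodule.subset_span ⟨e1 K, Or.inl rfl, _, hm, 1, 1, ?_⟩
  rw [one_mul, mul_one]
  have hl : ∀ i : Fin 9, FreeAlgebra.lift K (![y 0, y 1, y 2, y 3, w, p, v, 0, 0] : Fin 9 → FA K n)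
      (xx K i) = (![y 0, y 1, y 2, y 3, w, p, v, 0, 0] : Fin 9 → FA K n) i := fun i =>
    FreeAlgebra.lift_ι_apply _ _
  have hG := map_G4 (FreeAlgebra.lift K (![y 0, y 1, y 2, y 3, w, p, v, 0, 0] :
    Fin 9 → FA K n)).toRingHom (gy K) (xx K 4) (xx K 5)
  simp only [AlgHom.toRingHom_eq_coe, RingHom.coe_coe] at hG
  have hy' : (fun i => FreeAlgebra.lift K (![y 0, y 1, y 2, y 3, w, p, v, 0, 0] :
      Fin 9 → FA K n) (gy K i)) = y := by
    funext i
    rw [gy, hl]
    fin_cases i <;> rfl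
  rw [hy', hl, hl] at hG
  rw [e1, gf, br, br, map_sub, map_mul, map_mul, hG, hl]
  rfl

/-- Finitely many identities of `M_2(K)` suffice after multiplication by central polynomials.
PROOF. `A = FA K n ⧸ MH (H0 K) n` (`exists_quotient`, `MH_idl`), `V, D, R, g, ev` from `exists_sys`, `s` from `TSys.fin` with
`J = {v | v ∈ J2 K (Fin n)}`. `H ⊆ FA K (9 + n)`: the images of `H0 K` (letters `Fin.castAdd n`) and of `s` (letters `Fin.natAdd 9`); they are
identities by `H0_mem`, `J2_subst`; `MH (H0 K) n ≤ MH H n`, `t ∈ MH H n` for `t ∈ s` (substitute the letters `natAdd 9 i ↦ xx i`, the others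
`↦ 0`). Let `v ∈ J2`. `W := {φ ∈ V | ∀ q y, ∃ x ∈ MH H n, ev q y φ = π x}` is a subspace, stable under `D a`, and contains `R t g`, `t ∈ s`
(`π G * π t = π (G t)`). So `R v g ∈ W`: `π (G4 y w p * v) = π x`, `x ∈ MH H n`, and `G4 y w p * v - x ∈ MH (H0 K) n ≤ MH H n`. Second claim:
`v * G4 y w p = G4 y w p * v - br (G4 y w p) v`, and `br (G4 y w p) v` is a value of `e1 K` (`v ∈ Aug` since `J2 ≤ Aug`). -/
theorem fin_main (n : ℕ) : ∃ (d : ℕ) (H : Set (FA K d)), H.Finite ∧ (∀ g ∈ H, g ∈ J2 K (Fin d)) ∧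
    ∀ (y : Fin 4 → FA K n) (w p : FA K n), (∀ i, y i ∈ Aug K n) → w ∈ Aug K n → p ∈ Aug K n →
      ∀ v ∈ J2 K (Fin n), G4 y w p * v ∈ MH H n ∧ v * G4 y w p ∈ MH H n := by
  obtain ⟨A, _, _, π, -, hπ⟩ := exists_quotient (MH (H0 K) n) (MH_idl (H0 K) n).left
    (MH_idl (H0 K) n).right
  obtain ⟨V, _, _, D, R, g, ev, T, hev, hevD⟩ := exists_sys π fun x hx => (hπ x).2 hx
  obtain ⟨s, hsJ, hs⟩ := T.fin {v | v ∈ J2 K (Fin n)}
  obtain ⟨H, hf, hJ, hle, hsH⟩ := Full1_set n s
  refine ⟨9 + n, H, hf, hJ H0_mem hsJ, ?_⟩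
  intro y w p hy hw hp v hv
  have hW : ∀ φ : V, φ ∈ (⨅ q, ⨅ y, ((MH H n).map π.toLinearMap).comap (ev q y)) ↔
      ∀ q y, ev q y φ ∈ (MH H n).map π.toLinearMap := by
    intro φ
    simp only [Submodule.mem_iInf, Submodule.mem_comap]
  have h1 := hs v hv (⨅ q, ⨅ y, ((MH H n).map π.toLinearMap).comap (ev q y))
    (fun a φ hφ => by
      rw [hW] at hφ ⊢
      intro q y
      rw [hevD]
      exact Submodule.smul_mem _ _ (Submodule.sum_mem _ fun i _ => hφ _ _))
    (fun t ht => by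
      rw [hW]
      intro q y
      rw [hev]
      exact ⟨_, (MH_idl H n).left (G4 (fun i => (y i : FA K n)) (q.1 : FA K n) (q.2 : FA K n)) t
        (hsH t ht), map_mul π _ _⟩)
  rw [hW] at h1
  have h2 := h1 (⟨w, hw⟩, ⟨p, hp⟩) fun i => ⟨y i, hy i⟩
  rw [hev] at h2
  obtain ⟨x, hx, hx2⟩ := h2
  have h3 : G4 y w p * v - x ∈ MH (H0 K) n := by
    rw [← hπ, map_sub, map_mul, sub_eq_zero]
    exact hx2.symm
  have h4 : G4 y w p * v ∈ MH H n := by
    have := add_mem (hle h3) hx
    rwa [sub_add_cancel] at this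
  refine ⟨h4, ?_⟩
  have h5 := sub_mem h4 (hle (Full1_br n y w p v hy hw hp (Full1_aug hv)))
  rwa [br, sub_sub_cancel] at h5

end Pool.Agent.H.MP_f5ceca_al.BR
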