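import Pool.Agent.H.MP_f5ceca_al.BR.CoreDefs

/-!
The alternating central polynomial of `M_2` and the trace operators (block BR2).
-/

namespace Pool.Agent.H.MP_f5ceca_al.BR

open MvPolynomial Function
open Pool.Agent.H.MP_f5ceca_al.N

universe u v

section

variable {B : Type v} [Ring B]

/-- `∑ sgn σ y_{σ0} w y_{σ1} y_{σ2} y_{σ3}` -/
def c4 (y : Fin 4 → B) (w : B) : B :=
  ∑ σ : Equiv.Perm (Fin 4), ((Equiv.Perm.sign σ : ℤˣ) : ℤ) •
    (y (σ 0) * w * y (σ 1) * y (σ 2) * y (σ 3))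

/-- The central polynomial, alternating in `y`. -/
def G4 (y : Fin 4 → B) (w p : B) : B := an (br (c4 y w) p) (br w p)

/-- The trace operator `f ↦ (1/2) ∑_i f(.., a y_i, ..)`. -/
noncomputable def Dop (K : Type u) [Field K] [Algebra K B] (a : B) (f : (Fin 4 → B) → B) :
    (Fin 4 → B) → B :=
  fun y => (2⁻¹ : K) • ∑ i, f (update y i (a * y i))

end

section matrix

variable {K : Type u} [Field K]

/-- The determinant of the coordinates of four matrices. -/
def delta (y : Fin 4 → Matrix (Fin 2) (Fin 2) K) : K :=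
  (Matrix.of fun i j : Fin 4 => (![y i 0 0, y i 0 1, y i 1 0, y i 1 1] : Fin 4 → K) j).det

/-- The matrix of the coordinates. -/
def G4_Y (y : Fin 4 → Matrix (Fin 2) (Fin 2) K) : Matrix (Fin 4) (Fin 4) K :=
  Matrix.of fun i j : Fin 4 => (![y i 0 0, y i 0 1, y i 1 0, y i 1 1] : Fin 4 → K) j

/-- Number of the position `(i, j)`. -/
def G4_pos (i j : Fin 2) : Fin 4 := ![![0, 1], ![2, 3]] i j

theorem G4_Y_pos (y : Fin 4 → Matrix (Fin 2) (Fin 2) K) (k : Fin 4) (i j : Fin 2) :
    G4_Y y k (G4_pos i j) = y k i j := by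
  fin_cases i <;> fin_cases j <;> rfl

/-- Sign of a choice of columns. -/
def G4_eps (i j p q l m : Fin 2) : ℤ :=
  ((1 : Matrix (Fin 4) (Fin 4) ℤ).submatrix id
    ![G4_pos i p, G4_pos q l, G4_pos l m, G4_pos m j]).det

theorem G4_eps_sum (i j p q : Fin 2) : ∑ l : Fin 2, ∑ m : Fin 2, G4_eps i j p q l m =
    -(2 * (if i = p ∧ j = q then 1 else 0) - (if p = q ∧ i = j then 1 else 0)) := by
  revert i j p q
  decide +kernel

theorem G4_sub (Y : Matrix (Fin 4) (Fin 4) K) (c : Fin 4 → Fin 4) :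
    (Y.submatrix id c).det =
      Y.det * ((((1 : Matrix (Fin 4) (Fin 4) ℤ).submatrix id c).det : ℤ) : K) := by
  have h1 : Y.submatrix id c = Y * (1 : Matrix (Fin 4) (Fin 4) K).submatrix id c := by
    ext i j
    rw [Matrix.mul_apply]
    simp [Matrix.one_apply]
  have h2 : (1 : Matrix (Fin 4) (Fin 4) K).submatrix id c =
      ((1 : Matrix (Fin 4) (Fin 4) ℤ).submatrix id c).map (Int.castRingHom K) := by
    ext i j
    simp only [Matrix.submatrix_apply, Matrix.map_apply, Matrix.one_apply]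
    split_ifs <;> simp
  rw [h1, Matrix.det_mul, h2]
  congr 1
  exact (RingHom.map_det (Int.castRingHom K) _).symm

theorem G4_entry (y : Fin 4 → Matrix (Fin 2) (Fin 2) K) (w : Matrix (Fin 2) (Fin 2) K)
    (i j : Fin 2) : c4 y w i j = ∑ p : Fin 2, ∑ q : Fin 2, ∑ l : Fin 2, ∑ m : Fin 2, w p q *
      ((G4_Y y).submatrix id ![G4_pos i p, G4_pos q l, G4_pos l m, G4_pos m j]).det := by
  have h1 : ∀ p q l m : Fin 2,
      ((G4_Y y).submatrix id ![G4_pos i p, G4_pos q l, G4_pos l m, G4_pos m j]).det =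
      ∑ σ : Equiv.Perm (Fin 4), ((Equiv.Perm.sign σ : ℤˣ) : ℤ) •
        (y (σ 0) i p * y (σ 1) q l * y (σ 2) l m * y (σ 3) m j) := by
    intro p q l m
    rw [Matrix.det_apply]
    refine Finset.sum_congr rfl fun σ _ => ?_
    rw [Units.smul_def, Fin.prod_univ_four]
    simp only [Matrix.submatrix_apply, id]
    rw [← G4_Y_pos y (σ 0), ← G4_Y_pos y (σ 1), ← G4_Y_pos y (σ 2), ← G4_Y_pos y (σ 3)]
    rfl
  simp only [h1, Finset.mul_sum]
  unfold c4
  rw [Matrix.sum_apply]
  have h2 : ∀ F : Fin 2 → Fin 2 → Fin 2 → Fin 2 → Equiv.Perm (Fin 4) → K,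
      ∑ p, ∑ q, ∑ l, ∑ m, ∑ σ, F p q l m σ = ∑ σ, ∑ p, ∑ q, ∑ l, ∑ m, F p q l m σ := by
    intro F
    simp only [Fin.sum_univ_two, Finset.sum_add_distrib]
  rw [h2]
  refine Finset.sum_congr rfl fun σ _ => ?_
  generalize ((Equiv.Perm.sign σ : ℤˣ) : ℤ) = s
  simp only [Matrix.smul_apply, Matrix.mul_apply, Fin.sum_univ_two, zsmul_eq_mul]
  ring

/-- The matrix of the left multiplication by `a`. -/
def G4_L (a : Matrix (Fin 2) (Fin 2) K) : Matrix (Fin 4) (Fin 4) K :=
  !![a 0 0, 0, a 1 0, 0; 0, a 0 0, 0, a 1 0; a 0 1, 0, a 1 1, 0; 0, a 0 1, 0, a 1 1]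

theorem G4_trL (a : Matrix (Fin 2) (Fin 2) K) : (G4_L a).trace = 2 * a.trace := by
  unfold Matrix.trace
  rw [Fin.sum_univ_four, Fin.sum_univ_two]
  simp only [Matrix.diag_apply]
  show a 0 0 + a 0 0 + a 1 1 + a 1 1 = 2 * (a 0 0 + a 1 1)
  ring

theorem G4_upd (y : Fin 4 → Matrix (Fin 2) (Fin 2) K) (a : Matrix (Fin 2) (Fin 2) K)
    (i : Fin 4) : G4_Y (update y i (a * y i)) =
      (G4_Y y).updateRow i ((G4_Y y * G4_L a) i) := by
  ext k j
  by_cases hk : k = i
  · subst hk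
    rw [Matrix.updateRow_self, Matrix.mul_apply, Fin.sum_univ_four]
    simp only [G4_Y, Matrix.of_apply, update_self, Matrix.mul_apply, Fin.sum_univ_two]
    fin_cases j
    · show a 0 0 * y k 0 0 + a 0 1 * y k 1 0 = y k 0 0 * a 0 0 + y k 0 1 * 0 +
        y k 1 0 * a 0 1 + y k 1 1 * 0
      ring
    · show a 0 0 * y k 0 1 + a 0 1 * y k 1 1 = y k 0 0 * 0 + y k 0 1 * a 0 0 +
        y k 1 0 * 0 + y k 1 1 * a 0 1
      ring
    · show a 1 0 * y k 0 0 + a 1 1 * y k 1 0 = y k 0 0 * a 1 0 + y k 0 1 * 0 +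
        y k 1 0 * a 1 1 + y k 1 1 * 0
      ring
    · show a 1 0 * y k 0 1 + a 1 1 * y k 1 1 = y k 0 0 * 0 + y k 0 1 * a 1 0 +
        y k 1 0 * 0 + y k 1 1 * a 1 1
      ring
  · rw [Matrix.updateRow_ne hk]
    simp only [G4_Y, Matrix.of_apply, update_of_ne hk]

/-- PROOF. `Matrix.ext`, `Fin` cases; expand the sum over the permutations and the determinant (`Matrix.det_succ_row_zero`,
`Fin.sum_univ_succ`, or `Matrix.det_apply`), entries of products of `2 × 2` matrices (`Matrix.mul_apply`, `Fin.sum_univ_two`), `ring`.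
Alternatively: both sides are multilinear and alternating in `y`, so (`AlternatingMap` of the 4-dimensional space) it is enough to check
`y` = the standard basis. (Checked numerically.) -/
theorem c4_matrix (y : Fin 4 → Matrix (Fin 2) (Fin 2) K) (w : Matrix (Fin 2) (Fin 2) K) :
    c4 y w = -(delta y • (2 • w - w.trace • (1 : Matrix (Fin 2) (Fin 2) K))) := by
  ext i j
  rw [G4_entry, Matrix.neg_apply, Matrix.smul_apply, Matrix.sub_apply, Matrix.smul_apply,
    Matrix.smul_apply]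
  have h1 : ∀ p q l m : Fin 2, ((G4_Y y).submatrix id
      ![G4_pos i p, G4_pos q l, G4_pos l m, G4_pos m j]).det =
      delta y * ((G4_eps i j p q l m : ℤ) : K) := by
    intro p q l m
    rw [G4_sub]
    rfl
  have h2 : ∑ p : Fin 2, ∑ q : Fin 2, ∑ l : Fin 2, ∑ m : Fin 2, w p q *
      ((G4_Y y).submatrix id ![G4_pos i p, G4_pos q l, G4_pos l m, G4_pos m j]).det =
      delta y * ∑ p : Fin 2, ∑ q : Fin 2, w p q *
        ((∑ l : Fin 2, ∑ m : Fin 2, G4_eps i j p q l m : ℤ) : K) := by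
    simp only [h1, Finset.mul_sum, Int.cast_sum]
    refine Finset.sum_congr rfl fun p _ => Finset.sum_congr rfl fun q _ =>
      Finset.sum_congr rfl fun l _ => Finset.sum_congr rfl fun m _ => ?_
    ring
  rw [h2]
  have h3 : ∀ p q : Fin 2, ((∑ l : Fin 2, ∑ m : Fin 2, G4_eps i j p q l m : ℤ) : K) =
      -(2 * (if i = p ∧ j = q then 1 else 0) - (if p = q ∧ i = j then 1 else 0)) := by
    intro p q
    rw [G4_eps_sum]
    push_cast
    rfl
  simp only [h3]
  simp only [Fin.sum_univ_two, Matrix.trace_fin_two, smul_eq_mul, nsmul_eq_mul]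
  clear h1 h2 h3
  fin_cases i <;> fin_cases j <;> simp <;> first | ring1 | exact Or.inl (by ring1)

/-- PROOF. Expand, or: `∑_i det(.., a y_i, ..) = trace of (left multiplication by a) * det`, `= 2 tr(a) det`. -/
theorem delta_trace (y : Fin 4 → Matrix (Fin 2) (Fin 2) K) (a : Matrix (Fin 2) (Fin 2) K) :
    ∑ i, delta (update y i (a * y i)) = 2 * a.trace * delta y := by
  have h1 : ∀ i, delta (update y i (a * y i)) =
      ∑ j, (G4_Y y).adjugate j i * (G4_Y y * G4_L a) i j := by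
    intro i
    have h2 : delta (update y i (a * y i)) =
        ((G4_Y y).updateRow i ((G4_Y y * G4_L a) i)).det := by
      rw [← G4_upd]
      rfl
    rw [h2, ← Matrix.cramer_transpose_apply, Matrix.cramer_eq_adjugate_mulVec,
      ← Matrix.adjugate_transpose]
    rfl
  simp only [h1]
  have h2 : ∑ i, ∑ j, (G4_Y y).adjugate j i * (G4_Y y * G4_L a) i j =
      ((G4_Y y).adjugate * (G4_Y y * G4_L a)).trace := by
    rw [Finset.sum_comm]
    rfl
  rw [h2, ← Matrix.mul_assoc, Matrix.adjugate_mul, Matrix.smul_mul, Matrix.one_mul,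
    Matrix.trace_smul, G4_trL, smul_eq_mul, mul_comm]
  rfl

/-- The value of `G4` is a scalar matrix.
PROOF. `br (-(δ • (2 w - t))) p = - 2 δ • br w p`, and `br w p` has trace zero, so `(br w p)^2 = - det (br w p)`
(Cayley-Hamilton for `2 × 2` matrices, by `Matrix.ext`, `ring`). -/
theorem G4_matrix (y : Fin 4 → Matrix (Fin 2) (Fin 2) K) (w p : Matrix (Fin 2) (Fin 2) K) :
    G4 y w p = (delta y * (4 * (br w p).det)) • (1 : Matrix (Fin 2) (Fin 2) K) := by
  have h1 : br (c4 y w) p = -((2 * delta y) • br w p) := by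
    rw [c4_matrix]
    unfold br
    simp only [neg_mul, mul_neg, smul_mul_assoc, mul_smul_comm, sub_mul, mul_sub, one_mul, mul_one]
    module
  unfold G4
  rw [h1]
  have h2 : br w p * br w p = -((br w p).det • (1 : Matrix (Fin 2) (Fin 2) K)) := by
    have h3 : br w p 0 0 + br w p 1 1 = 0 := by
      unfold br
      simp only [Matrix.mul_apply, Matrix.sub_apply, Fin.sum_univ_two]
      ring
    generalize br w p = Y at h3 ⊢
    have h4 : Y 1 1 = -Y 0 0 := by linear_combination h3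
    rw [Matrix.det_fin_two]
    ext i j
    simp only [Matrix.mul_apply, Matrix.neg_apply, Matrix.smul_apply, Fin.sum_univ_two,
      Matrix.one_apply, smul_eq_mul]
    fin_cases i <;> fin_cases j <;> simp [h4] <;> ring
  unfold an
  rw [neg_mul, mul_neg, smul_mul_assoc, mul_smul_comm, h2]
  module

/-- On functions `f y = (δ y * s) • 1` the operator `Dop a` is multiplication by the trace of `a`.
PROOF. `delta_trace`, `2⁻¹ * 2 = 1`. -/
theorem Dop_matrix [CharZero K] (a : Matrix (Fin 2) (Fin 2) K) (s : K) :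
    Dop K a (fun y => (delta y * s) • (1 : Matrix (Fin 2) (Fin 2) K)) =
      fun y => (delta y * (a.trace * s)) • (1 : Matrix (Fin 2) (Fin 2) K) := by
  funext y
  unfold Dop
  have h1 : ∑ i, (delta (update y i (a * y i)) * s) • (1 : Matrix (Fin 2) (Fin 2) K) =
      (2 * a.trace * delta y * s) • (1 : Matrix (Fin 2) (Fin 2) K) := by
    rw [← Finset.sum_smul, ← Finset.sum_mul, delta_trace]
  rw [h1, smul_smul]
  congr 1
  have h2 : (2 : K) ≠ 0 := two_ne_zero
  field_simp

end matrix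

section polys

variable (K : Type u) [Field K]

/-- the letters `y_0, …, y_3` of `FA K 9` -/
noncomputable def gy : Fin 4 → FA K 9 := fun i => xx K (Fin.castLE (by norm_num) i)

/-- The function `y ↦ G4 y w p` with `w = x_4`, `p = x_5`. -/
noncomputable def gf : (Fin 4 → FA K 9) → FA K 9 := fun y => G4 y (xx K 4) (xx K 5)

/-- centrality (`x = x_6`) -/
noncomputable def e1 : FA K 9 := br (gf K (gy K)) (xx K 6)

/-- trace of a commutator (`a = x_7`, `b = x_8`) -/
noncomputable def e2 : FA K 9 := Dop K (br (xx K 7) (xx K 8)) (gf K) (gy K)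

/-- Cayley-Hamilton -/
noncomputable def e3 : FA K 9 :=
  gf K (gy K) * (xx K 7 * xx K 7) - Dop K (xx K 7) (gf K) (gy K) * xx K 7 +
    (2⁻¹ : K) • (Dop K (xx K 7) (Dop K (xx K 7) (gf K)) (gy K) -
      Dop K (xx K 7 * xx K 7) (gf K) (gy K))

/-- The trace of Cayley-Hamilton. -/
noncomputable def e4 : FA K 9 :=
  Dop K (xx K 7 * xx K 7 * xx K 8) (gf K) (gy K) -
    Dop K (xx K 7) (Dop K (xx K 7 * xx K 8) (gf K)) (gy K) +
    (2⁻¹ : K) • (Dop K (xx K 7) (Dop K (xx K 7) (Dop K (xx K 8) (gf K))) (gy K) -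
      Dop K (xx K 7 * xx K 7) (Dop K (xx K 8) (gf K)) (gy K))

/-- The finite set of identities. -/
def H0 : Set (FA K 9) := {e1 K, e2 K, e3 K, e4 K}

end polys

end Pool.Agent.H.MP_f5ceca_al.BR
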