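import Pool.Agent.H.MP_f5ceca_al.BR.G4

/-!
The identities `H0` hold in `M_2(K)`.
-/

namespace Pool.Agent.H.MP_f5ceca_al.BR

open MvPolynomial Function
open Pool.Agent.H.MP_f5ceca_al.N

universe u v

/-- `G4` and `Dop` commute with homomorphisms. PROOF. `map_sum`, `map_mul`, .... -/
theorem map_G4 {B B' : Type v} [Ring B] [Ring B'] (π : B →+* B') (y : Fin 4 → B) (w p : B) :
    π (G4 y w p) = G4 (fun i => π (y i)) (π w) (π p) := by
  unfold G4 c4 an br
  simp only [map_add, map_sub, map_mul, map_sum, map_zsmul]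

/-- PROOF. If `f' (π ∘ y) = π (f y)` for all `y` then the same holds for `Dop`; `π ∘ update y i (a * y i) =
update (π ∘ y) i (π a * π (y i))`. -/
theorem map_Dop {K : Type u} [Field K] {B B' : Type v} [Ring B] [Algebra K B] [Ring B']
    [Algebra K B'] (π : B →ₐ[K] B') (a : B) (f : (Fin 4 → B) → B) (f' : (Fin 4 → B') → B')
    (h : ∀ y, π (f y) = f' fun i => π (y i)) (y : Fin 4 → B) :
    π (Dop K a f y) = Dop K (π a) f' fun i => π (y i) := by
  unfold Dop
  rw [map_smul, map_sum]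
  congr 1
  refine Finset.sum_congr rfl fun i _ => ?_
  rw [h]
  congr 1
  funext j
  by_cases hj : j = i
  · subst hj
    rw [update_self, update_self, map_mul]
  · rw [update_of_ne hj, update_of_ne hj]

theorem G4b_ch {K : Type u} [Field K] [CharZero K] (a : Matrix (Fin 2) (Fin 2) K) :
    a * a - a.trace • a + (2⁻¹ : K) • ((a.trace * a.trace) • (1 : Matrix (Fin 2) (Fin 2) K) -
      (a * a).trace • (1 : Matrix (Fin 2) (Fin 2) K)) = 0 := by
  have h2 : (2⁻¹ : K) * 2 = 1 := inv_mul_cancel₀ two_ne_zero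
  ext i j
  fin_cases i <;> fin_cases j <;>
    simp [Matrix.mul_apply, Matrix.trace_fin_two, Fin.sum_univ_two, Matrix.one_apply]
  · linear_combination (a 0 0 * a 1 1 - a 0 1 * a 1 0) * h2
  · ring
  · ring
  · linear_combination (a 0 0 * a 1 1 - a 0 1 * a 1 0) * h2

theorem G4b_ch2 {K : Type u} [Field K] [CharZero K] (a b : Matrix (Fin 2) (Fin 2) K) :
    (a * a * b).trace - a.trace * (a * b).trace +
      (2⁻¹ : K) * (a.trace * (a.trace * b.trace) - (a * a).trace * b.trace) = 0 := by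
  have h2 : (2⁻¹ : K) * 2 = 1 := inv_mul_cancel₀ two_ne_zero
  simp [Matrix.mul_apply, Matrix.trace_fin_two, Fin.sum_univ_two]
  linear_combination ((a 0 0 * a 1 1 - a 0 1 * a 1 0) * (b 0 0 + b 1 1)) * h2

/-- The elements of `H0` are identities of `M_2(K)`.
PROOF. For `v : Fin 9 → M_2(K)`: `lift K v (e1 K) = br (G4 y w p) x` with `y i = v i`, ... by `map_G4`, `map_Dop`; use `G4_matrix`,
`Dop_matrix` (also twice and three times) and the Cayley-Hamilton identities `a^2 - tr(a) a + (1/2)(tr(a)^2 - tr(a^2)) = 0`,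
`tr(a^2 b) - tr(a) tr(a b) + (1/2)(tr(a)^2 - tr(a^2)) tr(b) = 0`, `tr([a,b]) = 0` (entries, `ring`/`field_simp`). -/
theorem H0_mem {K : Type u} [Field K] [CharZero K] : ∀ g ∈ H0 K, g ∈ J2 K (Fin 9) := by
  intro g hg
  rw [mem_J2]
  intro v
  set π : FA K 9 →ₐ[K] Matrix (Fin 2) (Fin 2) K := FreeAlgebra.lift K v with hπ
  have hx : ∀ j, π (xx K j) = v j := fun j => FreeAlgebra.lift_ι_apply _ _
  set s : K := 4 * (br (v 4) (v 5)).det with hs
  set f' : (Fin 4 → Matrix (Fin 2) (Fin 2) K) → Matrix (Fin 2) (Fin 2) K :=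
    fun y => (delta y * s) • (1 : Matrix (Fin 2) (Fin 2) K) with hf'
  set Y : Fin 4 → Matrix (Fin 2) (Fin 2) K := fun i => π (gy K i) with hY
  have h0 : ∀ y, π (gf K y) = f' fun i => π (y i) := by
    intro y
    unfold gf
    have h1 := map_G4 (π : FA K 9 →+* Matrix (Fin 2) (Fin 2) K) y (xx K 4) (xx K 5)
    have h2 : π (G4 y (xx K 4) (xx K 5)) = G4 (fun i => π (y i)) (π (xx K 4)) (π (xx K 5)) := h1
    rw [h2, hx, hx, G4_matrix]
  have hD : ∀ (a : FA K 9) (f : (Fin 4 → FA K 9) → FA K 9) (t : K),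
      (∀ y, π (f y) = (delta (fun i => π (y i)) * t) • (1 : Matrix (Fin 2) (Fin 2) K)) → ∀ y,
      π (Dop K a f y) = (delta (fun i => π (y i)) * ((π a).trace * t)) •
        (1 : Matrix (Fin 2) (Fin 2) K) := by
    intro a f t hf y
    rw [map_Dop π a f (fun y => (delta y * t) • (1 : Matrix (Fin 2) (Fin 2) K)) hf y,
      Dop_matrix]
  have h7 := hD (xx K 7) (gf K) s h0
  have h8 := hD (xx K 8) (gf K) s h0
  have h77 := hD (xx K 7 * xx K 7) (gf K) s h0
  have h78 := hD (xx K 7 * xx K 8) (gf K) s h0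
  simp only [map_mul, hx] at h7 h8 h77 h78
  unfold H0 at hg
  rcases hg with rfl | rfl | rfl | rfl
  · unfold e1 br
    rw [map_sub, map_mul, map_mul, h0]
    simp only [hf', smul_mul_assoc, mul_smul_comm, one_mul, mul_one, sub_self]
  · unfold e2
    rw [hD (br (xx K 7) (xx K 8)) (gf K) s h0]
    have h1 : (π (br (xx K 7) (xx K 8))).trace = 0 := by
      unfold br
      rw [map_sub, map_mul, map_mul, Matrix.trace_sub, Matrix.trace_mul_comm, sub_self]
    rw [h1, zero_mul, mul_zero, zero_smul]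
  · unfold e3
    have h1 := hD (xx K 7) (Dop K (xx K 7) (gf K)) _ h7 (gy K)
    rw [hx] at h1
    rw [map_add, map_sub, map_mul, map_mul, map_mul, map_smul, map_sub, h0, h1, h7, h77, hx]
    have h2 := G4b_ch (v 7)
    simp only [hf', smul_mul_assoc, one_mul]
    generalize (delta fun i => π (gy K i)) = δ
    linear_combination (norm := module) (δ * s) • h2
  · unfold e4
    have h1 := hD (xx K 7 * xx K 7 * xx K 8) (gf K) s h0 (gy K)
    have h2 := hD (xx K 7) (Dop K (xx K 7 * xx K 8) (gf K)) _ h78 (gy K)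
    have h3 := hD (xx K 7) (Dop K (xx K 8) (gf K)) _ h8
    have h4 := hD (xx K 7) (Dop K (xx K 7) (Dop K (xx K 8) (gf K))) _ h3 (gy K)
    have h5 := hD (xx K 7 * xx K 7) (Dop K (xx K 8) (gf K)) _ h8 (gy K)
    simp only [map_mul, hx] at h1 h2 h4 h5
    rw [map_add, map_sub, map_smul, map_sub, h1, h2, h4, h5]
    have h6 := G4b_ch2 (v 7) (v 8)
    rw [← sub_smul, ← sub_smul, smul_smul, ← add_smul]
    have h9 : (delta (fun i => π (gy K i)) * ((v 7 * v 7 * v 8).trace * s) -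
      delta (fun i => π (gy K i)) * ((v 7).trace * ((v 7 * v 8).trace * s)) +
      2⁻¹ * (delta (fun i => π (gy K i)) * ((v 7).trace * ((v 7).trace * ((v 8).trace * s))) -
        delta (fun i => π (gy K i)) * ((v 7 * v 7).trace * ((v 8).trace * s)))) = 0 := by
      linear_combination (delta (fun i => π (gy K i)) * s) * h6
    rw [h9, zero_smul]

/-- `G4` is not an identity of `M_2(K)`.
PROOF. `y` = matrix units `E00, E01, E10, E11` (`δ = 1`), `w = E00`, `p = E01 + E10`: `br w p = E01 - E10`, `det = 1`. Value `4`. (`Satisfies` in the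
unitization: `Unitization.inr` is injective; cf. `N.Dens_identity`.) -/
theorem G4_not {K : Type u} [Field K] [CharZero K] (S : Set (FreeAlgebra K ℕ)) :
    ¬ Satisfies (S ∪ {G4 (fun i : Fin 4 => FreeAlgebra.ι K (i : ℕ)) (FreeAlgebra.ι K 4)
      (FreeAlgebra.ι K 5)}) (Matrix (Fin 2) (Fin 2) K) := by
  intro hsat
  set w : ℕ → Matrix (Fin 2) (Fin 2) K := fun n =>
    if n = 0 then !![1, 0; 0, 0] else if n = 1 then !![0, 1; 0, 0] else
    if n = 2 then !![0, 0; 1, 0] else if n = 3 then !![0, 0; 0, 1] else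
    if n = 4 then !![1, 0; 0, 0] else !![0, 1; 1, 0] with hw
  have h1 := hsat _ (Set.mem_union_right S (Set.mem_singleton _)) w
  have e2 : (Unitization.lift (NonUnitalAlgHom.id K (Matrix (Fin 2) (Fin 2) K))).comp
      (FreeAlgebra.lift K (fun i => ((w i : Matrix (Fin 2) (Fin 2) K) :
        Unitization K (Matrix (Fin 2) (Fin 2) K)))) =
      FreeAlgebra.lift K w := by
    refine FreeAlgebra.hom_ext (funext fun i => ?_)
    simp
  have h2 := DFunLike.congr_fun e2 (G4 (fun i : Fin 4 => FreeAlgebra.ι K (i : ℕ))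
    (FreeAlgebra.ι K 4) (FreeAlgebra.ι K 5))
  rw [AlgHom.comp_apply, h1, map_zero] at h2
  have h3 := map_G4 ((FreeAlgebra.lift K w : FreeAlgebra K ℕ →ₐ[K] Matrix (Fin 2) (Fin 2) K) :
    FreeAlgebra K ℕ →+* Matrix (Fin 2) (Fin 2) K) (fun i : Fin 4 => FreeAlgebra.ι K (i : ℕ))
    (FreeAlgebra.ι K 4) (FreeAlgebra.ι K 5)
  have h4 : FreeAlgebra.lift K w (G4 (fun i : Fin 4 => FreeAlgebra.ι K (i : ℕ))
      (FreeAlgebra.ι K 4) (FreeAlgebra.ι K 5)) =
      G4 (fun i : Fin 4 => FreeAlgebra.lift K w (FreeAlgebra.ι K (i : ℕ)))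
        (FreeAlgebra.lift K w (FreeAlgebra.ι K 4)) (FreeAlgebra.lift K w (FreeAlgebra.ι K 5)) := h3
  simp only [FreeAlgebra.lift_ι_apply] at h4
  rw [h4, G4_matrix] at h2
  have h5 : delta (fun i : Fin 4 => w (i : ℕ)) = 1 := by
    unfold delta
    have h6 : (Matrix.of fun i j : Fin 4 => (![w (i : ℕ) 0 0, w (i : ℕ) 0 1, w (i : ℕ) 1 0,
        w (i : ℕ) 1 1] : Fin 4 → K) j) = (1 : Matrix (Fin 4) (Fin 4) K) := by
      ext i j
      fin_cases i <;> fin_cases j <;> simp [hw]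
    rw [h6, Matrix.det_one]
  have h7 : (br (w 4) (w 5)).det = 1 := by
    unfold br
    simp [hw, Matrix.det_fin_two]
  rw [h5, h7] at h2
  have h8 := congrFun (congrFun h2 0) 0
  simp at h8

end Pool.Agent.H.MP_f5ceca_al.BR
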