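import Pool.Agent.H.MP_f5ceca_al.BR.Defs
import Pool.Agent.H.MP_f5ceca_al.N.Vand

/-!
The identities of the algebra of `2 × 2` matrices.
-/

namespace Pool.Agent.H.MP_f5ceca_al.BR

open MvPolynomial Function
open Pool.Agent.H.MP_f5ceca_al.N

universe u v w

variable {K : Type u} [Field K] {X Y : Type}

/-- The ideal of the identities of `M_2(K)` in the variables `X`. -/
def J2 (K : Type u) [Field K] (X : Type) : Submodule K (FreeAlgebra K X) where
  carrier := {g | ∀ v : X → Matrix (Fin 2) (Fin 2) K, FreeAlgebra.lift K v g = 0}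
  zero_mem' := fun v => map_zero _
  add_mem' := fun {a b} ha hb v => by rw [map_add, ha v, hb v, add_zero]
  smul_mem' := fun r a ha v => by rw [map_smul, ha v, smul_zero]

theorem mem_J2 {g : FreeAlgebra K X} :
    g ∈ J2 K X ↔ ∀ v : X → Matrix (Fin 2) (Fin 2) K, FreeAlgebra.lift K v g = 0 := Iff.rfl

theorem J2_idl : IsIdl (J2 K X) where
  left := fun a x hx v => by rw [map_mul, hx v, mul_zero]
  right := fun a x hx v => by rw [map_mul, hx v, zero_mul]

theorem J2_subst {g : FreeAlgebra K X} (hg : g ∈ J2 K X) (f : X → FreeAlgebra K Y) :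
    FreeAlgebra.lift K f g ∈ J2 K Y := by
  intro v
  have h : (FreeAlgebra.lift K v).comp (FreeAlgebra.lift K f) =
      FreeAlgebra.lift K fun i => FreeAlgebra.lift K v (f i) := by
    refine FreeAlgebra.hom_ext (funext fun i => ?_)
    simp
  have h1 := DFunLike.congr_fun h g
  rw [AlgHom.comp_apply] at h1
  rw [h1]
  exact hg _

/-- The generic matrices. -/
noncomputable def MatId_gen (K : Type u) [Field K] (X : Type) (i : X) :
    Matrix (Fin 2) (Fin 2) (MvPolynomial (X × Fin 2 × Fin 2) K) :=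
  Matrix.of fun a b => MvPolynomial.X (i, a, b)

theorem MatId_map {D : Type v} [CommRing D] [Algebra K D] (x : X × Fin 2 × Fin 2 → D)
    (g : FreeAlgebra K X) :
    (aeval x : MvPolynomial (X × Fin 2 × Fin 2) K →ₐ[K] D).mapMatrix
        (FreeAlgebra.lift K (MatId_gen K X) g) =
      FreeAlgebra.lift K (fun i => Matrix.of fun a b => x (i, a, b)) g := by
  have h : ((aeval x : MvPolynomial (X × Fin 2 × Fin 2) K →ₐ[K] D).mapMatrix).comp
      (FreeAlgebra.lift K (MatId_gen K X)) =
      FreeAlgebra.lift K (fun i => Matrix.of fun a b => x (i, a, b)) := by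
    refine FreeAlgebra.hom_ext (funext fun i => ?_)
    rw [Function.comp_apply, AlgHom.comp_apply, FreeAlgebra.lift_ι_apply, Function.comp_apply,
      FreeAlgebra.lift_ι_apply]
    ext a b
    rw [AlgHom.mapMatrix_apply, Matrix.map_apply, MatId_gen, Matrix.of_apply, Matrix.of_apply,
      aeval_X]
  exact DFunLike.congr_fun h g

/-- Identities of `M_2(K)`, `K` infinite, hold in `M_2(C)` for every commutative `K`-algebra `C`.

PROOF. Let `R = MvPolynomial (X × Fin 2 × Fin 2) K` and let `G i : Matrix (Fin 2) (Fin 2) R` be the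
generic matrix `fun a b => X (i, a, b)`. The entries of `lift G g` are polynomials all of whose values
at points of `K` vanish (evaluate: `(MvPolynomial.eval p)` applied to the entries is an algebra map
`Matrix.map`, `AlgHom.mapMatrix`), so they are zero by `MvPolynomial.funext` (`K` infinite). Map `R → C`
by `X (i, a, b) ↦ v i a b` (`aeval`, `AlgHom.mapMatrix`). -/
theorem J2_comm [Infinite K] {g : FreeAlgebra K X} (hg : g ∈ J2 K X) {C : Type v} [CommRing C]
    [Algebra K C] (v : X → Matrix (Fin 2) (Fin 2) C) : FreeAlgebra.lift K v g = 0 := by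
  have hmap : ∀ {D : Type v} [CommRing D] [Algebra K D] (x : X × Fin 2 × Fin 2 → D),
      (aeval x : MvPolynomial (X × Fin 2 × Fin 2) K →ₐ[K] D).mapMatrix
        (FreeAlgebra.lift K (MatId_gen K X) g) =
      FreeAlgebra.lift K (fun i => Matrix.of fun a b => x (i, a, b)) g :=
    fun x => MatId_map x g
  have h0 : FreeAlgebra.lift K (MatId_gen K X) g = 0 := by
    ext1 a b
    refine MvPolynomial.funext fun x => ?_
    have h1 := MatId_map x g
    rw [hg] at h1
    have h2 := congrFun (congrFun h1 a) b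
    rw [AlgHom.mapMatrix_apply, Matrix.map_apply, Matrix.zero_apply] at h2
    rw [Matrix.zero_apply, map_zero]
    rw [← h2, MvPolynomial.aeval_eq_eval]
  have h3 := hmap (fun q : X × Fin 2 × Fin 2 => v q.1 q.2.1 q.2.2)
  rw [h0, map_zero] at h3
  rw [h3]
  rfl

/-- The elements which are homogeneous of degree `l`: the span of the words of length `l`. -/
def homog (K : Type u) [Field K] (X : Type) (l : ℕ) : Submodule K (FreeAlgebra K X) :=
  Submodule.span K {x | ∃ w : List X, w.length = l ∧ x = (w.map (FreeAlgebra.ι K)).prod}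

theorem MatId_words (g : FreeAlgebra K X) :
    g ∈ Submodule.span K {x | ∃ w : List X, x = (w.map (FreeAlgebra.ι K)).prod} := by
  obtain ⟨S, hS⟩ : ∃ S : Submodule K (FreeAlgebra K X),
      S = Submodule.span K {x | ∃ w : List X, x = (w.map (FreeAlgebra.ι K)).prod} := ⟨_, rfl⟩
  rw [← hS]
  have hone : (1 : FreeAlgebra K X) ∈ S := by
    rw [hS]
    exact Submodule.subset_span ⟨[], rfl⟩
  have hmul : S * S ≤ S := by
    rw [hS, Submodule.span_mul_span]
    apply Submodule.span_mono
    rintro _ ⟨_, ⟨w1, rfl⟩, _, ⟨w2, rfl⟩, rfl⟩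
    exact ⟨w1 ++ w2, by simp⟩
  induction g with
  | grade0 r =>
    rw [Algebra.algebraMap_eq_smul_one]
    exact S.smul_mem r hone
  | grade1 x =>
    rw [hS]
    exact Submodule.subset_span ⟨[x], by simp⟩
  | mul a b ha hb => exact hmul (Submodule.mul_mem_mul ha hb)
  | add a b ha hb => exact S.add_mem ha hb

theorem MatId_dec (g : FreeAlgebra K X) :
    ∃ (N : ℕ) (gl : ℕ → FreeAlgebra K X), (∀ l, gl l ∈ homog K X l) ∧ (∀ l, N ≤ l → gl l = 0) ∧
      g = ∑ l ∈ Finset.range N, gl l := by
  classical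
  have hext : ∀ (N M : ℕ) (gl : ℕ → FreeAlgebra K X), N ≤ M → (∀ l, N ≤ l → gl l = 0) →
      ∑ l ∈ Finset.range M, gl l = ∑ l ∈ Finset.range N, gl l := by
    intro N M gl hNM h
    refine (Finset.sum_subset (Finset.range_subset_range.2 hNM) fun l _ hl => ?_).symm
    exact h l (not_lt.1 fun h1 => hl (Finset.mem_range.2 h1))
  refine Submodule.span_induction ?_ ?_ ?_ ?_ (MatId_words g)
  · rintro _ ⟨w, rfl⟩
    refine ⟨w.length + 1, fun l => if l = w.length then (w.map (FreeAlgebra.ι K)).prod else 0,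
      fun l => ?_, fun l hl => ?_, ?_⟩
    · simp only
      split_ifs with h
      · exact Submodule.subset_span ⟨w, h.symm, rfl⟩
      · exact Submodule.zero_mem _
    · simp only
      rw [if_neg (by omega)]
    · rw [Finset.sum_ite_eq', if_pos (Finset.mem_range.2 (Nat.lt_succ_self _))]
  · exact ⟨0, fun _ => 0, fun l => Submodule.zero_mem _, fun _ _ => rfl, by simp⟩
  · rintro x y _ _ ⟨N1, g1, a1, a2, a3⟩ ⟨N2, g2, b1, b2, b3⟩
    refine ⟨max N1 N2, fun l => g1 l + g2 l, fun l => Submodule.add_mem _ (a1 l) (b1 l),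
      fun l hl => ?_, ?_⟩
    · simp only
      rw [a2 l ((le_max_left _ _).trans hl), b2 l ((le_max_right _ _).trans hl), add_zero]
    · rw [Finset.sum_add_distrib, hext N1 _ g1 (le_max_left _ _) a2,
        hext N2 _ g2 (le_max_right _ _) b2, ← a3, ← b3]
  · rintro r x _ ⟨N1, g1, a1, a2, a3⟩
    refine ⟨N1, fun l => r • g1 l, fun l => Submodule.smul_mem _ _ (a1 l), fun l hl => ?_, ?_⟩
    · simp only
      rw [a2 l hl, smul_zero]
    · rw [← Finset.smul_sum, ← a3]

theorem MatId_scale (b : K) (v : X → Matrix (Fin 2) (Fin 2) K) {l : ℕ} {x : FreeAlgebra K X}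
    (hx : x ∈ homog K X l) :
    FreeAlgebra.lift K (fun i => b • v i) x = b ^ l • FreeAlgebra.lift K v x := by
  refine Submodule.span_induction ?_ ?_ ?_ ?_ hx
  · rintro _ ⟨w, rfl, rfl⟩
    clear hx
    induction w with
    | nil => simp
    | cons a w ih =>
      rw [List.map_cons, List.prod_cons, map_mul, map_mul, ih, FreeAlgebra.lift_ι_apply,
        FreeAlgebra.lift_ι_apply, List.length_cons, smul_mul_smul_comm, pow_succ']
  · rw [map_zero, map_zero, smul_zero]
  · intro x y _ _ h1 h2
    rw [map_add, map_add, h1, h2, smul_add]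
  · intro r x _ h1
    rw [map_smul, map_smul, h1, smul_comm]

/-- The homogeneous components of an identity of `M_2(K)` are identities of `M_2(K)`.

PROOF. The words span the free algebra, so `g = ∑_{l < N} gl l` with `gl l ∈ homog l`
(`FreeAlgebra.induction`: products of homogeneous elements are homogeneous; or
`FreeAlgebra.equivMonoidAlgebraFreeMonoid`). For `v : X → M_2(K)` and `t ∈ K` one has
`0 = lift (t • v) g = ∑ t ^ l • lift v (gl l)` (on words). By `N.vandermonde` (file N/Vand.lean, with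
`W = ⊥`) all `lift v (gl l)` vanish. -/
theorem J2_hom [Infinite K] {g : FreeAlgebra K X} (hg : g ∈ J2 K X) :
    ∃ (N : ℕ) (gl : ℕ → FreeAlgebra K X), (∀ l, gl l ∈ J2 K X) ∧ (∀ l, gl l ∈ homog K X l) ∧
      g = ∑ l ∈ Finset.range N, gl l := by
  obtain ⟨N, gl, h1, h2, h3⟩ := MatId_dec g
  refine ⟨N, gl, fun l v => ?_, h1, h3⟩
  rcases le_or_gt N l with hl | hl
  · rw [h2 l hl, map_zero]
  have h4 : ∀ b : K, ∑ s ∈ Finset.range (N + 1), b ^ s • FreeAlgebra.lift K v (gl s) ∈
      (⊥ : Submodule K (Matrix (Fin 2) (Fin 2) K)) := by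
    intro b
    rw [Submodule.mem_bot, Finset.sum_range_succ, h2 N le_rfl, map_zero, smul_zero, add_zero]
    have h5 := hg (fun i => b • v i)
    rw [h3, map_sum] at h5
    rw [← h5]
    exact Finset.sum_congr rfl fun s _ => (MatId_scale b v (h1 s)).symm
  exact (Submodule.mem_bot K).1 (vandermonde ⊥ N (fun s => FreeAlgebra.lift K v (gl s)) h4 l hl.le)

end Pool.Agent.H.MP_f5ceca_al.BR
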