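import Pool.Agent.H.MP_f5ceca_al.BR.Ann

/-!
Slot polynomials: extensionality on products of powers, merging of letters, linearity in a letter.
-/

namespace Pool.Agent.H.MP_f5ceca_al.BR

open MvPolynomial Function

variable {K : Type*} [Field K] {B : Type*} [Ring B] [Algebra K B]

section ext

variable {M : Type*} [AddCommGroup M] [Module K M]

theorem ext_prod {q : ℕ} {f g : MvPolynomial (Fin q) K →ₗ[K] M}
    (h : ∀ e : Fin q → ℕ, f (∏ i, X i ^ e i) = g (∏ i, X i ^ e i)) : f = g := by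
  refine sev_ext fun e => ?_
  have h1 : (monomial e 1 : MvPolynomial (Fin q) K) = ∏ i, X i ^ e i := by
    rw [MvPolynomial.monomial_eq, map_one, one_mul, Finsupp.prod_fintype]
    intro i; rw [pow_zero]
  rw [h1]
  exact h _

theorem ext_two {f g : MvPolynomial (Fin 2) K →ₗ[K] M}
    (h : ∀ i j : ℕ, f (X 0 ^ i * X 1 ^ j) = g (X 0 ^ i * X 1 ^ j)) : f = g := by
  refine ext_prod fun e => ?_
  have h1 : (∏ i, X i ^ e i : MvPolynomial (Fin 2) K) = X 0 ^ e 0 * X 1 ^ e 1 := by
    simp [Fin.prod_univ_succ]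
  rw [h1]
  exact h _ _

theorem ext_three {f g : MvPolynomial (Fin 3) K →ₗ[K] M}
    (h : ∀ i j k : ℕ, f (X 0 ^ i * X 1 ^ j * X 2 ^ k) = g (X 0 ^ i * X 1 ^ j * X 2 ^ k)) :
    f = g := by
  refine ext_prod fun e => ?_
  have h1 : (∏ i, X i ^ e i : MvPolynomial (Fin 3) K) = X 0 ^ e 0 * X 1 ^ e 1 * X 2 ^ e 2 := by
    simp [Fin.prod_univ_succ, mul_assoc]
  rw [h1]
  exact h _ _ _

theorem ext_four {f g : MvPolynomial (Fin 4) K →ₗ[K] M}
    (h : ∀ i j k l : ℕ, f (X 0 ^ i * X 1 ^ j * X 2 ^ k * X 3 ^ l) =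
      g (X 0 ^ i * X 1 ^ j * X 2 ^ k * X 3 ^ l)) : f = g := by
  refine ext_prod fun e => ?_
  have h1 : (∏ i, X i ^ e i : MvPolynomial (Fin 4) K) =
      X 0 ^ e 0 * X 1 ^ e 1 * X 2 ^ e 2 * X 3 ^ e 3 := by
    simp [Fin.prod_univ_succ, mul_assoc]
  rw [h1]
  exact h _ _ _ _

end ext

/-- Merging the second and the third of four letters. -/
theorem sev_merge_mid (z a x w b : B) (P : MvPolynomial (Fin 4) K) :
    sev z ![a, x, w, b] (rename ![(0 : Fin 5), 1, 3, 4] P) = sev z ![a, x * w, b] P := by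
  have h : (sev (K := K) z ![a, x, w, b]).comp
      (rename (R := K) ![(0 : Fin 5), 1, 3, 4]).toLinearMap = sev (K := K) z ![a, x * w, b] := by
    refine ext_four fun i j k l => ?_
    rw [LinearMap.comp_apply, sev_three_letters]
    have h1 : (rename (R := K) ![(0 : Fin 5), 1, 3, 4]).toLinearMap
        (X 0 ^ i * X 1 ^ j * X 2 ^ k * X 3 ^ l) =
        X 0 ^ i * X 1 ^ j * X 2 ^ 0 * X 3 ^ k * X 4 ^ l := by
      simp
    rw [h1, sev_four_letters]
    simp [mul_assoc]
  exact LinearMap.congr_fun h P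

/-- Merging the third and the fourth of four letters. -/
theorem sev_merge_right (z a x w b : B) (P : MvPolynomial (Fin 4) K) :
    sev z ![a, x, w, b] (rename ![(0 : Fin 5), 1, 2, 4] P) = sev z ![a, x, w * b] P := by
  have h : (sev (K := K) z ![a, x, w, b]).comp
      (rename (R := K) ![(0 : Fin 5), 1, 2, 4]).toLinearMap = sev (K := K) z ![a, x, w * b] := by
    refine ext_four fun i j k l => ?_
    rw [LinearMap.comp_apply, sev_three_letters]
    have h1 : (rename (R := K) ![(0 : Fin 5), 1, 2, 4]).toLinearMap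
        (X 0 ^ i * X 1 ^ j * X 2 ^ k * X 3 ^ l) =
        X 0 ^ i * X 1 ^ j * X 2 ^ k * X 3 ^ 0 * X 4 ^ l := by
      simp
    rw [h1, sev_four_letters]
    simp [mul_assoc]
  exact LinearMap.congr_fun h P

/-- The middle letter is `z` itself. -/
theorem sev_absorb (z a b : B) (P : MvPolynomial (Fin 4) K) :
    sev z ![a, z, b] P =
      sev z ![a, b] (aeval (R := K) ![(X 0 : MvPolynomial (Fin 3) K), X 1, X 1, X 2] P * X 1) := by
  have h : sev (K := K) z ![a, z, b] = ((sev (K := K) z ![a, b]).comp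
      (LinearMap.mulRight K (X 1 : MvPolynomial (Fin 3) K))).comp
      (aeval (R := K) ![(X 0 : MvPolynomial (Fin 3) K), X 1, X 1, X 2]).toLinearMap := by
    refine ext_four fun i j k l => ?_
    rw [LinearMap.comp_apply, LinearMap.comp_apply, sev_three_letters]
    have h1 : (aeval (R := K) ![(X 0 : MvPolynomial (Fin 3) K), X 1, X 1, X 2]).toLinearMap
        (X 0 ^ i * X 1 ^ j * X 2 ^ k * X 3 ^ l) =
        X 0 ^ i * X 1 ^ j * X 1 ^ k * X 2 ^ l := by
      simp
    rw [h1, LinearMap.mulRight_apply]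
    have h2 : (X 0 ^ i * X 1 ^ j * X 1 ^ k * X 2 ^ l * X 1 : MvPolynomial (Fin 3) K) =
        X 0 ^ i * X 1 ^ (j + 1 + k) * X 2 ^ l := by ring
    rw [h2, sev_two_letters, pow_add, pow_add, pow_one]
    simp only [mul_assoc]
  exact LinearMap.congr_fun h P

/-- Additivity in the middle one of three letters. -/
theorem sev_sub_mid (z a x y b : B) (P : MvPolynomial (Fin 4) K) :
    sev z ![a, x - y, b] P = sev z ![a, x, b] P - sev z ![a, y, b] P := by
  have h : sev (K := K) z ![a, x - y, b] = sev (K := K) z ![a, x, b] - sev z ![a, y, b] := by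
    refine ext_four fun i j k l => ?_
    rw [LinearMap.sub_apply, sev_three_letters, sev_three_letters, sev_three_letters]
    simp only [mul_sub, sub_mul]
  exact LinearMap.congr_fun h P

end Pool.Agent.H.MP_f5ceca_al.BR
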