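import Pool.Agent.H.MP_f5ceca_al.BR.Defs

/-!
Multilinear maps with trace operators (block BR2).
-/

namespace Pool.Agent.H.MP_f5ceca_al.BR

open MvPolynomial Function
open Pool.Agent.H.MP_f5ceca_al.N

universe u v

/-- left multiplication by `a` on the augmentation ideal -/
noncomputable def lmA {K : Type u} [Field K] {n : ℕ} (a : FA K n) :
    Aug K n →ₗ[K] Aug K n :=
  (LinearMap.mulLeft K a).restrict fun _ hx => Aug_left a hx

theorem coe_lmA {K : Type u} [Field K] {n : ℕ} (a : FA K n) (x : Aug K n) :
    (lmA a x : FA K n) = a * x := rfl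

/-- Families (indexed by pairs `(w, p)`) of multilinear maps in four variables in `Aug` with values in `A`. -/
abbrev M4 (K : Type u) [Field K] (n : ℕ) (A : Type u) [Ring A] [Algebra K A] : Type u :=
  (Aug K n × Aug K n) → MultilinearMap K (fun _ : Fin 4 => Aug K n) A

variable {K : Type u} [Field K] {n : ℕ} {A : Type u} [Ring A] [Algebra K A]

/-- The trace operator. -/
noncomputable def DM (a : FA K n) : M4 K n A →ₗ[K] M4 K n A where
  toFun φ q := (2⁻¹ : K) • ∑ i : Fin 4,
    (φ q).compLinearMap fun j => if j = i then lmA a else LinearMap.id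
  map_add' φ ψ := by
    funext q
    refine MultilinearMap.ext fun y => ?_
    simp [Finset.sum_add_distrib, smul_add]
  map_smul' r φ := by
    funext q
    refine MultilinearMap.ext fun y => ?_
    simp only [Pi.smul_apply, MultilinearMap.smul_apply, MultilinearMap.sum_apply,
      MultilinearMap.compLinearMap_apply, RingHom.id_apply]
    rw [← Finset.smul_sum, smul_comm]

/-- right multiplication -/
noncomputable def RM (v : A) : M4 K n A →ₗ[K] M4 K n A where
  toFun φ q := (LinearMap.mulRight K v).compMultilinearMap (φ q)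
  map_add' φ ψ := by
    funext q
    refine MultilinearMap.ext fun y => ?_
    simp [add_mul]
  map_smul' r φ := by
    funext q
    refine MultilinearMap.ext fun y => ?_
    simp

/-- left multiplication -/
noncomputable def LM (v : A) : M4 K n A →ₗ[K] M4 K n A where
  toFun φ q := (LinearMap.mulLeft K v).compMultilinearMap (φ q)
  map_add' φ ψ := by
    funext q
    refine MultilinearMap.ext fun y => ?_
    simp [mul_add]
  map_smul' r φ := by
    funext q
    refine MultilinearMap.ext fun y => ?_
    simp

theorem RM_apply (v : A) (φ : M4 K n A) (q : Aug K n × Aug K n) (y : Fin 4 → Aug K n) :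
    RM v φ q y = φ q y * v := rfl

theorem LM_apply (v : A) (φ : M4 K n A) (q : Aug K n × Aug K n) (y : Fin 4 → Aug K n) :
    LM v φ q y = v * φ q y := rfl

/-- PROOF. Unfold; `MultilinearMap.sum_apply`, `compLinearMap_apply`; the two arguments of `φ q` agree
(`funext j`, `by_cases j = i`). -/
theorem DM_apply (a : FA K n) (φ : M4 K n A) (q : Aug K n × Aug K n) (y : Fin 4 → Aug K n) :
    DM a φ q y = (2⁻¹ : K) • ∑ i, φ q (update y i (lmA a (y i))) := by
  simp only [DM, LinearMap.coe_mk, AddHom.coe_mk, MultilinearMap.smul_apply,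
    MultilinearMap.sum_apply, MultilinearMap.compLinearMap_apply]
  congr 1
  refine Finset.sum_congr rfl fun i _ => ?_
  congr 1
  funext j
  by_cases h : j = i
  · subst h
    simp
  · simp [h]

theorem Mod1_lmA_add (a b : FA K n) (x : Aug K n) : lmA (a + b) x = lmA a x + lmA b x := by
  apply Subtype.ext
  rw [coe_lmA, Submodule.coe_add, coe_lmA, coe_lmA, add_mul]

theorem Mod1_lmA_smul (r : K) (a : FA K n) (x : Aug K n) : lmA (r • a) x = r • lmA a x := by
  apply Subtype.ext
  rw [coe_lmA, Submodule.coe_smul, coe_lmA, smul_mul_assoc]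

theorem Mod1_lmA_one (x : Aug K n) : lmA (1 : FA K n) x = x := by
  apply Subtype.ext
  rw [coe_lmA, one_mul]

theorem Mod1_lmA_comm (a b : FA K n) (x : Aug K n) :
    lmA (b * a - a * b) x = lmA b (lmA a x) - lmA a (lmA b x) := by
  apply Subtype.ext
  rw [coe_lmA, Submodule.coe_sub, coe_lmA, coe_lmA, coe_lmA, coe_lmA, sub_mul, mul_assoc, mul_assoc]

/-- PROOF. `DM_apply`, `lmA (a + b) x = lmA a x + lmA b x`, `MultilinearMap.map_update_add`. -/
theorem DM_add (a b : FA K n) (φ : M4 K n A) : DM (a + b) φ = DM a φ + DM b φ := by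
  funext q
  refine MultilinearMap.ext fun y => ?_
  rw [Pi.add_apply, MultilinearMap.add_apply, DM_apply, DM_apply, DM_apply, ← smul_add,
    ← Finset.sum_add_distrib]
  congr 1
  refine Finset.sum_congr rfl fun i _ => ?_
  rw [Mod1_lmA_add, MultilinearMap.map_update_add]

/-- PROOF. `MultilinearMap.map_update_smul`. -/
theorem DM_smul (r : K) (a : FA K n) (φ : M4 K n A) : DM (r • a) φ = r • DM a φ := by
  funext q
  refine MultilinearMap.ext fun y => ?_
  rw [Pi.smul_apply, MultilinearMap.smul_apply, DM_apply, DM_apply, smul_comm r]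
  congr 1
  rw [Finset.smul_sum]
  refine Finset.sum_congr rfl fun i _ => ?_
  rw [Mod1_lmA_smul, MultilinearMap.map_update_smul]

/-- PROOF. `lmA 1 x = x`, `update_eq_self`; four terms, `4 / 2 = 2`. -/
theorem DM_one [CharZero K] (φ : M4 K n A) : DM 1 φ = (2 : K) • φ := by
  funext q
  refine MultilinearMap.ext fun y => ?_
  rw [Pi.smul_apply, MultilinearMap.smul_apply, DM_apply]
  have h : ∀ i : Fin 4, φ q (update y i (lmA (1 : FA K n) (y i))) = φ q y := by
    intro i
    rw [Mod1_lmA_one, update_eq_self]
  rw [Finset.sum_congr rfl fun i _ => h i, Finset.sum_const, Finset.card_univ, Fintype.card_fin,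
    ← Nat.cast_smul_eq_nsmul K, smul_smul]
  congr 1
  norm_num

/-- The commutator of two trace operators.
PROOF. `DM_apply` twice: `DM a (DM b φ) q y = (1/4) ∑_i ∑_j φ q (update (update y i (a y_i)) j (b (update ..) j))`. The terms with
`i ≠ j` are symmetric in `(a, i)`, `(b, j)` (`update_comm`) and cancel in the difference; the terms `i = j` give
`(1/4) ∑_i (φ q (update y i (b a y_i)) - φ q (update y i (a b y_i)))`. -/
theorem DM_comm [CharZero K] (a b : FA K n) (φ : M4 K n A) :
    DM a (DM b φ) - DM b (DM a φ) = (2⁻¹ : K) • DM (b * a - a * b) φ := by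
  funext q
  refine MultilinearMap.ext fun y => ?_
  have key : ∀ c d : FA K n, DM c (DM d φ) q y = (2⁻¹ : K) • (2⁻¹ : K) • ∑ i, ∑ j,
      φ q (update (update y i (lmA c (y i))) j (lmA d (update y i (lmA c (y i)) j))) := by
    intro c d
    rw [DM_apply]
    congr 1
    rw [Finset.smul_sum]
    refine Finset.sum_congr rfl fun i _ => ?_
    rw [DM_apply]
  rw [Pi.sub_apply, MultilinearMap.sub_apply, Pi.smul_apply, MultilinearMap.smul_apply, key a b,
    key b a, DM_apply, ← smul_sub, ← smul_sub]
  congr 2
  rw [Finset.sum_comm (f := fun i j => φ q (update (update y i (lmA b (y i))) j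
    (lmA a (update y i (lmA b (y i)) j)))), ← Finset.sum_sub_distrib]
  refine Finset.sum_congr rfl fun i _ => ?_
  rw [← Finset.sum_sub_distrib, Finset.sum_eq_single i]
  · rw [update_self, update_self, update_idem, update_idem, Mod1_lmA_comm,
      MultilinearMap.map_update_sub]
  · intro j _ hj
    rw [update_of_ne hj, update_of_ne (Ne.symm hj), update_comm hj, sub_self]
  · intro h
    exact absurd (Finset.mem_univ i) h

theorem DM_RM (a : FA K n) (v : A) (φ : M4 K n A) : DM a (RM v φ) = RM v (DM a φ) := by
  funext q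
  refine MultilinearMap.ext fun y => ?_
  rw [DM_apply, RM_apply, DM_apply, smul_mul_assoc, Finset.sum_mul]
  rfl

theorem DM_LM (a : FA K n) (v : A) (φ : M4 K n A) : DM a (LM v φ) = LM v (DM a φ) := by
  funext q
  refine MultilinearMap.ext fun y => ?_
  rw [DM_apply, LM_apply, DM_apply, mul_smul_comm, Finset.mul_sum]
  rfl

end Pool.Agent.H.MP_f5ceca_al.BR
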