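import Pool.Agent.H.MP_f5ceca_al.BR.T4a

/-!
(T4), uniform versions.
-/

namespace Pool.Agent.H.MP_f5ceca_al.BR

open MvPolynomial Function
open Pool.Agent.H.MP_f5ceca_al.N

universe u v

variable {K : Type u} [Field K]

theorem T4b_mono {B : Type v} [Ring B] [Algebra K B] {E : Submodule K B} (hE : IsIdl E) (c x : B)
    (i j : ℕ) (hij : i ≤ j) (h : c ^ i * x * c ^ i ∈ E) : c ^ j * x * c ^ j ∈ E := by
  have h1 : c ^ j * x * c ^ j = c ^ (j - i) * (c ^ i * x * c ^ i) * c ^ (j - i) := by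
    have h2 : c ^ j = c ^ (j - i) * c ^ i := (pow_sub_mul_pow c hij).symm
    have h3 : c ^ j = c ^ i * c ^ (j - i) := (pow_mul_pow_sub c hij).symm
    conv_lhs =>
      congr
      · rw [h2]
      · rw [h3]
    simp only [mul_assoc]
  rw [h1]
  exact hE.right _ _ (hE.left _ _ h)

theorem T4b_abs {B : Type v} [Ring B] [Algebra K B] {D T : Submodule K B} (hD : IsIdl D)
    (hT : IsIdl T) (c : B) (hc : ∀ (i : ℕ) (x : B), br (c ^ i) x ∈ D) (i : ℕ) (r : B)
    (hr : c ^ i * r * c ^ i ∈ D * D ⊔ T) (a b : B) :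
    c ^ (2 * i) * (a * r * b) * c ^ (2 * i) ∈ D * D ⊔ T := by
  have hE : IsIdl (D * D ⊔ T) := T4a_sup (T4a_mul hD hD) hT
  have hDT : IsIdl (D ⊔ T) := T4a_sup hD hT
  have hED : D * D ⊔ T ≤ D ⊔ T := by
    refine sup_le_sup_right ?_ T
    intro x hx
    induction hx using Submodule.mul_induction_on' with
    | mem_mul_mem p hp q hq => exact hD.right _ _ hp
    | add x _ y _ hx hy => exact add_mem hx hy
  have hr1 : r * c ^ (2 * i) ∈ D ⊔ T := by
    have h2 : r * c ^ (2 * i) = c ^ i * r * c ^ i - br (c ^ i) r * c ^ i := by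
      unfold br
      rw [two_mul, pow_add]
      noncomm_ring
    rw [h2]
    exact sub_mem (hED hr) (Submodule.mem_sup_left (hD.right _ _ (hc i r)))
  have hr2 : c ^ (2 * i) * r ∈ D ⊔ T := by
    have h2 : c ^ (2 * i) * r = c ^ i * r * c ^ i + c ^ i * br (c ^ i) r := by
      unfold br
      rw [two_mul, pow_add]
      noncomm_ring
    rw [h2]
    exact add_mem (hED hr) (Submodule.mem_sup_left (hD.left _ _ (hc i r)))
  have hr3 : c ^ (2 * i) * r * c ^ (2 * i) ∈ D * D ⊔ T :=
    T4b_mono hE c r i (2 * i) (by omega) hr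
  have hmulr : ∀ x ∈ D, ∀ y ∈ D ⊔ T, x * y ∈ D * D ⊔ T := by
    intro x hx y hy
    obtain ⟨p, hp, q, hq, rfl⟩ := Submodule.mem_sup.1 hy
    rw [mul_add]
    exact add_mem (Submodule.mem_sup_left (Submodule.mul_mem_mul hx hp))
      (Submodule.mem_sup_right (hT.left _ _ hq))
  have hmull : ∀ x ∈ D ⊔ T, ∀ y ∈ D, x * y ∈ D * D ⊔ T := by
    intro x hx y hy
    obtain ⟨p, hp, q, hq, rfl⟩ := Submodule.mem_sup.1 hx
    rw [add_mul]
    exact add_mem (Submodule.mem_sup_left (Submodule.mul_mem_mul hp hy))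
      (Submodule.mem_sup_right (hT.right _ _ hq))
  generalize hC : c ^ (2 * i) = C at *
  have hcb : br C b ∈ D := by rw [← hC]; exact hc _ _
  have hca : br C a ∈ D := by rw [← hC]; exact hc _ _
  have h1 : C * (a * r * b) * C = a * ((C * r * C) * b) - a * ((C * r) * br C b) +
      br C a * (r * C * b - r * br C b) := by
    unfold br
    noncomm_ring
  rw [h1]
  refine add_mem (sub_mem (hE.left _ _ (hE.right _ _ hr3)) (hE.left _ _ (hmull _ hr2 _ hcb)))
    (hmulr _ hca _ (sub_mem (hDT.right _ _ hr1) (hDT.left _ _ (Submodule.mem_sup_left hcb))))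

theorem T4b_push (S : Set (FreeAlgebra K ℕ)) {m n : ℕ} (u : Fin m → FA K n)
    (hu : ∀ j, u j ∈ Aug K n) (z w x : FA K m) (hx : x ∈ DD K z w * DD K z w ⊔ idn S m) :
    FreeAlgebra.lift K u x ∈ DD K (FreeAlgebra.lift K u z) (FreeAlgebra.lift K u w) *
      DD K (FreeAlgebra.lift K u z) (FreeAlgebra.lift K u w) ⊔ idn S n := by
  have hD : ∀ p ∈ DD K z w, FreeAlgebra.lift K u p ∈
      DD K (FreeAlgebra.lift K u z) (FreeAlgebra.lift K u w) := fun p hp =>
    DD_map_le (FreeAlgebra.lift K u) z w (Submodule.mem_map_of_mem hp)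
  obtain ⟨p, hp, q, hq, rfl⟩ := Submodule.mem_sup.1 hx
  rw [map_add]
  refine add_mem (Submodule.mem_sup_left ?_) (Submodule.mem_sup_right (idn_subst S m n hq u hu))
  clear hx
  induction hp using Submodule.mul_induction_on' with
  | mem_mul_mem p hp q hq =>
    rw [map_mul]
    exact Submodule.mul_mem_mul (hD _ hp) (hD _ hq)
  | add x _ y _ hx hy =>
    rw [map_add]
    exact add_mem hx hy

/-- (T4), uniform version for one identity in `d` variables.
PROOF. Apply `t4` in `FA K (d + 2)` with `z = xx K d`, `w = xx K (d + 1)` (the last two letters), `v j = xx K j` (`j < d`,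
`Fin.castLE` or `Fin.castAdd 2`), and then the substitution `FA K (d + 2) → FA K n`, `xx j ↦ v j`, `xx d ↦ z`,
`xx (d+1) ↦ w` (`Fin.append v ![z, w]`): `idn_subst`, `DD_map_le`, `Submodule.map_mul`, `Submodule.map_sup`. -/
theorem t4_unif [CharZero K] {S : Set (FreeAlgebra K ℕ)} {M : ℕ} (E : EBlock S M) {d : ℕ}
    {g : FA K d} (hg : g ∈ J2 K (Fin d)) :
    ∃ i, ∀ (n : ℕ) (z w : FA K n), z ∈ Aug K n → w ∈ Aug K n → ∀ v : Fin d → FA K n,
      (∀ j, v j ∈ Aug K n) →
      cc z w ^ i * FreeAlgebra.lift K v g * cc z w ^ i ∈ DD K z w * DD K z w ⊔ idn S n := by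
  obtain ⟨i, hi⟩ := t4 E (xx K (Fin.natAdd d (0 : Fin 2))) (xx K (Fin.natAdd d (1 : Fin 2)))
    (xx_mem_Aug K _) (xx_mem_Aug K _) hg (fun j => xx K (Fin.castAdd 2 j))
  refine ⟨i, fun n z w hz hw v hv => ?_⟩
  have hA : ∀ j : Fin (d + 2), (Fin.append v ![z, w] : Fin (d + 2) → FA K n) j ∈ Aug K n := by
    intro j
    induction j using Fin.addCases with
    | left j => rw [Fin.append_left]; exact hv j
    | right j =>
      rw [Fin.append_right]
      fin_cases j
      · exact hz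
      · exact hw
  have hz' : FreeAlgebra.lift K (Fin.append v ![z, w] : Fin (d + 2) → FA K n)
      (xx K (Fin.natAdd d (0 : Fin 2))) = z := by
    rw [xx, FreeAlgebra.lift_ι_apply, Fin.append_right]; rfl
  have hw' : FreeAlgebra.lift K (Fin.append v ![z, w] : Fin (d + 2) → FA K n)
      (xx K (Fin.natAdd d (1 : Fin 2))) = w := by
    rw [xx, FreeAlgebra.lift_ι_apply, Fin.append_right]; rfl
  have hc : ∀ (a b : FA K (d + 2)), FreeAlgebra.lift K (Fin.append v ![z, w] : Fin (d + 2) → FA K n)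
      (cc a b) = cc (FreeAlgebra.lift K (Fin.append v ![z, w] : Fin (d + 2) → FA K n) a)
        (FreeAlgebra.lift K (Fin.append v ![z, w] : Fin (d + 2) → FA K n) b) := by
    intro a b
    simp only [cc, ch, ck, br, map_mul, map_sub, map_pow]
  have hl : FreeAlgebra.lift K (Fin.append v ![z, w] : Fin (d + 2) → FA K n)
      (FreeAlgebra.lift K (fun j => xx K (Fin.castAdd 2 j)) g) = FreeAlgebra.lift K v g := by
    have h2 : (FreeAlgebra.lift K (Fin.append v ![z, w] : Fin (d + 2) → FA K n)).comp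
        (FreeAlgebra.lift K (fun j => xx K (Fin.castAdd 2 j))) = FreeAlgebra.lift K v := by
      apply FreeAlgebra.hom_ext
      funext j
      simp only [Function.comp_apply, AlgHom.comp_apply, FreeAlgebra.lift_ι_apply, xx]
      rw [Fin.append_left]
    exact DFunLike.congr_fun h2 g
  have h := T4b_push S (Fin.append v ![z, w] : Fin (d + 2) → FA K n) hA _ _ _ hi
  rw [map_mul, map_mul, map_pow, hc, hz', hw', hl] at h
  exact h

/-- The ideal of `FA K n` generated by the values of the elements of `H`. -/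
def MH {d : ℕ} (H : Set (FA K d)) (n : ℕ) : Submodule K (FA K n) :=
  Submodule.span K {y | ∃ g ∈ H, ∃ v : Fin d → FA K n, (∀ j, v j ∈ Aug K n) ∧
    ∃ a b : FA K n, y = a * FreeAlgebra.lift K v g * b}

/-- PROOF. `span_induction`. -/
theorem MH_idl {d : ℕ} (H : Set (FA K d)) (n : ℕ) : IsIdl (MH H n) where
  left := by
    intro a x hx
    induction hx using Submodule.span_induction with
    | mem x hx =>
      obtain ⟨g, hg, v, hv, p, q, rfl⟩ := hx
      exact Submodule.subset_span ⟨g, hg, v, hv, a * p, q, by simp only [mul_assoc]⟩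
    | zero => rw [mul_zero]; exact zero_mem _
    | add x y _ _ hx hy => rw [mul_add]; exact add_mem hx hy
    | smul r x _ hx => rw [mul_smul_comm]; exact Submodule.smul_mem _ r hx
  right := by
    intro a x hx
    induction hx using Submodule.span_induction with
    | mem x hx =>
      obtain ⟨g, hg, v, hv, p, q, rfl⟩ := hx
      exact Submodule.subset_span ⟨g, hg, v, hv, p, q * a, by simp only [mul_assoc]⟩
    | zero => rw [zero_mul]; exact zero_mem _
    | add x y _ _ hx hy => rw [add_mul]; exact add_mem hx hy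
    | smul r x _ hx => rw [smul_mul_assoc]; exact Submodule.smul_mem _ r hx

/-- (T4) for the ideal generated by the values of finitely many identities.
PROOF. Let `i` be larger than the numbers from `t4_unif` for all `g ∈ H` (if `c^i y c^i` is in the ideal `DD * DD ⊔ T`, so
is `c^j y c^j` for `j ≥ i`), `k = 2 i`. For a generator `a r b` (`r = lift v g`) : modulo `DD ⊔ T` the element `c` is central,
so `c^(2i) r ∈ DD ⊔ T` and `r c^(2i) ∈ DD ⊔ T` (from `c^i r c^i ∈ DD ⊔ T`). With `N = 2 i`: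
`c^N (a r b) c^N = a c^N r b c^N + br (c^N) a * (r b c^N)`; `r b c^N = r c^N b - r * br (c^N) b ∈ DD ⊔ T`, so the second term is in
`DD * (DD ⊔ T)`; first: `a (c^N r) (c^N b - br (c^N) b) = a (c^N r c^N) b - a (c^N r) br (c^N) b ∈ DD * DD ⊔ T`. -/
theorem t4_MH [CharZero K] {S : Set (FreeAlgebra K ℕ)} {M : ℕ} (E : EBlock S M) {d : ℕ}
    {H : Set (FA K d)} (hf : H.Finite) (hH : ∀ g ∈ H, g ∈ J2 K (Fin d)) :
    ∃ k, ∀ (n : ℕ) (z w : FA K n), z ∈ Aug K n → w ∈ Aug K n → ∀ m ∈ MH H n,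
      cc z w ^ k * m * cc z w ^ k ∈ DD K z w * DD K z w ⊔ idn S n := by
  have hex : ∀ g ∈ H, ∃ i, ∀ (n : ℕ) (z w : FA K n), z ∈ Aug K n → w ∈ Aug K n →
      ∀ v : Fin d → FA K n, (∀ j, v j ∈ Aug K n) →
      cc z w ^ i * FreeAlgebra.lift K v g * cc z w ^ i ∈ DD K z w * DD K z w ⊔ idn S n :=
    fun g hg => t4_unif E (hH g hg)
  choose! f hf' using hex
  obtain ⟨i, hi⟩ := (hf.image f).bddAbove
  have hidn : ∀ n : ℕ, IsIdl (idn S n) := fun n =>
    ⟨fun a x hx => idn_left S n a hx, fun a x hx => idn_right S n a hx⟩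
  have hE : ∀ (n : ℕ) (z w : FA K n), IsIdl (DD K z w * DD K z w ⊔ idn S n) := fun n z w =>
    T4a_sup (T4a_mul (DD_idl z w) (DD_idl z w)) (hidn n)
  refine ⟨2 * i, fun n z w hz hw m hm => ?_⟩
  induction hm using Submodule.span_induction with
  | mem x hx =>
    obtain ⟨g, hg, v, hv, p, q, rfl⟩ := hx
    refine T4b_abs (DD_idl z w) (hidn n) (cc z w) (fun j x => br_c_pow_mem z w x j) i _ ?_ p q
    exact T4b_mono (hE n z w) _ _ (f g) i (hi ⟨g, hg, rfl⟩) (hf' g hg n z w hz hw v hv)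
  | zero => rw [mul_zero, zero_mul]; exact zero_mem _
  | add x y _ _ hx hy => rw [mul_add, add_mul]; exact add_mem hx hy
  | smul r x _ hx =>
    rw [mul_smul_comm, smul_mul_assoc]
    exact Submodule.smul_mem _ r hx

end Pool.Agent.H.MP_f5ceca_al.BR
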