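import Pool.Agent.H.MP_f5ceca_al.BR.Mod1
import Pool.Agent.H.MP_f5ceca_al.BR.G4b
import Pool.Agent.H.MP_f5ceca_al.BR.T4b

/-!
The multilinear map given by the central polynomial, and its identities (block BR2).
-/

namespace Pool.Agent.H.MP_f5ceca_al.BR

open MvPolynomial Function
open Pool.Agent.H.MP_f5ceca_al.N

universe u v

variable {K : Type u} [Field K] {n : ℕ} {A : Type u} [Ring A] [Algebra K A]

theorem Mod2_upd {B : Type*} (σ : Equiv.Perm (Fin 4)) (y : Fin 4 → B) (j k : Fin 4) (v : B) :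
    update y (σ j) v (σ k) = if k = j then v else y (σ k) := by
  rw [Function.update_apply]
  simp only [σ.injective.eq_iff]

theorem Mod2_c4_add {B : Type*} [Ring B] (y : Fin 4 → B) (i : Fin 4) (a b w : B) :
    c4 (update y i (a + b)) w = c4 (update y i a) w + c4 (update y i b) w := by
  unfold c4
  rw [← Finset.sum_add_distrib]
  refine Finset.sum_congr rfl fun σ _ => ?_
  obtain ⟨j, rfl⟩ := σ.surjective i
  rw [← smul_add]
  congr 1
  simp only [Mod2_upd]
  fin_cases j <;> simp [mul_add, add_mul]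

theorem Mod2_c4_smul {K : Type*} [Field K] {B : Type*} [Ring B] [Algebra K B] (y : Fin 4 → B)
    (i : Fin 4) (r : K) (a w : B) :
    c4 (update y i (r • a)) w = r • c4 (update y i a) w := by
  unfold c4
  rw [Finset.smul_sum]
  refine Finset.sum_congr rfl fun σ _ => ?_
  obtain ⟨j, rfl⟩ := σ.surjective i
  rw [smul_comm]
  congr 1
  simp only [Mod2_upd]
  fin_cases j <;> simp

theorem Mod2_G4_add {B : Type*} [Ring B] (y : Fin 4 → B) (i : Fin 4) (a b w p : B) :
    G4 (update y i (a + b)) w p = G4 (update y i a) w p + G4 (update y i b) w p := by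
  unfold G4
  rw [Mod2_c4_add]
  unfold an br
  noncomm_ring

theorem Mod2_G4_smul {K : Type*} [Field K] {B : Type*} [Ring B] [Algebra K B] (y : Fin 4 → B)
    (i : Fin 4) (r : K) (a w p : B) :
    G4 (update y i (r • a)) w p = r • G4 (update y i a) w p := by
  unfold G4
  rw [Mod2_c4_smul]
  unfold an br
  simp only [smul_mul_assoc, mul_smul_comm, ← smul_sub, ← smul_add]

theorem Mod2_coe (y : Fin 4 → Aug K n) (i : Fin 4) (v : Aug K n) :
    (fun j => ((update y i v j : Aug K n) : FA K n)) =
      update (fun j => (y j : FA K n)) i (v : FA K n) := by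
  funext j
  by_cases h : j = i
  · subst h
    simp
  · simp [h]

/-- PROOF. `c4` is additive and homogeneous in every `y i` (in every summand exactly one factor changes: `update y i v (σ j)`,
`σ j = i` for exactly one `j`), hence so is `G4`. Construct the `MultilinearMap` with `toFun y := π (G4 (fun i => y i) q.1 q.2)`; or build
`c4` as a sum of `MultilinearMap.mkPiAlgebraFin`-type maps. -/
theorem exists_gM (π : FA K n →ₐ[K] A) : ∃ g : M4 K n A, ∀ q y,
    g q y = π (G4 (fun i => (y i : FA K n)) (q.1 : FA K n) (q.2 : FA K n)) := by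
  refine ⟨fun q => MultilinearMap.mk
    (fun y => π (G4 (fun i => (y i : FA K n)) (q.1 : FA K n) (q.2 : FA K n))) ?_ ?_,
    fun q y => rfl⟩
  · intro inst m i a b
    have e : inst = instDecidableEqFin 4 := Subsingleton.elim _ _
    subst e
    simp only [Mod2_coe]
    rw [Submodule.coe_add, Mod2_G4_add, map_add]
  · intro inst m i r a
    have e : inst = instDecidableEqFin 4 := Subsingleton.elim _ _
    subst e
    simp only [Mod2_coe]
    rw [Submodule.coe_smul, Mod2_G4_smul, map_smul]

/-- `DM` corresponds to `Dop`.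
PROOF. If `φ q y = π (f (fun i => y i))` for all `y` then `DM a φ q y = π (Dop K a f (fun i => y i))`: `DM_apply`, and
`(fun j => (update y i (lmA a (y i)) j : FA K n)) = update (fun j => y j) i (a * y i)`. -/
theorem DM_eq (π : FA K n →ₐ[K] A) (a : FA K n) (φ : M4 K n A) (q : Aug K n × Aug K n)
    (f : (Fin 4 → FA K n) → FA K n) (h : ∀ y, φ q y = π (f fun i => (y i : FA K n)))
    (y : Fin 4 → Aug K n) : DM a φ q y = π (Dop K a f fun i => (y i : FA K n)) := by
  rw [DM_apply]
  unfold Dop
  rw [map_smul, map_sum]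
  congr 1
  refine Finset.sum_congr rfl fun i _ => ?_
  rw [h, Mod2_coe, coe_lmA]

/-- Values of the identities of `H0` in the quotient vanish.
PROOF. For each `e ∈ H0 K` and `v : Fin 9 → Aug`: `lift K v e ∈ MH (H0 K) n`; compute `lift K v e` by `map_G4`, `map_Dop`. -/
theorem vals (π : FA K n →ₐ[K] A) (hk : ∀ x, x ∈ MH (H0 K) n → π x = 0) (g : M4 K n A)
    (hg : ∀ q y, g q y = π (G4 (fun i => (y i : FA K n)) (q.1 : FA K n) (q.2 : FA K n))) :
    (∀ x ∈ Aug K n, LM (π x) g = RM (π x) g) ∧
    (∀ a ∈ Aug K n, ∀ b ∈ Aug K n, DM (br a b) g = 0) ∧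
    (∀ a ∈ Aug K n, RM (π (a * a)) g - RM (π a) (DM a g) +
      (2⁻¹ : K) • (DM a (DM a g) - DM (a * a) g) = 0) ∧
    (∀ a ∈ Aug K n, ∀ b ∈ Aug K n, DM (a * a * b) g - DM a (DM (a * b) g) +
      (2⁻¹ : K) • (DM a (DM a (DM b g)) - DM (a * a) (DM b g)) = 0) := by
  have key : ∀ (q : Aug K n × Aug K n) (y : Fin 4 → Aug K n) (x a b : Aug K n),
      π (br (G4 (fun i => (y i : FA K n)) (q.1 : FA K n) (q.2 : FA K n)) (x : FA K n)) = 0 ∧
      π (Dop K (br (a : FA K n) (b : FA K n))
        (fun z => G4 z (q.1 : FA K n) (q.2 : FA K n)) (fun i => (y i : FA K n))) = 0 ∧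
      π (G4 (fun i => (y i : FA K n)) (q.1 : FA K n) (q.2 : FA K n) *
          ((a : FA K n) * (a : FA K n)) -
        Dop K (a : FA K n) (fun z => G4 z (q.1 : FA K n) (q.2 : FA K n))
          (fun i => (y i : FA K n)) * (a : FA K n) +
        (2⁻¹ : K) • (Dop K (a : FA K n) (Dop K (a : FA K n)
            (fun z => G4 z (q.1 : FA K n) (q.2 : FA K n))) (fun i => (y i : FA K n)) -
          Dop K ((a : FA K n) * (a : FA K n)) (fun z => G4 z (q.1 : FA K n) (q.2 : FA K n))
            (fun i => (y i : FA K n)))) = 0 ∧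
      π (Dop K ((a : FA K n) * (a : FA K n) * (b : FA K n))
          (fun z => G4 z (q.1 : FA K n) (q.2 : FA K n)) (fun i => (y i : FA K n)) -
        Dop K (a : FA K n) (Dop K ((a : FA K n) * (b : FA K n))
          (fun z => G4 z (q.1 : FA K n) (q.2 : FA K n))) (fun i => (y i : FA K n)) +
        (2⁻¹ : K) • (Dop K (a : FA K n) (Dop K (a : FA K n) (Dop K (b : FA K n)
            (fun z => G4 z (q.1 : FA K n) (q.2 : FA K n)))) (fun i => (y i : FA K n)) -
          Dop K ((a : FA K n) * (a : FA K n)) (Dop K (b : FA K n)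
            (fun z => G4 z (q.1 : FA K n) (q.2 : FA K n))) (fun i => (y i : FA K n)))) = 0 := by
    intro q y x a b
    let vA : Fin 9 → Aug K n := ![y 0, y 1, y 2, y 3, q.1, q.2, x, a, b]
    let L : FA K 9 →ₐ[K] FA K n := FreeAlgebra.lift K fun j => (vA j : FA K n)
    have hL : ∀ j, L (xx K j) = (vA j : FA K n) := fun j => FreeAlgebra.lift_ι_apply _ _
    have hm : ∀ e ∈ H0 K, π (L e) = 0 := by
      intro e he
      refine hk _ (Submodule.subset_span ⟨e, he, fun j => (vA j : FA K n), fun j => (vA j).2,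
        1, 1, ?_⟩)
      rw [one_mul, mul_one]
    have hy : (fun i => L (gy K i)) = fun i => (y i : FA K n) := by
      funext i
      unfold gy
      rw [hL]
      fin_cases i <;> rfl
    have hgf : ∀ z : Fin 4 → FA K 9, L (gf K z) =
        (fun z => G4 z (q.1 : FA K n) (q.2 : FA K n)) fun i => L (z i) := by
      intro z
      have h1 := map_G4 (L : FA K 9 →+* FA K n) z (xx K 4) (xx K 5)
      have h4 : L (xx K 4) = (q.1 : FA K n) := hL 4
      have h5 : L (xx K 5) = (q.2 : FA K n) := hL 5
      simp only [RingHom.coe_coe] at h1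
      rw [h4, h5] at h1
      exact h1
    have hD := fun (c : FA K 9) => map_Dop L c (gf K)
      (fun z => G4 z (q.1 : FA K n) (q.2 : FA K n)) hgf
    have hDD := fun (c d : FA K 9) => map_Dop L c (Dop K d (gf K))
      (Dop K (L d) (fun z => G4 z (q.1 : FA K n) (q.2 : FA K n))) (hD d)
    have hDDD := fun (c d e : FA K 9) => map_Dop L c (Dop K d (Dop K e (gf K)))
      (Dop K (L d) (Dop K (L e) (fun z => G4 z (q.1 : FA K n) (q.2 : FA K n)))) (hDD d e)
    have h6 : L (xx K 6) = (x : FA K n) := hL 6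
    have h7 : L (xx K 7) = (a : FA K n) := hL 7
    have h8 : L (xx K 8) = (b : FA K n) := hL 8
    have hbr : ∀ c d : FA K 9, L (br c d) = br (L c) (L d) := fun c d => by
      simp only [br, map_sub, map_mul]
    refine ⟨?_, ?_, ?_, ?_⟩
    · have h := hm (e1 K) (Or.inl rfl)
      unfold e1 at h
      rw [hbr, hgf, h6, hy] at h
      exact h
    · have h := hm (e2 K) (Or.inr (Or.inl rfl))
      unfold e2 at h
      rw [hD, hbr, h7, h8, hy] at h
      exact h
    · have h := hm (e3 K) (Or.inr (Or.inr (Or.inl rfl)))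
      unfold e3 at h
      simp only [map_add L, map_sub L, map_mul L, map_smul L, hgf, hD, hDD, h7, hy] at h
      exact h
    · have h := hm (e4 K) (Or.inr (Or.inr (Or.inr rfl)))
      unfold e4 at h
      simp only [map_add L, map_sub L, map_mul L, map_smul L, hD, hDD, hDDD, h7, h8, hy] at h
      exact h
  have hG : ∀ (q : Aug K n × Aug K n) (y : Fin 4 → Aug K n), g q y =
      π ((fun z => G4 z (q.1 : FA K n) (q.2 : FA K n)) fun i => (y i : FA K n)) := hg
  have d1 := fun (a : FA K n) (q : Aug K n × Aug K n) => DM_eq π a g q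
    (fun z => G4 z (q.1 : FA K n) (q.2 : FA K n)) (hG q)
  have d2 := fun (a b : FA K n) (q : Aug K n × Aug K n) => DM_eq π a (DM b g) q
    (Dop K b (fun z => G4 z (q.1 : FA K n) (q.2 : FA K n))) (d1 b q)
  have d3 := fun (a b c : FA K n) (q : Aug K n × Aug K n) => DM_eq π a (DM b (DM c g)) q
    (Dop K b (Dop K c (fun z => G4 z (q.1 : FA K n) (q.2 : FA K n)))) (d2 b c q)
  refine ⟨fun x hx => ?_, fun a ha b hb => ?_, fun a ha => ?_, fun a ha b hb => ?_⟩
  · funext q
    refine MultilinearMap.ext fun y => ?_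
    have h := (key q y ⟨x, hx⟩ 0 0).1
    rw [br, map_sub, map_mul, map_mul, ← hg, sub_eq_zero] at h
    rw [LM_apply, RM_apply]
    exact h.symm
  · funext q
    refine MultilinearMap.ext fun y => ?_
    rw [d1]
    exact (key q y 0 ⟨a, ha⟩ ⟨b, hb⟩).2.1
  · funext q
    refine MultilinearMap.ext fun y => ?_
    have h := (key q y 0 ⟨a, ha⟩ 0).2.2.1
    simp only [Pi.add_apply, Pi.sub_apply, Pi.smul_apply, _root_.add_apply,
      _root_.sub_apply, _root_.smul_apply, RM_apply]
    rw [d1, d2, d1, hG, ← map_mul, ← map_mul, ← map_sub, ← map_sub, ← map_smul, ← map_add]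
    exact h
  · funext q
    refine MultilinearMap.ext fun y => ?_
    have h := (key q y 0 ⟨a, ha⟩ ⟨b, hb⟩).2.2.2
    simp only [Pi.add_apply, Pi.sub_apply, Pi.smul_apply, _root_.add_apply,
      _root_.sub_apply, _root_.smul_apply]
    rw [d1, d2, d3, d2, ← map_sub, ← map_sub, ← map_smul, ← map_add]
    exact h

end Pool.Agent.H.MP_f5ceca_al.BR
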