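import Pool.Agent.H.MP_f5ceca_al.BR.Defs

/-!
Trace systems: commuting operators `D a` (traces) and `R a` (right multiplications) which satisfy the
Cayley-Hamilton identity and its trace.
-/

namespace Pool.Agent.H.MP_f5ceca_al.BR

open MvPolynomial Function
open Pool.Agent.H.MP_f5ceca_al.N

universe u v

/-- A trace system. -/
structure TSys (K : Type u) [Field K] (n : ℕ) {V : Type v} [AddCommGroup V] [Module K V]
    (D R : FA K n →ₗ[K] Module.End K V) (g : V) : Prop where
  comm : ∀ a b, D a * D b = D b * D a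
  RD : ∀ v a, R v * D a = D a * R v
  Rmul : ∀ u v, R (u * v) = R v * R u
  Rone : R 1 = 1
  Done : D 1 = (2 : K) • 1
  CH : ∀ a ∈ Aug K n, R a * R a - D a * R a + (2⁻¹ : K) • (D a * D a - D (a * a)) = 0
  Dcyc : ∀ a ∈ Aug K n, ∀ b ∈ Aug K n, D (a * b) = D (b * a)
  Dch : ∀ a ∈ Aug K n, ∀ b ∈ Aug K n,
    D (a * a * b) - D a * D (a * b) + (2⁻¹ : K) • ((D a * D a - D (a * a)) * D b) = 0
  gen : ∀ W : Submodule K V, (∀ a, ∀ φ ∈ W, D a φ ∈ W) → (∀ v, R v g ∈ W) → W = ⊤

/-- the monomial of a list of letters -/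
noncomputable def mon (K : Type u) [Field K] {n : ℕ} (l : List (Fin n)) : FA K n :=
  (l.map (xx K)).prod

namespace TSys

variable {K : Type u} [Field K] [CharZero K] {n : ℕ} {V : Type v} [AddCommGroup V] [Module K V]
  {D R : FA K n →ₗ[K] Module.End K V} {g : V}

/-- The finite set of operators which generate all traces: `D` of the products of distinct letters in increasing
order and of the squares of the letters. -/
def gens (D : FA K n →ₗ[K] Module.End K V) : Set (Module.End K V) :=
  {x | ∃ l : List (Fin n), l.SortedLT ∧ x = D (mon K l)} ∪ {x | ∃ i : Fin n, x = D (xx K i * xx K i)}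

theorem gens_finite (D : FA K n →ₗ[K] Module.End K V) : (gens D).Finite := by
  have h : {l : List (Fin n) | l.SortedLT}.Finite := by
    refine (List.finite_length_le (Fin n) n).subset ?_
    intro l hl
    have h1 := List.Nodup.length_le_card (List.SortedLT.nodup hl)
    rw [Fintype.card_fin] at h1
    exact h1
  refine Set.Finite.union ?_ ?_
  · refine (h.image (fun l => D (mon K l))).subset ?_
    rintro x ⟨l, hl, rfl⟩
    exact ⟨l, hl, rfl⟩
  · refine (Set.finite_range (fun i : Fin n => D (xx K i * xx K i))).subset ?_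
    rintro x ⟨i, rfl⟩
    exact ⟨i, rfl⟩

end TSys

end Pool.Agent.H.MP_f5ceca_al.BR
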