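import Pool.Agent.H.MP_f5ceca_al.BR.Mod2
import Pool.Agent.H.MP_f5ceca_al.BR.TSys

/-!
The trace system given by the central polynomial (block BR2).
-/

namespace Pool.Agent.H.MP_f5ceca_al.BR

open MvPolynomial Function
open Pool.Agent.H.MP_f5ceca_al.N

universe u v

variable {K : Type u} [Field K] {n : ℕ} {A : Type u} [Ring A] [Algebra K A]

theorem Mod3_split (x : FA K n) :
    x - algebraMap K (FA K n) (FreeAlgebra.algebraMapInv x) ∈ Aug K n := by
  rw [Basic_mem_Aug, map_sub, FreeAlgebra.algebraMap_leftInverse, sub_self]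

theorem Mod3_LR (π : FA K n →ₐ[K] A) (g : M4 K n A)
    (h : ∀ x ∈ Aug K n, LM (π x) g = RM (π x) g) (x : FA K n) : LM (π x) g = RM (π x) g := by
  have h1 := h _ (Mod3_split x)
  funext q
  refine MultilinearMap.ext fun y => ?_
  have h2 := congrArg (fun φ : M4 K n A => φ q y) h1
  simp only [LM_apply, RM_apply, map_sub, AlgHom.commutes, sub_mul, mul_sub] at h2
  rw [LM_apply, RM_apply]
  rw [Algebra.commutes (FreeAlgebra.algebraMapInv x) (g q y)] at h2
  exact sub_left_inj.1 h2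

/-- the smallest subspace which contains all `LM (π v) g` and is stable under all `DM a` -/
noncomputable def Mod3_Mh (π : FA K n →ₐ[K] A) (g : M4 K n A) : Submodule K (M4 K n A) :=
  sInf {W | (∀ v, LM (π v) g ∈ W) ∧ ∀ a, ∀ φ ∈ W, DM a φ ∈ W}

theorem Mod3_gen (π : FA K n →ₐ[K] A) (g : M4 K n A) (v : FA K n) :
    LM (π v) g ∈ Mod3_Mh π g := by
  rw [Mod3_Mh, Submodule.mem_sInf]
  intro W hW
  exact hW.1 v

theorem Mod3_D (π : FA K n →ₐ[K] A) (g : M4 K n A) (a : FA K n) {φ : M4 K n A}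
    (hφ : φ ∈ Mod3_Mh π g) : DM a φ ∈ Mod3_Mh π g := by
  rw [Mod3_Mh, Submodule.mem_sInf] at hφ ⊢
  intro W hW
  exact hW.2 a φ (hφ W hW)

theorem Mod3_ind (π : FA K n →ₐ[K] A) (g : M4 K n A) (W : Submodule K (M4 K n A))
    (h1 : ∀ v, LM (π v) g ∈ W) (h2 : ∀ a, ∀ φ ∈ W, DM a φ ∈ W) : Mod3_Mh π g ≤ W :=
  sInf_le ⟨h1, h2⟩

theorem Mod3_g (π : FA K n →ₐ[K] A) (g : M4 K n A) : g ∈ Mod3_Mh π g := by
  have h := Mod3_gen π g 1
  have h1 : LM (π 1) g = g := by
    funext q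
    refine MultilinearMap.ext fun y => ?_
    rw [LM_apply, map_one, one_mul]
  rwa [h1] at h

theorem Mod3_zero (π : FA K n →ₐ[K] A) (g : M4 K n A) (T : M4 K n A →ₗ[K] M4 K n A)
    (h0 : T g = 0) (h1 : ∀ v, T (LM (π v) g) = LM (π v) (T g))
    (h2 : ∀ e, ∀ φ ∈ Mod3_Mh π g, T (DM e φ) = DM e (T φ)) :
    ∀ φ ∈ Mod3_Mh π g, T φ = 0 := by
  have h : Mod3_Mh π g ≤ Mod3_Mh π g ⊓ LinearMap.ker T := by
    refine Mod3_ind π g _ (fun v => ⟨Mod3_gen π g v, ?_⟩)
      (fun a φ hφ => ⟨Mod3_D π g a hφ.1, ?_⟩)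
    · show T _ = 0
      rw [h1, h0, map_zero]
    · show T _ = 0
      rw [h2 a φ hφ.1, LinearMap.mem_ker.1 hφ.2, map_zero]
  exact fun φ hφ => (h hφ).2

theorem Mod3_sub (a b : FA K n) (φ : M4 K n A) : DM (a - b) φ = DM a φ - DM b φ := by
  have h := DM_add (a - b) b φ
  rw [sub_add_cancel] at h
  rw [h, add_sub_cancel_right]

theorem Mod3_br0 (π : FA K n →ₐ[K] A) (g : M4 K n A)
    (h : ∀ a ∈ Aug K n, ∀ b ∈ Aug K n, DM (br a b) g = 0) (a b : FA K n) :
    DM (br a b) g = 0 := by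
  have h1 := h _ (Mod3_split a) _ (Mod3_split b)
  have h2 : br (a - algebraMap K (FA K n) (FreeAlgebra.algebraMapInv a))
      (b - algebraMap K (FA K n) (FreeAlgebra.algebraMapInv b)) = br a b := by
    unfold br
    have e1 := Algebra.commutes (FreeAlgebra.algebraMapInv a) b
    have e2 := Algebra.commutes (FreeAlgebra.algebraMapInv b) a
    have e3 := Algebra.commutes (FreeAlgebra.algebraMapInv a)
      (algebraMap K (FA K n) (FreeAlgebra.algebraMapInv b))
    simp only [sub_mul, mul_sub]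
    rw [e1, e2, e3]
    abel
  rwa [h2] at h1

theorem Mod3_br [CharZero K] (π : FA K n →ₐ[K] A) (g : M4 K n A)
    (h : ∀ a b : FA K n, DM (br a b) g = 0) :
    ∀ φ ∈ Mod3_Mh π g, ∀ a b : FA K n, DM (br a b) φ = 0 := by
  let W : Submodule K (M4 K n A) :=
    { carrier := {φ | ∀ a b : FA K n, DM (br a b) φ = 0}
      add_mem' := by
        intro φ ψ hφ hψ a b
        rw [map_add, hφ a b, hψ a b, add_zero]
      zero_mem' := by
        intro a b
        rw [map_zero]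
      smul_mem' := by
        intro r φ hφ a b
        rw [map_smul, hφ a b, smul_zero] }
  have hW : Mod3_Mh π g ≤ W := by
    refine Mod3_ind π g W (fun v => ?_) (fun e φ hφ => ?_)
    · intro a b
      rw [DM_LM, h a b, map_zero]
    · intro a b
      have h1 := DM_comm (br a b) e φ
      have h2 : DM (e * br a b - br a b * e) φ = 0 := hφ e (br a b)
      rw [h2, smul_zero, hφ a b, map_zero, sub_zero] at h1
      exact h1
  intro φ hφ
  exact hW hφ

theorem Mod3_comm [CharZero K] (π : FA K n →ₐ[K] A) (g : M4 K n A)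
    (h : ∀ a b : FA K n, DM (br a b) g = 0) (a b : FA K n) (φ : M4 K n A)
    (hφ : φ ∈ Mod3_Mh π g) : DM a (DM b φ) = DM b (DM a φ) := by
  have h1 := DM_comm a b φ
  have h2 : DM (b * a - a * b) φ = 0 := Mod3_br π g h φ hφ b a
  rw [h2, smul_zero] at h1
  exact sub_eq_zero.1 h1

theorem Mod3_RL (u v : A) (φ : M4 K n A) : RM u (LM v φ) = LM v (RM u φ) := by
  funext q
  refine MultilinearMap.ext fun y => ?_
  rw [RM_apply, LM_apply, LM_apply, RM_apply, mul_assoc]

theorem Mod3_RR (u v : A) (φ : M4 K n A) : RM u (RM v φ) = RM (v * u) φ := by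
  funext q
  refine MultilinearMap.ext fun y => ?_
  rw [RM_apply, RM_apply, RM_apply, mul_assoc]

theorem Mod3_LL (u v : A) (φ : M4 K n A) : LM u (LM v φ) = LM (u * v) φ := by
  funext q
  refine MultilinearMap.ext fun y => ?_
  rw [LM_apply, LM_apply, LM_apply, mul_assoc]

theorem Mod3_R (π : FA K n →ₐ[K] A) (g : M4 K n A) (h : ∀ x, LM (π x) g = RM (π x) g)
    (x : FA K n) : ∀ φ ∈ Mod3_Mh π g, RM (π x) φ ∈ Mod3_Mh π g := by
  have hW : Mod3_Mh π g ≤ (Mod3_Mh π g).comap (RM (π x)) := by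
    refine Mod3_ind π g _ (fun v => ?_) (fun e φ hφ => ?_)
    · show RM (π x) (LM (π v) g) ∈ Mod3_Mh π g
      rw [Mod3_RL, ← h x, Mod3_LL, ← map_mul]
      exact Mod3_gen π g _
    · show RM (π x) (DM e φ) ∈ Mod3_Mh π g
      rw [← DM_RM]
      exact Mod3_D π g e hφ
  exact fun φ hφ => hW hφ

/-- the trace operators on the module -/
noncomputable def Mod3_Dop (π : FA K n →ₐ[K] A) (g : M4 K n A) :
    FA K n →ₗ[K] Module.End K (Mod3_Mh π g) where
  toFun a := (DM a).restrict fun _ hφ => Mod3_D π g a hφ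
  map_add' a b := LinearMap.ext fun φ => Subtype.ext (DM_add a b (φ : M4 K n A))
  map_smul' r a := LinearMap.ext fun φ => Subtype.ext (DM_smul r a (φ : M4 K n A))

/-- the right multiplications on the module -/
noncomputable def Mod3_Rop (π : FA K n →ₐ[K] A) (g : M4 K n A)
    (h : ∀ x, LM (π x) g = RM (π x) g) :
    FA K n →ₗ[K] Module.End K (Mod3_Mh π g) where
  toFun v := (RM (π v)).restrict (Mod3_R π g h v)
  map_add' a b := by
    refine LinearMap.ext fun φ => Subtype.ext ?_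
    show RM (π (a + b)) (φ : M4 K n A) = RM (π a) (φ : M4 K n A) + RM (π b) (φ : M4 K n A)
    funext q
    refine MultilinearMap.ext fun y => ?_
    rw [Pi.add_apply, MultilinearMap.add_apply, RM_apply, RM_apply, RM_apply, map_add, mul_add]
  map_smul' r a := by
    refine LinearMap.ext fun φ => Subtype.ext ?_
    show RM (π (r • a)) (φ : M4 K n A) = r • RM (π a) (φ : M4 K n A)
    funext q
    refine MultilinearMap.ext fun y => ?_
    rw [Pi.smul_apply, MultilinearMap.smul_apply, RM_apply, RM_apply, map_smul, mul_smul_comm]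

theorem Mod3_coeD (π : FA K n →ₐ[K] A) (g : M4 K n A) (a : FA K n) (φ : Mod3_Mh π g) :
    ((Mod3_Dop π g a φ : Mod3_Mh π g) : M4 K n A) = DM a (φ : M4 K n A) := rfl

theorem Mod3_coeR (π : FA K n →ₐ[K] A) (g : M4 K n A) (h : ∀ x, LM (π x) g = RM (π x) g)
    (a : FA K n) (φ : Mod3_Mh π g) :
    ((Mod3_Rop π g h a φ : Mod3_Mh π g) : M4 K n A) = RM (π a) (φ : M4 K n A) := rfl

/-- evaluation -/
noncomputable def Mod3_ev (π : FA K n →ₐ[K] A) (g : M4 K n A) (q : Aug K n × Aug K n)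
    (y : Fin 4 → Aug K n) : Mod3_Mh π g →ₗ[K] A where
  toFun φ := (φ : M4 K n A) q y
  map_add' _ _ := rfl
  map_smul' _ _ := rfl

theorem Mod3_CH [CharZero K] (π : FA K n →ₐ[K] A) (g : M4 K n A)
    (hb : ∀ a b : FA K n, DM (br a b) g = 0) (a : FA K n)
    (h3 : RM (π (a * a)) g - RM (π a) (DM a g) +
      (2⁻¹ : K) • (DM a (DM a g) - DM (a * a) g) = 0) :
    ∀ φ ∈ Mod3_Mh π g, RM (π a) (RM (π a) φ) - DM a (RM (π a) φ) +
      (2⁻¹ : K) • (DM a (DM a φ) - DM (a * a) φ) = 0 := by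
  have hc := Mod3_comm π g hb
  refine Mod3_zero π g ((RM (π a)).comp (RM (π a)) - (DM a).comp (RM (π a)) +
      (2⁻¹ : K) • ((DM a).comp (DM a) - DM (a * a))) ?_ ?_ ?_
  · show RM (π a) (RM (π a) g) - DM a (RM (π a) g) +
      (2⁻¹ : K) • (DM a (DM a g) - DM (a * a) g) = 0
    rw [Mod3_RR, ← map_mul, DM_RM]
    exact h3
  · intro v
    show RM (π a) (RM (π a) (LM (π v) g)) - DM a (RM (π a) (LM (π v) g)) +
      (2⁻¹ : K) • (DM a (DM a (LM (π v) g)) - DM (a * a) (LM (π v) g)) =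
      LM (π v) (RM (π a) (RM (π a) g) - DM a (RM (π a) g) +
      (2⁻¹ : K) • (DM a (DM a g) - DM (a * a) g))
    simp only [Mod3_RL, DM_LM, map_add, map_sub, map_smul]
  · intro e φ hφ
    show RM (π a) (RM (π a) (DM e φ)) - DM a (RM (π a) (DM e φ)) +
      (2⁻¹ : K) • (DM a (DM a (DM e φ)) - DM (a * a) (DM e φ)) =
      DM e (RM (π a) (RM (π a) φ) - DM a (RM (π a) φ) +
      (2⁻¹ : K) • (DM a (DM a φ) - DM (a * a) φ))
    rw [map_add, map_sub, map_smul, map_sub, DM_RM e, DM_RM e, DM_RM a, DM_RM a, DM_RM e,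
      hc a e φ hφ, hc a e _ (Mod3_D π g a hφ), hc (a * a) e φ hφ]

theorem Mod3_Dch [CharZero K] (π : FA K n →ₐ[K] A) (g : M4 K n A)
    (hb : ∀ a b : FA K n, DM (br a b) g = 0) (a b : FA K n)
    (h4 : DM (a * a * b) g - DM a (DM (a * b) g) +
      (2⁻¹ : K) • (DM a (DM a (DM b g)) - DM (a * a) (DM b g)) = 0) :
    ∀ φ ∈ Mod3_Mh π g, DM (a * a * b) φ - DM a (DM (a * b) φ) +
      (2⁻¹ : K) • (DM a (DM a (DM b φ)) - DM (a * a) (DM b φ)) = 0 := by
  have hc := Mod3_comm π g hb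
  refine Mod3_zero π g (DM (a * a * b) - (DM a).comp (DM (a * b)) +
      (2⁻¹ : K) • ((DM a).comp ((DM a).comp (DM b)) - (DM (a * a)).comp (DM b))) h4 ?_ ?_
  · intro v
    show DM (a * a * b) (LM (π v) g) - DM a (DM (a * b) (LM (π v) g)) +
      (2⁻¹ : K) • (DM a (DM a (DM b (LM (π v) g))) - DM (a * a) (DM b (LM (π v) g))) =
      LM (π v) (DM (a * a * b) g - DM a (DM (a * b) g) +
      (2⁻¹ : K) • (DM a (DM a (DM b g)) - DM (a * a) (DM b g)))
    simp only [DM_LM, map_add, map_sub, map_smul]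
  · intro e φ hφ
    show DM (a * a * b) (DM e φ) - DM a (DM (a * b) (DM e φ)) +
      (2⁻¹ : K) • (DM a (DM a (DM b (DM e φ))) - DM (a * a) (DM b (DM e φ))) =
      DM e (DM (a * a * b) φ - DM a (DM (a * b) φ) +
      (2⁻¹ : K) • (DM a (DM a (DM b φ)) - DM (a * a) (DM b φ)))
    have hbm := Mod3_D π g b hφ
    rw [map_add, map_sub, map_smul, map_sub, hc (a * a * b) e φ hφ, hc (a * b) e φ hφ,
      hc a e _ (Mod3_D π g (a * b) hφ), hc b e φ hφ, hc a e _ hbm,
      hc a e _ (Mod3_D π g a hbm), hc (a * a) e _ hbm]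

/-- Existence of the trace system.
PROOF. `g0` := the element of `exists_gM`. `Mh` := the smallest subspace of `M4 K n A` which contains all `LM (π v) g0` and is stable under
all `DM a`; equivalently the span of all `LM (π v) (DM a_1 (⋯ (DM a_r g0)))`. Put `V = ↥Mh`, `D a` = restriction of `DM a` (linear in `a` by
`DM_add`, `DM_smul`), `g = g0`.
(1) `DM (br a b) φ = 0` for `a, b ∈ Aug` and `φ ∈ Mh`: for `φ = LM (π v) ψ` clear from `DM_LM`; for `φ = DM e ψ`:
`DM c (DM e ψ) = DM e (DM c ψ) + (1/2) DM (e c - c e) ψ` (`DM_comm`), `c = br a b`, both terms vanish by induction over `Mh` (the statement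
to prove by induction: `∀ a b ∈ Aug, DM (br a b) φ = 0`; if `e = r + e'` with a constant `r` then `e c - c e = br e' c`). So the `DM a` commute on
`Mh` (`DM_comm`; constants: `DM_one`).
(2) `RM (π x) φ = LM (π x) φ` does not hold on `Mh`, but: `RM (π x) (DM a_1 ⋯ DM a_r g0) = DM ⋯ (RM (π x) g0) = DM ⋯ (LM (π x) g0)
= LM (π x) (DM ⋯ g0)`, so `Mh` is stable under `RM (π x)`: `RM (π x) (LM (π v) ψ) = LM (π v) (RM (π x) ψ) = LM (π (v x)) ψ`. Put `R v` =
restriction of `RM (π v)`. `R v g = LM (π v) g0`, so `gen` holds by the definition of `Mh`. `Rmul`, `Rone`, `RD` are clear.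
(3) `CH`, `Dch`, `Dcyc`: the left hand sides are operators which commute (on `Mh`) with all `DM e` (by (1)) and with `LM (π v)`, and they
vanish on `g0` by `vals`; so they vanish on `Mh`. `Dcyc`: (1), `D (a b) - D (b a) = D (br a b) = 0`.
(4) `ev q y φ = φ q y`; the two formulas are `hg`, `RM_apply` and `DM_apply`. -/
theorem exists_sys [CharZero K] (π : FA K n →ₐ[K] A) (hk : ∀ x, x ∈ MH (H0 K) n → π x = 0) :
    ∃ (V : Type u) (_ : AddCommGroup V) (_ : Module K V) (D R : FA K n →ₗ[K] Module.End K V)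
      (g : V) (ev : (Aug K n × Aug K n) → (Fin 4 → Aug K n) → V →ₗ[K] A),
      TSys K n D R g ∧
      (∀ q y v, ev q y (R v g) =
        π (G4 (fun i => (y i : FA K n)) (q.1 : FA K n) (q.2 : FA K n)) * π v) ∧
      (∀ q y a φ, ev q y (D a φ) = (2⁻¹ : K) • ∑ i, ev q (update y i (lmA a (y i))) φ) := by
  obtain ⟨g0, hg⟩ := exists_gM π
  obtain ⟨v1, v2, v3, v4⟩ := vals π hk g0 hg
  have h1 : ∀ x, LM (π x) g0 = RM (π x) g0 := Mod3_LR π g0 v1
  have h2 : ∀ a b : FA K n, DM (br a b) g0 = 0 := Mod3_br0 π g0 v2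
  have hc := Mod3_comm π g0 h2
  refine ⟨Mod3_Mh π g0, inferInstance, inferInstance, Mod3_Dop π g0, Mod3_Rop π g0 h1,
    ⟨g0, Mod3_g π g0⟩, Mod3_ev π g0, ?_, ?_, ?_⟩
  · refine ⟨?_, ?_, ?_, ?_, ?_, ?_, ?_, ?_, ?_⟩
    · intro a b
      exact LinearMap.ext fun φ => Subtype.ext (hc a b (φ : M4 K n A) φ.2)
    · intro v a
      exact LinearMap.ext fun φ => Subtype.ext (DM_RM a (π v) (φ : M4 K n A)).symm
    · intro a b
      refine LinearMap.ext fun φ => Subtype.ext ?_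
      show RM (π (a * b)) (φ : M4 K n A) = RM (π b) (RM (π a) (φ : M4 K n A))
      rw [Mod3_RR, map_mul]
    · refine LinearMap.ext fun φ => Subtype.ext ?_
      show RM (π 1) (φ : M4 K n A) = (φ : M4 K n A)
      funext q
      refine MultilinearMap.ext fun y => ?_
      rw [RM_apply, map_one, mul_one]
    · exact LinearMap.ext fun φ => Subtype.ext (DM_one (φ : M4 K n A))
    · intro a ha
      exact LinearMap.ext fun φ => Subtype.ext
        (Mod3_CH π g0 h2 a (v3 a ha) (φ : M4 K n A) φ.2)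
    · intro a _ b _
      refine LinearMap.ext fun φ => Subtype.ext ?_
      show DM (a * b) (φ : M4 K n A) = DM (b * a) (φ : M4 K n A)
      have h3 : DM (a * b - b * a) (φ : M4 K n A) = 0 := Mod3_br π g0 h2 _ φ.2 a b
      rw [Mod3_sub] at h3
      exact sub_eq_zero.1 h3
    · intro a ha b hb
      exact LinearMap.ext fun φ => Subtype.ext
        (Mod3_Dch π g0 h2 a b (v4 a ha b hb) (φ : M4 K n A) φ.2)
    · intro W hD hR
      have hW : Mod3_Mh π g0 ≤ W.map (Mod3_Mh π g0).subtype := by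
        refine Mod3_ind π g0 _ (fun v => ?_) (fun e φ hφ => ?_)
        · exact ⟨_, hR v, (h1 v).symm⟩
        · obtain ⟨ψ, hψ, rfl⟩ := hφ
          exact ⟨_, hD e ψ hψ, rfl⟩
      refine Submodule.eq_top_iff'.2 fun φ => ?_
      obtain ⟨ψ, hψ, h⟩ := hW φ.2
      have h5 : ψ = φ := Subtype.ext h
      rwa [← h5]
  · intro q y v
    show RM (π v) g0 q y = _
    rw [RM_apply, hg]
  · intro q y a φ
    exact DM_apply a (φ : M4 K n A) q y

end Pool.Agent.H.MP_f5ceca_al.BR
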