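import Pool.Agent.H.MP_f5ceca_al.BR.MatId

/-!
The rank two lemma.
-/

namespace Pool.Agent.H.MP_f5ceca_al.BR

open MvPolynomial Function
open Pool.Agent.H.MP_f5ceca_al.N

universe u v w

variable {K : Type u} [Field K] {X Y : Type}

theorem Rank2_word {B : Type v} [Ring B] [Algebra K B] {C : Type w} [CommRing C] [Algebra K C]
    (f : C →ₐ[K] B) (s : B) (hs : ∀ c : C, f c * s = s * f c) (e : Fin 2 → B)
    (v : X → B) (Mt : X → Matrix (Fin 2) (Fin 2) C)
    (hM : ∀ i j, v i * e j * s = ∑ p, e p * f (Mt i p j)) (l : List X) (j : Fin 2) :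
    FreeAlgebra.lift K v (l.map (FreeAlgebra.ι K)).prod * e j * s ^ l.length =
      ∑ p, e p * f (FreeAlgebra.lift K Mt (l.map (FreeAlgebra.ι K)).prod p j) := by
  induction l generalizing j with
  | nil =>
    simp only [List.map_nil, List.prod_nil, map_one, List.length_nil, pow_zero, mul_one, one_mul]
    rw [Finset.sum_eq_single j, Matrix.one_apply_eq, map_one, mul_one]
    · intro p _ hp
      rw [Matrix.one_apply_ne hp, map_zero, mul_zero]
    · intro h
      exact absurd (Finset.mem_univ j) h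
  | cons i l ih =>
    rw [List.map_cons, List.prod_cons, map_mul, map_mul, List.length_cons, pow_succ,
      FreeAlgebra.lift_ι_apply, FreeAlgebra.lift_ι_apply]
    have h1 : v i * FreeAlgebra.lift K v (l.map (FreeAlgebra.ι K)).prod * e j *
        (s ^ l.length * s) = v i * (FreeAlgebra.lift K v (l.map (FreeAlgebra.ι K)).prod * e j *
        s ^ l.length) * s := by noncomm_ring
    rw [h1, ih, Finset.mul_sum, Finset.sum_mul]
    have h2 : ∀ p, v i * (e p * f (FreeAlgebra.lift K Mt (l.map (FreeAlgebra.ι K)).prod p j)) * s =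
        ∑ q, e q * f (Mt i q p * FreeAlgebra.lift K Mt (l.map (FreeAlgebra.ι K)).prod p j) := by
      intro p
      have h3 : v i * (e p * f (FreeAlgebra.lift K Mt (l.map (FreeAlgebra.ι K)).prod p j)) * s =
          v i * e p * s * f (FreeAlgebra.lift K Mt (l.map (FreeAlgebra.ι K)).prod p j) := by
        rw [mul_assoc, mul_assoc, hs]
        simp only [mul_assoc]
      rw [h3, hM, Finset.sum_mul]
      refine Finset.sum_congr rfl fun q _ => ?_
      rw [map_mul, mul_assoc]
    rw [Finset.sum_congr rfl fun p _ => h2 p, Finset.sum_comm]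
    refine Finset.sum_congr rfl fun q _ => ?_
    rw [Matrix.mul_apply, map_sum, Finset.mul_sum]

theorem Rank2_homog {B : Type v} [Ring B] [Algebra K B] {C : Type w} [CommRing C] [Algebra K C]
    (f : C →ₐ[K] B) (s : B) (hs : ∀ c : C, f c * s = s * f c) (e : Fin 2 → B)
    (v : X → B) (Mt : X → Matrix (Fin 2) (Fin 2) C)
    (hM : ∀ i j, v i * e j * s = ∑ p, e p * f (Mt i p j)) (l : ℕ) (x : FreeAlgebra K X)
    (hx : x ∈ homog K X l) (j : Fin 2) :
    FreeAlgebra.lift K v x * e j * s ^ l = ∑ p, e p * f (FreeAlgebra.lift K Mt x p j) := by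
  refine Submodule.span_induction ?_ ?_ ?_ ?_ hx
  · rintro _ ⟨w, rfl, rfl⟩
    exact Rank2_word f s hs e v Mt hM w j
  · rw [map_zero, map_zero, zero_mul, zero_mul]
    refine (Finset.sum_eq_zero fun p _ => ?_).symm
    rw [Matrix.zero_apply, map_zero, mul_zero]
  · intro x y _ _ h1 h2
    rw [map_add, map_add, add_mul, add_mul, h1, h2, ← Finset.sum_add_distrib]
    refine Finset.sum_congr rfl fun p _ => ?_
    rw [Matrix.add_apply, map_add, mul_add]
  · intro r x _ h1
    rw [map_smul, map_smul, smul_mul_assoc, smul_mul_assoc, h1, Finset.smul_sum]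
    refine Finset.sum_congr rfl fun p _ => ?_
    rw [Matrix.smul_apply, map_smul, mul_smul_comm]

theorem Rank2_pow {B : Type v} [Ring B] {s : B} (hreg : ∀ x, x * s = 0 → x = 0) (l : ℕ) :
    ∀ x : B, x * s ^ l = 0 → x = 0 := by
  induction l with
  | zero =>
    intro x hx
    rwa [pow_zero, mul_one] at hx
  | succ l ih =>
    intro x hx
    rw [pow_succ, ← mul_assoc] at hx
    exact ih x (hreg _ hx)

theorem Rank2_main [Infinite K] {B : Type v} [Ring B] [Algebra K B] {C : Type w} [CommRing C]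
    [Algebra K C] (f : C →ₐ[K] B) (s a : B) (hs : ∀ c : C, f c * s = s * f c)
    (hreg : ∀ x, x * s = 0 → x = 0) (hB : ∀ x : B, ∃ p q : C, x * s = f p + a * f q)
    {g : FreeAlgebra K X} (hg : g ∈ J2 K X) (v : X → B) : FreeAlgebra.lift K v g = 0 := by
  obtain ⟨N, gl, h1, h2, rfl⟩ := J2_hom hg
  rw [map_sum]
  refine Finset.sum_eq_zero fun l _ => ?_
  choose P Q hPQ using hB
  have hM : ∀ i j, v i * (![1, a] : Fin 2 → B) j * s = ∑ p, (![1, a] : Fin 2 → B) p *
      f (![P (v i * (![1, a] : Fin 2 → B) j), Q (v i * (![1, a] : Fin 2 → B) j)] p) := by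
    intro i j
    rw [Fin.sum_univ_two, hPQ]
    simp
  have h3 := Rank2_homog f s hs ![1, a] v
    (fun i => Matrix.of fun p j => ![P (v i * (![1, a] : Fin 2 → B) j),
      Q (v i * (![1, a] : Fin 2 → B) j)] p) hM l (gl l) (h2 l) 0
  rw [J2_comm (h1 l)] at h3
  refine Rank2_pow hreg l _ ?_
  have h4 : (![1, a] : Fin 2 → B) 0 = 1 := rfl
  rw [h4, mul_one] at h3
  rw [h3]
  refine Finset.sum_eq_zero fun p _ => ?_
  rw [Matrix.zero_apply, map_zero, mul_zero]

/-- Rank two lemma: if `C` is a commutative subalgebra of `B`, `s ∈ C` a right regular element and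
`B s ≤ C + a C` for some `a`, then `B` satisfies all identities of `M_2(K)`.

PROOF. By `J2_hom` we may assume that `g` is homogeneous of degree `l` (apply the homogeneous case to
the components). Put `e 0 = 1`, `e 1 = a`. For every `i : X` and `j : Fin 2` there are
`Mt i p j ∈ C` (`p : Fin 2`) with `v i * e j * s = ∑ p, e p * Mt i p j` (hypothesis `hB` for
`x = v i * e j`; `p = 0, 1`). `C` with the commutativity `hC` is a commutative ring (`CommRing C` from
`C.toRing` and `mul_comm`), so `Mt i : Matrix (Fin 2) (Fin 2) C`. By induction on the length of a word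
`w = i₁ ⋯ i_l`: `(v i₁ * ⋯ * v i_l) * e j * s ^ l = ∑ p, e p * (Mt i₁ * ⋯ * Mt i_l) p j` (elements of `C`
commute with `s ∈ C`: `v i * (v i₂ ⋯ e j s^l) * s = v i * (∑ p, e p * N p j) * s =
∑ p, (v i * e p * s) * N p j = ∑ p, ∑ q, e q * Mt i q p * N p j`). By linearity (`span_induction` on
`homog`) `lift v g * e j * s ^ l = ∑ p, e p * (lift Mt g) p j = 0` by `J2_comm` in `M_2(C)`. For `j = 0`:
`lift v g * s ^ l = 0`, hence `lift v g = 0` by right regularity of `s`. -/
theorem rank2 [Infinite K] {B : Type v} [Ring B] [Algebra K B] (C : Subalgebra K B)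
    (hC : ∀ x ∈ C, ∀ y ∈ C, x * y = y * x) (s a : B) (hs : s ∈ C) (hreg : ∀ x, x * s = 0 → x = 0)
    (hB : ∀ x : B, ∃ p ∈ C, ∃ q ∈ C, x * s = p + a * q) {g : FreeAlgebra K X} (hg : g ∈ J2 K X)
    (v : X → B) : FreeAlgebra.lift K v g = 0 := by
  let iC : CommRing C := { (inferInstance : Ring C) with
    mul_comm := fun x y => Subtype.ext (hC x.1 x.2 y.1 y.2) }
  refine Rank2_main (C := C) C.val s a (fun c => hC c.1 c.2 s hs) hreg (fun x => ?_) hg v
  obtain ⟨p, hp, q, hq, h⟩ := hB x
  exact ⟨⟨p, hp⟩, ⟨q, hq⟩, h⟩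

end Pool.Agent.H.MP_f5ceca_al.BR
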