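import Mathlib

/-!
Slot polynomials: `sev z a P` is obtained from the word `a_0 a_1 ... a_{q-1}` by inserting powers of
`z` at the `q + 1` places according to the polynomial `P` in the variables `X 0, ..., X q`.
-/

namespace Pool.Agent.H.MP_f5ceca_al.BR

open MvPolynomial Function

variable {K : Type*} [Field K] {B : Type*} [Ring B] [Algebra K B]

/-- The word `z^{e 0} a_0 z^{e 1} a_1 ⋯ a_{q-1} z^{e q}`. -/
def swd (z : B) {q : ℕ} (a : Fin q → B) (e : Fin (q + 1) → ℕ) : B :=
  z ^ e 0 * (List.ofFn fun i : Fin q => a i * z ^ e i.succ).prod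

theorem swd_zero (z : B) (a : Fin 0 → B) (e : Fin 1 → ℕ) : swd z a e = z ^ e 0 := by
  simp [swd]

theorem swd_succ (z : B) {q : ℕ} (a : Fin (q + 1) → B) (e : Fin (q + 2) → ℕ) :
    swd z a e = z ^ e 0 * a 0 * swd z (Fin.tail a) (Fin.tail e) := by
  unfold swd
  rw [List.ofFn_succ, List.prod_cons]
  simp only [mul_assoc]
  rfl

/-- The value of a slot polynomial. -/
noncomputable def sev (z : B) {q : ℕ} (a : Fin q → B) : MvPolynomial (Fin (q + 1)) K →ₗ[K] B :=
  (MvPolynomial.basisMonomials (Fin (q + 1)) K).constr K fun e => swd z a e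

theorem sev_monomial (z : B) {q : ℕ} (a : Fin q → B) (e : Fin (q + 1) →₀ ℕ) (r : K) :
    sev z a (monomial e r) = r • swd z a e := by
  have h : (monomial e r : MvPolynomial (Fin (q + 1)) K) =
      r • MvPolynomial.basisMonomials (Fin (q + 1)) K e := by
    rw [MvPolynomial.coe_basisMonomials, MvPolynomial.smul_monomial, smul_eq_mul, mul_one]
  rw [h, map_smul, sev, Module.Basis.constr_basis]

/-- Linear maps on polynomials which agree on monomials are equal. -/
theorem sev_ext {σ M : Type*} [AddCommGroup M] [Module K M] {f g : MvPolynomial σ K →ₗ[K] M}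
    (h : ∀ e : σ →₀ ℕ, f (monomial e 1) = g (monomial e 1)) : f = g := by
  refine (MvPolynomial.basisMonomials σ K).ext fun e => ?_
  rw [MvPolynomial.coe_basisMonomials]
  exact h e

theorem X_mul_monomial_one {σ : Type*} (i : σ) (e : σ →₀ ℕ) :
    (X i * monomial e 1 : MvPolynomial σ K) = monomial (e + Finsupp.single i 1) 1 := by
  rw [X, monomial_mul, mul_one, add_comm]

theorem coe_add_single {q : ℕ} (e : Fin (q + 1) →₀ ℕ) (i : Fin (q + 1)) :
    ((e + Finsupp.single i (1 : ℕ) : Fin (q + 1) →₀ ℕ) : Fin (q + 1) → ℕ) =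
      update (e : Fin (q + 1) → ℕ) i (e i + 1) := by
  funext j
  by_cases h : j = i
  · subst h; simp
  · rw [update_of_ne h, Finsupp.add_apply, Finsupp.single_eq_of_ne (fun h' => h h'), add_zero]

theorem tail_update_zero {α : Type*} {q : ℕ} (e : Fin (q + 1) → α) (v : α) :
    Fin.tail (update e 0 v) = Fin.tail e := Fin.tail_update_zero e v

theorem tail_update_succ {α : Type*} {q : ℕ} (e : Fin (q + 1) → α) (i : Fin q) (v : α) :
    Fin.tail (update e i.succ v) = update (Fin.tail e) i v := Fin.tail_update_succ e i v

theorem swd_castSucc (z : B) {q : ℕ} (a : Fin q → B) (e : Fin (q + 1) → ℕ) (i : Fin q) :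
    swd z a (update e i.castSucc (e i.castSucc + 1)) = swd z (update a i (z * a i)) e := by
  induction q with
  | zero => exact i.elim0
  | succ q ih =>
    rw [swd_succ, swd_succ]
    refine Fin.cases ?_ (fun j => ?_) i
    · rw [Fin.castSucc_zero, update_self, update_self, tail_update_zero, tail_update_zero, pow_succ]
      simp only [mul_assoc]
    · have h0 : (0 : Fin (q + 2)) ≠ j.castSucc.succ := (Fin.succ_ne_zero _).symm
      have h1 : (0 : Fin (q + 1)) ≠ j.succ := (Fin.succ_ne_zero _).symm
      rw [← Fin.succ_castSucc, update_of_ne h0, update_of_ne h1, tail_update_succ,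
        tail_update_succ]
      have := ih (Fin.tail a) (Fin.tail e) j
      rw [show Fin.tail e j.castSucc = e j.castSucc.succ from rfl,
        show Fin.tail a j = a j.succ from rfl] at this
      rw [this]

theorem swd_succ' (z : B) {q : ℕ} (a : Fin q → B) (e : Fin (q + 1) → ℕ) (i : Fin q) :
    swd z a (update e i.succ (e i.succ + 1)) = swd z (update a i (a i * z)) e := by
  have h0 : (0 : Fin (q + 1)) ≠ i.succ := (Fin.succ_ne_zero _).symm
  unfold swd
  rw [update_of_ne h0]
  congr 3
  funext j
  by_cases h : j = i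
  · subst h
    rw [update_self, update_self, pow_succ', mul_assoc]
  · rw [update_of_ne (fun h' => h (Fin.succ_injective _ h')), update_of_ne h]

theorem swd_left (z : B) {q : ℕ} (a : Fin q → B) (e : Fin (q + 1) → ℕ) :
    swd z a (update e 0 (e 0 + 1)) = z * swd z a e := by
  unfold swd
  rw [update_self, pow_succ', mul_assoc]
  congr 4

theorem swd_right (z : B) {q : ℕ} (a : Fin q → B) (e : Fin (q + 1) → ℕ) :
    swd z a (update e (Fin.last q) (e (Fin.last q) + 1)) = swd z a e * z := by
  induction q with
  | zero =>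
    rw [swd_zero, swd_zero]
    show z ^ (update e (Fin.last 0) (e (Fin.last 0) + 1)) (Fin.last 0) = _
    rw [update_self, pow_succ]
    rfl
  | succ q ih =>
    rw [swd_succ, swd_succ]
    have h0 : (0 : Fin (q + 2)) ≠ (Fin.last q).succ := (Fin.succ_ne_zero _).symm
    rw [← Fin.succ_last, update_of_ne h0, tail_update_succ]
    have := ih (Fin.tail a) (Fin.tail e)
    rw [show Fin.tail e (Fin.last q) = e (Fin.last q).succ from rfl] at this
    rw [this]
    simp only [mul_assoc]

theorem sev_left (z : B) {q : ℕ} (a : Fin q → B) (P : MvPolynomial (Fin (q + 1)) K) :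
    sev z a (X 0 * P) = z * sev z a P := by
  have h : (sev z a).comp (LinearMap.mulLeft K (X 0 : MvPolynomial (Fin (q + 1)) K)) =
      (LinearMap.mulLeft K z).comp (sev (K := K) z a) := by
    refine sev_ext fun e => ?_
    simp only [LinearMap.comp_apply, LinearMap.mulLeft_apply]
    rw [X_mul_monomial_one, sev_monomial, sev_monomial, one_smul, one_smul, coe_add_single,
      swd_left]
  exact LinearMap.congr_fun h P

theorem sev_right (z : B) {q : ℕ} (a : Fin q → B) (P : MvPolynomial (Fin (q + 1)) K) :
    sev z a (X (Fin.last q) * P) = sev z a P * z := by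
  have h : (sev z a).comp (LinearMap.mulLeft K (X (Fin.last q) : MvPolynomial (Fin (q + 1)) K)) =
      (LinearMap.mulRight K z).comp (sev (K := K) z a) := by
    refine sev_ext fun e => ?_
    simp only [LinearMap.comp_apply, LinearMap.mulLeft_apply, LinearMap.mulRight_apply]
    rw [X_mul_monomial_one, sev_monomial, sev_monomial, one_smul, one_smul, coe_add_single,
      swd_right]
  exact LinearMap.congr_fun h P

theorem sev_castSucc (z : B) {q : ℕ} (a : Fin q → B) (i : Fin q)
    (P : MvPolynomial (Fin (q + 1)) K) :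
    sev z a (X i.castSucc * P) = sev z (update a i (z * a i)) P := by
  have h : (sev z a).comp (LinearMap.mulLeft K (X i.castSucc : MvPolynomial (Fin (q + 1)) K)) =
      sev (K := K) z (update a i (z * a i)) := by
    refine sev_ext fun e => ?_
    simp only [LinearMap.comp_apply, LinearMap.mulLeft_apply]
    rw [X_mul_monomial_one, sev_monomial, sev_monomial, one_smul, one_smul, coe_add_single,
      swd_castSucc]
  exact LinearMap.congr_fun h P

theorem sev_succ (z : B) {q : ℕ} (a : Fin q → B) (i : Fin q)
    (P : MvPolynomial (Fin (q + 1)) K) :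
    sev z a (X i.succ * P) = sev z (update a i (a i * z)) P := by
  have h : (sev z a).comp (LinearMap.mulLeft K (X i.succ : MvPolynomial (Fin (q + 1)) K)) =
      sev (K := K) z (update a i (a i * z)) := by
    refine sev_ext fun e => ?_
    simp only [LinearMap.comp_apply, LinearMap.mulLeft_apply]
    rw [X_mul_monomial_one, sev_monomial, sev_monomial, one_smul, one_smul, coe_add_single,
      swd_succ']
  exact LinearMap.congr_fun h P

theorem sev_one (z : B) {q : ℕ} (a : Fin q → B) :
    sev (K := K) z a 1 = (List.ofFn a).prod := by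
  have h : (1 : MvPolynomial (Fin (q + 1)) K) = monomial 0 1 := rfl
  rw [h, sev_monomial, one_smul, swd]
  simp

/-- A `K`-algebra homomorphism commutes with the evaluation. -/
theorem map_swd {B' : Type*} [Ring B'] (f : B →+* B') (z : B) {q : ℕ} (a : Fin q → B)
    (e : Fin (q + 1) → ℕ) : f (swd z a e) = swd (f z) (fun i => f (a i)) e := by
  unfold swd
  rw [map_mul, map_pow, map_list_prod, List.map_ofFn]
  congr 3
  funext i
  simp

theorem map_sev {B' : Type*} [Ring B'] [Algebra K B'] (f : B →ₐ[K] B') (z : B) {q : ℕ}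
    (a : Fin q → B) (P : MvPolynomial (Fin (q + 1)) K) :
    f (sev z a P) = sev (f z) (fun i => f (a i)) P := by
  have h : f.toLinearMap.comp (sev (K := K) z a) = sev (K := K) (f z) (fun i => f (a i)) := by
    refine sev_ext fun e => ?_
    rw [LinearMap.comp_apply, sev_monomial, sev_monomial, one_smul, one_smul]
    exact map_swd f.toRingHom z a e
  exact LinearMap.congr_fun h P

end Pool.Agent.H.MP_f5ceca_al.BR
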