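import Pool.Agent.H.MP_f5ceca_al.BR.Dens3b
import Pool.Agent.H.MP_f5ceca_al.BR.FDefs

/-!
(T1) `DD z w` is nilpotent modulo `T`.
-/

namespace Pool.Agent.H.MP_f5ceca_al.BR

open Function
open Pool.Agent.H.MP_f5ceca_al.N

universe u v w

variable {K : Type u} [Field K]

/-- (T1c) Values of identities of `M_2(K)` are nil.
PROOF. As `exists_pow_mem` in N/NilA.lean, with `FA K 3` replaced by `FA K (d + 1)`, `a = g(x_0, ..., x_{d-1}) x_d`, and
`commute_on_simple` replaced by `J2_on_simple`. -/
theorem J2_pow_mem [Infinite K] (S : Set (FreeAlgebra K ℕ))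
    (hS : ¬ Satisfies S (Matrix (Fin 3) (Fin 3) K)) {d : ℕ} {g : FA K d}
    (hg : g ∈ J2 K (Fin d)) :
    ∃ m : ℕ, (FreeAlgebra.lift K (fun j : Fin d => xx K j.castSucc) g * xx K (Fin.last d)) ^ m ∈
      idn S (d + 1) := by
  obtain ⟨T, hT⟩ : ∃ T : Submodule K (FA K (d + 1)), T = idn S (d + 1) := ⟨_, rfl⟩
  have hTl : ∀ a, ∀ b ∈ T, a * b ∈ T := by
    rw [hT]
    exact fun a b hb => idn_left S (d + 1) a hb
  have hTr : ∀ a, ∀ b ∈ T, b * a ∈ T := by
    rw [hT]
    exact fun a b hb => idn_right S (d + 1) a hb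
  obtain ⟨a, ha⟩ : ∃ a : FA K (d + 1), a =
      FreeAlgebra.lift K (fun j : Fin d => xx K j.castSucc) g * xx K (Fin.last d) := ⟨_, rfl⟩
  rw [← ha, ← hT]
  -- the left ideal
  obtain ⟨Tt, hTt⟩ : ∃ Tt : Ideal (Polynomial (FA K (d + 1))), ∀ q, q ∈ Tt ↔
      ∀ i, q.coeff i ∈ T :=
    ⟨{ carrier := {q | ∀ i, q.coeff i ∈ T}
       add_mem' := fun hx hy => (NilA_pol T).add_mem hx hy
       zero_mem' := (NilA_pol T).zero_mem
       smul_mem' := fun p q hq => NilA_left hTl p hq }, fun q => Iff.rfl⟩
  obtain ⟨L, hL⟩ : ∃ L : Ideal (Polynomial (FA K (d + 1))),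
      L = Ideal.span {1 - Polynomial.C a * Polynomial.X} ⊔ Tt := ⟨_, rfl⟩
  by_cases hne : L = ⊤
  · have h1 : (1 : Polynomial (FA K (d + 1))) ∈ L := by
      rw [hne]
      exact Submodule.mem_top
    rw [hL, Submodule.mem_sup] at h1
    obtain ⟨y, hy, τ, hτ, h1⟩ := h1
    rw [Ideal.mem_span_singleton'] at hy
    obtain ⟨p, rfl⟩ := hy
    rw [hTt] at hτ
    have h2 : ∀ i, p.coeff i - a ^ i ∈ T := by
      intro i
      induction i with
      | zero =>
        have h3 := congrArg (fun q => Polynomial.coeff q 0) h1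
        simp only [mul_sub, mul_one, Polynomial.coeff_add, Polynomial.coeff_sub,
          Polynomial.coeff_one_zero, ← mul_assoc, Polynomial.coeff_mul_X_zero, sub_zero] at h3
        have h4 : p.coeff 0 - a ^ 0 = - τ.coeff 0 := by
          rw [pow_zero, ← h3]
          abel
        rw [h4]
        exact T.neg_mem (hτ 0)
      | succ i ih =>
        have h3 := congrArg (fun q => Polynomial.coeff q (i + 1)) h1
        simp only [mul_sub, mul_one, Polynomial.coeff_add, Polynomial.coeff_sub,
          ← mul_assoc, Polynomial.coeff_mul_X, Polynomial.coeff_mul_C] at h3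
        have h5 : (1 : Polynomial (FA K (d + 1))).coeff (i + 1) = 0 := by
          rw [Polynomial.coeff_one, if_neg (by omega)]
        rw [h5] at h3
        have h4 : p.coeff (i + 1) - a ^ (i + 1) = (p.coeff i - a ^ i) * a - τ.coeff (i + 1) := by
          rw [sub_mul, ← pow_succ]
          have h6 : p.coeff (i + 1) = p.coeff i * a - τ.coeff (i + 1) := by
            rw [sub_add_eq_add_sub, sub_eq_zero] at h3
            rw [← h3]
            abel
          rw [h6]
          abel
        rw [h4]
        exact T.sub_mem (hTr _ _ ih) (hτ _)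
    refine ⟨p.natDegree + 1, ?_⟩
    have h3 := h2 (p.natDegree + 1)
    rw [Polynomial.coeff_eq_zero_of_natDegree_lt (Nat.lt_succ_self _), zero_sub] at h3
    simpa using T.neg_mem h3
  · exfalso
    obtain ⟨L', hL', hLL⟩ := Ideal.exists_le_maximal L hne
    have hsimple : IsSimpleModule (Polynomial (FA K (d + 1)))
        (Polynomial (FA K (d + 1)) ⧸ L') :=
      isSimpleModule_iff_isCoatom.2 (Ideal.isMaximal_def.1 hL')
    have hzero : ∀ q : Polynomial (FA K (d + 1)), q ∈ NilA_pol T →
        ∀ x : Polynomial (FA K (d + 1)) ⧸ L', q • x = 0 := by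
      intro q hq x
      obtain ⟨y, rfl⟩ := Submodule.Quotient.mk_surjective L' x
      rw [← Submodule.Quotient.mk_smul, Submodule.Quotient.mk_eq_zero]
      apply hLL
      rw [hL]
      apply Submodule.mem_sup_right
      rw [hTt, smul_eq_mul]
      exact NilA_right hTr y hq
    have hAl : ∀ a, ∀ b ∈ Aug K (d + 1), a * b ∈ Aug K (d + 1) := fun a b hb => Aug_left a hb
    have hAr : ∀ a, ∀ b ∈ Aug K (d + 1), b * a ∈ Aug K (d + 1) := fun a b hb => Aug_right a hb
    have hC : ∀ j : Fin d, (Polynomial.C (xx K j.castSucc) : Polynomial (FA K (d + 1))) ∈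
        NilA_pol (Aug K (d + 1)) := by
      intro j i
      rw [Polynomial.coeff_C]
      split_ifs
      · exact xx_mem_Aug K _
      · exact Submodule.zero_mem _
    have hcomm := J2_on_simple S hS (Λ := Polynomial (FA K (d + 1))) (NilA_pol (Aug K (d + 1)))
      (fun p q hq => NilA_left hAl p hq) (fun p q hq => NilA_right hAr p hq)
      (M := Polynomial (FA K (d + 1)) ⧸ L')
      (fun f hf w hw x => hzero _ (NilA_val f (Aug K (d + 1)) T
        (fun g hg => by rw [hT]; exact idn_of_mem S (d + 1) hf g hg) w hw) x)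
      hg (fun j : Fin d => Polynomial.C (xx K j.castSucc)) hC
    have hCl : (Polynomial.C (FreeAlgebra.lift K (fun j : Fin d => xx K j.castSucc) g) :
        Polynomial (FA K (d + 1))) =
        FreeAlgebra.lift K (fun j : Fin d =>
          (Polynomial.C (xx K j.castSucc) : Polynomial (FA K (d + 1)))) g := by
      have h5 : (Polynomial.CAlgHom : FA K (d + 1) →ₐ[K] Polynomial (FA K (d + 1))).comp
          (FreeAlgebra.lift K (fun j : Fin d => xx K j.castSucc)) =
          FreeAlgebra.lift K (fun j : Fin d =>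
            (Polynomial.C (xx K j.castSucc) : Polynomial (FA K (d + 1)))) := by
        refine FreeAlgebra.hom_ext (funext fun i => ?_)
        simp only [comp_apply, AlgHom.comp_apply, FreeAlgebra.lift_ι_apply,
          Polynomial.CAlgHom_apply]
      rw [← h5]
      rfl
    have hCa : (Polynomial.C a : Polynomial (FA K (d + 1))) =
        FreeAlgebra.lift K (fun j : Fin d =>
          (Polynomial.C (xx K j.castSucc) : Polynomial (FA K (d + 1)))) g *
        Polynomial.C (xx K (Fin.last d)) := by
      rw [ha, Polynomial.C_mul, hCl]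
    have ha0 : ∀ x : Polynomial (FA K (d + 1)) ⧸ L',
        (Polynomial.C a : Polynomial (FA K (d + 1))) • x = 0 := by
      intro x
      rw [hCa, mul_smul]
      exact hcomm _
    have h1 : (1 - Polynomial.C a * Polynomial.X : Polynomial (FA K (d + 1))) ∈ L' := by
      apply hLL
      rw [hL]
      exact Submodule.mem_sup_left (Ideal.subset_span rfl)
    have h2 : (Polynomial.C a * Polynomial.X : Polynomial (FA K (d + 1))) ∈ L' := by
      have h3 := ha0 (Submodule.Quotient.mk Polynomial.X)
      rwa [← Submodule.Quotient.mk_smul, Submodule.Quotient.mk_eq_zero, smul_eq_mul] at h3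
    have h3 : (1 : Polynomial (FA K (d + 1))) ∈ L' := by
      have h4 := L'.add_mem h1 h2
      rwa [sub_add_cancel] at h4
    exact hL'.ne_top ((Ideal.eq_top_iff_one L').2 h3)

end Pool.Agent.H.MP_f5ceca_al.BR
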