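import Pool.Agent.H.MP_f5ceca_al.BR.T1a
import Pool.Agent.H.MP_f5ceca_al.N.Nil

/-!
(T1d) values of identities of `M_2(K)` generate nilpotent ideals.
-/

namespace Pool.Agent.H.MP_f5ceca_al.BR

open MvPolynomial Function
open Pool.Agent.H.MP_f5ceca_al.N

universe u v

variable {K : Type u} [Field K]

/-- Nagata-Higman for the one-sided ideal of one element. -/
theorem T1b_gen [CharZero K] (S : Set (FreeAlgebra K ℕ)) (n m0 : ℕ) (c : FA K n)
    (hcA : c ∈ Aug K n) (key : ∀ b ∈ Aug K n, (c * b) ^ (m0 + 1) ∈ idn S n) :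
    ((⊤ : Submodule K (FA K n)) * (Submodule.span K {c} * ⊤)) ^ (2 * (2 ^ (m0 + 1) - 1)) ≤
      idn S n := by
  have hTl : (⊤ : Submodule K (FA K n)) * idn S n ≤ idn S n :=
    Submodule.mul_le.2 fun a _ b hb => idn_left S n a hb
  have hTr : idn S n * (⊤ : Submodule K (FA K n)) ≤ idn S n :=
    Submodule.mul_le.2 fun a ha b _ => idn_right S n b ha
  let I : Submodule K (FA K n) := (Submodule.span K {c} * Aug K n) ⊔ idn S n
  have hmemI : ∀ x, x ∈ I ↔ ∃ b ∈ Aug K n, ∃ t ∈ idn S n, c * b + t = x := by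
    intro x
    constructor
    · intro hx
      obtain ⟨y, hy, t, ht, rfl⟩ := Submodule.mem_sup.1 hx
      obtain ⟨b, hb, rfl⟩ := Submodule.mem_span_singleton_mul.1 hy
      exact ⟨b, hb, t, ht, rfl⟩
    · rintro ⟨b, hb, t, ht, rfl⟩
      exact Submodule.add_mem_sup (Submodule.mem_span_singleton_mul.2 ⟨b, hb, rfl⟩) ht
  have hI : I * I ≤ I := by
    refine Submodule.mul_le.2 fun x hx y hy => ?_
    obtain ⟨b, hb, t, ht, rfl⟩ := (hmemI x).1 hx
    obtain ⟨b', hb', t', ht', rfl⟩ := (hmemI y).1 hy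
    refine (hmemI _).2 ⟨b * (c * b'), Aug_left _ (Aug_left _ hb'),
      (c * b + t) * t' + t * (c * b'), add_mem (idn_left S n _ ht') (idn_right S n _ ht), ?_⟩
    noncomm_ring
  have hNH := nagata_higman (m0 + 1) (Nat.succ_pos _) I (idn S n) hI le_sup_right
    ((nil_ml le_top).trans hTl)
    ((nil_mr le_top).trans hTr) (by
      intro x hx
      obtain ⟨b, hb, t, ht, rfl⟩ := (hmemI x).1 hx
      have h1 := nil_add_pow S n (c * b) t ht (m0 + 1)
      have h2 := add_mem h1 (key b hb)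
      rwa [sub_add_cancel] at h2)
  obtain ⟨X, hX⟩ : ∃ X : Submodule K (FA K n), X = Submodule.span K {c} * ⊤ := ⟨_, rfl⟩
  rw [← hX]
  have hXr : X * ⊤ ≤ X := by
    rw [hX, mul_assoc]
    exact nil_mr le_top
  have hXX : X * X ≤ I := by
    refine Submodule.mul_le.2 fun x hx y hy => ?_
    rw [hX] at hx hy
    obtain ⟨b, _, rfl⟩ := Submodule.mem_span_singleton_mul.1 hx
    obtain ⟨b', _, rfl⟩ := Submodule.mem_span_singleton_mul.1 hy
    refine (hmemI _).2 ⟨b * (c * b'), Aug_left _ (Aug_right _ hcA), 0, zero_mem _, ?_⟩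
    noncomm_ring
  have hpow : ∀ k : ℕ, ((⊤ : Submodule K (FA K n)) * X) ^ k ≤ ⊤ * X ^ k := by
    intro k
    induction k with
    | zero =>
      rw [pow_zero, pow_zero, mul_one]; exact le_top
    | succ k ih =>
      rw [pow_succ']
      refine (nil_mr ih).trans ?_
      rw [pow_succ', mul_assoc ⊤ X, ← mul_assoc X ⊤, ← mul_assoc]
      rw [mul_assoc]
      exact nil_mr (nil_ml hXr)
  refine (hpow _).trans ?_
  rw [pow_mul, pow_two]
  refine (nil_mr (nil_pow hXX _)).trans ?_
  exact (nil_mr hNH).trans hTl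

/-- Identities of `M_2(K)` have no constant term. -/
theorem T1b_const {X : Type} {g : FreeAlgebra K X} (hg : g ∈ J2 K X) :
    FreeAlgebra.lift K (fun _ : X => (0 : K)) g = 0 := by
  have h : (Algebra.ofId K (Matrix (Fin 2) (Fin 2) K)).comp
      (FreeAlgebra.lift K (fun _ : X => (0 : K))) =
      FreeAlgebra.lift K (fun _ : X => (0 : Matrix (Fin 2) (Fin 2) K)) := by
    refine FreeAlgebra.hom_ext (funext fun i => ?_)
    simp
  have h1 := DFunLike.congr_fun h g
  rw [AlgHom.comp_apply, hg] at h1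
  exact (Algebra.ofId K (Matrix (Fin 2) (Fin 2) K)).toRingHom.injective (h1.trans (map_zero _).symm)

/-- Values of identities of `M_2(K)` at elements without constant term have no constant term. -/
theorem T1b_aug {d n : ℕ} {g : FA K d} (hg : g ∈ J2 K (Fin d)) (v : Fin d → FA K n)
    (hv : ∀ j, v j ∈ Aug K n) : FreeAlgebra.lift K v g ∈ Aug K n := by
  rw [Basic_mem_Aug]
  have h : (FreeAlgebra.algebraMapInv : FA K n →ₐ[K] K).comp (FreeAlgebra.lift K v) =
      FreeAlgebra.lift K (fun _ : Fin d => (0 : K)) := by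
    refine FreeAlgebra.hom_ext (funext fun i => ?_)
    have := hv i
    rw [Basic_mem_Aug] at this
    simp [this]
  have h1 := DFunLike.congr_fun h g
  rw [AlgHom.comp_apply] at h1
  rw [h1]
  exact T1b_const hg

/-- (T1d) PROOF. As `nil_D_pow` in N/Nil.lean (Nagata-Higman), with `[x_i, x_j]` replaced by `r = lift K v g`; the exponent
depends only on the exponent `m` of `J2_pow_mem`. (`r ∈ Aug`: `g` has no constant term: evaluate at zero matrices.) -/
theorem J2_nil [CharZero K] (S : Set (FreeAlgebra K ℕ))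
    (hS : ¬ Satisfies S (Matrix (Fin 3) (Fin 3) K)) {d : ℕ} {g : FA K d}
    (hg : g ∈ J2 K (Fin d)) :
    ∃ N : ℕ, ∀ (n : ℕ) (v : Fin d → FA K n), (∀ j, v j ∈ Aug K n) →
      ((⊤ : Submodule K (FA K n)) * (Submodule.span K {FreeAlgebra.lift K v g} * ⊤)) ^ N ≤
        idn S n := by
  obtain ⟨m0, hm0⟩ := J2_pow_mem S hS hg
  refine ⟨2 * (2 ^ (m0 + 1) - 1), fun n v hv => ?_⟩
  refine T1b_gen S n m0 _ (T1b_aug hg v hv) fun b hb => ?_
  have h1 := idn_subst S (d + 1) n (idn_right S (d + 1)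
    (FreeAlgebra.lift K (fun j : Fin d => xx K j.castSucc) g * xx K (Fin.last d)) hm0)
    (Fin.snoc v b : Fin (d + 1) → FA K n) (by
      intro i
      refine Fin.lastCases ?_ (fun j => ?_) i
      · rw [Fin.snoc_last]; exact hb
      · rw [Fin.snoc_castSucc]; exact hv j)
  rw [← pow_succ, map_pow, map_mul] at h1
  have h2 : FreeAlgebra.lift K (Fin.snoc v b : Fin (d + 1) → FA K n)
      (FreeAlgebra.lift K (fun j : Fin d => xx K j.castSucc) g) = FreeAlgebra.lift K v g := by
    have h : (FreeAlgebra.lift K (Fin.snoc v b : Fin (d + 1) → FA K n)).comp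
        (FreeAlgebra.lift K (fun j : Fin d => (xx K j.castSucc : FA K (d + 1)))) =
        FreeAlgebra.lift K v := by
      refine FreeAlgebra.hom_ext (funext fun i => ?_)
      simp [xx]
    exact DFunLike.congr_fun h g
  have h3 : FreeAlgebra.lift K (Fin.snoc v b : Fin (d + 1) → FA K n) (xx K (Fin.last d)) = b := by
    unfold xx
    rw [FreeAlgebra.lift_ι_apply, Fin.snoc_last]
  rwa [h2, h3] at h1

end Pool.Agent.H.MP_f5ceca_al.BR
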