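import Pool.Agent.H.MP_f5ceca_al.BR.T1b

/-!
(T1) `DD z w` is nilpotent modulo `T`.
-/

namespace Pool.Agent.H.MP_f5ceca_al.BR

open MvPolynomial Function
open Pool.Agent.H.MP_f5ceca_al.N

universe u v

variable {K : Type u} [Field K]

theorem T1c_sq {R : Type*} [CommRing R] (M C : Matrix (Fin 2) (Fin 2) R) (h : M 1 1 = -M 0 0) :
    M ^ 2 * C - C * M ^ 2 = 0 := by
  have h1 : M ^ 2 = (M 0 0 * M 0 0 + M 0 1 * M 1 0) • (1 : Matrix (Fin 2) (Fin 2) R) := by
    ext i j
    fin_cases i <;> fin_cases j <;> simp [pow_two, Matrix.mul_apply, Fin.sum_univ_two, h] <;> ring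
  rw [h1, smul_mul_assoc, one_mul, mul_smul_comm, mul_one, sub_self]

theorem T1c_tr {R : Type*} [CommRing R] (A B : Matrix (Fin 2) (Fin 2) R) :
    (A * B - B * A) 1 1 = -(A * B - B * A) 0 0 := by
  simp only [Matrix.sub_apply, Matrix.mul_apply, Fin.sum_univ_two]
  ring

/-- The two identities `[[x_0, x_1]^2, x_2]` and `[[[x_0, x_1], x_0]^2, x_2]` of `M_2(K)`.
PROOF. `[x_0,x_1]` and `[[x_0,x_1],x_0]` have trace zero, so their squares are scalar matrices (`Matrix.ext`, `Fin` cases,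
`ring`). -/
theorem h2_mem_J2 : br (ch (xx K (0 : Fin 3)) (xx K 1) ^ 2) (xx K 2) ∈ J2 K (Fin 3) := by
  intro v
  have h2 : ∀ i : Fin 3, FreeAlgebra.lift K v (xx K i) = v i :=
    fun i => FreeAlgebra.lift_ι_apply _ _
  unfold ch br
  simp only [map_sub, map_mul, map_pow, h2]
  exact T1c_sq _ _ (T1c_tr _ _)

theorem k2_mem_J2 : br (ck (xx K (0 : Fin 3)) (xx K 1) ^ 2) (xx K 2) ∈ J2 K (Fin 3) := by
  intro v
  have h2 : ∀ i : Fin 3, FreeAlgebra.lift K v (xx K i) = v i :=
    fun i => FreeAlgebra.lift_ι_apply _ _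
  unfold ck ch br
  simp only [map_sub, map_mul, map_pow, h2]
  exact T1c_sq _ _ (T1c_tr _ _)

/-- the ideals generated by the values -/
def T1c_D (K : Type u) [Field K] {n : ℕ} (z w : FA K n) (p : Bool × Fin n) :
    Submodule K (FA K n) :=
  ⊤ * (Submodule.span K {br ((if p.1 then ch z w else ck z w) ^ 2) (xx K p.2)} * ⊤)

theorem T1c_D_left {n : ℕ} (z w : FA K n) (p : Bool × Fin n) :
    ⊤ * T1c_D K z w p ≤ T1c_D K z w p := by
  unfold T1c_D
  rw [← mul_assoc]
  exact nil_ml le_top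

theorem T1c_D_right {n : ℕ} (z w : FA K n) (p : Bool × Fin n) :
    T1c_D K z w p * ⊤ ≤ T1c_D K z w p := by
  unfold T1c_D
  rw [mul_assoc, mul_assoc]
  exact nil_mr (nil_mr le_top)

theorem T1c_raise (S : Set (FreeAlgebra K ℕ)) (n : ℕ) (X : Submodule K (FA K n)) {a b : ℕ}
    (hab : a ≤ b) (h : X ^ a ≤ idn S n) : X ^ b ≤ idn S n := by
  obtain ⟨c, rfl⟩ := Nat.exists_eq_add_of_le hab
  rw [pow_add]
  refine (nil_ml h).trans ?_
  exact Submodule.mul_le.2 fun a ha b _ => idn_right S n b ha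

theorem T1c_val {n : ℕ} (z w : FA K n) (j : Fin n) :
    FreeAlgebra.lift K ![z, w, xx K j] (br (ch (xx K (0 : Fin 3)) (xx K 1) ^ 2) (xx K 2)) =
      br (ch z w ^ 2) (xx K j) := by
  have h2 : ∀ i : Fin 3, FreeAlgebra.lift K ![z, w, xx K j] (xx K i) =
      ![z, w, xx K j] i := fun i => FreeAlgebra.lift_ι_apply _ _
  unfold ch br
  simp only [map_sub, map_mul, map_pow, h2]
  rfl

theorem T1c_valk {n : ℕ} (z w : FA K n) (j : Fin n) :
    FreeAlgebra.lift K ![z, w, xx K j] (br (ck (xx K (0 : Fin 3)) (xx K 1) ^ 2) (xx K 2)) =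
      br (ck z w ^ 2) (xx K j) := by
  have h2 : ∀ i : Fin 3, FreeAlgebra.lift K ![z, w, xx K j] (xx K i) =
      ![z, w, xx K j] i := fun i => FreeAlgebra.lift_ι_apply _ _
  unfold ck ch br
  simp only [map_sub, map_mul, map_pow, h2]
  rfl

theorem T1c_uni [CharZero K] {S : Set (FreeAlgebra K ℕ)} {M : ℕ} (E : EBlock S M) :
    ∃ N : ℕ, ∀ (n : ℕ) (z w : FA K n), z ∈ Aug K n → w ∈ Aug K n → ∀ p : Bool × Fin n,
      T1c_D K z w p ^ N ≤ idn S n := by
  obtain ⟨N1, h1⟩ := J2_nil S (not_M3 E) (h2_mem_J2 (K := K))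
  obtain ⟨N2, h2⟩ := J2_nil S (not_M3 E) (k2_mem_J2 (K := K))
  refine ⟨max N1 N2, fun n z w hz hw p => ?_⟩
  have hv : ∀ i : Fin 3, (![z, w, xx K p.2] : Fin 3 → FA K n) i ∈ Aug K n := by
    intro i
    fin_cases i
    · exact hz
    · exact hw
    · exact xx_mem_Aug K _
  obtain ⟨b, j⟩ := p
  cases b
  · refine T1c_raise S n _ (le_max_right N1 N2) ?_
    have h := h2 n ![z, w, xx K j] hv
    rw [T1c_valk] at h
    exact h
  · refine T1c_raise S n _ (le_max_left N1 N2) ?_
    have h := h1 n ![z, w, xx K j] hv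
    rw [T1c_val] at h
    exact h

theorem T1c_fin [CharZero K] {S : Set (FreeAlgebra K ℕ)} {M : ℕ} (E : EBlock S M) (n : ℕ)
    (s : Finset (Bool × Fin n)) :
    ∃ L : ℕ, ∀ z w : FA K n, z ∈ Aug K n → w ∈ Aug K n → (s.sup (T1c_D K z w)) ^ L ≤ idn S n := by
  classical
  obtain ⟨N, hN⟩ := T1c_uni E
  induction s using Finset.induction_on with
  | empty =>
    refine ⟨1, fun z w _ _ => ?_⟩
    rw [Finset.sup_empty, pow_one]
    exact bot_le
  | insert p s _ ih =>
    obtain ⟨b, hb⟩ := ih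
    refine ⟨b * N, fun z w hz hw => ?_⟩
    rw [Finset.sup_insert]
    exact nil_sup _ _ _ (T1c_D_left z w p) (T1c_D_right z w p)
      (Submodule.mul_le.2 fun a _ b hb => idn_left S n a hb)
      (Submodule.mul_le.2 fun a ha b _ => idn_right S n b ha) (hN n z w hz hw p) (hb z w hz hw)

theorem T1c_sub {n : ℕ} (u : FA K n) (I : Submodule K (FA K n)) (hl : ∀ a, ∀ x ∈ I, a * x ∈ I)
    (hr : ∀ a, ∀ x ∈ I, x * a ∈ I) (h : ∀ j : Fin n, br u (xx K j) ∈ I) (x : FA K n) :
    br u x ∈ I := by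
  induction x using FreeAlgebra.induction with
  | grade0 r =>
    have h1 : br u (algebraMap K (FA K n) r) = 0 := by
      unfold br
      rw [Algebra.commutes r u, sub_self]
    rw [h1]
    exact zero_mem _
  | grade1 i => exact h i
  | mul a b ha hb =>
    have h1 : br u (a * b) = br u a * b + a * br u b := by
      unfold br
      noncomm_ring
    rw [h1]
    exact add_mem (hr _ _ ha) (hl _ _ hb)
  | add a b ha hb =>
    have h1 : br u (a + b) = br u a + br u b := by
      unfold br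
      noncomm_ring
    rw [h1]
    exact add_mem ha hb

theorem T1c_sup_left {n : ℕ} (z w : FA K n) (s : Finset (Bool × Fin n)) :
    ⊤ * s.sup (T1c_D K z w) ≤ s.sup (T1c_D K z w) := by
  classical
  induction s using Finset.induction_on with
  | empty =>
    rw [Finset.sup_empty]
    exact le_of_eq (Submodule.mul_bot _)
  | insert p s _ ih =>
    rw [Finset.sup_insert, Submodule.mul_sup]
    exact sup_le_sup (T1c_D_left z w p) ih

theorem T1c_sup_right {n : ℕ} (z w : FA K n) (s : Finset (Bool × Fin n)) :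
    s.sup (T1c_D K z w) * ⊤ ≤ s.sup (T1c_D K z w) := by
  classical
  induction s using Finset.induction_on with
  | empty =>
    rw [Finset.sup_empty]
    exact le_of_eq (Submodule.bot_mul _)
  | insert p s _ ih =>
    rw [Finset.sup_insert, Submodule.sup_mul]
    exact sup_le_sup (T1c_D_right z w p) ih

theorem T1c_DD_le {n : ℕ} (z w : FA K n) :
    DD K z w ≤ Finset.univ.sup (T1c_D K z w) := by
  have hl : ∀ a, ∀ x ∈ Finset.univ.sup (T1c_D K z w), a * x ∈ Finset.univ.sup (T1c_D K z w) :=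
    fun a x hx => T1c_sup_left z w Finset.univ (Submodule.mul_mem_mul trivial hx)
  have hr : ∀ a, ∀ x ∈ Finset.univ.sup (T1c_D K z w), x * a ∈ Finset.univ.sup (T1c_D K z w) :=
    fun a x hx => T1c_sup_right z w Finset.univ (Submodule.mul_mem_mul hx trivial)
  have hg : ∀ p : Bool × Fin n, br ((if p.1 then ch z w else ck z w) ^ 2) (xx K p.2) ∈
      Finset.univ.sup (T1c_D K z w) := by
    intro p
    refine Finset.le_sup (f := T1c_D K z w) (Finset.mem_univ p) ?_
    have h := Submodule.mul_mem_mul (M := (⊤ : Submodule K (FA K n)))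
      (N := Submodule.span K {br ((if p.1 then ch z w else ck z w) ^ 2) (xx K p.2)} * ⊤)
      (m := 1) trivial (Submodule.mul_mem_mul (N := (⊤ : Submodule K (FA K n))) (n := 1)
        (Submodule.mem_span_singleton_self _) trivial)
    rw [one_mul, mul_one] at h
    exact h
  unfold DD
  rw [Submodule.span_le]
  rintro y ⟨a, x, b, h | h⟩
  · rw [SetLike.mem_coe, h]
    exact hr _ _ (hl _ _ (T1c_sub _ _ hl hr (fun j => hg (true, j)) x))
  · rw [SetLike.mem_coe, h]
    exact hr _ _ (hl _ _ (T1c_sub _ _ hl hr (fun j => hg (false, j)) x))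

/-- (T1)
PROOF. `J2_nil` for the identities `h2_mem_J2`, `k2_mem_J2` and the values `(z, w, x_j)`, `j < n`, with `not_M3`: the `2 n` ideals
`⊤ * (span {br (h^2) (xx j)} * ⊤)`, `⊤ * (span {br (k^2) (xx j)} * ⊤)` have `N`-th power in `T`. Their sum contains `DD z w`:
`{x | br (h^2) x ∈ I}` is a subalgebra containing the letters (`br u (x y) = br u x * y + x * br u y`), for every ideal `I`
containing the generators. A sum of `m` ideals with `N`-th power in the ideal `T` has `N^m`-th power in `T` (`nil_sup`, induction;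
cf. `nil_fin`). -/
theorem DD_nil [CharZero K] {S : Set (FreeAlgebra K ℕ)} {M : ℕ} (E : EBlock S M) (n : ℕ) :
    ∃ L : ℕ, ∀ z w : FA K n, z ∈ Aug K n → w ∈ Aug K n → DD K z w ^ L ≤ idn S n := by
  obtain ⟨L, hL⟩ := T1c_fin E n Finset.univ
  exact ⟨L, fun z w hz hw => (nil_pow (T1c_DD_le z w) L).trans (hL z w hz hw)⟩

end Pool.Agent.H.MP_f5ceca_al.BR
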