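import Pool.Agent.H.MP_f5ceca_al.BR.FDefs

/-!
(T4) `c^i g c^i ∈ DD^2 + T` for the identities `g` of `M_2(K)`.
-/

namespace Pool.Agent.H.MP_f5ceca_al.BR

open MvPolynomial Function
open Pool.Agent.H.MP_f5ceca_al.N

universe u v

variable {K : Type u} [Field K]

theorem T4a_sup {B : Type v} [Ring B] [Algebra K B] {P Q : Submodule K B} (hP : IsIdl P)
    (hQ : IsIdl Q) : IsIdl (P ⊔ Q) where
  left := by
    intro a x hx
    obtain ⟨p, hp, q, hq, rfl⟩ := Submodule.mem_sup.1 hx
    rw [mul_add]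
    exact add_mem (Submodule.mem_sup_left (hP.left _ _ hp)) (Submodule.mem_sup_right (hQ.left _ _ hq))
  right := by
    intro a x hx
    obtain ⟨p, hp, q, hq, rfl⟩ := Submodule.mem_sup.1 hx
    rw [add_mul]
    exact add_mem (Submodule.mem_sup_left (hP.right _ _ hp))
      (Submodule.mem_sup_right (hQ.right _ _ hq))

theorem T4a_mul {B : Type v} [Ring B] [Algebra K B] {P Q : Submodule K B} (hP : IsIdl P)
    (hQ : IsIdl Q) : IsIdl (P * Q) where
  left := by
    intro a x hx
    induction hx using Submodule.mul_induction_on' with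
    | mem_mul_mem p hp q hq =>
      rw [← mul_assoc]
      exact Submodule.mul_mem_mul (hP.left _ _ hp) hq
    | add x _ y _ hx hy =>
      rw [mul_add]
      exact add_mem hx hy
  right := by
    intro a x hx
    induction hx using Submodule.mul_induction_on' with
    | mem_mul_mem p hp q hq =>
      rw [mul_assoc]
      exact Submodule.mul_mem_mul hp (hQ.right _ _ hq)
    | add x _ y _ hx hy =>
      rw [add_mul]
      exact add_mem hx hy

theorem T4a_abs {B : Type v} [Ring B] [Algebra K B] {D T : Submodule K B} (hD : IsIdl D)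
    (hT : IsIdl T) (c : B) (hc : ∀ (i : ℕ) (x : B), br (c ^ i) x ∈ D) :
    ∃ I : Submodule K B, IsIdl I ∧ ∀ x, x ∈ I ↔ ∃ i, c ^ i * x * c ^ i ∈ D * D ⊔ T := by
  have hE : IsIdl (D * D ⊔ T) := T4a_sup (T4a_mul hD hD) hT
  have hED : D * D ⊔ T ≤ D ⊔ T := by
    refine sup_le_sup_right ?_ T
    intro x hx
    induction hx using Submodule.mul_induction_on' with
    | mem_mul_mem p hp q hq => exact hD.right _ _ hp
    | add x _ y _ hx hy => exact add_mem hx hy
  have hmono : ∀ (x : B) (i j : ℕ), i ≤ j → c ^ i * x * c ^ i ∈ D * D ⊔ T →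
      c ^ j * x * c ^ j ∈ D * D ⊔ T := by
    intro x i j hij h
    have h1 : c ^ j * x * c ^ j = c ^ (j - i) * (c ^ i * x * c ^ i) * c ^ (j - i) := by
      have h2 : c ^ j = c ^ (j - i) * c ^ i := (pow_sub_mul_pow c hij).symm
      have h3 : c ^ j = c ^ i * c ^ (j - i) := (pow_mul_pow_sub c hij).symm
      conv_lhs =>
        congr
        · rw [h2]
        · rw [h3]
      simp only [mul_assoc]
    rw [h1]
    exact hE.right _ _ (hE.left _ _ h)
  refine ⟨{ carrier := {x | ∃ i, c ^ i * x * c ^ i ∈ D * D ⊔ T}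
            zero_mem' := ⟨0, by rw [mul_zero, zero_mul]; exact zero_mem _⟩
            add_mem' := ?_
            smul_mem' := ?_ }, ⟨?_, ?_⟩, fun x => Iff.rfl⟩
  · rintro x y ⟨i, hi⟩ ⟨j, hj⟩
    refine ⟨max i j, ?_⟩
    rw [mul_add, add_mul]
    exact add_mem (hmono x i _ (le_max_left _ _) hi) (hmono y j _ (le_max_right _ _) hj)
  · rintro r x ⟨i, hi⟩
    refine ⟨i, ?_⟩
    rw [mul_smul_comm, smul_mul_assoc]
    exact Submodule.smul_mem _ r hi
  · rintro a x ⟨i, hi⟩
    have h1 : x * c ^ (2 * i) ∈ D ⊔ T := by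
      have h2 : x * c ^ (2 * i) = c ^ i * x * c ^ i - br (c ^ i) x * c ^ i := by
        unfold br
        rw [two_mul, pow_add]
        noncomm_ring
      rw [h2]
      exact sub_mem (hED hi) (Submodule.mem_sup_left (hD.right _ _ (hc i x)))
    have h3 : c ^ (2 * i) * (a * x) * c ^ (2 * i) = a * (c ^ (2 * i) * x * c ^ (2 * i)) +
        br (c ^ (2 * i)) a * (x * c ^ (2 * i)) := by
      unfold br
      noncomm_ring
    refine ⟨2 * i, ?_⟩
    rw [h3]
    refine add_mem (hE.left _ _ (hmono x i _ (by omega) hi)) ?_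
    obtain ⟨p, hp, q, hq, hpq⟩ := Submodule.mem_sup.1 h1
    rw [← hpq, mul_add]
    exact add_mem (Submodule.mem_sup_left (Submodule.mul_mem_mul (hc _ _) hp))
      (Submodule.mem_sup_right (hT.left _ _ hq))
  · rintro a x ⟨i, hi⟩
    have h1 : c ^ (2 * i) * x ∈ D ⊔ T := by
      have h2 : c ^ (2 * i) * x = c ^ i * x * c ^ i + c ^ i * br (c ^ i) x := by
        unfold br
        rw [two_mul, pow_add]
        noncomm_ring
      rw [h2]
      exact add_mem (hED hi) (Submodule.mem_sup_left (hD.left _ _ (hc i x)))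
    have h3 : c ^ (2 * i) * (x * a) * c ^ (2 * i) = (c ^ (2 * i) * x * c ^ (2 * i)) * a -
        (c ^ (2 * i) * x) * br (c ^ (2 * i)) a := by
      unfold br
      noncomm_ring
    refine ⟨2 * i, ?_⟩
    rw [h3]
    refine sub_mem (hE.right _ _ (hmono x i _ (by omega) hi)) ?_
    obtain ⟨p, hp, q, hq, hpq⟩ := Submodule.mem_sup.1 h1
    rw [← hpq, add_mul]
    exact add_mem (Submodule.mem_sup_left (Submodule.mul_mem_mul hp (hc _ _)))
      (Submodule.mem_sup_right (hT.right _ _ hq))

/-- The torsion ideal.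
PROOF. `zero`, `smul` clear; `add`: multiply by more powers of `c` (`E := DD * DD ⊔ T` is a two-sided ideal,
`c^i x c^i ∈ E → c^j x c^j ∈ E` for `j ≥ i`). Right multiplication: let `c^i x c^i ∈ E`, `N = 2 i`.
`c^(2i) x = c^i x c^i + c^i * br (c^i) x ∈ DD ⊔ T` (`E ≤ DD ⊔ T`), and
`c^N (x y) c^N = (c^N x c^N) y - (c^N x) * br (c^N) y`; the first term is in `E`, the second in
`(DD ⊔ T) * DD ≤ E`. Left multiplication: mirror image. -/
theorem exists_tor {n : ℕ} (T : Submodule K (FA K n)) (hT : IsIdl T) (z w : FA K n) :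
    ∃ I : Submodule K (FA K n), IsIdl I ∧ ∀ x, x ∈ I ↔
      ∃ i, cc z w ^ i * x * cc z w ^ i ∈ DD K z w * DD K z w ⊔ T := by
  exact T4a_abs (DD_idl z w) hT (cc z w) fun i x => br_c_pow_mem z w x i

/-- (T4)
PROOF. `I` from `exists_tor` (`T = idn S n`, `idn_left`, `idn_right`), `B = FA K n ⧸ I`, `π` by `exists_quotient`. Apply
`Core.main` to `P = (Aug K n).map π`, `D = (DD K z w).map π`, `π z`, `π w`: `hS` by `holds_quot` (`T ≤ I`: `i = 0`);
`h1`: `x = π y`, `y - algebraMap (algebraMapInv y) ∈ Aug`; `hDD`: `DD * DD ≤ I` (`i = 0`); `hh`, `hk`: `br_h_mem`, `br_k_mem`,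
`DD_map`; `creg`: `c y ∈ I` → `c^i c y c^i ∈ E` → multiply by `c` on the right → `y ∈ I`; `creg'` mirror.
So `π (lift v g) = lift (π ∘ v) g = 0` and `lift v g ∈ I`. -/
theorem t4 [CharZero K] {S : Set (FreeAlgebra K ℕ)} {M : ℕ} (E : EBlock S M) {n : ℕ}
    (z w : FA K n) (hz : z ∈ Aug K n) (hw : w ∈ Aug K n) {X : Type} {g : FreeAlgebra K X}
    (hg : g ∈ J2 K X) (v : X → FA K n) :
    ∃ i, cc z w ^ i * FreeAlgebra.lift K v g * cc z w ^ i ∈
      DD K z w * DD K z w ⊔ idn S n := by
  obtain ⟨I, hI, hmem⟩ := exists_tor (idn S n)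
    ⟨fun a x hx => idn_left S n a hx, fun a x hx => idn_right S n a hx⟩ z w
  obtain ⟨A, _, _, π, hπ, hker⟩ := exists_quotient I hI.left hI.right
  have hE : IsIdl (DD K z w * DD K z w ⊔ idn S n) := T4a_sup (T4a_mul (DD_idl z w) (DD_idl z w))
    ⟨fun a x hx => idn_left S n a hx, fun a x hx => idn_right S n a hx⟩
  have hTI : idn S n ≤ I := fun x hx => (hmem x).2
    ⟨0, by rw [pow_zero, one_mul, mul_one]; exact Submodule.mem_sup_right hx⟩
  have hcc : cc (π z) (π w) = π (cc z w) := by
    simp only [cc, ch, ck, br, map_mul, map_sub, map_pow]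
  have hC : Core S M ((Aug K n).map π.toLinearMap) ((DD K z w).map π.toLinearMap) (π z) (π w) :=
    { E := E
      hP := idl_map π hπ ⟨fun a x hx => Aug_left a hx, fun a x hx => Aug_right a hx⟩
      hS := holds_quot π I hker hTI
      h1 := by
        intro x
        obtain ⟨y, rfl⟩ := hπ x
        refine ⟨FreeAlgebra.algebraMapInv y,
          ⟨y - algebraMap K (FA K n) (FreeAlgebra.algebraMapInv y), ?_, ?_⟩⟩
        · show _ ∈ Aug K n
          rw [Basic_mem_Aug, map_sub, FreeAlgebra.algebraMap_leftInverse, sub_self]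
        · show π (y - algebraMap K (FA K n) (FreeAlgebra.algebraMapInv y)) = _
          rw [map_sub, AlgHom.commutes]
      hD := idl_map π hπ (DD_idl z w)
      hDP := Submodule.map_mono (DD_le_Aug z w hz)
      hDD := by
        rintro _ ⟨x, hx, rfl⟩ _ ⟨y, hy, rfl⟩
        show π x * π y = 0
        rw [← map_mul, hker]
        refine (hmem _).2 ⟨0, ?_⟩
        rw [pow_zero, one_mul, mul_one]
        exact Submodule.mem_sup_left (Submodule.mul_mem_mul hx hy)
      hz := Submodule.mem_map_of_mem (f := π.toLinearMap) hz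
      hw := Submodule.mem_map_of_mem (f := π.toLinearMap) hw
      hh := by
        intro x
        rw [DD_map π hπ]
        exact br_h_mem _ _ _
      hk := by
        intro x
        rw [DD_map π hπ]
        exact br_k_mem _ _ _
      creg := by
        intro x hx
        obtain ⟨y, rfl⟩ := hπ x
        rw [hcc, ← map_mul, hker] at hx
        obtain ⟨i, hi⟩ := (hmem _).1 hx
        rw [hker]
        refine (hmem _).2 ⟨i + 1, ?_⟩
        have h1 : cc z w ^ (i + 1) * y * cc z w ^ (i + 1) =
            (cc z w ^ i * (cc z w * y) * cc z w ^ i) * cc z w := by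
          rw [pow_succ]
          simp only [mul_assoc]
        rw [h1]
        exact hE.right _ _ hi
      creg' := by
        intro x hx
        obtain ⟨y, rfl⟩ := hπ x
        rw [hcc, ← map_mul, hker] at hx
        obtain ⟨i, hi⟩ := (hmem _).1 hx
        rw [hker]
        refine (hmem _).2 ⟨i + 1, ?_⟩
        have h1 : cc z w ^ (i + 1) * y * cc z w ^ (i + 1) =
            cc z w * (cc z w ^ i * (y * cc z w) * cc z w ^ i) := by
          rw [pow_succ']
          simp only [mul_assoc]
        rw [h1]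
        exact hE.left _ _ hi }
  have h0 := hC.main hg (fun i => π (v i))
  have h1 : π (FreeAlgebra.lift K v g) = FreeAlgebra.lift K (fun i => π (v i)) g := by
    have h2 : π.comp (FreeAlgebra.lift K v) = FreeAlgebra.lift K (fun i => π (v i)) := by
      apply FreeAlgebra.hom_ext
      funext i
      simp
    exact DFunLike.congr_fun h2 g
  rw [← h1, hker] at h0
  exact (hmem _).1 h0

end Pool.Agent.H.MP_f5ceca_al.BR
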