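import Pool.Agent.H.MP_f5ceca_al.BR.FDefs

/-!
(T5) `N c^a N ≤ T`.
-/

namespace Pool.Agent.H.MP_f5ceca_al.BR

open MvPolynomial Function
open Pool.Agent.H.MP_f5ceca_al.N

universe u v

theorem T5a_bin {R : Type*} [CommRing R] (z y X : R) (m k : ℕ) (h1 : (z - y) ^ m * X = 0)
    (h2 : y ^ k * X = 0) : z ^ (m + k) * X = 0 := by
  have e1 : (z - y) ^ m ∈ LinearMap.ker (LinearMap.toSpanSingleton R R X) := by
    rw [LinearMap.mem_ker, LinearMap.toSpanSingleton_apply, smul_eq_mul]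
    exact h1
  have e2 : y ^ k ∈ LinearMap.ker (LinearMap.toSpanSingleton R R X) := by
    rw [LinearMap.mem_ker, LinearMap.toSpanSingleton_apply, smul_eq_mul]
    exact h2
  have e3 : (z - y + y) ^ (m + k) ∈ (LinearMap.ker (LinearMap.toSpanSingleton R R X) : Ideal R) :=
    Ideal.add_pow_mem_of_pow_mem_of_le _ e1 e2 (by omega)
  rw [sub_add_cancel, LinearMap.mem_ker, LinearMap.toSpanSingleton_apply, smul_eq_mul] at e3
  exact e3

/-- The calculation at the end of the step.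
PROOF. `z1^b z0^k = 0`. Put `X = z1^e (z1 - z2)^m z1^b`; `(z1 - z0)^m X = 0`, `z0^k X = 0`, and
`z1 = (z1 - z0) + z0`, so `z1^(m + k) X = 0` (binomial theorem). So `z1^(m+k+e+b) (z1 - z2)^m = 0`, and with `z2^k z1^b = 0`
the same argument gives the claim. -/
theorem ring_t5 {R : Type*} [CommRing R] (z0 z1 z2 : R) (k b e m : ℕ) (h0 : z0 ^ k * z1 ^ b = 0)
    (h2 : z2 ^ k * z1 ^ b = 0) (h : z1 ^ e * ((z1 - z0) * (z1 - z2)) ^ m = 0) :
    z1 ^ (e + 2 * b + 2 * m + 2 * k) = 0 := by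
  have h3 : z1 ^ (m + k) * (z1 ^ e * (z1 - z2) ^ m * z1 ^ b) = 0 := by
    refine T5a_bin z1 z0 _ m k ?_ ?_
    · have e1 : (z1 - z0) ^ m * (z1 ^ e * (z1 - z2) ^ m * z1 ^ b) =
          (z1 ^ e * ((z1 - z0) * (z1 - z2)) ^ m) * z1 ^ b := by
        rw [mul_pow]
        ring
      rw [e1, h, zero_mul]
    · have e1 : z0 ^ k * (z1 ^ e * (z1 - z2) ^ m * z1 ^ b) =
          (z0 ^ k * z1 ^ b) * (z1 ^ e * (z1 - z2) ^ m) := by ring
      rw [e1, h0, zero_mul]
  have h4 : z1 ^ (m + k) * (z1 ^ (m + k) * z1 ^ e * z1 ^ b * z1 ^ b) = 0 := by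
    refine T5a_bin z1 z2 _ m k ?_ ?_
    · have e1 : (z1 - z2) ^ m * (z1 ^ (m + k) * z1 ^ e * z1 ^ b * z1 ^ b) =
          (z1 ^ (m + k) * (z1 ^ e * (z1 - z2) ^ m * z1 ^ b)) * z1 ^ b := by ring
      rw [e1, h3, zero_mul]
    · have e1 : z2 ^ k * (z1 ^ (m + k) * z1 ^ e * z1 ^ b * z1 ^ b) =
          (z2 ^ k * z1 ^ b) * (z1 ^ (m + k) * z1 ^ e * z1 ^ b) := by ring
      rw [e1, h2, zero_mul]
  rw [← h4]
  ring

variable {K : Type u} [Field K]

/-- The data for the step: `N` is an ideal of the free algebra, `T` the ideal of identities. -/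
structure T5Data (S : Set (FreeAlgebra K ℕ)) (M k : ℕ) {n : ℕ} (z w : FA K n)
    (N : Submodule K (FA K n)) : Prop where
  E : EBlock S M
  hz : z ∈ Aug K n
  hw : w ∈ Aug K n
  hN : IsIdl N
  hNA : N ≤ Aug K n
  hDN : DD K z w ≤ N
  hk : ∀ m ∈ N, cc z w ^ k * m * cc z w ^ k ∈ DD K z w * DD K z w ⊔ idn S n

variable {S : Set (FreeAlgebra K ℕ)} {M k n : ℕ} {z w : FA K n} {N : Submodule K (FA K n)}

theorem T5a_pow_idl (z w : FA K n) (r : ℕ) : IsIdl (DD K z w ^ (r + 1)) := by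
  constructor
  · intro a x hx
    rw [pow_succ'] at hx ⊢
    refine Submodule.mul_induction_on hx (fun u hu v hv => ?_) (fun u v hu hv => ?_)
    · rw [← mul_assoc]
      exact Submodule.mul_mem_mul ((DD_idl z w).left a u hu) hv
    · rw [mul_add]
      exact Submodule.add_mem _ hu hv
  · intro a x hx
    rw [pow_succ] at hx ⊢
    refine Submodule.mul_induction_on hx (fun u hu v hv => ?_) (fun u v hu hv => ?_)
    · rw [mul_assoc]
      exact Submodule.mul_mem_mul hu ((DD_idl z w).right a v hv)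
    · rw [add_mul]
      exact Submodule.add_mem _ hu hv

theorem T5a_sup (S : Set (FreeAlgebra K ℕ)) {P : Submodule K (FA K n)} (hP : IsIdl P) :
    IsIdl (P ⊔ idn S n) := by
  constructor
  · intro a x hx
    obtain ⟨y, hy, t, ht, rfl⟩ := Submodule.mem_sup.1 hx
    rw [mul_add]
    exact Submodule.add_mem_sup (hP.left a y hy) (idn_left S n a ht)
  · intro a x hx
    obtain ⟨y, hy, t, ht, rfl⟩ := Submodule.mem_sup.1 hx
    rw [add_mul]
    exact Submodule.add_mem_sup (hP.right a y hy) (idn_right S n a ht)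

theorem T5a_mid (H : T5Data S M k z w N) (m : FA K n) (hm : m ∈ N) :
    cc z w ^ k * m * cc z w ^ k ∈ DD K z w ⊔ idn S n := by
  have h1 : DD K z w * DD K z w ≤ DD K z w := by
    rw [Submodule.mul_le]
    intro u _ v hv
    exact (DD_idl z w).left u v hv
  have h2 : DD K z w * DD K z w ⊔ idn S n ≤ DD K z w ⊔ idn S n := sup_le_sup_right h1 _
  exact h2 (H.hk m hm)

/-- PROOF. `c^k m c^k ∈ DD ⊔ T` and `c^k m c^k = c^(2k) m - c^k * br (c^k) m`, `br (c^k) m ∈ DD`. -/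
theorem T5Data.left (H : T5Data S M k z w N) (i : ℕ) (hi : 2 * k ≤ i) (m : FA K n) (hm : m ∈ N) :
    cc z w ^ i * m ∈ DD K z w ⊔ idn S n := by
  have hI := T5a_sup S (DD_idl (K := K) z w)
  have h1 : cc z w ^ (2 * k) * m ∈ DD K z w ⊔ idn S n := by
    have e1 : cc z w ^ (2 * k) * m =
        cc z w ^ k * m * cc z w ^ k + cc z w ^ k * br (cc z w ^ k) m := by
      rw [br, two_mul, pow_add]
      noncomm_ring
    rw [e1]
    exact Submodule.add_mem _ (T5a_mid H m hm)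
      (hI.left _ _ (Submodule.mem_sup_left (br_c_pow_mem z w m k)))
  obtain ⟨j, rfl⟩ := Nat.exists_eq_add_of_le' hi
  rw [pow_add, mul_assoc]
  exact hI.left _ _ h1

/-- PROOF. Mirror image of `left`. -/
theorem T5Data.right (H : T5Data S M k z w N) (i : ℕ) (hi : 2 * k ≤ i) (m : FA K n) (hm : m ∈ N) :
    m * cc z w ^ i ∈ DD K z w ⊔ idn S n := by
  have hI := T5a_sup S (DD_idl (K := K) z w)
  have h1 : m * cc z w ^ (2 * k) ∈ DD K z w ⊔ idn S n := by
    have e1 : m * cc z w ^ (2 * k) =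
        cc z w ^ k * m * cc z w ^ k - br (cc z w ^ k) m * cc z w ^ k := by
      rw [br, two_mul, pow_add]
      noncomm_ring
    rw [e1]
    exact Submodule.sub_mem _ (T5a_mid H m hm)
      (hI.right _ _ (Submodule.mem_sup_left (br_c_pow_mem z w m k)))
  obtain ⟨j, rfl⟩ := Nat.exists_eq_add_of_le hi
  rw [pow_add, ← mul_assoc]
  exact hI.right _ _ h1

/-- `DD ^ r ⊔ T` are two-sided ideals. -/
theorem pow_idl (S : Set (FreeAlgebra K ℕ)) {n : ℕ} (z w : FA K n) (r : ℕ) (hr : 0 < r) :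
    IsIdl (DD K z w ^ r ⊔ idn S n) := by
  obtain ⟨j, rfl⟩ := Nat.exists_eq_succ_of_ne_zero hr.ne'
  exact T5a_sup S (T5a_pow_idl z w j)

/-- Start of the induction. PROOF. `m c^i m' = (m c^(2k)) (c^(i - 2k) m')` and `left`, `right`. -/
theorem T5Data.start (H : T5Data S M k z w N) (i : ℕ) (hi : 4 * k ≤ i) (m : FA K n) (hm : m ∈ N)
    (m' : FA K n) (hm' : m' ∈ N) : m * cc z w ^ i * m' ∈ DD K z w ^ 2 ⊔ idn S n := by
  obtain ⟨j, rfl⟩ := Nat.exists_eq_add_of_le (show 2 * k ≤ i by omega)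
  have h1 := H.right (2 * k) le_rfl m hm
  have h2 := H.left j (by omega) m' hm'
  obtain ⟨d, hd, t, ht, e1⟩ := Submodule.mem_sup.1 h1
  obtain ⟨d', hd', t', ht', e2⟩ := Submodule.mem_sup.1 h2
  have e3 : m * cc z w ^ (2 * k + j) * m' = d * d' + (t * d' + d * t' + t * t') := by
    have e4 : m * cc z w ^ (2 * k + j) * m' = (m * cc z w ^ (2 * k)) * (cc z w ^ j * m') := by
      rw [pow_add]
      noncomm_ring
    rw [e4, ← e1, ← e2]
    noncomm_ring
  rw [e3]
  refine Submodule.add_mem_sup ?_ ?_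
  · rw [pow_two]
    exact Submodule.mul_mem_mul hd hd'
  · exact Submodule.add_mem _ (Submodule.add_mem _ (idn_right S n _ ht) (idn_left S n _ ht'))
      (idn_left S n _ ht')

end Pool.Agent.H.MP_f5ceca_al.BR
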