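import Pool.Agent.H.MP_f5ceca_al.BR.T5a

/-!
(T5), first part of the step.
-/

namespace Pool.Agent.H.MP_f5ceca_al.BR

open MvPolynomial Function
open Pool.Agent.H.MP_f5ceca_al.N

universe u v

variable {K : Type u} [Field K]

variable {S : Set (FreeAlgebra K ℕ)} {M k n : ℕ} {z w : FA K n} {N : Submodule K (FA K n)}

/-- Calculation in a commutative ring: replace `z2` and the factors `z3` by `z1`. -/
theorem T5b_ring {R : Type*} [CommRing R] (z0 z1 z2 z3 z4 : R) (s p i j : ℕ)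
    (h2 : (z2 - z1) * z1 ^ s * z3 ^ p = 0) (h3 : (z3 - z2) * z1 ^ s * z3 ^ p = 0) :
    (uu z1 z0 z4 * uu z2 z0 z4 * uu z3 z0 z4) ^ (s + (p + i) + j) =
      z1 ^ (3 * s + 2 * (p + i) + 3 * j) *
        ((z1 - z0) * (z1 - z4)) ^ (3 * (s + (p + i) + j)) * z3 ^ (p + i) := by
  set g : R := z1 ^ s * z3 ^ p with hg
  have e2 : z2 * g = z1 * g := by rw [hg]; linear_combination h2
  have e3 : z3 * g = z1 * g := by rw [hg]; linear_combination h2 + h3
  have key : ∀ a b : R, a * g = b * g → ∀ q : ℕ, a ^ q * g = b ^ q * g := by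
    intro a b hab q
    induction q with
    | zero => rw [pow_zero, pow_zero]
    | succ q ih =>
      calc a ^ (q + 1) * g = a ^ q * (a * g) := by rw [pow_succ]; ring
        _ = b * (a ^ q * g) := by rw [hab]; ring
        _ = b * (b ^ q * g) := by rw [ih]
        _ = b ^ (q + 1) * g := by rw [pow_succ]; ring
  have u2 : uu z2 z0 z4 * g = uu z1 z0 z4 * g := by
    unfold uu
    linear_combination (z2 ^ 2 + z2 * z1 + z1 ^ 2 - (z0 + z4) * (z2 + z1) + z0 * z4) * e2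
  have v3 : ((z3 - z0) * (z3 - z4)) * g = ((z1 - z0) * (z1 - z4)) * g := by
    linear_combination (z3 + z1 - z0 - z4) * e3
  set m : ℕ := s + (p + i) + j with hm
  have k2 := key _ _ u2 m
  have k3 := key _ _ v3 m
  have k4 := key _ _ e3 (s + j)
  have hU : ∀ t l r : R, uu t l r ^ m = t ^ m * ((t - l) * (t - r)) ^ m := by
    intro t l r
    rw [← mul_pow]
    unfold uu
    rw [mul_assoc]
  have p1 : z1 ^ m = z1 ^ s * z1 ^ (p + i + j) := by rw [← pow_add]; congr 1; omega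
  have p3 : z3 ^ m = z3 ^ p * z3 ^ i * z3 ^ (s + j) := by
    rw [← pow_add, ← pow_add]; congr 1; omega
  set V1 : R := ((z1 - z0) * (z1 - z4)) with hV1
  set V3 : R := ((z3 - z0) * (z3 - z4)) with hV3
  calc (uu z1 z0 z4 * uu z2 z0 z4 * uu z3 z0 z4) ^ m
      = uu z1 z0 z4 ^ m * uu z2 z0 z4 ^ m * uu z3 z0 z4 ^ m := by rw [mul_pow, mul_pow]
    _ = (z1 ^ (p + i + j) * V1 ^ m) * (z3 ^ i * z3 ^ (s + j) * V3 ^ m) *
          (uu z2 z0 z4 ^ m * g) := by
        rw [hU z1, hU z3, p1, p3, hg]; ring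
    _ = (z1 ^ (p + i + j) * V1 ^ m) * (z3 ^ i * z3 ^ (s + j)) * uu z1 z0 z4 ^ m *
          (V3 ^ m * g) := by rw [k2]; ring
    _ = (z1 ^ (p + i + j) * V1 ^ m) * z3 ^ i * uu z1 z0 z4 ^ m * V1 ^ m *
          (z3 ^ (s + j) * g) := by rw [k3]; ring
    _ = (z1 ^ (p + i + j) * V1 ^ m) * z3 ^ i * (z1 ^ m * V1 ^ m) * V1 ^ m *
          (z1 ^ (s + j) * (z1 ^ s * z3 ^ p)) := by rw [k4, hU z1, hg]
    _ = z1 ^ (p + i + j + m + (s + j) + s) * V1 ^ (3 * m) * z3 ^ (p + i) := by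
        rw [show 3 * m = m + m + m by ring]
        simp only [pow_add]
        ring
    _ = z1 ^ (3 * s + 2 * (p + i) + 3 * j) * V1 ^ (3 * m) * z3 ^ (p + i) := by
        rw [show p + i + j + m + (s + j) + s = 3 * s + 2 * (p + i) + 3 * j by omega]

/-- Products of elements of `DD ^ r ⊔ T` and `DD ⊔ T`. -/
theorem T5b_mul {S : Set (FreeAlgebra K ℕ)} {n : ℕ} (D : Submodule K (FA K n)) (r : ℕ)
    {a b : FA K n} (ha : a ∈ D ^ r ⊔ idn S n) (hb : b ∈ D ⊔ idn S n) :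
    a * b ∈ D ^ (r + 1) ⊔ idn S n := by
  obtain ⟨a1, ha1, a2, ha2, rfl⟩ := Submodule.mem_sup.mp ha
  obtain ⟨b1, hb1, b2, hb2, rfl⟩ := Submodule.mem_sup.mp hb
  have h1 : a1 * b1 ∈ D ^ (r + 1) := by
    rw [pow_succ]
    exact Submodule.mul_mem_mul ha1 hb1
  have h2 : a1 * b2 + a2 * (b1 + b2) ∈ idn S n :=
    add_mem (idn_left S n a1 hb2) (idn_right S n (b1 + b2) ha2)
  have h3 : (a1 + a2) * (b1 + b2) = a1 * b1 + (a1 * b2 + a2 * (b1 + b2)) := by
    rw [add_mul, mul_add a1]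
    abel
  rw [h3]
  exact Submodule.add_mem_sup h1 h2

theorem T5b_vec {α : Type*} (a : Fin 4 → α) : a = ![a 0, a 1, a 2, a 3] := by
  funext i
  fin_cases i <;> rfl

/-- First part of the step: the relation ER for the letters `m, x, y, m'`.
PROOF. `I := DD ^ (r + 1) ⊔ T`, `c = cc z w`. In `Q = MvPolynomial (Fin 5) K ⧸ Ann c I A _`, `A = ![N, Aug, Aug, N]`
(`closed_of`): `(z_2 - z_1) z_1^s z_3^(2k) = 0` since
`m c^s (x c - c x) (y c^(2k) m') ∈ (N c^s N) * (DD ⊔ T)`: `br c x ∈ DD ≤ N`, so `m c^s (br c x) ∈ DD^r ⊔ T` by `hs`, and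
`c^(2k) m' ∈ DD ⊔ T`; as an element of the ideal: the value of `(X 2 - X 1) * X 1^s * X 3^(2k)` on any letters is this
(`sev_four_letters`). Similarly `(z_3 - z_2) z_1^s z_3^(2k) = 0`: `m c^s (x * br c y) ∈ N c^s N`. So if a polynomial is divisible
by `X 1^s X 3^(2k)` one may replace `X 2`, and the other factors `X 3`, by `X 1` modulo `Ann`. For `M' ≥ s + t + M`, `t ≥ 2k`:
`polU K M' ≡ X 1^(3M' - t) ((X 1 - X 0) (X 1 - X 4))^(3M') X 3^t = rename ![0,1,3,4] (polV ..)`. So `er_idn` (`T ≤ I`), `sev_merge_mid`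
and `sev_sub_mid` give the claim. -/
theorem T5Data.rel1 (H : T5Data S M k z w N) (r s : ℕ)
    (hs : ∀ i, s ≤ i → ∀ m ∈ N, ∀ m' ∈ N, m * cc z w ^ i * m' ∈ DD K z w ^ r ⊔ idn S n)
    (t : ℕ) (ht : 2 * k ≤ t) (M' : ℕ) (hM : s + t + M ≤ M') (x y : FA K n) (hx : x ∈ Aug K n)
    (hy : y ∈ Aug K n) (m : FA K n) (hm : m ∈ N) (m' : FA K n) (hm' : m' ∈ N) :
    sev (cc z w) ![m, x * y - y * x, m'] (X 1 ^ (3 * M' - t) *
      ((X 1 - X 0) * (X 1 - X 3)) ^ (3 * M') * X 2 ^ t : MvPolynomial (Fin 4) K) ∈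
      DD K z w ^ (r + 1) ⊔ idn S n := by
  have hDi := DD_idl (K := K) z w
  have hNA := H.hNA
  set c : FA K n := cc z w with hc
  have hcA : c ∈ Aug K n := by
    have h1 : ch z w ∈ Aug K n := by
      unfold ch br
      exact sub_mem (Aug_right w H.hz) (Aug_left w H.hz)
    rw [hc]
    unfold cc
    rw [pow_two, mul_assoc]
    exact Aug_right _ h1
  obtain ⟨i, rfl⟩ : ∃ i, t = 2 * k + i := ⟨t - 2 * k, by omega⟩
  obtain ⟨j, rfl⟩ : ∃ j, M' = s + (2 * k + i) + j := ⟨M' - (s + (2 * k + i)), by omega⟩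
  set I : Submodule K (FA K n) := DD K z w ^ (r + 1) ⊔ idn S n with hI
  set A : Fin 4 → Set (FA K n) := ![(N : Set (FA K n)), (Aug K n : Set (FA K n)),
    (Aug K n : Set (FA K n)), (N : Set (FA K n))] with hA
  have hcl : Closed c A := by
    refine closed_of (fun l a ha => ?_) (fun l a ha => ?_)
    · fin_cases l
      · exact H.hN.left c a ha
      · exact Aug_left c ha
      · exact Aug_left c ha
      · exact H.hN.left c a ha
    · fin_cases l
      · exact H.hN.right c a ha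
      · exact Aug_right c ha
      · exact Aug_right c ha
      · exact H.hN.right c a ha
  -- the elements `c ^ (2 k) m'`
  have hck : ∀ m' ∈ N, ∀ y : FA K n, y * (c ^ (2 * k) * m') ∈ DD K z w ⊔ idn S n := by
    intro m' hm' y
    obtain ⟨b1, hb1, b2, hb2, hb⟩ := Submodule.mem_sup.mp (H.left (2 * k) le_rfl m' hm')
    rw [← hc] at hb
    rw [← hb, mul_add]
    exact Submodule.add_mem_sup (hDi.left y b1 hb1) (idn_left S n y hb2)
  have hs' : ∀ m ∈ N, ∀ d ∈ DD K z w, m * c ^ s * d ∈ DD K z w ^ r ⊔ idn S n :=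
    fun m hm d hd => hs s le_rfl m hm d (H.hDN hd)
  have r2 : Ideal.Quotient.mk (Ann c I A hcl)
      ((X 2 - X 1) * X 1 ^ s * X 3 ^ (2 * k)) = 0 := by
    rw [mk_eq_zero]
    intro a ha
    have h0 : a 0 ∈ N := ha 0
    have h3 : a 3 ∈ N := ha 3
    have e : ((X 2 - X 1) * X 1 ^ s * X 3 ^ (2 * k) : MvPolynomial (Fin 5) K) =
        X 0 ^ 0 * X 1 ^ s * X 2 ^ 1 * X 3 ^ (2 * k) * X 4 ^ 0 -
        X 0 ^ 0 * X 1 ^ (s + 1) * X 2 ^ 0 * X 3 ^ (2 * k) * X 4 ^ 0 := by ring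
    rw [e, map_sub, T5b_vec a, sev_four_letters, sev_four_letters]
    have e2 : c ^ 0 * a 0 * c ^ s * a 1 * c ^ 1 * a 2 * c ^ (2 * k) * a 3 * c ^ 0 -
        c ^ 0 * a 0 * c ^ (s + 1) * a 1 * c ^ 0 * a 2 * c ^ (2 * k) * a 3 * c ^ 0 =
        -((a 0 * c ^ s * br c (a 1)) * (a 2 * (c ^ (2 * k) * a 3))) := by
      unfold br
      simp only [pow_zero, pow_one, pow_succ, one_mul, mul_one]
      noncomm_ring
    rw [e2, hI]
    refine neg_mem (T5b_mul _ r (hs' _ h0 _ ?_) (hck _ h3 _))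
    rw [hc]
    exact br_c_mem z w (a 1)
  have r3 : Ideal.Quotient.mk (Ann c I A hcl)
      ((X 3 - X 2) * X 1 ^ s * X 3 ^ (2 * k)) = 0 := by
    rw [mk_eq_zero]
    intro a ha
    have h0 : a 0 ∈ N := ha 0
    have h3 : a 3 ∈ N := ha 3
    have e : ((X 3 - X 2) * X 1 ^ s * X 3 ^ (2 * k) : MvPolynomial (Fin 5) K) =
        X 0 ^ 0 * X 1 ^ s * X 2 ^ 0 * X 3 ^ (2 * k + 1) * X 4 ^ 0 -
        X 0 ^ 0 * X 1 ^ s * X 2 ^ 1 * X 3 ^ (2 * k) * X 4 ^ 0 := by ring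
    rw [e, map_sub, T5b_vec a, sev_four_letters, sev_four_letters]
    have e2 : c ^ 0 * a 0 * c ^ s * a 1 * c ^ 0 * a 2 * c ^ (2 * k + 1) * a 3 * c ^ 0 -
        c ^ 0 * a 0 * c ^ s * a 1 * c ^ 1 * a 2 * c ^ (2 * k) * a 3 * c ^ 0 =
        -((a 0 * c ^ s * (a 1 * br c (a 2))) * (1 * (c ^ (2 * k) * a 3))) := by
      unfold br
      simp only [pow_zero, pow_one, pow_succ', one_mul, mul_one]
      noncomm_ring
    rw [e2, hI]
    refine neg_mem (T5b_mul _ r (hs' _ h0 _ (hDi.left _ _ ?_)) (hck _ h3 _))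
    rw [hc]
    exact br_c_mem z w (a 2)
  -- the polynomial
  set V : MvPolynomial (Fin 4) K := X 1 ^ (3 * (s + (2 * k + i) + j) - (2 * k + i)) *
      ((X 1 - X 0) * (X 1 - X 3)) ^ (3 * (s + (2 * k + i) + j)) * X 2 ^ (2 * k + i) with hV
  have hsub : 3 * (s + (2 * k + i) + j) - (2 * k + i) = 3 * s + 2 * (2 * k + i) + 3 * j := by
    omega
  have hren : rename ![(0 : Fin 5), 1, 3, 4] V = X 1 ^ (3 * s + 2 * (2 * k + i) + 3 * j) *
      ((X 1 - X 0) * (X 1 - X 4)) ^ (3 * (s + (2 * k + i) + j)) * X 3 ^ (2 * k + i) := by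
    rw [hV, hsub]
    simp [map_mul, map_pow, map_sub, rename_X]
  have hmk : Ideal.Quotient.mk (Ann c I A hcl)
      (rename ![(0 : Fin 5), 1, 3, 4] V - polU K (s + (2 * k + i) + j)) = 0 := by
    have hr := T5b_ring (Ideal.Quotient.mk (Ann c I A hcl) (X 0))
      (Ideal.Quotient.mk (Ann c I A hcl) (X 1)) (Ideal.Quotient.mk (Ann c I A hcl) (X 2))
      (Ideal.Quotient.mk (Ann c I A hcl) (X 3)) (Ideal.Quotient.mk (Ann c I A hcl) (X 4))
      s (2 * k) i j (by simpa only [map_mul, map_pow, map_sub] using r2)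
      (by simpa only [map_mul, map_pow, map_sub] using r3)
    rw [map_sub, sub_eq_zero, hren]
    unfold polU uu
    unfold uu at hr
    simp only [map_mul, map_pow, map_sub]
    exact hr.symm
  rw [mk_eq_zero] at hmk
  have hIE : ∀ x ∈ Aug K n, ∀ y ∈ Aug K n, sev c ![m, x * y, m'] V -
      sev c ![m, x, y, m'] (polU K (s + (2 * k + i) + j)) ∈ I := by
    intro x hx y hy
    have h1 := hmk ![m, x, y, m'] (by
      intro l
      fin_cases l
      · exact hm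
      · exact hx
      · exact hy
      · exact hm')
    rw [map_sub, sev_merge_mid] at h1
    exact h1
  have h1 := hIE x hx y hy
  have h2 := hIE y hy x hx
  have h3 : sev c ![m, x, y, m'] (polU K (s + (2 * k + i) + j)) -
      sev c ![m, y, x, m'] (polU K (s + (2 * k + i) + j)) ∈ I := by
    refine (le_sup_right : idn S n ≤ I) ?_
    exact er_idn H.E c x y m m' hcA hx hy (hNA hm) (hNA hm') _ (by omega)
  rw [sev_sub_mid]
  have h4 := add_mem (sub_mem h1 h2) h3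
  convert h4 using 1
  abel

end Pool.Agent.H.MP_f5ceca_al.BR
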