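import Pool.Agent.H.MP_f5ceca_al.BR.T5b

/-!
(T5), second part of the step.
-/

namespace Pool.Agent.H.MP_f5ceca_al.BR

open MvPolynomial Function
open Pool.Agent.H.MP_f5ceca_al.N

universe u v

variable {K : Type u} [Field K]

variable {S : Set (FreeAlgebra K ℕ)} {M k n : ℕ} {z w : FA K n} {N : Submodule K (FA K n)}

/-- The product of an element of `DD ^ r ⊔ T` and one of `DD ⊔ T`. -/
theorem T5c_mul_mem {r : ℕ} {x y : FA K n} (hx : x ∈ DD K z w ^ r ⊔ idn S n)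
    (hy : y ∈ DD K z w ⊔ idn S n) : x * y ∈ DD K z w ^ (r + 1) ⊔ idn S n := by
  obtain ⟨x₁, hx₁, x₂, hx₂, rfl⟩ := Submodule.mem_sup.1 hx
  obtain ⟨y₁, hy₁, y₂, hy₂, rfl⟩ := Submodule.mem_sup.1 hy
  have h : (x₁ + x₂) * (y₁ + y₂) = x₁ * y₁ + (x₁ * y₂ + x₂ * (y₁ + y₂)) := by noncomm_ring
  rw [h]
  refine Submodule.add_mem_sup ?_ ?_
  · rw [pow_succ]
    exact Submodule.mul_mem_mul hx₁ hy₁
  · exact (idn S n).add_mem (idn_left S n _ hy₂) (idn_right S n _ hx₂)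

/-- The calculation in the commutative quotient. -/
theorem T5c_ring {R : Type*} [CommRing R] (y E z2 z3 : R) (s t m : ℕ) (hm : s ≤ m)
    (h1 : y ^ m * E * z2 ^ t = 0) (h2 : (z3 - z2) * (y ^ s * z3 ^ t) = 0) :
    y ^ m * E * z3 ^ (2 * t) = 0 := by
  obtain ⟨q, hq⟩ := sub_dvd_pow_sub_pow z3 z2 t
  obtain ⟨d, rfl⟩ := Nat.exists_eq_add_of_le hm
  have h3 : y ^ (s + d) * E * z3 ^ (2 * t) =
      z3 ^ t * (y ^ (s + d) * E * z2 ^ t) +
        (z3 ^ t - z2 ^ t) * (y ^ s * z3 ^ t) * (y ^ d * E) := by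
    rw [two_mul, pow_add z3, pow_add y]
    ring
  rw [h3, h1, mul_zero, zero_add, hq]
  calc (z3 - z2) * q * (y ^ s * z3 ^ t) * (y ^ d * E)
      = (z3 - z2) * (y ^ s * z3 ^ t) * (q * (y ^ d * E)) := by ring
    _ = 0 := by rw [h2, zero_mul]

/-- The families of letters for the second part of the step. -/
theorem T5c_closed (H : T5Data S M k z w N) :
    Closed (cc z w) (![(N : Set (FA K n)), {ch z w}, (Aug K n : Set (FA K n)),
      (N : Set (FA K n))] : Fin 4 → Set (FA K n)) := by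
  intro j
  fin_cases j
  · exact Or.inl ⟨0, rfl, fun x hx => H.hN.left _ x hx⟩
  · exact Or.inr ⟨0, rfl, fun x hx => H.hN.right _ x hx⟩
  · exact Or.inl ⟨2, rfl, fun x hx => Aug_left _ hx⟩
  · exact Or.inl ⟨3, rfl, fun x hx => H.hN.left _ x hx⟩
  · exact Or.inr ⟨3, rfl, fun x hx => H.hN.right _ x hx⟩

/-- Letters given by their four values. -/
theorem T5c_eta {A : Type*} (a : Fin 4 → A) : a = ![a 0, a 1, a 2, a 3] := by
  funext i
  fin_cases i <;> rfl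

/-- Second part of the step: the relation for the letters `m, m'`.
PROOF. `c = [z, w] b'` with `b' = h k^2 ∈ Aug`, `h = [z, w]` (`cc`, `ch`). Let `I = DD ^ (r + 1) ⊔ T`, `t = 2 k`,
`A = ![N, {h}, Aug, N]` (`Closed`: the gaps 0, 1 are next to `N`, gap 2 is left of `Aug`, gaps 3, 4 are next to `N`). In
`Q = MvPolynomial (Fin 5) K ⧸ Ann c I A _`: (i) `z_1^(3M'-t) ((z_1-z_0)(z_1-z_4))^(3M') z_2^t = 0` by `rel1` with `m'` replaced by
`b' m' ∈ N` and `sev_merge_right`; (ii) (z_3 - z_2) z_1^s z_3^t = 0 as in `rel1` (`m c^s h (b' c - c b') c^t m'`). So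
`z_1^(3M'-t) ((z_1-z_0)(z_1-z_4))^(3M') z_3^(2t) = 0` (`3M' - t ≥ s`; replace `z_2^t z_3^t` by `z_3^(2t)`). By `sev_merge_mid` for the
letters (m, h, b', m'): the value of `X 1^(3M'-t) ((X 1 - X 0)(X 1 - X 3))^(3M') X 2^(2t)` on (m, c, m') is in `I`; `sev_absorb`. -/
theorem T5Data.rel2 (H : T5Data S M k z w N) (r s : ℕ)
    (hs : ∀ i, s ≤ i → ∀ m ∈ N, ∀ m' ∈ N, m * cc z w ^ i * m' ∈ DD K z w ^ r ⊔ idn S n)
    (M' : ℕ) (hM : s + 2 * k + M ≤ M') (m : FA K n) (hm : m ∈ N) (m' : FA K n) (hm' : m' ∈ N) :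
    sev (cc z w) ![m, m'] (X 1 ^ (3 * M' + 2 * k + 1) *
      ((X 1 - X 0) * (X 1 - X 2)) ^ (3 * M') : MvPolynomial (Fin 3) K) ∈
      DD K z w ^ (r + 1) ⊔ idn S n := by
  set c := cc z w with hc
  set I : Submodule K (FA K n) := DD K z w ^ (r + 1) ⊔ idn S n with hI
  have hcl := T5c_closed H
  rw [← hc] at hcl
  set A : Fin 4 → Set (FA K n) := ![(N : Set (FA K n)), {ch z w}, (Aug K n : Set (FA K n)),
      (N : Set (FA K n))] with hA
  -- (i)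
  have h1 : Ideal.Quotient.mk (Ann (K := K) c I A hcl)
      (X 1 ^ (3 * M' - 2 * k) * ((X 1 - X 0) * (X 1 - X 4)) ^ (3 * M') * X 2 ^ (2 * k)) = 0 := by
    rw [mk_eq_zero]
    intro a ha
    have ha0 : a 0 ∈ N := ha 0
    have ha1 : a 1 = ch z w := ha 1
    have ha3 : a 3 ∈ N := ha 3
    have h := H.rel1 r s hs (2 * k) le_rfl M' hM z w H.hz H.hw (a 0) ha0 (a 2 * a 3)
      (H.hN.left _ _ ha3)
    rw [← sev_merge_right] at h
    rw [T5c_eta a, ha1]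
    have h' : rename ![(0 : Fin 5), 1, 2, 4] (X 1 ^ (3 * M' - 2 * k) *
        ((X 1 - X 0) * (X 1 - X 3)) ^ (3 * M') * X 2 ^ (2 * k) : MvPolynomial (Fin 4) K) =
        X 1 ^ (3 * M' - 2 * k) * ((X 1 - X 0) * (X 1 - X 4)) ^ (3 * M') * X 2 ^ (2 * k) := by
      simp only [map_mul, map_pow, map_sub, rename_X]
      rfl
    rw [h'] at h
    exact h
  -- (ii)
  have h2 : Ideal.Quotient.mk (Ann (K := K) c I A hcl)
      ((X 3 - X 2) * (X 1 ^ s * X 3 ^ (2 * k))) = 0 := by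
    rw [mk_eq_zero]
    intro a ha
    have ha0 : a 0 ∈ N := ha 0
    have ha3 : a 3 ∈ N := ha 3
    rw [T5c_eta a]
    have e1 : ((X 3 - X 2) * (X 1 ^ s * X 3 ^ (2 * k)) : MvPolynomial (Fin 5) K) =
        X 0 ^ 0 * X 1 ^ s * X 2 ^ 0 * X 3 ^ (2 * k + 1) * X 4 ^ 0 -
          X 0 ^ 0 * X 1 ^ s * X 2 ^ 1 * X 3 ^ (2 * k) * X 4 ^ 0 := by
      rw [pow_succ]
      ring
    rw [e1, map_sub, sev_four_letters, sev_four_letters]
    have e2 : c ^ 0 * a 0 * c ^ s * a 1 * c ^ 0 * a 2 * c ^ (2 * k + 1) * a 3 * c ^ 0 -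
        c ^ 0 * a 0 * c ^ s * a 1 * c ^ 1 * a 2 * c ^ (2 * k) * a 3 * c ^ 0 =
        -((a 0 * c ^ s * (a 1 * br c (a 2))) * (c ^ (2 * k) * a 3)) := by
      rw [pow_succ' c (2 * k), pow_zero, pow_one, br]
      noncomm_ring
    rw [e2]
    refine I.neg_mem (T5c_mul_mem ?_ ?_)
    · refine hs s le_rfl _ ha0 _ (H.hN.left _ _ (H.hDN (br_c_mem z w _)))
    · exact H.left _ le_rfl _ ha3
  -- conclusion in the quotient
  have h3 : Ideal.Quotient.mk (Ann (K := K) c I A hcl)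
      (X 1 ^ (3 * M' - 2 * k) * ((X 1 - X 0) * (X 1 - X 4)) ^ (3 * M') *
        X 3 ^ (2 * (2 * k))) = 0 := by
    simp only [map_mul, map_pow] at h1 h2 ⊢
    simp only [map_sub] at h1 h2 ⊢
    exact T5c_ring _ _ _ _ s (2 * k) _ (by omega) h1 h2
  rw [mk_eq_zero] at h3
  have hb' : ch z w * ck z w ^ 2 ∈ Aug K n := by
    have hh : ch z w ∈ Aug K n := by
      rw [ch, br]
      exact (Aug K n).sub_mem (Aug_right _ H.hz) (Aug_left _ H.hz)
    exact Aug_right _ hh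
  have h4 := h3 ![m, ch z w, ch z w * ck z w ^ 2, m'] (by
    intro i
    fin_cases i
    · exact hm
    · exact rfl
    · exact hb'
    · exact hm')
  have h5 : rename ![(0 : Fin 5), 1, 3, 4] (X 1 ^ (3 * M' - 2 * k) *
      ((X 1 - X 0) * (X 1 - X 3)) ^ (3 * M') * X 2 ^ (2 * (2 * k)) : MvPolynomial (Fin 4) K) =
      X 1 ^ (3 * M' - 2 * k) * ((X 1 - X 0) * (X 1 - X 4)) ^ (3 * M') * X 3 ^ (2 * (2 * k)) := by
    simp only [map_mul, map_pow, map_sub, rename_X]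
    rfl
  rw [← h5, sev_merge_mid] at h4
  have h6 : ch z w * (ch z w * ck z w ^ 2) = c := by
    rw [hc, cc, ← mul_assoc, ← pow_two]
  rw [h6, sev_absorb] at h4
  have h7 : (aeval (R := K) ![(X 0 : MvPolynomial (Fin 3) K), X 1, X 1, X 2]
      (X 1 ^ (3 * M' - 2 * k) * ((X 1 - X 0) * (X 1 - X 3)) ^ (3 * M') *
        X 2 ^ (2 * (2 * k)) : MvPolynomial (Fin 4) K) * X 1 : MvPolynomial (Fin 3) K) =
      X 1 ^ (3 * M' + 2 * k + 1) * ((X 1 - X 0) * (X 1 - X 2)) ^ (3 * M') := by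
    simp only [map_mul, map_pow, map_sub, aeval_X]
    have e3 : 3 * M' + 2 * k + 1 = (3 * M' - 2 * k) + 2 * (2 * k) + 1 := by omega
    rw [e3]
    simp only [Matrix.cons_val]
    ring
  rw [h7] at h4
  exact h4

end Pool.Agent.H.MP_f5ceca_al.BR
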