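import Pool.Agent.H.MP_f5ceca_al.BR.T5c

/-!
(T5), the step and the result.
-/

namespace Pool.Agent.H.MP_f5ceca_al.BR

open MvPolynomial Function
open Pool.Agent.H.MP_f5ceca_al.N

universe u v

variable {K : Type u} [Field K]

variable {S : Set (FreeAlgebra K ℕ)} {M k n : ℕ} {z w : FA K n} {N : Submodule K (FA K n)}

/-- `T` absorbs products on the right of `DD ^ L`. -/
theorem T5d_pow_le {B : Type v} [Ring B] [Algebra K B] {D T : Submodule K B}
    (hT : ∀ a : B, ∀ x ∈ T, x * a ∈ T) {L : ℕ} (h : D ^ L ≤ T) (j : ℕ) : D ^ (L + j) ≤ T := by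
  rw [pow_add]
  refine Submodule.mul_le.mpr fun x hx y _ => hT y x (h hx)

/-- The left relation of the step. -/
theorem T5d_left (H : T5Data S M k z w N) (r s : ℕ)
    (hs : ∀ i, s ≤ i → ∀ m ∈ N, ∀ m' ∈ N, m * cc z w ^ i * m' ∈ DD K z w ^ r ⊔ idn S n)
    (m : FA K n) (hm : m ∈ N) (m' : FA K n) (hm' : m' ∈ N) :
    cc z w ^ k * m * cc z w ^ (s + k) * m' ∈ DD K z w ^ (r + 1) ⊔ idn S n := by
  have h1 : cc z w ^ k * m * cc z w ^ (s + k) * m' =
      (cc z w ^ k * m * cc z w ^ k) * (cc z w ^ s * m') := by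
    rw [add_comm s k, pow_add]; simp only [mul_assoc]
  rw [h1]
  have key : ∀ y ∈ DD K z w * DD K z w,
      y * (cc z w ^ s * m') ∈ DD K z w ^ (r + 1) ⊔ idn S n := by
    intro y hy
    refine Submodule.mul_induction_on hy (fun d hd d' hd' => ?_) (fun x y hx hy => ?_)
    · rw [mul_assoc, ← mul_assoc d']
      obtain ⟨y2, hy2, t2, ht2, hyt2⟩ :=
        Submodule.mem_sup.mp (hs s le_rfl d' (H.hDN hd') m' hm')
      rw [← hyt2, mul_add]
      refine add_mem (Submodule.mem_sup_left ?_) (Submodule.mem_sup_right (idn_left S n _ ht2))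
      rw [pow_succ']
      exact Submodule.mul_mem_mul hd hy2
    · rw [add_mul]
      exact add_mem hx hy
  obtain ⟨y, hy, t, ht, hyt⟩ := Submodule.mem_sup.mp (H.hk m hm)
  rw [← hyt, add_mul]
  exact add_mem (key y hy) (Submodule.mem_sup_right (idn_right S n _ ht))

/-- The right relation of the step. -/
theorem T5d_right (H : T5Data S M k z w N) (r s : ℕ)
    (hs : ∀ i, s ≤ i → ∀ m ∈ N, ∀ m' ∈ N, m * cc z w ^ i * m' ∈ DD K z w ^ r ⊔ idn S n)
    (m : FA K n) (hm : m ∈ N) (m' : FA K n) (hm' : m' ∈ N) :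
    m * cc z w ^ (s + k) * m' * cc z w ^ k ∈ DD K z w ^ (r + 1) ⊔ idn S n := by
  have h1 : m * cc z w ^ (s + k) * m' * cc z w ^ k =
      (m * cc z w ^ s) * (cc z w ^ k * m' * cc z w ^ k) := by
    rw [pow_add]; simp only [mul_assoc]
  rw [h1]
  have key : ∀ y ∈ DD K z w * DD K z w,
      (m * cc z w ^ s) * y ∈ DD K z w ^ (r + 1) ⊔ idn S n := by
    intro y hy
    refine Submodule.mul_induction_on hy (fun d hd d' hd' => ?_) (fun x y hx hy => ?_)
    · rw [← mul_assoc]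
      obtain ⟨y2, hy2, t2, ht2, hyt2⟩ :=
        Submodule.mem_sup.mp (hs s le_rfl m hm d (H.hDN hd))
      rw [← hyt2, add_mul]
      refine add_mem (Submodule.mem_sup_left ?_) (Submodule.mem_sup_right (idn_right S n _ ht2))
      rw [pow_succ]
      exact Submodule.mul_mem_mul hy2 hd'
    · rw [mul_add]
      exact add_mem hx hy
  obtain ⟨y, hy, t, ht, hyt⟩ := Submodule.mem_sup.mp (H.hk m' hm')
  rw [← hyt, mul_add]
  exact add_mem (key y hy) (Submodule.mem_sup_right (idn_left S n _ ht))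

/-- The step.
PROOF. `I = DD ^ (r + 1) ⊔ T`. For `i ≥ s + k`: `c^k m c^i m' = (c^k m c^k) c^(i - k) m'` and `c^k m c^k ∈ DD * DD ⊔ T`,
`DD * (DD c^(i-k) m') ≤ DD * (N c^(i-k) N) ≤ DD * (DD^r ⊔ T) ≤ I`; mirror image for `m c^i m' c^k`. So in
`Q = MvPolynomial (Fin 3) K ⧸ Ann c I ![N, N] _`: `z_0^k z_1^(s+k) = 0`, `z_2^k z_1^(s+k) = 0` (`sev_two_letters`), and
`z_1^e ((z_1 - z_0)(z_1 - z_2))^(3M') = 0`, `e = 3M' + 2k + 1`, `M' = s + 2 k + M` by `rel2`. `ring_t5`. -/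
theorem T5Data.step (H : T5Data S M k z w N) (r s : ℕ)
    (hs : ∀ i, s ≤ i → ∀ m ∈ N, ∀ m' ∈ N, m * cc z w ^ i * m' ∈ DD K z w ^ r ⊔ idn S n) (i : ℕ)
    (hi : 100 * (s + k + M + 1) ≤ i) (m : FA K n) (hm : m ∈ N) (m' : FA K n) (hm' : m' ∈ N) :
    m * cc z w ^ i * m' ∈ DD K z w ^ (r + 1) ⊔ idn S n := by
  have hcl : Closed (cc z w) (fun _ : Fin 2 => (N : Set (FA K n))) :=
    closed_of (fun _ x hx => H.hN.left _ x hx) (fun _ x hx => H.hN.right _ x hx)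
  have hvec : ∀ a : Fin 2 → FA K n, a = ![a 0, a 1] := by
    intro a
    funext j
    fin_cases j <;> rfl
  have h0 : Ideal.Quotient.mk (Ann (cc z w) (DD K z w ^ (r + 1) ⊔ idn S n) _ hcl) (X 0) ^ k *
      Ideal.Quotient.mk (Ann (cc z w) (DD K z w ^ (r + 1) ⊔ idn S n) _ hcl) (X 1) ^ (s + k) =
      0 := by
    rw [← map_pow, ← map_pow, ← map_mul, mk_eq_zero]
    intro a ha
    rw [hvec a]
    have h := sev_two_letters (K := K) (cc z w) (a 0) (a 1) k (s + k) 0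
    rw [pow_zero, mul_one, pow_zero, mul_one] at h
    rw [h]
    exact T5d_left H r s hs (a 0) (ha 0) (a 1) (ha 1)
  have h2 : Ideal.Quotient.mk (Ann (cc z w) (DD K z w ^ (r + 1) ⊔ idn S n) _ hcl) (X 2) ^ k *
      Ideal.Quotient.mk (Ann (cc z w) (DD K z w ^ (r + 1) ⊔ idn S n) _ hcl) (X 1) ^ (s + k) =
      0 := by
    rw [mul_comm, ← map_pow, ← map_pow, ← map_mul, mk_eq_zero]
    intro a ha
    rw [hvec a]
    have h := sev_two_letters (K := K) (cc z w) (a 0) (a 1) 0 (s + k) k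
    rw [pow_zero, one_mul, pow_zero, one_mul] at h
    rw [h]
    exact T5d_right H r s hs (a 0) (ha 0) (a 1) (ha 1)
  have h3 : Ideal.Quotient.mk (Ann (cc z w) (DD K z w ^ (r + 1) ⊔ idn S n) _ hcl) (X 1) ^
      (3 * (s + 2 * k + M) + 2 * k + 1) *
      ((Ideal.Quotient.mk (Ann (cc z w) (DD K z w ^ (r + 1) ⊔ idn S n) _ hcl) (X 1) -
        Ideal.Quotient.mk (Ann (cc z w) (DD K z w ^ (r + 1) ⊔ idn S n) _ hcl) (X 0)) *
      (Ideal.Quotient.mk (Ann (cc z w) (DD K z w ^ (r + 1) ⊔ idn S n) _ hcl) (X 1) -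
        Ideal.Quotient.mk (Ann (cc z w) (DD K z w ^ (r + 1) ⊔ idn S n) _ hcl) (X 2))) ^
      (3 * (s + 2 * k + M)) = 0 := by
    rw [← map_sub, ← map_sub, ← map_mul, ← map_pow, ← map_pow, ← map_mul, mk_eq_zero]
    intro a ha
    rw [hvec a]
    exact H.rel2 r s hs (s + 2 * k + M) le_rfl (a 0) (ha 0) (a 1) (ha 1)
  have h4 := ring_t5 _ _ _ k (s + k) _ _ h0 h2 h3
  have h5 : Ideal.Quotient.mk (Ann (cc z w) (DD K z w ^ (r + 1) ⊔ idn S n) _ hcl) (X 1) ^ i =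
      0 := pow_eq_zero_of_le (by omega) h4
  rw [← map_pow, mk_eq_zero] at h5
  have h6 := h5 ![m, m'] (fun j => by fin_cases j <;> assumption)
  have h7 := sev_two_letters (K := K) (cc z w) m m' 0 i 0
  rw [pow_zero, one_mul, pow_zero, mul_one, pow_zero, one_mul, mul_one] at h7
  rwa [h7] at h6

/-- All levels. -/
theorem T5d_levels (M k : ℕ) : ∀ r : ℕ, ∃ a : ℕ, ∀ {K : Type u} [Field K]
    {S : Set (FreeAlgebra K ℕ)} {n : ℕ} {z w : FA K n} {N : Submodule K (FA K n)},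
    T5Data S M k z w N → ∀ i, a ≤ i → ∀ m ∈ N, ∀ m' ∈ N,
      m * cc z w ^ i * m' ∈ DD K z w ^ (r + 2) ⊔ idn S n := by
  intro r
  induction r with
  | zero => exact ⟨4 * k, fun H i hi m hm m' hm' => H.start i hi m hm m' hm'⟩
  | succ r ih =>
    obtain ⟨a, ha⟩ := ih
    exact ⟨100 * (a + k + M + 1), fun H i hi m hm m' hm' =>
      H.step (r + 2) a (fun i hi m hm m' hm' => ha H i hi m hm m' hm') i hi m hm m' hm'⟩

/-- (T5). PROOF. Induction on `L` with `start` and `step`. -/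
theorem t5 (M k L : ℕ) : ∃ a : ℕ, ∀ {K : Type u} [Field K] {S : Set (FreeAlgebra K ℕ)} {n : ℕ}
    {z w : FA K n} {N : Submodule K (FA K n)}, T5Data S M k z w N → DD K z w ^ L ≤ idn S n →
    ∀ m ∈ N, ∀ m' ∈ N, m * cc z w ^ a * m' ∈ idn S n := by
  obtain ⟨a, ha⟩ := T5d_levels.{u} M k L
  refine ⟨a, fun {K} _ {S n z w N} H hL m hm m' hm' => ?_⟩
  have h1 := ha H a le_rfl m hm m' hm'
  rwa [sup_eq_right.mpr (T5d_pow_le (fun b x hx => idn_right S n b hx) hL 2)] at h1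

end Pool.Agent.H.MP_f5ceca_al.BR
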