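import Pool.Agent.H.MP_f5ceca_al.BR.T1c
import Pool.Agent.H.MP_f5ceca_al.BR.T4b
import Pool.Agent.H.MP_f5ceca_al.BR.T5d

/-!
(T6) `M C^t M ≤ T_n(V)` for the ideal `M` generated by the values of finitely many identities of `M_2(K)`.
-/

namespace Pool.Agent.H.MP_f5ceca_al.BR

open MvPolynomial Function
open Pool.Agent.H.MP_f5ceca_al.N

universe u v

variable {K : Type u} [Field K]

/-- An ideal containing all values of the identities `S'` contains `idn S' n`.
PROOF. `0 ∈ W`. Let `π : FA K n → B` be the quotient (`exists_quotient`), `A` the nonunital subalgebra `π(Aug)` of `B` (a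
`NonUnitalSubalgebra`, or the subtype of `(Aug K n).map π`). `A` satisfies `S'`: `f ∈ S'`, `v : ℕ → A`, `v i = π (g i)`; the value of `f`
in `Unitization K A` has constant term zero (`f` has no constant term if ... see below) and its image in `B` under
`Unitization.lift A.subtype` is `π (lift g f) = 0`. If some `f ∈ S'` has constant term `≠ 0` then (take `v = 0`) `W ∋ lift 0 f` is a
nonzero constant, so `W = ⊤`. For `f ∈ idn S' n` apply `IsIdentity f A` to `w j = π (xx j)` and map to `B`: `π f = 0`. -/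
theorem idn_le {S' : Set (FreeAlgebra K ℕ)} {n : ℕ} {W : Submodule K (FA K n)} (hW : IsIdl W)
    (h : ∀ f ∈ S', ∀ g : ℕ → FA K n, (∀ i, g i ∈ Aug K n) → FreeAlgebra.lift K g f ∈ W) :
    idn S' n ≤ W := by
  classical
  by_cases hc : ∀ f ∈ S', FreeAlgebra.algebraMapInv f = (0 : K)
  swap
  · push Not at hc
    obtain ⟨f, hf, hf0⟩ := hc
    have h1 := h f hf (fun _ => 0) (fun _ => zero_mem _)
    have h2 : FreeAlgebra.lift K (fun _ : ℕ => (0 : FA K n)) f =
        algebraMap K (FA K n) (FreeAlgebra.algebraMapInv f) := by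
      have h3 : FreeAlgebra.lift K (fun _ : ℕ => (0 : FA K n)) =
          (Algebra.ofId K (FA K n)).comp FreeAlgebra.algebraMapInv := by
        apply FreeAlgebra.hom_ext
        funext i
        simp [FreeAlgebra.algebraMapInv]
      exact DFunLike.congr_fun h3 f
    rw [h2] at h1
    have h4 : (1 : FA K n) ∈ W := by
      have h5 := W.smul_mem (FreeAlgebra.algebraMapInv f)⁻¹ h1
      rwa [Algebra.algebraMap_eq_smul_one, smul_smul, inv_mul_cancel₀ hf0, one_smul] at h5
    intro x _
    have h6 := hW.left x 1 h4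
    rwa [mul_one] at h6
  obtain ⟨B, _, _, π, hπ, hker⟩ := exists_quotient W hW.left hW.right
  let A : NonUnitalSubalgebra K B := Submodule.toNonUnitalSubalgebra
    ((Aug K n).map π.toLinearMap) (by
      rintro _ _ ⟨x, hx, rfl⟩ ⟨y, hy, rfl⟩
      exact ⟨x * y, Aug_left x hy, map_mul π x y⟩)
  have hA : ∀ x, x ∈ Aug K n → π x ∈ A := fun x hx => ⟨x, hx, rfl⟩
  have hA' : ∀ a : A, ∃ x ∈ Aug K n, π x = a := fun a => a.2
  let ι : Unitization K A →ₐ[K] B := Unitization.lift (NonUnitalSubalgebraClass.subtype A)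
  have hι : ∀ a : A, ι (a : Unitization K A) = (a : B) := fun a =>
    DFunLike.congr_fun (Unitization.lift.symm_apply_apply (NonUnitalSubalgebraClass.subtype A)) a
  have hval : ∀ {X : Type} (v : X → A) (f : FreeAlgebra K X),
      ι (FreeAlgebra.lift K (fun i => ((v i : A) : Unitization K A)) f) =
        FreeAlgebra.lift K (fun i => (v i : B)) f := by
    intro X v f
    have h1 : ι.comp (FreeAlgebra.lift K (fun i => ((v i : A) : Unitization K A))) =
        FreeAlgebra.lift K (fun i => (v i : B)) := by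
      apply FreeAlgebra.hom_ext
      funext i
      simp only [Function.comp_apply, AlgHom.comp_apply, FreeAlgebra.lift_ι_apply]
      exact hι (v i)
    exact DFunLike.congr_fun h1 f
  have hsat : Satisfies S' A := by
    intro f hf v
    have h1 : (FreeAlgebra.lift K (fun i => ((v i : A) : Unitization K A)) f).fst = 0 := by
      have h2 : (Unitization.fstHom K A).comp
          (FreeAlgebra.lift K (fun i => ((v i : A) : Unitization K A))) =
          FreeAlgebra.algebraMapInv := by
        apply FreeAlgebra.hom_ext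
        funext i
        simp [FreeAlgebra.algebraMapInv]
      have h3 := DFunLike.congr_fun h2 f
      rw [hc f hf] at h3
      exact h3
    have h4 : FreeAlgebra.lift K (fun i => ((v i : A) : Unitization K A)) f =
        (((FreeAlgebra.lift K (fun i => ((v i : A) : Unitization K A)) f).snd : A) :
          Unitization K A) := by
      apply Unitization.ext
      · rw [h1, Unitization.fst_inr]
      · rw [Unitization.snd_inr]
    choose g hg1 hg2 using fun i => hA' (v i)
    have h5 : FreeAlgebra.lift K (fun i => (v i : B)) f = 0 := by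
      have h6 : FreeAlgebra.lift K (fun i => (v i : B)) = π.comp (FreeAlgebra.lift K g) := by
        apply FreeAlgebra.hom_ext
        funext i
        simp only [Function.comp_apply, AlgHom.comp_apply, FreeAlgebra.lift_ι_apply]
        exact (hg2 i).symm
      rw [h6, AlgHom.comp_apply, hker]
      exact h f hf g hg1
    have h7 := hval v f
    rw [h5, h4, hι] at h7
    have h8 : (FreeAlgebra.lift K (fun i => ((v i : A) : Unitization K A)) f).snd = 0 :=
      Subtype.ext h7
    rw [h4, h8, Unitization.inr_zero]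
  intro z hz
  have h1 := hz A hsat fun j => ⟨π (xx K j), hA _ (xx_mem_Aug K j)⟩
  have h2 := hval (fun j => (⟨π (xx K j), hA _ (xx_mem_Aug K j)⟩ : A)) z
  rw [h1, map_zero] at h2
  have h3 : FreeAlgebra.lift K (fun j : Fin n => π (xx K j)) = π := by
    apply FreeAlgebra.hom_ext
    funext i
    simp only [Function.comp_apply, FreeAlgebra.lift_ι_apply]
    rfl
  rw [← hker, ← h3]
  exact h2.symm

theorem T6a_val {d : ℕ} {g : FA K d} (hg : g ∈ J2 K (Fin d)) {n : ℕ} (v : Fin d → FA K n)
    (hv : ∀ j, v j ∈ Aug K n) : FreeAlgebra.lift K v g ∈ Aug K n := by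
  rw [Basic_mem_Aug]
  have h1 : FreeAlgebra.algebraMapInv (FreeAlgebra.lift K v g) =
      FreeAlgebra.lift K (fun _ : Fin d => (0 : K)) g := by
    have h2 : (FreeAlgebra.algebraMapInv : FA K n →ₐ[K] K).comp (FreeAlgebra.lift K v) =
        FreeAlgebra.lift K (fun _ : Fin d => (0 : K)) := by
      apply FreeAlgebra.hom_ext
      funext i
      simp only [Function.comp_apply, AlgHom.comp_apply, FreeAlgebra.lift_ι_apply]
      exact Basic_mem_Aug.1 (hv i)
    exact DFunLike.congr_fun h2 g
  rw [h1]
  have h3 : algebraMap K (Matrix (Fin 2) (Fin 2) K)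
      (FreeAlgebra.lift K (fun _ : Fin d => (0 : K)) g) = 0 := by
    have h4 : (Algebra.ofId K (Matrix (Fin 2) (Fin 2) K)).comp
        (FreeAlgebra.lift K (fun _ : Fin d => (0 : K))) =
        FreeAlgebra.lift K (fun _ : Fin d => (0 : Matrix (Fin 2) (Fin 2) K)) := by
      apply FreeAlgebra.hom_ext
      funext i
      simp
    have h5 := DFunLike.congr_fun h4 g
    rw [hg fun _ => 0] at h5
    exact h5
  exact (FaithfulSMul.algebraMap_injective K (Matrix (Fin 2) (Fin 2) K)) (by rw [h3, map_zero])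

/-- Values of identities of `M_2(K)` have no constant term. PROOF. `v = 0` (zero matrices) shows `algebraMapInv g = 0`; `Aug` is
an ideal. -/
theorem MH_le_Aug {d : ℕ} {H : Set (FA K d)} (hH : ∀ g ∈ H, g ∈ J2 K (Fin d)) (n : ℕ) :
    MH H n ≤ Aug K n := by
  unfold MH
  rw [Submodule.span_le]
  rintro _ ⟨g, hg, v, hv, a, b, rfl⟩
  exact Aug_right b (Aug_left a (T6a_val (hH g hg) v hv))

theorem T6a_br_scalar {B : Type v} [Ring B] [Algebra K B] (u : B) (r : K) (x : B) :
    br u x = br u (x - algebraMap K B r) := by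
  unfold br
  rw [mul_sub, sub_mul, Algebra.commutes r u]
  abel

theorem T6a_lift {n : ℕ} (z w x : FA K n) :
    FreeAlgebra.lift K ![z, w, x] (br (ch (xx K (0 : Fin 3)) (xx K 1) ^ 2) (xx K 2)) =
      br (ch z w ^ 2) x ∧
    FreeAlgebra.lift K ![z, w, x] (br (ck (xx K (0 : Fin 3)) (xx K 1) ^ 2) (xx K 2)) =
      br (ck z w ^ 2) x := by
  have h0 : FreeAlgebra.lift K ![z, w, x] (xx K (0 : Fin 3)) = z := FreeAlgebra.lift_ι_apply _ _
  have h1 : FreeAlgebra.lift K ![z, w, x] (xx K (1 : Fin 3)) = w := FreeAlgebra.lift_ι_apply _ _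
  have h2 : FreeAlgebra.lift K ![z, w, x] (xx K (2 : Fin 3)) = x := FreeAlgebra.lift_ι_apply _ _
  constructor
  · simp only [br, ch, map_sub, map_mul, map_pow, h0, h1, h2]
  · simp only [br, ch, ck, map_sub, map_mul, map_pow, h0, h1, h2]

/-- PROOF. `br (h^2) x` for `x = r + x'`, `x' ∈ Aug`, is a value of the identity `h2_mem_J2` (`br u r = 0`). -/
theorem DD_le_MH {n : ℕ} (z w : FA K n) (hz : z ∈ Aug K n) (hw : w ∈ Aug K n) :
    DD K z w ≤ MH {br (ch (xx K (0 : Fin 3)) (xx K 1) ^ 2) (xx K 2),
      br (ck (xx K (0 : Fin 3)) (xx K 1) ^ 2) (xx K 2)} n := by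
  unfold DD MH
  rw [Submodule.span_le]
  rintro y ⟨a, x, b, hy⟩
  have hx : x - algebraMap K (FA K n) (FreeAlgebra.algebraMapInv x) ∈ Aug K n := by
    rw [Basic_mem_Aug, map_sub, FreeAlgebra.algebraMap_leftInverse, sub_self]
  have hv : ∀ j : Fin 3, (![z, w, x - algebraMap K (FA K n) (FreeAlgebra.algebraMapInv x)]
      : Fin 3 → FA K n) j ∈ Aug K n := by
    intro j
    fin_cases j
    · exact hz
    · exact hw
    · exact hx
  refine Submodule.subset_span ?_
  rcases hy with rfl | rfl
  · refine ⟨_, Set.mem_insert _ _, _, hv, a, b, ?_⟩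
    rw [(T6a_lift _ _ _).1, ← T6a_br_scalar]
  · refine ⟨_, Set.mem_insert_of_mem _ (Set.mem_singleton _), _, hv, a, b, ?_⟩
    rw [(T6a_lift _ _ _).2, ← T6a_br_scalar]

end Pool.Agent.H.MP_f5ceca_al.BR
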