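import Pool.Agent.H.MP_f5ceca_al.BR.TSys

/-!
Trace systems: the traces of all words are polynomials in finitely many of them.
-/

namespace Pool.Agent.H.MP_f5ceca_al.BR

open MvPolynomial Function
open Pool.Agent.H.MP_f5ceca_al.N

universe u v

namespace TSys

variable {K : Type u} [Field K] [CharZero K] {n : ℕ} {V : Type v} [AddCommGroup V] [Module K V]
  {D R : FA K n →ₗ[K] Module.End K V} {g : V}

/-- Linearization of `Dch`. PROOF. `Dch` for `a + c`, minus `Dch` for `a`, minus `Dch` for `c` (`D a`, `D c` commute, `Dcyc`). -/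
theorem Dch_lin (T : TSys K n D R g) (a b c : FA K n) (ha : a ∈ Aug K n) (hb : b ∈ Aug K n)
    (hc : c ∈ Aug K n) : D ((a * c + c * a) * b) =
      D a * D (c * b) + D c * D (a * b) - (D a * D c - D (a * c)) * D b := by
  have h1 := T.Dch (a + c) (add_mem ha hc) b hb
  have h2 := T.Dch a ha b hb
  have h3 := T.Dch c hc b hb
  have h4 := T.Dcyc c hc a ha
  have h5 := T.comm c a
  have e1 : (a + c) * (a + c) = a * a + c * c + (a * c + c * a) := by noncomm_ring
  have e2 : D ((a + c) * (a + c)) = D (a * a) + D (c * c) + (2 : K) • D (a * c) := by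
    rw [e1, map_add, map_add, map_add, h4, two_smul]
  have e3 : D ((a + c) * (a + c) * b) =
      D (a * a * b) + D (c * c * b) + D ((a * c + c * a) * b) := by
    rw [e1, add_mul, add_mul, map_add, map_add]
  have e4 : (D a + D c) * (D a + D c) = D a * D a + D c * D c + (2 : K) • (D a * D c) := by
    have : (D a + D c) * (D a + D c) = D a * D a + D c * D c + (D a * D c + D c * D a) := by
      noncomm_ring
    rw [this, h5, two_smul]
  rw [e3, e2, map_add, e4, add_mul a c b, map_add] at h1
  obtain ⟨P, hP⟩ : ∃ P, P = D ((a * c + c * a) * b) := ⟨_, rfl⟩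
  rw [← hP] at h1 ⊢
  have e5 : (D a + D c) * (D (a * b) + D (c * b)) = D a * D (a * b) + D c * D (c * b) +
      (D a * D (c * b) + D c * D (a * b)) := by noncomm_ring
  have h22 : (2⁻¹ : K) * 2 = 1 := inv_mul_cancel₀ two_ne_zero
  have e6 : (2⁻¹ : K) • ((D a * D a + D c * D c + (2 : K) • (D a * D c) -
      (D (a * a) + D (c * c) + (2 : K) • D (a * c))) * D b) =
      (2⁻¹ : K) • ((D a * D a - D (a * a)) * D b) + (2⁻¹ : K) • ((D c * D c - D (c * c)) * D b) +
        (D a * D c - D (a * c)) * D b := by
    have e7 : D a * D a + D c * D c + (2 : K) • (D a * D c) -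
        (D (a * a) + D (c * c) + (2 : K) • D (a * c)) =
        (D a * D a - D (a * a)) + (D c * D c - D (c * c)) + (2 : K) • (D a * D c - D (a * c)) := by
      rw [smul_sub]
      abel
    rw [e7, add_mul, add_mul, smul_add, smul_add, smul_mul_assoc, smul_smul, h22, one_smul]
  rw [e5, e6] at h1
  have h6 : P = D a * D (c * b) + D c * D (a * b) - (D a * D c - D (a * c)) * D b +
      ((D (a * a * b) + D (c * c * b) + P -
        (D a * D (a * b) + D c * D (c * b) + (D a * D (c * b) + D c * D (a * b))) +
        ((2⁻¹ : K) • ((D a * D a - D (a * a)) * D b) +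
          (2⁻¹ : K) • ((D c * D c - D (c * c)) * D b) + (D a * D c - D (a * c)) * D b)) -
      (D (a * a * b) - D a * D (a * b) + (2⁻¹ : K) • ((D a * D a - D (a * a)) * D b)) -
      (D (c * c * b) - D c * D (c * b) + (2⁻¹ : K) • ((D c * D c - D (c * c)) * D b))) := by
    abel
  rw [h1, h2, h3, sub_zero, sub_zero, add_zero] at h6
  exact h6

theorem TSys2_nil : mon K ([] : List (Fin n)) = 1 := rfl

theorem TSys2_cons (i : Fin n) (l : List (Fin n)) : mon K (i :: l) = xx K i * mon K l := rfl

theorem TSys2_append (l l' : List (Fin n)) : mon K (l ++ l') = mon K l * mon K l' := by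
  unfold mon
  rw [List.map_append, List.prod_append]

theorem TSys2_mem (l : List (Fin n)) (hl : l ≠ []) : mon K l ∈ Aug K n := by
  obtain ⟨i, t, rfl⟩ := List.exists_cons_of_ne_nil hl
  rw [TSys2_cons]
  exact Aug_right _ (xx_mem_Aug K i)

/-- Rotation of a word. -/
theorem TSys2_rot (T : TSys K n D R g) (l l' : List (Fin n)) :
    D (mon K (l ++ l')) = D (mon K (l' ++ l)) := by
  by_cases h : l = []
  · rw [h, List.nil_append, List.append_nil]
  by_cases h' : l' = []
  · rw [h', List.nil_append, List.append_nil]
  rw [TSys2_append, TSys2_append]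
  exact T.Dcyc _ (TSys2_mem l h) _ (TSys2_mem l' h')

theorem TSys2_two (T : TSys K n D R g) (i j : Fin n) :
    D (xx K i * xx K j) ∈ Algebra.adjoin K (gens D) := by
  have key : ∀ i j : Fin n, i < j → D (xx K i * xx K j) ∈ Algebra.adjoin K (gens D) := by
    intro i j hij
    refine Algebra.subset_adjoin (Or.inl ⟨[i, j], ?_, ?_⟩)
    · exact (List.sortedLT_iff_pairwise.2 (by simpa using hij))
    · rw [TSys2_cons, TSys2_cons, TSys2_nil, mul_one]
  rcases lt_trichotomy i j with h | h | h
  · exact key i j h
  · subst h
    exact Algebra.subset_adjoin (Or.inr ⟨i, rfl⟩)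
  · rw [T.Dcyc _ (xx_mem_Aug K i) _ (xx_mem_Aug K j)]
    exact key j i h

/-- Exchange of two neighbours. -/
theorem TSys2_swap (T : TSys K n D R g) (L : ℕ)
    (ih : ∀ l : List (Fin n), l ≠ [] → l.length < L → D (mon K l) ∈ Algebra.adjoin K (gens D))
    (u v : List (Fin n)) (i j : Fin n) (huv : v ++ u ≠ []) (hL : u.length + v.length + 2 = L)
    (h : D (mon K (u ++ i :: j :: v)) ∈ Algebra.adjoin K (gens D)) :
    D (mon K (u ++ j :: i :: v)) ∈ Algebra.adjoin K (gens D) := by
  obtain ⟨b, hb⟩ : ∃ b, b = mon K (v ++ u) := ⟨_, rfl⟩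
  have e : ∀ i j : Fin n, D (mon K (u ++ i :: j :: v)) = D (xx K i * xx K j * b) := by
    intro i j
    rw [TSys2_rot T, List.cons_append, List.cons_append, TSys2_cons, TSys2_cons, hb, mul_assoc]
  rw [e] at h ⊢
  have hbA : b ∈ Aug K n := by
    rw [hb]
    exact TSys2_mem _ huv
  have h1 := T.Dch_lin (xx K i) b (xx K j) (xx_mem_Aug K i) hbA (xx_mem_Aug K j)
  rw [add_mul, map_add] at h1
  have h2 : D (xx K j * xx K i * b) = D (xx K i) * D (xx K j * b) + D (xx K j) * D (xx K i * b) -
      (D (xx K i) * D (xx K j) - D (xx K i * xx K j)) * D b - D (xx K i * xx K j * b) := by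
    rw [← h1]
    abel
  rw [h2]
  have hx : ∀ i : Fin n, D (xx K i) ∈ Algebra.adjoin K (gens D) := by
    intro i
    refine Algebra.subset_adjoin (Or.inl ⟨[i], ?_, ?_⟩)
    · exact (List.sortedLT_iff_pairwise.2 (by simp))
    · rw [TSys2_cons, TSys2_nil, mul_one]
  have hlen : (v ++ u).length + 2 = L := by
    rw [List.length_append]
    omega
  have hxb : ∀ i : Fin n, D (xx K i * b) ∈ Algebra.adjoin K (gens D) := by
    intro i
    rw [hb, ← TSys2_cons]
    apply ih _ (List.cons_ne_nil _ _)
    rw [List.length_cons]
    omega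
  have hDb : D b ∈ Algebra.adjoin K (gens D) := by
    rw [hb]
    apply ih _ huv
    omega
  exact sub_mem (sub_mem (add_mem (mul_mem (hx i) (hxb j)) (mul_mem (hx j) (hxb i)))
    (mul_mem (sub_mem (mul_mem (hx i) (hx j)) (TSys2_two T i j)) hDb)) h

/-- Permutation of the letters. -/
theorem TSys2_perm (T : TSys K n D R g) (L : ℕ) (hL3 : 3 ≤ L)
    (ih : ∀ l : List (Fin n), l ≠ [] → l.length < L → D (mon K l) ∈ Algebra.adjoin K (gens D))
    {l l' : List (Fin n)} (hp : l.Perm l') : ∀ u : List (Fin n), u.length + l.length = L →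
    D (mon K (u ++ l)) ∈ Algebra.adjoin K (gens D) →
    D (mon K (u ++ l')) ∈ Algebra.adjoin K (gens D) := by
  induction hp with
  | nil => exact fun u _ h => h
  | cons x _ ih1 =>
    intro u hu h
    have h1 := ih1 (u ++ [x]) (by
      rw [List.length_append, List.length_singleton]
      rw [List.length_cons] at hu
      omega)
    rw [List.append_assoc, List.append_assoc] at h1
    exact h1 h
  | swap x y t =>
    intro u hu h
    rw [List.length_cons, List.length_cons] at hu
    refine TSys2_swap T L ih u t y x ?_ (by omega) h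
    intro h0
    rw [List.append_eq_nil_iff] at h0
    rw [h0.1, h0.2] at hu
    simp only [List.length_nil] at hu
    omega
  | trans h1 _ ih1 ih2 =>
    intro u hu h
    exact ih2 u (by rw [← h1.length_eq]; exact hu) (ih1 u hu h)

/-- A sorted list is strictly sorted or has equal neighbours. -/
theorem TSys2_sorted (l : List (Fin n)) (h : l.Pairwise (· ≤ ·)) :
    l.Pairwise (· < ·) ∨ ∃ (u v : List (Fin n)) (i : Fin n), l = u ++ i :: i :: v := by
  induction l with
  | nil => exact Or.inl List.Pairwise.nil
  | cons a t ih =>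
    rw [List.pairwise_cons] at h
    rcases ih h.2 with h1 | ⟨u, v, i, rfl⟩
    · cases t with
      | nil => exact Or.inl (by simp)
      | cons b t =>
        rcases (h.1 b List.mem_cons_self).eq_or_lt with h2 | h2
        · exact Or.inr ⟨[], t, a, by rw [h2]; rfl⟩
        · left
          rw [List.pairwise_cons]
          refine ⟨fun c hc => ?_, h1⟩
          rw [List.mem_cons] at hc
          rcases hc with rfl | hc
          · exact h2
          · exact h2.trans ((List.pairwise_cons.1 h1).1 c hc)
    · exact Or.inr ⟨a :: u, v, i, rfl⟩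

/-- The trace of every nonempty word is a polynomial in the `gens`.
PROOF. Let `Θ = Algebra.adjoin K (gens D)`. Strong induction on the length of `l`. `D (x_i x_j) ∈ Θ` for all `i, j` (`Dcyc`). Words of
length 1 are in `gens`. Length `≥ 3`, `u x_i x_j v` with `u v` nonempty: by `Dcyc` `D (u x_i x_j v) = D (x_i x_j (v u))`, and by
`Dch_lin` with `b = v u` and the induction hypothesis `D (x_i x_j v u) + D (x_j x_i v u) ∈ Θ`. So if two words of the same length
differ by an exchange of two neighbours and one trace is in `Θ`, so is the other; hence the same for permuted words (`List.Perm`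
induction, with an arbitrary prefix `u`: prove `∀ u, D (mon (u ++ l)) ∈ Θ ↔ D (mon (u ++ l')) ∈ Θ` for `l ~ l'`, `u ++ l` of
the given length). Take the sorted word (`List.mergeSort`, or insertion sort). If it has no equal neighbours it is `SortedLT`, in `gens`.
If it contains `x_i x_i`: `D (x_i x_i (v u)) = D x_i * D (x_i v u) - (1/2) (D x_i * D x_i - D (x_i x_i)) * D (v u) ∈ Θ` by `Dch` and the
induction hypothesis. -/
theorem D_word (T : TSys K n D R g) (l : List (Fin n)) (hl : l ≠ []) :
    D (mon K l) ∈ Algebra.adjoin K (gens D) := by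
  obtain ⟨L, hL⟩ : ∃ L, L = l.length := ⟨_, rfl⟩
  induction L using Nat.strong_induction_on generalizing l with
  | _ L ihL =>
    have ih : ∀ l : List (Fin n), l ≠ [] → l.length < L →
        D (mon K l) ∈ Algebra.adjoin K (gens D) := fun l' hl' hlt => ihL l'.length hlt l' hl' rfl
    by_cases hL3 : 3 ≤ L
    · obtain ⟨l', hl'⟩ : ∃ l', l' = l.insertionSort (· ≤ ·) := ⟨_, rfl⟩
      have hp : l'.Perm l := by
        rw [hl']
        exact List.perm_insertionSort _ l
      have hs : l'.Pairwise (· ≤ ·) := by
        rw [hl']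
        exact List.pairwise_insertionSort _ l
      have hlen : l'.length = L := by rw [hp.length_eq, hL]
      have h1 := TSys2_perm T L hL3 ih hp [] (by rw [List.length_nil, zero_add, hlen])
      rw [List.nil_append, List.nil_append] at h1
      apply h1
      rcases TSys2_sorted l' hs with h2 | ⟨u, v, i, h2⟩
      · exact Algebra.subset_adjoin (Or.inl ⟨l', List.sortedLT_iff_pairwise.2 h2, rfl⟩)
      · have hlen2 : (v ++ u).length + 2 = L := by
          rw [← hlen, h2]
          simp only [List.length_append, List.length_cons]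
          omega
        have huv : v ++ u ≠ [] := by
          intro h0
          rw [h0, List.length_nil] at hlen2
          omega
        obtain ⟨b, hb⟩ : ∃ b, b = mon K (v ++ u) := ⟨_, rfl⟩
        have hbA : b ∈ Aug K n := by
          rw [hb]
          exact TSys2_mem _ huv
        rw [h2, TSys2_rot T, List.cons_append, List.cons_append, TSys2_cons, TSys2_cons, ← hb,
          ← mul_assoc]
        have h3 := T.Dch (xx K i) (xx_mem_Aug K i) b hbA
        have h4 : D (xx K i * xx K i * b) = D (xx K i) * D (xx K i * b) -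
            (2⁻¹ : K) • ((D (xx K i) * D (xx K i) - D (xx K i * xx K i)) * D b) := by
          have h5 : D (xx K i * xx K i * b) = D (xx K i) * D (xx K i * b) -
            (2⁻¹ : K) • ((D (xx K i) * D (xx K i) - D (xx K i * xx K i)) * D b) +
            (D (xx K i * xx K i * b) - D (xx K i) * D (xx K i * b) +
              (2⁻¹ : K) • ((D (xx K i) * D (xx K i) - D (xx K i * xx K i)) * D b)) := by abel
          rw [h3, add_zero] at h5
          exact h5
        have hx : D (xx K i) ∈ Algebra.adjoin K (gens D) := by
          have := ih [i] (List.cons_ne_nil _ _) (by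
            rw [List.length_singleton]
            omega)
          rwa [TSys2_cons, TSys2_nil, mul_one] at this
        have hxb : D (xx K i * b) ∈ Algebra.adjoin K (gens D) := by
          rw [hb, ← TSys2_cons]
          apply ih _ (List.cons_ne_nil _ _)
          rw [List.length_cons]
          omega
        have hDb : D b ∈ Algebra.adjoin K (gens D) := by
          rw [hb]
          apply ih _ huv
          omega
        rw [h4]
        exact sub_mem (mul_mem hx hxb) (Subalgebra.smul_mem _
          (mul_mem (sub_mem (mul_mem hx hx) (TSys2_two T i i)) hDb) _)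
    · rw [hL] at hL3
      match l, hl, hL3 with
      | [i], _, _ =>
        exact Algebra.subset_adjoin (Or.inl ⟨[i], List.sortedLT_iff_pairwise.2 (by simp), rfl⟩)
      | [i, j], _, _ =>
        rw [TSys2_cons, TSys2_cons, TSys2_nil, mul_one]
        exact TSys2_two T i j
      | i :: j :: k :: t, _, h =>
        simp only [List.length_cons] at h
        omega

end TSys

end Pool.Agent.H.MP_f5ceca_al.BR
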